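import Mathlib
import Pool.Agent.Helper31.OrderAct

/-!
Pairs of commuting automorphisms of a complete linear order.
-/

set_option autoImplicit false

namespace Pool.Agent.Helper71.Glue

open Pool.Agent.Helper31.OrderAct

section Basic

variable {Ω : Type*} [CompleteLinearOrder Ω]

/-- A fixed point between a point which moves up and a larger point which moves down. -/
lemma fix_between {x : Ω ≃o Ω} {p q : Ω} (hpq : p ≤ q) (hp : p ≤ x p) (hq : x q ≤ q) :
    ∃ r, p ≤ r ∧ r ≤ q ∧ x r = r := by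
  let A : Set Ω := {t | t ≤ x t ∧ t ≤ q}
  have hA : p ∈ A := ⟨hp, hpq⟩
  refine ⟨sSup A, le_sSup hA, sSup_le (fun t ht => ht.2), ?_⟩
  have h1 : sSup A ≤ x (sSup A) := sSup_le (fun t ht => ht.1.trans (x.monotone (le_sSup ht)))
  have h2 : x (sSup A) ∈ A :=
    ⟨x.monotone h1, (x.monotone (sSup_le (fun t ht => ht.2))).trans hq⟩
  exact le_antisymm (le_sSup h2) h1

/-- An automorphism without fixed points in an invariant interval has constant sign there. -/
lemma const_sign {x : Ω ≃o Ω} {e f : Ω} (hx : ∀ t, e < t → t < f → x t ≠ t) :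
    (∀ t, e < t → t < f → t < x t) ∨ (∀ t, e < t → t < f → x t < t) := by
  by_contra hcon
  push Not at hcon
  obtain ⟨⟨p, hp1, hp2, hp3⟩, ⟨q, hq1, hq2, hq3⟩⟩ := hcon
  -- `x p ≤ p` and `q ≤ x q`
  rcases le_total q p with h | h
  · obtain ⟨r, hr1, hr2, hr3⟩ := fix_between h hq3 hp3
    exact hx r (hq1.trans_le hr1) (hr2.trans_lt hp2) hr3
  · have h1 : p ≤ x⁻¹ p := inv_ge_of_le hp3
    have h2 : x⁻¹ q ≤ q := inv_le_of_ge hq3
    obtain ⟨r, hr1, hr2, hr3⟩ := fix_between h h1 h2
    refine hx r (hp1.trans_le hr1) (hr2.trans_lt hq2) ?_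
    have := congrArg (⇑x) hr3
    rw [RelIso.apply_inv_self] at this
    exact this.symm

end Basic

section Pair

variable {Ω : Type*} [CompleteLinearOrder Ω] {u v : Ω ≃o Ω}

/-- The group generated by the pair. -/
def H (u v : Ω ≃o Ω) : Subgroup (Ω ≃o Ω) := Subgroup.closure {u, v}

lemma u_mem : u ∈ H u v := Subgroup.subset_closure (by simp)

lemma v_mem : v ∈ H u v := Subgroup.subset_closure (by simp)

lemma H_comm (huv : u * v = v * u) {g : Ω ≃o Ω} (hg : g ∈ H u v) :
    g * u = u * g ∧ g * v = v * g := by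
  have h : H u v ≤ Subgroup.centralizer {u, v} := by
    rw [H, Subgroup.closure_le]
    rintro w (rfl | rfl)
    · rw [SetLike.mem_coe, Subgroup.mem_centralizer_iff]
      rintro z (rfl | rfl)
      · rfl
      · exact huv.symm
    · rw [SetLike.mem_coe, Subgroup.mem_centralizer_iff]
      rintro z (rfl | rfl)
      · exact huv
      · rfl
  have h1 := Subgroup.mem_centralizer_iff.mp (h hg)
  exact ⟨(h1 u (by simp)).symm, (h1 v (by simp)).symm⟩

lemma H_fix {s : Ω} (hu : u s = s) (hv : v s = s) {g : Ω ≃o Ω} (hg : g ∈ H u v) : g s = s := by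
  induction hg using Subgroup.closure_induction with
  | mem w hw =>
    rcases hw with rfl | rfl
    · exact hu
    · exact hv
  | one => rfl
  | mul a b _ _ ha hb => rw [RelIso.mul_apply, hb, ha]
  | inv a _ ha =>
    conv_lhs => rw [← ha]
    rw [RelIso.inv_apply_self]

/-- The upper end of the orbit. -/
noncomputable def top (u v : Ω ≃o Ω) (s : Ω) : Ω := ⨆ g : H u v, (g : Ω ≃o Ω) s

/-- The lower end of the orbit. -/
noncomputable def bot (u v : Ω ≃o Ω) (s : Ω) : Ω := ⨅ g : H u v, (g : Ω ≃o Ω) s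

lemma H_top {s : Ω} {h : Ω ≃o Ω} (hh : h ∈ H u v) : h (top u v s) = top u v s := by
  have h1 : ∀ h ∈ H u v, h (top u v s) ≤ top u v s := by
    intro h hh
    rw [top, h.map_iSup]
    apply iSup_le
    intro g
    exact le_iSup (fun g : H u v => (g : Ω ≃o Ω) s) ⟨h * g, mul_mem hh g.2⟩
  apply le_antisymm (h1 h hh)
  have h2 := h.monotone (h1 h⁻¹ (inv_mem hh))
  rwa [RelIso.apply_inv_self] at h2

lemma H_bot {s : Ω} {h : Ω ≃o Ω} (hh : h ∈ H u v) : h (bot u v s) = bot u v s := by
  have h1 : ∀ h ∈ H u v, bot u v s ≤ h (bot u v s) := by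
    intro h hh
    rw [bot, h.map_iInf]
    apply le_iInf
    intro g
    exact iInf_le (fun g : H u v => (g : Ω ≃o Ω) s) ⟨h * g, mul_mem hh g.2⟩
  apply le_antisymm _ (h1 h hh)
  have h2 := h.monotone (h1 h⁻¹ (inv_mem hh))
  rwa [RelIso.apply_inv_self] at h2

lemma le_top' {s : Ω} {h : Ω ≃o Ω} (hh : h ∈ H u v) : h s ≤ top u v s :=
  le_iSup (fun g : H u v => (g : Ω ≃o Ω) s) ⟨h, hh⟩

lemma bot_le' {s : Ω} {h : Ω ≃o Ω} (hh : h ∈ H u v) : bot u v s ≤ h s :=
  iInf_le (fun g : H u v => (g : Ω ≃o Ω) s) ⟨h, hh⟩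

lemma lt_top_of {s : Ω} (h3 : ¬ (u s = s ∧ v s = s)) : bot u v s < s ∧ s < top u v s := by
  have key : ∀ g ∈ H u v, g s ≠ s → bot u v s < s ∧ s < top u v s := by
    intro g hg hne
    rcases lt_or_gt_of_ne hne with h | h
    · exact ⟨(bot_le' hg).trans_lt h, (inv_gt_of_lt h).trans_le (le_top' (inv_mem hg))⟩
    · exact ⟨(bot_le' (inv_mem hg)).trans_lt (inv_lt_of_gt h), h.trans_le (le_top' hg)⟩
  by_cases hu : u s = s
  · exact key v v_mem (fun hv => h3 ⟨hu, hv⟩)
  · exact key u u_mem hu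

/-- If the orbit of a fixed point `t'` of `u` under powers of `v` stays below `s` although it
moves up, then the orbit of `s` does not come below it. -/
lemma pow_sup (huv : u * v = v * u) {s t : Ω} (hb : bot u v s < t) (hu : u t = t)
    (hv : t < v t) : ∃ n : ℕ, s < (v ^ n) t := by
  by_contra hcon
  push Not at hcon
  let q : Ω := ⨆ n : ℕ, (v ^ n) t
  have hq : q ≤ s := iSup_le hcon
  have huq : u q = q := by
    change u (⨆ n : ℕ, (v ^ n) t) = ⨆ n : ℕ, (v ^ n) t
    rw [u.map_iSup]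
    congr 1
    funext n
    have h1 : u * v ^ n = v ^ n * u := ((show Commute u v from huv).pow_right n).eq
    have h2 : u ((v ^ n) t) = (v ^ n) (u t) := by
      rw [← RelIso.mul_apply, h1, RelIso.mul_apply]
    rw [h2, hu]
  have hvq : v q = q := by
    apply le_antisymm
    · change v (⨆ n : ℕ, (v ^ n) t) ≤ _
      rw [v.map_iSup]
      apply iSup_le
      intro n
      rw [← RelIso.mul_apply, ← pow_succ']
      exact le_iSup (fun n : ℕ => (v ^ n) t) (n + 1)
    · apply iSup_le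
      intro n
      have h1 : (v ^ n) t ≤ (v ^ (n + 1)) t := by
        rw [pow_succ, RelIso.mul_apply]
        exact (v ^ n).monotone hv.le
      refine h1.trans ?_
      rw [pow_succ', RelIso.mul_apply]
      exact v.monotone (le_iSup (fun n : ℕ => (v ^ n) t) n)
  have h1 : q ≤ bot u v s := by
    apply le_iInf
    intro g
    have := (g : Ω ≃o Ω).monotone hq
    rwa [H_fix huq hvq g.2] at this
  have h2 : t ≤ q := le_iSup (fun n : ℕ => (v ^ n) t) 0
  exact absurd (hb.trans_le (h2.trans h1)) (lt_irrefl _)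

lemma pow_inf (huv : u * v = v * u) {s t : Ω} (hb : t < top u v s) (hu : u t = t)
    (hv : v t < t) : ∃ n : ℕ, (v ^ n) t < s := by
  by_contra hcon
  push Not at hcon
  let q : Ω := ⨅ n : ℕ, (v ^ n) t
  have hq : s ≤ q := le_iInf hcon
  have huq : u q = q := by
    change u (⨅ n : ℕ, (v ^ n) t) = ⨅ n : ℕ, (v ^ n) t
    rw [u.map_iInf]
    congr 1
    funext n
    have h1 : u * v ^ n = v ^ n * u := ((show Commute u v from huv).pow_right n).eq
    have h2 : u ((v ^ n) t) = (v ^ n) (u t) := by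
      rw [← RelIso.mul_apply, h1, RelIso.mul_apply]
    rw [h2, hu]
  have hvq : v q = q := by
    apply le_antisymm
    · apply le_iInf
      intro n
      have h1 : (v ^ (n + 1)) t ≤ (v ^ n) t := by
        rw [pow_succ, RelIso.mul_apply]
        exact (v ^ n).monotone hv.le
      refine le_trans ?_ h1
      rw [pow_succ', RelIso.mul_apply]
      exact v.monotone (iInf_le (fun n : ℕ => (v ^ n) t) n)
    · change _ ≤ v (⨅ n : ℕ, (v ^ n) t)
      rw [v.map_iInf]
      apply le_iInf
      intro n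
      rw [← RelIso.mul_apply, ← pow_succ']
      exact iInf_le (fun n : ℕ => (v ^ n) t) (n + 1)
  have h1 : top u v s ≤ q := by
    apply iSup_le
    intro g
    have := (g : Ω ≃o Ω).monotone hq
    rwa [H_fix huq hvq g.2] at this
  have h2 : q ≤ t := iInf_le (fun n : ℕ => (v ^ n) t) 0
  exact absurd (hb.trans_le (h1.trans h2)) (lt_irrefl _)

/-- First half of the pair lemma: `u` has no fixed point in the hull of the orbit. -/
lemma free_u (huv : u * v = v * u) {a b c d : ℕ} (hb : 0 < b) (hd : 0 < d) {s : Ω}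
    (h1 : s ≤ (u ^ a * v ^ b) s) (h2 : (u ^ c * v ^ d) s ≤ s) {t : Ω}
    (ht1 : bot u v s < t) (ht2 : t < top u v s) : u t ≠ t := by
  intro hut
  -- translates of `t` below and above `s`
  obtain ⟨⟨g2, hg2⟩, hlt2⟩ := lt_iSup_iff.mp ht2
  obtain ⟨⟨g1, hg1⟩, hlt1⟩ := iInf_lt_iff.mp ht1
  change t < g2 s at hlt2
  change g1 s < t at hlt1
  have trans_fix : ∀ g ∈ H u v, u (g t) = g t := by
    intro g hg
    rw [← RelIso.mul_apply, ← (H_comm huv hg).1, RelIso.mul_apply, hut]
  have in_int : ∀ g ∈ H u v, bot u v s < g t ∧ g t < top u v s := by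
    intro g hg
    constructor
    · have := g.strictMono ht1
      rwa [H_bot hg] at this
    · have := g.strictMono ht2
      rwa [H_top hg] at this
  have low : g2⁻¹ t < s := by
    have := (g2⁻¹).strictMono hlt2
    rwa [RelIso.inv_apply_self] at this
  have high : s < g1⁻¹ t := by
    have := (g1⁻¹).strictMono hlt1
    rwa [RelIso.inv_apply_self] at this
  have hcomm : ∀ (i j n : ℕ), (u ^ i * v ^ j) ^ n = u ^ (i * n) * v ^ (j * n) := by
    intro i j n
    have hc : Commute (u ^ i) (v ^ j) := (show Commute u v from huv).pow_pow i j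
    rw [hc.mul_pow, pow_mul, pow_mul]
  have ufix : ∀ (k : ℕ) (p : Ω), u p = p → (u ^ k) p = p := by
    intro k p hp
    induction k with
    | zero => rfl
    | succ k ih => rw [pow_succ, RelIso.mul_apply, hp, ih]
  rcases lt_trichotomy (v t) t with hv | hv | hv
  · -- `v` moves the orbit of `t` down
    let p := g1⁻¹ t
    have hup : u p = p := trans_fix _ (inv_mem hg1)
    have hvp : v p < p := by
      change v (g1⁻¹ t) < g1⁻¹ t
      rw [← RelIso.mul_apply, ← (H_comm huv (inv_mem hg1)).2, RelIso.mul_apply]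
      exact (g1⁻¹).strictMono hv
    obtain ⟨n, hn⟩ := pow_inf huv (s := s) (in_int _ (inv_mem hg1)).2 hup hvp
    have e1 : s ≤ ((u ^ a * v ^ b) ^ n) s := pow_ge h1 n
    have e2 : ((u ^ a * v ^ b) ^ n) s ≤ ((u ^ a * v ^ b) ^ n) p :=
      ((u ^ a * v ^ b) ^ n).monotone high.le
    have e3 : ((u ^ a * v ^ b) ^ n) p = (v ^ (b * n)) p := by
      have hc : Commute (u ^ (a * n)) (v ^ (b * n)) :=
        (show Commute u v from huv).pow_pow _ _
      rw [hcomm, hc.eq, RelIso.mul_apply, ufix _ _ hup]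
    have e4 : (v ^ (b * n)) p ≤ (v ^ n) p := by
      obtain ⟨b', rfl⟩ : ∃ b', b = b' + 1 := ⟨b - 1, by omega⟩
      have : (b' + 1) * n = n + b' * n := by ring
      rw [this, pow_add, RelIso.mul_apply]
      exact (v ^ n).monotone (pow_le hvp.le _)
    rw [e3] at e2
    exact absurd (e1.trans (e2.trans e4)) (not_le.mpr hn)
  · -- `t` is fixed by everything
    have hfix : ∀ g ∈ H u v, g t = t := fun g hg => H_fix hut hv hg
    rw [hfix _ (inv_mem hg2)] at low
    rw [hfix _ (inv_mem hg1)] at high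
    exact absurd (low.trans high) (lt_irrefl _)
  · let p := g2⁻¹ t
    have hup : u p = p := trans_fix _ (inv_mem hg2)
    have hvp : p < v p := by
      change g2⁻¹ t < v (g2⁻¹ t)
      rw [← RelIso.mul_apply, ← (H_comm huv (inv_mem hg2)).2, RelIso.mul_apply]
      exact (g2⁻¹).strictMono hv
    obtain ⟨n, hn⟩ := pow_sup huv (s := s) (in_int _ (inv_mem hg2)).1 hup hvp
    have e1 : ((u ^ c * v ^ d) ^ n) s ≤ s := pow_le h2 n
    have e2 : ((u ^ c * v ^ d) ^ n) p ≤ ((u ^ c * v ^ d) ^ n) s :=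
      ((u ^ c * v ^ d) ^ n).monotone low.le
    have e3 : ((u ^ c * v ^ d) ^ n) p = (v ^ (d * n)) p := by
      have hc : Commute (u ^ (c * n)) (v ^ (d * n)) :=
        (show Commute u v from huv).pow_pow _ _
      rw [hcomm, hc.eq, RelIso.mul_apply, ufix _ _ hup]
    have e4 : (v ^ n) p ≤ (v ^ (d * n)) p := by
      obtain ⟨d', rfl⟩ : ∃ d', d = d' + 1 := ⟨d - 1, by omega⟩
      have : (d' + 1) * n = n + d' * n := by ring
      rw [this, pow_add, RelIso.mul_apply]
      exact (v ^ n).monotone (pow_ge hvp.le _)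
    rw [e3] at e2
    exact absurd (e4.trans (e2.trans e1)) (not_le.mpr hn)

lemma H_swap : H v u = H u v := by
  rw [H, H, Set.pair_comm]

lemma top_swap (s : Ω) : top v u s = top u v s := by
  unfold top
  apply le_antisymm
  · apply iSup_le
    rintro ⟨g, hg⟩
    exact le_iSup (fun g : H u v => (g : Ω ≃o Ω) s) ⟨g, by rw [← H_swap]; exact hg⟩
  · apply iSup_le
    rintro ⟨g, hg⟩
    exact le_iSup (fun g : H v u => (g : Ω ≃o Ω) s) ⟨g, by rw [H_swap]; exact hg⟩

lemma bot_swap (s : Ω) : bot v u s = bot u v s := by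
  unfold bot
  apply le_antisymm
  · apply le_iInf
    rintro ⟨g, hg⟩
    exact iInf_le (fun g : H v u => (g : Ω ≃o Ω) s) ⟨g, by rw [H_swap]; exact hg⟩
  · apply le_iInf
    rintro ⟨g, hg⟩
    exact iInf_le (fun g : H u v => (g : Ω ≃o Ω) s) ⟨g, by rw [← H_swap]; exact hg⟩

/-- The pair lemma.  If two positive words in the commuting automorphisms `u`, `v` do not move
`s` in the same direction, then `u` and `v` act freely and in opposite directions on the hull of
the orbit of `s`, whose ends they fix. -/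
theorem pair_lemma (huv : u * v = v * u) {a b c d : ℕ} (ha : 0 < a) (hb : 0 < b) (hc : 0 < c)
    (hd : 0 < d) {s : Ω} (h1 : s ≤ (u ^ a * v ^ b) s) (h2 : (u ^ c * v ^ d) s ≤ s)
    (h3 : ¬ (u s = s ∧ v s = s)) :
    ∃ e f : Ω, e < s ∧ s < f ∧ u e = e ∧ v e = e ∧ u f = f ∧ v f = f ∧
      ((∀ t, e < t → t < f → t < u t ∧ v t < t) ∨
        (∀ t, e < t → t < f → u t < t ∧ t < v t)) := by
  obtain ⟨hs1, hs2⟩ := lt_top_of h3
  refine ⟨bot u v s, top u v s, hs1, hs2, H_bot u_mem, H_bot v_mem, H_top u_mem, H_top v_mem, ?_⟩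
  have hu : ∀ t, bot u v s < t → t < top u v s → u t ≠ t := fun t ht1 ht2 =>
    free_u huv hb hd h1 h2 ht1 ht2
  have hv : ∀ t, bot u v s < t → t < top u v s → v t ≠ t := by
    intro t ht1 ht2
    have c1 : Commute (u ^ a) (v ^ b) := (show Commute u v from huv).pow_pow _ _
    have c2 : Commute (u ^ c) (v ^ d) := (show Commute u v from huv).pow_pow _ _
    rw [c1.eq] at h1
    rw [c2.eq] at h2
    rw [← bot_swap] at ht1
    rw [← top_swap] at ht2
    exact free_u huv.symm ha hc h1 h2 ht1 ht2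
  have key : ∀ (w : Ω ≃o Ω) (k : ℕ), 0 < k → s < w s → s < (w ^ k) s := fun w k hk hw =>
    pow_gt hw hk
  have key' : ∀ (w : Ω ≃o Ω) (k : ℕ), 0 < k → w s < s → (w ^ k) s < s := fun w k hk hw =>
    pow_lt hw hk
  rcases const_sign hu with su | su <;> rcases const_sign hv with sv | sv
  · exfalso
    have e1 : s < (v ^ d) s := key v d hd (sv s hs1 hs2)
    have e2 : s < (u ^ c) s := key u c hc (su s hs1 hs2)
    have e3 : (u ^ c) s < (u ^ c) ((v ^ d) s) := (u ^ c).strictMono e1
    exact absurd (e2.trans e3) (not_lt.mpr h2)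
  · left
    exact fun t ht1 ht2 => ⟨su t ht1 ht2, sv t ht1 ht2⟩
  · right
    exact fun t ht1 ht2 => ⟨su t ht1 ht2, sv t ht1 ht2⟩
  · exfalso
    have e1 : (v ^ b) s < s := key' v b hb (sv s hs1 hs2)
    have e2 : (u ^ a) s < s := key' u a ha (su s hs1 hs2)
    have e3 : (u ^ a) ((v ^ b) s) < (u ^ a) s := (u ^ a).strictMono e1
    exact absurd (e3.trans e2) (not_lt.mpr h1)

end Pair

end Pool.Agent.Helper71.Glue
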