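import Mathlib
import Pool.Agent.Helper31.TwistChain
import Pool.Agent.Helper71.Glue

/-!
Closed chains of twists on a once-punctured torus in which the meridians of the surgery curves
only obey a sign rule; the sign rule obeyed by the boundary of the fibre.
-/

set_option autoImplicit false

namespace Pool.Agent.Helper71.TwistTree

open Pool.Agent.Helper31.OrderAct
open Pool.Agent.Helper31.TwistChain (cj rot bd rot_rot bd_rot rot_four cj_cj cj_one rot_cj
  dualHom mp mp_rot mp_cj mp_bd)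

section Rule

variable {Ω : Type*} [LinearOrder Ω]

/-- `m` commutes with `a` and moves weakly in the direction of `a`, and is fixed where `a` is. -/
def SR (m a : Ω ≃o Ω) : Prop :=
  m * a = a * m ∧ ∀ s : Ω, (s ≤ a s → s ≤ m s) ∧ (a s ≤ s → m s ≤ s)

theorem SR.conj {m a : Ω ≃o Ω} (h : SR m a) (g : Ω ≃o Ω) :
    SR (g * m * g⁻¹) (g * a * g⁻¹) := by
  obtain ⟨hc, hs⟩ := h
  refine ⟨?_, ?_⟩
  · have e1 : g * m * g⁻¹ * (g * a * g⁻¹) = g * (m * a) * g⁻¹ := by group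
    have e2 : g * a * g⁻¹ * (g * m * g⁻¹) = g * (a * m) * g⁻¹ := by group
    rw [e1, e2, hc]
  · intro s
    refine ⟨fun h1 => ?_, fun h1 => ?_⟩
    · have h1' : s ≤ g (a (g⁻¹ s)) := h1
      have h2 : g⁻¹ s ≤ a (g⁻¹ s) := by
        have := (g⁻¹).monotone h1'
        rwa [RelIso.inv_apply_self] at this
      have h3 := g.monotone ((hs _).1 h2)
      rw [RelIso.apply_inv_self] at h3
      exact h3
    · have h1' : g (a (g⁻¹ s)) ≤ s := h1
      have h2 : a (g⁻¹ s) ≤ g⁻¹ s := by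
        have := (g⁻¹).monotone h1'
        rwa [RelIso.inv_apply_self] at this
      have h3 := g.monotone ((hs _).2 h2)
      rw [RelIso.apply_inv_self] at h3
      exact h3

theorem SR.inv {m a : Ω ≃o Ω} (h : SR m a) : SR m⁻¹ a⁻¹ := by
  obtain ⟨hc, hs⟩ := h
  refine ⟨?_, ?_⟩
  · rw [← mul_inv_rev, ← mul_inv_rev, hc]
  · intro s
    refine ⟨fun h1 => ?_, fun h1 => ?_⟩
    · have h2 : a s ≤ s := by
        have := a.monotone h1
        rwa [RelIso.apply_inv_self] at this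
      exact inv_ge_of_le ((hs s).2 h2)
    · have h2 : s ≤ a s := by
        have := a.monotone h1
        rwa [RelIso.apply_inv_self] at this
      exact inv_le_of_ge ((hs s).1 h2)

theorem SR.dual {m a : Ω ≃o Ω} (h : SR m a) :
    SR (Ω := Ωᵒᵈ) (dualHom m) (dualHom a) := by
  refine ⟨?_, ?_⟩
  · rw [← map_mul, ← map_mul, h.1]
  · intro s
    exact ⟨(h.2 s).2, (h.2 s).1⟩

theorem SR.of_pow {m a : Ω ≃o Ω} (hc : m * a = a * m) {u v : ℕ} (hu : 0 < u)
    (h : m ^ u = a ^ v) : SR m a := by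
  refine ⟨hc, fun s => ⟨fun h1 => ?_, fun h1 => ?_⟩⟩
  · apply of_pow_ge hu
    rw [h]
    exact pow_ge h1 v
  · apply of_pow_le hu
    rw [h]
    exact pow_le h1 v

theorem SR.fix {m a : Ω ≃o Ω} (h : SR m a) {s : Ω} (ha : a s = s) : m s = s :=
  le_antisymm ((h.2 s).2 ha.le) ((h.2 s).1 ha.ge)

end Rule

section Chain

variable {Ω : Type*} [LinearOrder Ω]

/-- A twist obeying the sign rule, acting on the pair of generators of the fibre group. -/
inductive Step : (Ω ≃o Ω) × (Ω ≃o Ω) → (Ω ≃o Ω) × (Ω ≃o Ω) → Prop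
  | twistA (a b m : Ω ≃o Ω) : SR m a → Step (a, b) (a, b * m)
  | twistB (a b k : Ω ≃o Ω) : SR k b → Step (a, b) (a * k, b)

/-- A finite composition of twists. -/
def Chain (p q : (Ω ≃o Ω) × (Ω ≃o Ω)) : Prop := Relation.ReflTransGen Step p q

theorem Step.cj {p q : (Ω ≃o Ω) × (Ω ≃o Ω)} (h : Step p q) (g : Ω ≃o Ω) :
    Step (cj g p) (cj g q) := by
  cases h with
  | twistA a b m hm =>
    have := Step.twistA (g * a * g⁻¹) (g * b * g⁻¹) (g * m * g⁻¹) (hm.conj g)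
    have e : g * b * g⁻¹ * (g * m * g⁻¹) = g * (b * m) * g⁻¹ := by group
    rw [e] at this
    exact this
  | twistB a b k hk =>
    have := Step.twistB (g * a * g⁻¹) (g * b * g⁻¹) (g * k * g⁻¹) (hk.conj g)
    have e : g * a * g⁻¹ * (g * k * g⁻¹) = g * (a * k) * g⁻¹ := by group
    rw [e] at this
    exact this

theorem Chain.cj {p q : (Ω ≃o Ω) × (Ω ≃o Ω)} (h : Chain p q) (g : Ω ≃o Ω) :
    Chain (cj g p) (cj g q) := by
  induction h with
  | refl => exact Relation.ReflTransGen.refl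
  | tail _ hbc ih => exact ih.tail (hbc.cj g)

theorem Step.rot {p q : (Ω ≃o Ω) × (Ω ≃o Ω)} (h : Step p q) : Step (rot q) (rot p) := by
  cases h with
  | twistA a b m hm =>
    have e1 : b * m * a * (b * m)⁻¹ = b * a * b⁻¹ := by
      have : b * m * a * (b * m)⁻¹ = b * (m * a) * m⁻¹ * b⁻¹ := by group
      rw [this, hm.1]
      group
    have h1 := Step.twistB ((b * m)⁻¹) (b * a * b⁻¹) (b * m * b⁻¹) (hm.conj b)
    have e2 : (b * m)⁻¹ * (b * m * b⁻¹) = b⁻¹ := by group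
    rw [e2] at h1
    change Step ((b * m)⁻¹, b * m * a * (b * m)⁻¹) (b⁻¹, b * a * b⁻¹)
    rw [e1]
    exact h1
  | twistB a b k hk =>
    have e1 : b * (a * k) * b⁻¹ = b * a * b⁻¹ * k := by
      have h2 : k * b⁻¹ = b⁻¹ * k := by
        have := hk.1
        exact (Commute.inv_right (this : Commute k b) : Commute k b⁻¹)
      have : b * (a * k) * b⁻¹ = b * a * (k * b⁻¹) := by group
      rw [this, h2]
      group
    have h1 := Step.twistA (b⁻¹) (b * (a * k) * b⁻¹) (k⁻¹) hk.inv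
    have e2 : b * (a * k) * b⁻¹ * k⁻¹ = b * a * b⁻¹ := by rw [e1]; group
    rw [e2] at h1
    exact h1

theorem Chain.rot {p q : (Ω ≃o Ω) × (Ω ≃o Ω)} (h : Chain p q) : Chain (rot q) (rot p) := by
  induction h with
  | refl => exact Relation.ReflTransGen.refl
  | tail _ hbc ih => exact Relation.ReflTransGen.head hbc.rot ih

theorem Step.dual {p q : (Ω ≃o Ω) × (Ω ≃o Ω)} (h : Step p q) :
    Step (Ω := Ωᵒᵈ) (mp dualHom p) (mp dualHom q) := by
  cases h with
  | twistA a b m hm =>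
    have := Step.twistA (dualHom a) (dualHom b) (dualHom m) hm.dual
    rw [← map_mul] at this
    exact this
  | twistB a b k hk =>
    have := Step.twistB (dualHom a) (dualHom b) (dualHom k) hk.dual
    rw [← map_mul] at this
    exact this

theorem Chain.dual {p q : (Ω ≃o Ω) × (Ω ≃o Ω)} (h : Chain p q) :
    Chain (Ω := Ωᵒᵈ) (mp dualHom p) (mp dualHom q) := by
  induction h with
  | refl => exact Relation.ReflTransGen.refl
  | tail _ hbc ih => exact ih.tail hbc.dual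

/-- The closing condition. -/
structure Closed (p : (Ω ≃o Ω) × (Ω ≃o Ω)) (t : Ω ≃o Ω) : Prop where
  chain : Chain p (Helper31.TwistChain.cj t⁻¹ (Helper31.TwistChain.rot
    (Helper31.TwistChain.rot p)))
  comm : t * bd p = bd p * t

theorem Closed.dual {p : (Ω ≃o Ω) × (Ω ≃o Ω)} {t : Ω ≃o Ω} (h : Closed p t) :
    Closed (Ω := Ωᵒᵈ) (mp dualHom p) (dualHom t) := by
  refine ⟨?_, ?_⟩
  · have := h.chain.dual
    rw [mp_cj, mp_rot, mp_rot, map_inv] at this
    exact this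
  · rw [← mp_bd, ← map_mul, ← map_mul, h.comm]

theorem Closed.lower {p : (Ω ≃o Ω) × (Ω ≃o Ω)} {t : Ω ≃o Ω} (h : Closed p t) :
    Chain (Helper31.TwistChain.cj (t * bd p) (Helper31.TwistChain.rot
      (Helper31.TwistChain.rot p))) p := by
  have h1 := ((h.chain.rot).rot).cj (t * bd p)
  have e : Helper31.TwistChain.cj (t * bd p) (Helper31.TwistChain.rot
      (Helper31.TwistChain.rot (Helper31.TwistChain.cj t⁻¹ (Helper31.TwistChain.rot
        (Helper31.TwistChain.rot p))))) = p := by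
    rw [rot_cj, rot_cj, rot_four, cj_cj, cj_cj, h.comm]
    have : bd p * t * (t⁻¹ * (bd p)⁻¹) = 1 := by group
    have e2 : bd p * t * t⁻¹ * (bd p)⁻¹ = 1 := by group
    first
      | rw [this, cj_one]
      | rw [e2, cj_one]
  rw [e] at h1
  exact h1

theorem Closed.rot {p : (Ω ≃o Ω) × (Ω ≃o Ω)} {t : Ω ≃o Ω} (h : Closed p t) :
    Closed (Helper31.TwistChain.rot p) (t * bd p)⁻¹ := by
  refine ⟨?_, ?_⟩
  · rw [inv_inv]
    have h1 := h.lower.rot
    rw [rot_cj] at h1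
    exact h1
  · rw [bd_rot]
    have hc : Commute t (bd p) := h.comm
    have : Commute (t * bd p) (bd p) := Commute.mul_left hc (Commute.refl _)
    exact this.inv_left

theorem Chain.pp {p q : (Ω ≃o Ω) × (Ω ≃o Ω)} (h : Chain p q) {s : Ω} (h1 : s ≤ p.1 s)
    (h2 : s ≤ p.2 s) : s ≤ q.1 s ∧ s ≤ q.2 s := by
  induction h with
  | refl => exact ⟨h1, h2⟩
  | tail _ hbc ih =>
    cases hbc with
    | twistA a b m hm =>
      exact ⟨ih.1, ih.2.trans (b.monotone ((hm.2 s).1 ih.1))⟩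
    | twistB a b k hk =>
      exact ⟨ih.1.trans (a.monotone ((hk.2 s).1 ih.2)), ih.2⟩

theorem Chain.np {p q : (Ω ≃o Ω) × (Ω ≃o Ω)} (h : Chain p q) {s : Ω} (h1 : q.1 s ≤ s)
    (h2 : s ≤ q.2 s) : p.1 s ≤ s ∧ s ≤ p.2 s := by
  induction h using Relation.ReflTransGen.head_induction_on with
  | refl => exact ⟨h1, h2⟩
  | head hab _ ih =>
    cases hab with
    | twistA a b m hm =>
      refine ⟨ih.1, ?_⟩
      have h3 : (b * m) s ≤ (b * m) (m⁻¹ s) :=
        (b * m).monotone (inv_ge_of_le ((hm.2 s).2 ih.1))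
      rw [RelIso.mul_apply (b) (m) (m⁻¹ s), RelIso.apply_inv_self] at h3
      exact ih.2.trans h3
    | twistB a b k hk =>
      refine ⟨?_, ih.2⟩
      have h3 : (a * k) (k⁻¹ s) ≤ (a * k) s :=
        (a * k).monotone (inv_le_of_ge ((hk.2 s).1 ih.2))
      rw [RelIso.mul_apply, RelIso.apply_inv_self] at h3
      exact h3.trans ih.1

end Chain

section Fix

variable {Ω : Type*} [LinearOrder Ω]

/-- At the point `s`, `t` and `t'` do not move in the same strict direction. -/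
def OppAt (t t' : Ω ≃o Ω) (s : Ω) : Prop :=
  (t s ≤ s ∨ t' s ≤ s) ∧ (s ≤ t s ∨ s ≤ t' s)

theorem OppAt.inv {t t' : Ω ≃o Ω} {s : Ω} (h : OppAt t t' s) : OppAt t'⁻¹ t⁻¹ s := by
  refine ⟨?_, ?_⟩
  · rcases h.2 with h1 | h1
    · exact Or.inr (inv_le_of_ge h1)
    · exact Or.inl (inv_le_of_ge h1)
  · rcases h.1 with h1 | h1
    · exact Or.inr (inv_ge_of_le h1)
    · exact Or.inl (inv_ge_of_le h1)

theorem Closed.fwd {a b t : Ω ≃o Ω} (h : Closed (a, b) t) {s : Ω} (h1 : s ≤ a s)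
    (h2 : s ≤ b s) : b⁻¹ (t s) ≤ a⁻¹ (b⁻¹ (t s)) := by
  have h3 := (h.chain.pp h1 h2).1
  have h4 : s ≤ (t⁻¹ * (b * a⁻¹ * b⁻¹) * t⁻¹⁻¹) s := h3
  rw [inv_inv] at h4
  have h5 : s ≤ t⁻¹ (b (a⁻¹ (b⁻¹ (t s)))) := h4
  have h6 : t s ≤ b (a⁻¹ (b⁻¹ (t s))) := by
    have := t.monotone h5
    rwa [RelIso.apply_inv_self] at this
  have := (b⁻¹).monotone h6
  rwa [RelIso.inv_apply_self] at this

theorem Closed.bwd {a b t : Ω ≃o Ω} (h : Closed (a, b) t) {s : Ω} (h1 : a s ≤ s)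
    (h2 : s ≤ b s) : b (a⁻¹ (t⁻¹ s)) ≤ a⁻¹ (t⁻¹ s) := by
  have h3 := (h.lower.np h1 h2).2
  have e : t * bd (a, b) * (b * a * b⁻¹ * (b * a)⁻¹) * (t * bd (a, b))⁻¹ =
      t * (a * b⁻¹ * a⁻¹) * t⁻¹ := by
    simp only [bd]
    group
  have h4 : s ≤ (t * bd (a, b) * (b * a * b⁻¹ * (b * a)⁻¹) * (t * bd (a, b))⁻¹) s := by
    rw [rot_rot] at h3
    exact h3
  rw [e] at h4
  have h5 : s ≤ t (a (b⁻¹ (a⁻¹ (t⁻¹ s)))) := h4
  have h6 : t⁻¹ s ≤ a (b⁻¹ (a⁻¹ (t⁻¹ s))) := by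
    have := (t⁻¹).monotone h5
    rwa [RelIso.inv_apply_self] at this
  have h7 : a⁻¹ (t⁻¹ s) ≤ b⁻¹ (a⁻¹ (t⁻¹ s)) := by
    have := (a⁻¹).monotone h6
    rwa [RelIso.inv_apply_self] at this
  have := b.monotone h7
  rwa [RelIso.apply_inv_self] at this

theorem not_lt_of_fix {a b t : Ω ≃o Ω} (h : Closed (a, b) t) {s : Ω}
    (ho : OppAt t (t * bd (a, b)) s) (ha : a s = s) : ¬ s < b s := by
  intro hb
  have hai : a⁻¹ s = s := by
    conv_lhs => rw [← ha]
    rw [RelIso.inv_apply_self]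
  have h1 := h.fwd ha.ge hb.le
  have h2 := h.bwd ha.le hb.le
  have hbi : b⁻¹ s < s := inv_lt_of_gt hb
  rcases lt_trichotomy (t s) s with ht | ht | ht
  · have hti : s < t⁻¹ s := inv_gt_of_lt ht
    have h3 : s ≤ (t * bd (a, b)) s := by
      rcases ho.2 with h4 | h4
      · exact absurd ht (not_lt.mpr h4)
      · exact h4
    have h5 : s ≤ t (a (b (a⁻¹ (b⁻¹ s)))) := h3
    have h6 : t⁻¹ s ≤ a (b (a⁻¹ (b⁻¹ s))) := by
      have := (t⁻¹).monotone h5
      rwa [RelIso.inv_apply_self] at this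
    have h7 : a⁻¹ (t⁻¹ s) ≤ b (a⁻¹ (b⁻¹ s)) := by
      have := (a⁻¹).monotone h6
      rwa [RelIso.inv_apply_self] at this
    have h8 : a⁻¹ (t⁻¹ s) ≤ a⁻¹ (b⁻¹ s) := b.le_iff_le.mp (h2.trans h7)
    have h9 : t⁻¹ s ≤ b⁻¹ s := (a⁻¹).le_iff_le.mp h8
    exact absurd (hti.trans_le (h9.trans hbi.le)) (lt_irrefl _)
  · have hti : t⁻¹ s = s := by
      conv_lhs => rw [← ht]
      rw [RelIso.inv_apply_self]
    rw [hti, hai] at h2
    exact absurd h2 (not_le.mpr hb)
  · have h3 : (t * bd (a, b)) s ≤ s := by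
      rcases ho.1 with h4 | h4
      · exact absurd ht (not_lt.mpr h4)
      · exact h4
    rw [h.comm] at h3
    have h5 : a (b (a⁻¹ (b⁻¹ (t s)))) ≤ s := h3
    have h6 : b (a⁻¹ (b⁻¹ (t s))) ≤ s := by
      have := (a⁻¹).monotone h5
      rwa [RelIso.inv_apply_self, hai] at this
    have h7 : a⁻¹ (b⁻¹ (t s)) ≤ b⁻¹ s := by
      have := (b⁻¹).monotone h6
      rwa [RelIso.inv_apply_self] at this
    have h8 : b⁻¹ s < b⁻¹ (t s) := (b⁻¹).strictMono ht
    exact absurd (h8.trans_le (h1.trans h7)) (lt_irrefl _)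

theorem OppAt.dual {t t' : Ω ≃o Ω} {s : Ω} (h : OppAt t t' s) :
    OppAt (Ω := Ωᵒᵈ) (dualHom t) (dualHom t') s := ⟨h.2, h.1⟩

theorem fix_of_fix {a b t : Ω ≃o Ω} (h : Closed (a, b) t) {s : Ω}
    (ho : OppAt t (t * bd (a, b)) s) (ha : a s = s) : b s = s := by
  rcases lt_trichotomy (b s) s with h1 | h1 | h1
  · have h2 := h.dual
    have h3 : OppAt (Ω := Ωᵒᵈ) (dualHom t) (dualHom t * bd (mp dualHom (a, b))) s := by
      rw [← mp_bd, ← map_mul]
      exact ho.dual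
    exact absurd h1 (not_lt_of_fix (Ω := Ωᵒᵈ) (a := dualHom a) (b := dualHom b) h2 h3 ha)
  · exact h1
  · exact absurd h1 (not_lt_of_fix h ho ha)

theorem fix_of_fix' {a b t : Ω ≃o Ω} (h : Closed (a, b) t) {s : Ω}
    (ho : OppAt t (t * bd (a, b)) s) (hb : b s = s) : a s = s := by
  have h1 := h.rot
  have hbi : b⁻¹ s = s := by
    conv_lhs => rw [← hb]
    rw [RelIso.inv_apply_self]
  have ho' : OppAt ((t * bd (a, b))⁻¹) ((t * bd (a, b))⁻¹ * bd (b⁻¹, b * a * b⁻¹)) s := by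
    have e : (t * bd (a, b))⁻¹ * bd (b⁻¹, b * a * b⁻¹) = t⁻¹ := by
      have e1 : bd (b⁻¹, b * a * b⁻¹) = bd (a, b) := bd_rot (a, b)
      rw [e1, h.comm, mul_inv_rev, inv_mul_cancel_right]
    rw [e]
    exact ho.inv
  have h2 := fix_of_fix (a := b⁻¹) (b := b * a * b⁻¹) h1 ho' hbi
  have h3 : b (a (b⁻¹ s)) = s := h2
  rw [hbi] at h3
  have h4 := congrArg (⇑(b⁻¹)) h3
  rwa [RelIso.inv_apply_self, hbi] at h4

/-- If the boundary of the piece fixes `s`, so does the whole piece (half of the cases). -/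
theorem fix_aux {a b t : Ω ≃o Ω} (h : Closed (a, b) t) {s : Ω} (ht : t s = s)
    (hd : bd (a, b) s = s) (hb : s ≤ b s) : a s = s ∧ b s = s := by
  have hti : t⁻¹ s = s := by
    conv_lhs => rw [← ht]
    rw [RelIso.inv_apply_self]
  have ho : OppAt t (t * bd (a, b)) s := ⟨Or.inl ht.le, Or.inl ht.ge⟩
  have hd' : a (b (a⁻¹ (b⁻¹ s))) = s := hd
  rcases le_total s (a s) with ha | ha
  · have h1 := h.fwd ha hb
    rw [ht] at h1
    have h2 : s ≤ b (a⁻¹ (b⁻¹ s)) := by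
      have := b.monotone h1
      rwa [RelIso.apply_inv_self] at this
    have h3 : a s ≤ s := by
      have := a.monotone h2
      rwa [hd'] at this
    have h4 : a s = s := le_antisymm h3 ha
    exact ⟨h4, fix_of_fix h ho h4⟩
  · have h1 := h.bwd ha hb
    rw [hti] at h1
    have h2 : a (b (a⁻¹ s)) ≤ s := by
      have := a.monotone h1
      rwa [RelIso.apply_inv_self] at this
    have h3 : a (b (a⁻¹ (b⁻¹ s))) ≤ a (b (a⁻¹ s)) :=
      a.monotone (b.monotone ((a⁻¹).monotone (inv_le_of_ge hb)))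
    rw [hd'] at h3
    have h4 : a (b (a⁻¹ s)) = a (b (a⁻¹ (b⁻¹ s))) := by rw [hd']; exact le_antisymm h2 h3
    have h5 : s = b⁻¹ s := (a⁻¹).injective (b.injective (a.injective h4))
    have h6 : b s = s := by
      have := congrArg b h5
      rwa [RelIso.apply_inv_self] at this
    exact ⟨fix_of_fix' h ho h6, h6⟩

theorem fix_of_bd {a b t : Ω ≃o Ω} (h : Closed (a, b) t) {s : Ω} (ht : t s = s)
    (hd : bd (a, b) s = s) : a s = s ∧ b s = s := by
  rcases le_total s (b s) with hb | hb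
  · exact fix_aux h ht hd hb
  · have h2 := h.dual
    have hd2 : bd (mp (dualHom (Ω := Ω)) (a, b)) s = s := by
      rw [← mp_bd]
      exact hd
    exact fix_aux (Ω := Ωᵒᵈ) (a := dualHom a) (b := dualHom b) (t := dualHom t) h2 ht hd2 hb

end Fix

section Main

variable {Ω : Type*} [CompleteLinearOrder Ω]

lemma fix_of_pow_fix {x : Ω ≃o Ω} {n : ℕ} (hn : 0 < n) {s : Ω} (h : (x ^ n) s = s) : x s = s :=
  le_antisymm (of_pow_le hn h.le) (of_pow_ge hn h.ge)

lemma pow_fix {x : Ω ≃o Ω} (n : ℕ) {s : Ω} (h : x s = s) : (x ^ n) s = s :=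
  le_antisymm (pow_le h.le n) (pow_ge h.ge n)

/-- Two different positive slopes which fix a point. -/
lemma fix_of_words {t d : Ω ≃o Ω} (hc : t * d = d * t) {P₁ Q₁ P₂ Q₂ : ℕ} (h1 : 0 < Q₁)
    (h2 : 0 < Q₂) (hdet : P₁ * Q₂ ≠ P₂ * Q₁) {s : Ω} (e1 : (t ^ P₁ * d ^ Q₁) s = s)
    (e2 : (t ^ P₂ * d ^ Q₂) s = s) : t s = s ∧ d s = s := by
  have hcomm : ∀ (i j n : ℕ), (t ^ i * d ^ j) ^ n = t ^ (i * n) * d ^ (j * n) := by
    intro i j n
    have hc : Commute (t ^ i) (d ^ j) := (show Commute t d from hc).pow_pow i j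
    rw [hc.mul_pow, pow_mul, pow_mul]
  have f1 : (t ^ (P₁ * Q₂) * d ^ (Q₁ * Q₂)) s = s := by
    rw [← hcomm]; exact pow_fix _ e1
  have f2 : (t ^ (P₂ * Q₁) * d ^ (Q₁ * Q₂)) s = s := by
    rw [mul_comm Q₁ Q₂, ← hcomm]; exact pow_fix _ e2
  have key : ∀ A B : ℕ, A < B → (t ^ A * d ^ (Q₁ * Q₂)) s = s →
      (t ^ B * d ^ (Q₁ * Q₂)) s = s → t s = s := by
    intro A B hAB g1 g2
    obtain ⟨k, rfl⟩ := Nat.exists_eq_add_of_lt hAB
    have : t ^ (A + k + 1) * d ^ (Q₁ * Q₂) = t ^ (k + 1) * (t ^ A * d ^ (Q₁ * Q₂)) := by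
      rw [← mul_assoc, ← pow_add]
      congr 2
      ring
    rw [this, RelIso.mul_apply, g1] at g2
    exact fix_of_pow_fix (Nat.succ_pos k) g2
  have ht : t s = s := by
    rcases lt_or_gt_of_ne hdet with h | h
    · exact key _ _ h f1 f2
    · exact key _ _ h f2 f1
  refine ⟨ht, ?_⟩
  have g : (d ^ (Q₁ * Q₂)) s = s := by
    have hc' : Commute (t ^ (P₁ * Q₂)) (d ^ (Q₁ * Q₂)) :=
      (show Commute t d from hc).pow_pow _ _
    rw [hc'.eq, RelIso.mul_apply, pow_fix _ ht] at f1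
    exact f1
  exact fix_of_pow_fix (Nat.mul_pos h1 h2) g

/-- No constant signs on an invariant interval, `b` moving up. -/
theorem no_signs_up {Ω : Type*} [LinearOrder Ω] {a b t : Ω ≃o Ω} (h : Closed (a, b) t)
    {e f s : Ω} (hs1 : e < s) (hs2 : s < f)
    (fe : a e = e ∧ b e = e ∧ t e = e) (ff : a f = f ∧ b f = f ∧ t f = f)
    (ha : (∀ r, e < r → r < f → r < a r) ∨ (∀ r, e < r → r < f → a r < r))
    (hb : ∀ r, e < r → r < f → r < b r) : False := by
  have inv_int : ∀ x : Ω ≃o Ω, x e = e → x f = f → ∀ r, e < r → r < f →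
      e < x r ∧ x r < f ∧ e < x⁻¹ r ∧ x⁻¹ r < f := by
    intro x xe xf r h1 h2
    have xe' : x⁻¹ e = e := by
      conv_lhs => rw [← xe]
      rw [RelIso.inv_apply_self]
    have xf' : x⁻¹ f = f := by
      conv_lhs => rw [← xf]
      rw [RelIso.inv_apply_self]
    refine ⟨?_, ?_, ?_, ?_⟩
    · have := x.strictMono h1; rwa [xe] at this
    · have := x.strictMono h2; rwa [xf] at this
    · have := (x⁻¹).strictMono h1; rwa [xe'] at this
    · have := (x⁻¹).strictMono h2; rwa [xf'] at this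
  obtain ⟨t1, t2, t3, t4⟩ := inv_int t fe.2.2 ff.2.2 s hs1 hs2
  rcases ha with ha | ha
  · obtain ⟨_, _, b3, b4⟩ := inv_int b fe.2.1 ff.2.1 (t s) t1 t2
    have h1 := h.fwd (ha s hs1 hs2).le (hb s hs1 hs2).le
    exact absurd (inv_lt_of_gt (ha _ b3 b4)) (not_lt.mpr h1)
  · obtain ⟨_, _, b3, b4⟩ := inv_int a fe.1 ff.1 (t⁻¹ s) t3 t4
    have h1 := h.bwd (ha s hs1 hs2).le (hb s hs1 hs2).le
    exact absurd (hb _ b3 b4) (not_lt.mpr h1)

theorem no_signs {a b t : Ω ≃o Ω} (h : Closed (a, b) t)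
    {e f s : Ω} (hs1 : e < s) (hs2 : s < f)
    (fe : a e = e ∧ b e = e ∧ t e = e) (ff : a f = f ∧ b f = f ∧ t f = f)
    (ha : (∀ r, e < r → r < f → r < a r) ∨ (∀ r, e < r → r < f → a r < r))
    (hb : (∀ r, e < r → r < f → r < b r) ∨ (∀ r, e < r → r < f → b r < r)) : False := by
  rcases hb with hb | hb
  · exact no_signs_up h hs1 hs2 fe ff ha hb
  · have ha' : (∀ r, e < r → r < f → a r < r) ∨ (∀ r, e < r → r < f → r < a r) := ha.symm
    exact no_signs_up (Ω := Ωᵒᵈ) (a := dualHom a) (b := dualHom b) (t := dualHom t) h.dual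
      (e := f) (f := e) (s := s) hs2 hs1 ff fe
      (ha'.imp (fun g r h1 h2 => g r h2 h1) (fun g r h1 h2 => g r h2 h1))
      (fun r h1 h2 => hb r h2 h1)

/-- On an invariant interval whose ends are fixed by the piece, a closed chain of twists has a
point at which `t` and `t ∂` move in the same direction or one of them is fixed. -/
theorem no_opp_interval {a b t : Ω ≃o Ω} (h : Closed (a, b) t)
    {e f s : Ω} (hs1 : e < s) (hs2 : s < f)
    (fe : a e = e ∧ b e = e ∧ t e = e) (ff : a f = f ∧ b f = f ∧ t f = f)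
    (ho : ∀ r, e < r → r < f → OppAt t (t * bd (a, b)) r)
    (hd : ∀ r, e < r → r < f → bd (a, b) r ≠ r) : False := by
  have hfree : ∀ r, e < r → r < f → a r = r → b r = r → False := by
    intro r h1 h2 har hbr
    apply hd r h1 h2
    have har' : a⁻¹ r = r := by
      conv_lhs => rw [← har]
      rw [RelIso.inv_apply_self]
    have hbr' : b⁻¹ r = r := by
      conv_lhs => rw [← hbr]
      rw [RelIso.inv_apply_self]
    change a (b (a⁻¹ (b⁻¹ r))) = r
    rw [hbr', har', hbr, har]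
  have sa := Glue.const_sign (x := a) (e := e) (f := f) (by
    intro r h1 h2 har
    exact hfree r h1 h2 har (fix_of_fix h (ho r h1 h2) har))
  have sb := Glue.const_sign (x := b) (e := e) (f := f) (by
    intro r h1 h2 hbr
    exact hfree r h1 h2 (fix_of_fix' h (ho r h1 h2) hbr) hbr)
  exact no_signs h hs1 hs2 fe ff sa sb

lemma word_eq {t d : Ω ≃o Ω} (hc : t * d = d * t) {P Q : ℕ} (hQ : Q < P) :
    t ^ P * d ^ Q = t ^ (P - Q) * (t * d) ^ Q := by
  have hc' : Commute t d := hc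
  rw [hc'.mul_pow, ← mul_assoc, ← pow_add, Nat.sub_add_cancel hQ.le]

/-- The boundary of a piece: two slopes in `(1, ∞)` never move a point in opposite
directions. -/
theorem no_opp {a b t : Ω ≃o Ω} (h : Closed (a, b) t) {P₁ Q₁ P₂ Q₂ : ℕ} (h1 : 0 < Q₁)
    (h1' : Q₁ < P₁) (h2 : 0 < Q₂) (h2' : Q₂ < P₂) {s : Ω}
    (e1 : s ≤ (t ^ P₁ * bd (a, b) ^ Q₁) s) (e2 : (t ^ P₂ * bd (a, b) ^ Q₂) s ≤ s)
    (e3 : ¬ (t s = s ∧ bd (a, b) s = s)) : False := by
  have hcv : t * (t * bd (a, b)) = t * bd (a, b) * t := by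
    rw [mul_assoc, ← h.comm]
  rw [word_eq h.comm h1'] at e1
  rw [word_eq h.comm h2'] at e2
  have e3' : ¬ (t s = s ∧ (t * bd (a, b)) s = s) := by
    rintro ⟨g1, g2⟩
    refine e3 ⟨g1, ?_⟩
    rw [RelIso.mul_apply] at g2
    exact t.injective (g2.trans g1.symm)
  obtain ⟨e, f, hs1, hs2, te, ve, tf, vf, hopp⟩ := Glue.pair_lemma hcv (Nat.sub_pos_of_lt h1')
    h1 (Nat.sub_pos_of_lt h2') h2 e1 e2 e3'
  have bde : bd (a, b) e = e := by
    rw [RelIso.mul_apply] at ve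
    exact t.injective (ve.trans te.symm)
  have bdf : bd (a, b) f = f := by
    rw [RelIso.mul_apply] at vf
    exact t.injective (vf.trans tf.symm)
  obtain ⟨ae, be⟩ := fix_of_bd h te bde
  obtain ⟨af, bf⟩ := fix_of_bd h tf bdf
  refine no_opp_interval h hs1 hs2 ⟨ae, be, te⟩ ⟨af, bf, tf⟩ ?_ ?_
  · intro r r1 r2
    rcases hopp with g | g
    · exact ⟨Or.inr (g r r1 r2).2.le, Or.inl (g r r1 r2).1.le⟩
    · exact ⟨Or.inl (g r r1 r2).1.le, Or.inr (g r r1 r2).2.le⟩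
  · intro r r1 r2 hbd
    have hv : (t * bd (a, b)) r = t r := by rw [RelIso.mul_apply, hbd]
    rcases hopp with g | g
    · obtain ⟨g1, g2⟩ := g r r1 r2
      rw [hv] at g2
      exact absurd (g1.trans g2) (lt_irrefl _)
    · obtain ⟨g1, g2⟩ := g r r1 r2
      rw [hv] at g2
      exact absurd (g2.trans g1) (lt_irrefl _)

/-- The sign rule transmitted through the boundary of a piece. -/
theorem SR_of_piece {a b t : Ω ≃o Ω} (h : Closed (a, b) t) {P₁ Q₁ P₂ Q₂ : ℕ} (h1 : 0 < Q₁)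
    (h1' : Q₁ < P₁) (h2 : 0 < Q₂) (h2' : Q₂ < P₂) :
    SR (t ^ P₁ * bd (a, b) ^ Q₁) (t ^ P₂ * bd (a, b) ^ Q₂) := by
  have hc : Commute t (bd (a, b)) := h.comm
  refine ⟨?_, fun s => ⟨fun g => ?_, fun g => ?_⟩⟩
  · have c1 : Commute (t ^ P₁) (t ^ P₂) := (Commute.refl t).pow_pow _ _
    have c2 : Commute (bd (a, b) ^ Q₁) (bd (a, b) ^ Q₂) := (Commute.refl _).pow_pow _ _
    have c3 : Commute (t ^ P₁) (bd (a, b) ^ Q₂) := hc.pow_pow _ _
    have c4 : Commute (bd (a, b) ^ Q₁) (t ^ P₂) := hc.symm.pow_pow _ _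
    exact (Commute.mul_left (c1.mul_right c3) (c4.mul_right c2)).eq
  · by_contra hn
    push Not at hn
    refine no_opp h h2 h2' h1 h1' g hn.le ?_
    rintro ⟨q1, q2⟩
    apply absurd hn (not_lt.mpr _)
    rw [RelIso.mul_apply, pow_fix _ q2, pow_fix _ q1]
  · by_contra hn
    push Not at hn
    refine no_opp h h1 h1' h2 h2' hn.le g ?_
    rintro ⟨q1, q2⟩
    apply absurd hn (not_lt.mpr _)
    rw [RelIso.mul_apply, pow_fix _ q2, pow_fix _ q1]

/-- A closed piece whose boundary is filled by a slope in `[1, ∞]` fixes every point. -/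
theorem fix_of_filled {a b t : Ω ≃o Ω} (h : Closed (a, b) t) {P Q : ℕ} (hP : 0 < P)
    (hQ : Q ≤ P) (hrel : t ^ P * bd (a, b) ^ Q = 1) (s : Ω) : a s = s ∧ b s = s := by
  have ho : ∀ r, OppAt t (t * bd (a, b)) r := fun r =>
    Helper31.TwistChain.opp_of_rel h.comm hP hQ hrel r
  by_contra hcon
  have hab : ∀ r, a r = r ↔ b r = r := fun r =>
    ⟨fun g => fix_of_fix h (ho r) g, fun g => fix_of_fix' h (ho r) g⟩
  have has : a s ≠ s := fun g => hcon ⟨g, (hab s).mp g⟩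
  -- the largest interval around `s` on which `a` has no fixed point
  let A : Set Ω := {r | r ≤ s ∧ a r = r}
  let B : Set Ω := {r | s ≤ r ∧ a r = r}
  have hae : a (sSup A) = sSup A := by
    rw [a.map_sSup, sSup_eq_iSup]
    exact iSup_congr (fun r => iSup_congr_Prop Iff.rfl (fun hr => hr.2))
  have haf : a (sInf B) = sInf B := by
    rw [a.map_sInf, sInf_eq_iInf]
    exact iInf_congr (fun r => iInf_congr_Prop Iff.rfl (fun hr => hr.2))
  have hes : sSup A < s := by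
    refine lt_of_le_of_ne (sSup_le (fun r hr => hr.1)) (fun g => has ?_)
    rw [← g]
    exact hae
  have hsf : s < sInf B := by
    refine lt_of_le_of_ne (le_sInf (fun r hr => hr.1)) (fun g => has ?_)
    rw [g]
    exact haf
  have hfree : ∀ r, sSup A < r → r < sInf B → a r ≠ r := by
    intro r h1 h2 h3
    rcases le_total r s with h4 | h4
    · exact absurd (le_sSup (show r ∈ A from ⟨h4, h3⟩)) (not_le.mpr h1)
    · exact absurd (sInf_le (show r ∈ B from ⟨h4, h3⟩)) (not_le.mpr h2)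
  have tfix : ∀ r, a r = r → t r = r := by
    intro r har
    have hbr := (hab r).mp har
    have har' : a⁻¹ r = r := by
      conv_lhs => rw [← har]
      rw [RelIso.inv_apply_self]
    have hbr' : b⁻¹ r = r := by
      conv_lhs => rw [← hbr]
      rw [RelIso.inv_apply_self]
    have hd : bd (a, b) r = r := by
      change a (b (a⁻¹ (b⁻¹ r))) = r
      rw [hbr', har', hbr, har]
    have h1 : (t ^ P * bd (a, b) ^ Q) r = r := by rw [hrel]; rfl
    rw [RelIso.mul_apply, pow_fix _ hd] at h1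
    exact fix_of_pow_fix hP h1
  exact no_signs h hes hsf ⟨hae, (hab _).mp hae, tfix _ hae⟩ ⟨haf, (hab _).mp haf, tfix _ haf⟩
    (Glue.const_sign hfree)
    (Glue.const_sign (fun r h1 h2 h3 => hfree r h1 h2 ((hab r).mpr h3)))

end Main

end Pool.Agent.Helper71.TwistTree
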