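import Mathlib
import Pool.Agent.Helper31.Borromean
import Pool.Agent.Helper71.TwistTree

/-!
The Borromean piece: fixed points and intervals.
-/

set_option autoImplicit false

namespace Pool.Agent.Helper71.BorrTree

open Pool.Agent.Helper31.OrderAct
open Pool.Agent.Helper31.Borromean (Rules)

section Res

variable {Ω : Type*} [LinearOrder Ω]

/-- Restriction of an automorphism to an invariant open interval. -/
def res {e f : Ω} (x : Ω ≃o Ω) (he : x e = e) (hf : x f = f) : Set.Ioo e f ≃o Set.Ioo e f where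
  toFun s := ⟨x s, by
    have h1 := x.strictMono s.2.1
    have h2 := x.strictMono s.2.2
    rw [he] at h1
    rw [hf] at h2
    exact ⟨h1, h2⟩⟩
  invFun s := ⟨x.symm s, by
    have h1 := x.symm.strictMono s.2.1
    have h2 := x.symm.strictMono s.2.2
    have he' : x.symm e = e := by
      conv_lhs => rw [← he]
      exact x.symm_apply_apply e
    have hf' : x.symm f = f := by
      conv_lhs => rw [← hf]
      exact x.symm_apply_apply f
    rw [he'] at h1
    rw [hf'] at h2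
    exact ⟨h1, h2⟩⟩
  left_inv s := Subtype.ext (x.symm_apply_apply _)
  right_inv s := Subtype.ext (x.apply_symm_apply _)
  map_rel_iff' := by
    intro s t
    exact x.le_iff_le

end Res

section Local

variable {Ω : Type*} [LinearOrder Ω]

/-- The rules for the second and the third component. -/
structure Rules2 (X Y Z : Ω ≃o Ω) : Prop where
  y1 : ∀ s, s ≤ Y s → Y (Z⁻¹ (X (Z (X⁻¹ s)))) ≤ s
  y2 : ∀ s, Y s ≤ s → s ≤ Y (Z⁻¹ (X (Z (X⁻¹ s))))
  z1 : ∀ s, s ≤ Z s → Z (X⁻¹ (Y (X (Y⁻¹ s)))) ≤ s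
  z2 : ∀ s, Z s ≤ s → s ≤ Z (X⁻¹ (Y (X (Y⁻¹ s))))

variable {X Y Z : Ω ≃o Ω}

theorem Rules2.dual (h : Rules2 X Y Z) :
    Rules2 (Ω := Ωᵒᵈ) (OrderIso.dual X) (OrderIso.dual Y) (OrderIso.dual Z) :=
  ⟨h.y2, h.y1, h.z2, h.z1⟩

theorem fixY_not_lt (h : Rules2 X Y Z) {s : Ω} (hX : X s = s)
    (hL : Y⁻¹ (Z (Y (Z⁻¹ s))) = s) : ¬ s < Y s := by
  intro hY
  have hXi : X⁻¹ s = s := by
    conv_lhs => rw [← hX]
    rw [RelIso.inv_apply_self]
  rcases lt_trichotomy (Z s) s with hZ | hZ | hZ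
  · -- Z s < s < Y s
    have h1 := h.z2 s hZ.le
    have h2 : Z⁻¹ s ≤ X⁻¹ (Y (X (Y⁻¹ s))) := by
      have := (Z⁻¹).monotone h1
      rwa [RelIso.inv_apply_self] at this
    have h3 : X (Z⁻¹ s) ≤ Y (X (Y⁻¹ s)) := by
      have := X.monotone h2
      rwa [RelIso.apply_inv_self] at this
    have hZi : s < Z⁻¹ s := inv_gt_of_lt hZ
    have hYi : Y⁻¹ s < s := inv_lt_of_gt hY
    have hv : s < X (Z⁻¹ s) := by
      have := X.strictMono hZi
      rwa [hX] at this
    have h4 : X (Y⁻¹ s) < s := by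
      have := X.strictMono hYi
      rwa [hX] at this
    have h5 : Y⁻¹ (X (Z⁻¹ s)) ≤ X (Y⁻¹ s) := by
      have := (Y⁻¹).monotone h3
      rwa [RelIso.inv_apply_self] at this
    have h6 : Y⁻¹ (X (Z⁻¹ s)) < X (Z⁻¹ s) := (h5.trans_lt h4).trans hv
    have h7 : X (Z⁻¹ s) ≤ Y (X (Z⁻¹ s)) := by
      have := Y.monotone h6.le
      rwa [RelIso.apply_inv_self] at this
    have h8 := h.y1 _ h7
    rw [RelIso.inv_apply_self, RelIso.apply_inv_self, hX] at h8
    have h9 : Z⁻¹ s ≤ Y⁻¹ (X (Z⁻¹ s)) := by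
      have := (Y⁻¹).monotone h8
      rwa [RelIso.inv_apply_self] at this
    exact absurd (hZi.trans_le (h9.trans (h5.trans h4.le))) (lt_irrefl _)
  · -- Z s = s
    have hZi : Z⁻¹ s = s := by
      conv_lhs => rw [← hZ]
      rw [RelIso.inv_apply_self]
    have h1 := h.y1 s hY.le
    rw [hXi, hZ, hX, hZi] at h1
    exact absurd h1 (not_le.mpr hY)
  · -- s < Z s
    have h1 := h.y1 s hY.le
    rw [hXi] at h1
    have hYi : Y⁻¹ s < s := inv_lt_of_gt hY
    have h2 : X (Z s) ≤ Z (Y⁻¹ s) := by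
      have a := (Y⁻¹).monotone h1
      rw [RelIso.inv_apply_self] at a
      have b := Z.monotone a
      rwa [RelIso.apply_inv_self] at b
    have h3 : s < X (Z s) := by
      have := X.strictMono hZ
      rwa [hX] at this
    have h4 : Z⁻¹ s < Y⁻¹ s := by
      have := (Z⁻¹).strictMono (h3.trans_le h2)
      rwa [RelIso.inv_apply_self] at this
    have h5 : Y (Z⁻¹ s) = Z⁻¹ (Y s) := by
      have e : Z (Y (Z⁻¹ s)) = Y s := by
        have := congrArg Y hL
        rwa [RelIso.apply_inv_self] at this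
      have f := congrArg (⇑(Z⁻¹)) e
      rwa [RelIso.inv_apply_self] at f
    have h6 : Z⁻¹ (Y s) < s := by
      rw [← h5]
      have := Y.strictMono h4
      rwa [RelIso.apply_inv_self] at this
    have h7 : Y s ≤ Z (Y s) := by
      have := Z.monotone ((h6.trans hY).le)
      rwa [RelIso.apply_inv_self] at this
    have h8 := h.z1 _ h7
    rw [RelIso.inv_apply_self, hX] at h8
    have h9 : X⁻¹ (Y s) ≤ Z⁻¹ (Y s) := by
      have := (Z⁻¹).monotone h8
      rwa [RelIso.inv_apply_self] at this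
    have h10 : Y s < s := by
      have := X.strictMono (h9.trans_lt h6)
      rwa [RelIso.apply_inv_self, hX] at this
    exact absurd h10 (not_lt.mpr hY.le)

/-- The rules for `Y` and `Z` hold and the peripheral subgroup of `X` fixes `s`. -/
theorem fix_of_periph (h : Rules2 X Y Z) {s : Ω} (hX : X s = s)
    (hL : Y⁻¹ (Z (Y (Z⁻¹ s))) = s) : Y s = s ∧ Z s = s := by
  have hY : Y s = s := by
    rcases lt_trichotomy (Y s) s with h1 | h1 | h1
    · exact absurd h1 (fixY_not_lt (Ω := Ωᵒᵈ) h.dual (s := s) hX hL)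
    · exact h1
    · exact absurd h1 (fixY_not_lt h hX hL)
  refine ⟨hY, ?_⟩
  have hXi : X⁻¹ s = s := by
    conv_lhs => rw [← hX]
    rw [RelIso.inv_apply_self]
  have hYi : Y⁻¹ s = s := by
    conv_lhs => rw [← hY]
    rw [RelIso.inv_apply_self]
  rcases le_total s (Z s) with h1 | h1
  · have h2 := h.z1 s h1
    rw [hYi, hX, hY, hXi] at h2
    exact le_antisymm h2 h1
  · have h2 := h.z2 s h1
    rw [hYi, hX, hY, hXi] at h2
    exact le_antisymm h1 h2

end Local

section Interval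

variable {Ω : Type*} [CompleteLinearOrder Ω] {X Y Z : Ω ≃o Ω}

lemma const_res {e f : Ω} {x : Ω ≃o Ω} (he : x e = e) (hf : x f = f)
    (hx : ∀ t, e < t → t < f → x t ≠ t) :
    (∀ s, s < res x he hf s) ∨ (∀ s, res x he hf s < s) := by
  rcases Glue.const_sign hx with h | h
  · exact Or.inl (fun s => h s s.2.1 s.2.2)
  · exact Or.inr (fun s => h s s.2.1 s.2.2)

/-- No interval whose ends are fixed by all and on which `X` has no fixed point and obeys its
rule. -/
theorem no_interval (h : Rules2 X Y Z) {e f s : Ω} (hs1 : e < s) (hs2 : s < f)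
    (fe : X e = e ∧ Y e = e ∧ Z e = e) (ff : X f = f ∧ Y f = f ∧ Z f = f)
    (hx : ∀ t, e < t → t < f → X t ≠ t)
    (x1 : ∀ s, e < s → s < f → s ≤ X s → X (Y⁻¹ (Z (Y (Z⁻¹ s)))) ≤ s)
    (x2 : ∀ s, e < s → s < f → X s ≤ s → s ≤ X (Y⁻¹ (Z (Y (Z⁻¹ s))))) : False := by
  let X' := res X fe.1 ff.1
  let Y' := res Y fe.2.1 ff.2.1
  let Z' := res Z fe.2.2 ff.2.2
  have R : Rules X' Y' Z' :=
    ⟨fun s => x1 s s.2.1 s.2.2, fun s => x2 s s.2.1 s.2.2, fun s => h.y1 s, fun s => h.y2 s,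
      fun s => h.z1 s, fun s => h.z2 s⟩
  have sx : (∀ s, s < X' s) ∨ (∀ s, X' s < s) := const_res fe.1 ff.1 hx
  have hX' : ∀ s, X' s ≠ s := by
    intro s hs
    rcases sx with g | g
    · exact absurd (g s) (by rw [hs]; exact lt_irrefl _)
    · exact absurd (g s) (by rw [hs]; exact lt_irrefl _)
  have sy : (∀ s, s < Y' s) ∨ (∀ s, Y' s < s) := by
    refine const_res fe.2.1 ff.2.1 (fun t h1 h2 h3 => ?_)
    have h4 : Y' ⟨t, h1, h2⟩ = ⟨t, h1, h2⟩ := Subtype.ext h3
    exact hX' _ (Helper31.Borromean.fixZ R.cyc h4)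
  have sz : (∀ s, s < Z' s) ∨ (∀ s, Z' s < s) := by
    refine const_res fe.2.2 ff.2.2 (fun t h1 h2 h3 => ?_)
    have h4 : Z' ⟨t, h1, h2⟩ = ⟨t, h1, h2⟩ := Subtype.ext h3
    exact hX' _ (Helper31.Borromean.fixY R.cyc.cyc h4)
  exact Helper31.Borromean.no_signs R ⟨s, hs1, hs2⟩ sx sy sz

/-- The largest interval around a moved point without fixed points. -/
lemma max_interval {x : Ω ≃o Ω} {s : Ω} (hs : x s ≠ s) : ∃ e f : Ω, e < s ∧ s < f ∧
    x e = e ∧ x f = f ∧ ∀ r, e < r → r < f → x r ≠ r := by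
  let A : Set Ω := {r | r ≤ s ∧ x r = r}
  let B : Set Ω := {r | s ≤ r ∧ x r = r}
  have hae : x (sSup A) = sSup A := by
    rw [x.map_sSup, sSup_eq_iSup]
    exact iSup_congr (fun r => iSup_congr_Prop Iff.rfl (fun hr => hr.2))
  have haf : x (sInf B) = sInf B := by
    rw [x.map_sInf, sInf_eq_iInf]
    exact iInf_congr (fun r => iInf_congr_Prop Iff.rfl (fun hr => hr.2))
  have hes : sSup A < s := by
    refine lt_of_le_of_ne (sSup_le (fun r hr => hr.1)) (fun g => hs ?_)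
    rw [← g]
    exact hae
  have hsf : s < sInf B := by
    refine lt_of_le_of_ne (le_sInf (fun r hr => hr.1)) (fun g => hs ?_)
    rw [g]
    exact haf
  refine ⟨sSup A, sInf B, hes, hsf, hae, haf, ?_⟩
  intro r h1 h2 h3
  rcases le_total r s with h4 | h4
  · exact absurd (le_sSup (show r ∈ A from ⟨h4, h3⟩)) (not_le.mpr h1)
  · exact absurd (sInf_le (show r ∈ B from ⟨h4, h3⟩)) (not_le.mpr h2)

/-- The Borromean piece, filled along a slope in `[1, ∞)`, fixes everything. -/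
theorem fix_of_rules (h : Rules X Y Z) (s : Ω) : X s = s ∧ Y s = s ∧ Z s = s := by
  have hX : X s = s := by
    by_contra hs
    obtain ⟨e, f, h1, h2, xe, xf, hfree⟩ := max_interval hs
    exact no_interval ⟨h.y1, h.y2, h.z1, h.z2⟩ h1 h2
      ⟨xe, Helper31.Borromean.fixY h xe, Helper31.Borromean.fixZ h xe⟩
      ⟨xf, Helper31.Borromean.fixY h xf, Helper31.Borromean.fixZ h xf⟩ hfree
      (fun s _ _ => h.x1 s) (fun s _ _ => h.x2 s)
  exact ⟨hX, Helper31.Borromean.fixY h hX, Helper31.Borromean.fixZ h hX⟩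

end Interval

end Pool.Agent.Helper71.BorrTree
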