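import Mathlib
import Pool.Agent.Helper71.BorrTree

/-!
Words `a ^ i₁ u a ^ i₂ u ⋯` acting on a linear order, and the effect of replacing `u` by `c u`.
-/

set_option autoImplicit false

namespace Pool.Agent.Helper71.Rot

open Pool.Agent.Helper31.OrderAct

section Ev

variable {Γ : Type*} [Group Γ]

/-- The word `a ^ i₁ u a ^ i₂ u ⋯`. -/
def ev (a u : Γ) (l : List ℤ) : Γ := (l.map (fun i => a ^ i * u)).prod

@[simp] lemma ev_nil (a u : Γ) : ev a u [] = 1 := rfl

lemma ev_cons (a u : Γ) (i : ℤ) (l : List ℤ) : ev a u (i :: l) = a ^ i * u * ev a u l := by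
  simp [ev]

lemma ev_append (a u : Γ) (l l' : List ℤ) : ev a u (l ++ l') = ev a u l * ev a u l' := by
  simp [ev]

end Ev

section Core

variable {Ω : Type*} [LinearOrder Ω]

lemma inv_fix {x : Ω ≃o Ω} {s : Ω} (h : x s = s) : x⁻¹ s = s := by
  conv_lhs => rw [← h]
  rw [RelIso.inv_apply_self]

lemma pow_fix' {x : Ω ≃o Ω} (n : ℕ) {s : Ω} (h : x s = s) : (x ^ n) s = s :=
  le_antisymm (pow_le h.le n) (pow_ge h.ge n)

lemma zpow_fix {x : Ω ≃o Ω} (i : ℤ) {s : Ω} (h : x s = s) : (x ^ i) s = s := by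
  cases i with
  | ofNat n => rw [Int.ofNat_eq_natCast, zpow_natCast]; exact pow_fix' n h
  | negSucc n => rw [zpow_negSucc]; exact inv_fix (pow_fix' _ h)

variable {a c u : Ω ≃o Ω} {e f s : Ω}

lemma e_le_of (hes : e ≤ s) (ae : a e = e) (i : ℤ) (l : List ℤ)
    (h : e ≤ ev a u (i :: l) s) : e ≤ ev a u l s := by
  by_cases hue : e ≤ u e
  · -- everything stays above
    clear h
    induction l with
    | nil => exact hes
    | cons j l ih =>
      rw [ev_cons, RelIso.mul_apply, RelIso.mul_apply]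
      have h1 : e ≤ u (ev a u l s) := hue.trans (u.monotone ih)
      have h2 := (a ^ j).monotone h1
      rwa [zpow_fix j ae] at h2
  · by_contra hlt
    push Not at hlt hue
    have h1 : u (ev a u l s) < e := (u.strictMono hlt).trans hue
    have h2 := (a ^ i).strictMono h1
    rw [zpow_fix i ae] at h2
    rw [ev_cons, RelIso.mul_apply, RelIso.mul_apply] at h
    exact absurd h2 (not_lt.mpr h)

lemma le_f_of (hsf : s ≤ f) (af : a f = f) (huf : u f ≤ f) (l : List ℤ) :
    ev a u l s ≤ f := by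
  induction l with
  | nil => exact hsf
  | cons j l ih =>
    rw [ev_cons, RelIso.mul_apply, RelIso.mul_apply]
    have h1 : u (ev a u l s) ≤ f := (u.monotone ih).trans huf
    have h2 := (a ^ j).monotone h1
    rwa [zpow_fix j af] at h2

/-- The comparison of the two words. -/
theorem core_min (hes : e ≤ s) (hsf : s ≤ f) (ae : a e = e) (af : a f = f) (cf : c f = f)
    (hc : ∀ z, e ≤ z → z ≤ f → z ≤ c z) (l : List ℤ) (h : e ≤ ev a u l s) :
    min (ev a u l s) f ≤ ev a (c * u) l s := by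
  induction l with
  | nil => exact min_le_left _ _
  | cons i l ih =>
    have h0 := e_le_of hes ae i l h
    have ih' := ih h0
    have hz : ev a u (i :: l) s = (a ^ i) (u (ev a u l s)) := by
      rw [ev_cons, RelIso.mul_apply, RelIso.mul_apply]
    have hz' : ev a (c * u) (i :: l) s = (a ^ i) (c (u (ev a (c * u) l s))) := by
      rw [ev_cons, RelIso.mul_apply, RelIso.mul_apply, RelIso.mul_apply]
    rw [hz] at h
    rw [hz, hz']
    have hy : e ≤ u (ev a u l s) := by
      have := ((a ^ i)⁻¹).monotone h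
      rwa [RelIso.inv_apply_self, inv_fix (zpow_fix i ae)] at this
    rcases le_or_gt (ev a u l s) f with h1 | h1
    · rw [min_eq_left h1] at ih'
      have h2 : u (ev a u l s) ≤ u (ev a (c * u) l s) := u.monotone ih'
      rcases le_or_gt (u (ev a u l s)) f with h3 | h3
      · have h4 := hc _ hy h3
        exact (min_le_left _ _).trans ((a ^ i).monotone (h4.trans (c.monotone h2)))
      · have h4 : f ≤ c (u (ev a (c * u) l s)) := by
          have := c.monotone (h3.le.trans h2)
          rwa [cf] at this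
        have h5 := (a ^ i).monotone h4
        rw [zpow_fix i af] at h5
        exact (min_le_right _ _).trans h5
    · rw [min_eq_right h1.le] at ih'
      rcases le_total (u f) f with h2 | h2
      · exact absurd (le_f_of hsf af h2 l) (not_le.mpr h1)
      · have h3 : f ≤ u (ev a (c * u) l s) := h2.trans (u.monotone ih')
        have h4 : f ≤ c (u (ev a (c * u) l s)) := by
          have := c.monotone h3
          rwa [cf] at this
        have h5 := (a ^ i).monotone h4
        rw [zpow_fix i af] at h5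
        exact (min_le_right _ _).trans h5

theorem core_le (hes : e ≤ s) (hsf : s ≤ f) (ae : a e = e) (af : a f = f) (cf : c f = f)
    (hc : ∀ z, e ≤ z → z ≤ f → z ≤ c z) (l : List ℤ) (h : s ≤ ev a u l s) :
    s ≤ ev a (c * u) l s :=
  (le_min h hsf).trans (core_min hes hsf ae af cf hc l (hes.trans h))

/-- The strict form. -/
theorem core_lt (hes : e ≤ s) (hsf : s ≤ f) (ae : a e = e) (af : a f = f) (cf : c f = f)
    (hc : ∀ z, e ≤ z → z ≤ f → z ≤ c z) (l : List ℤ) (h : s < ev a u l s) :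
    s < ev a (c * u) l s := by
  rcases lt_or_eq_of_le hsf with h1 | h1
  · exact (lt_min h h1).trans_le (core_min hes hsf ae af cf hc l (hes.trans h.le))
  · subst h1
    have hus : s < u s := by
      by_contra hn
      exact absurd (le_f_of (le_refl s) af (not_lt.mp hn) l) (not_le.mpr h)
    cases l with
    | nil => exact absurd h (lt_irrefl _)
    | cons i l =>
      have hall : ∀ l : List ℤ, s ≤ ev a (c * u) l s := by
        intro l
        induction l with
        | nil => exact le_refl _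
        | cons j l ih =>
          rw [ev_cons, RelIso.mul_apply, RelIso.mul_apply, RelIso.mul_apply]
          have h2 : s ≤ u (ev a (c * u) l s) := hus.le.trans (u.monotone ih)
          have h3 := (a ^ j).monotone (c.monotone h2)
          rwa [cf, zpow_fix j af] at h3
      rw [ev_cons, RelIso.mul_apply, RelIso.mul_apply, RelIso.mul_apply]
      have h2 : s < u (ev a (c * u) l s) := hus.trans_le (u.monotone (hall l))
      have h3 := (a ^ i).strictMono (c.strictMono h2)
      rwa [cf, zpow_fix i af] at h3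

end Core

section Hull

variable {Ω : Type*} [CompleteLinearOrder Ω]

/-- The upper end of the hull of the orbit. -/
def hiE (a : Ω ≃o Ω) (s : Ω) : Ω := ⨆ n : ℕ, (a ^ n) s

/-- The lower end of the hull of the orbit. -/
def loE (a : Ω ≃o Ω) (s : Ω) : Ω := ⨅ n : ℕ, (a⁻¹ ^ n) s

variable {a c : Ω ≃o Ω} {s : Ω}

lemma le_hiE (a : Ω ≃o Ω) (s : Ω) (n : ℕ) : (a ^ n) s ≤ hiE a s :=
  le_iSup (fun n : ℕ => (a ^ n) s) n

lemma loE_le (a : Ω ≃o Ω) (s : Ω) (n : ℕ) : loE a s ≤ (a⁻¹ ^ n) s :=
  iInf_le (fun n : ℕ => (a⁻¹ ^ n) s) n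

lemma s_le_hiE (a : Ω ≃o Ω) (s : Ω) : s ≤ hiE a s := le_hiE a s 0

lemma loE_le_s (a : Ω ≃o Ω) (s : Ω) : loE a s ≤ s := loE_le a s 0

lemma hiE_fix (h : s ≤ a s) : a (hiE a s) = hiE a s := by
  apply le_antisymm
  · rw [hiE, a.map_iSup]
    apply iSup_le
    intro n
    rw [← RelIso.mul_apply, ← pow_succ']
    exact le_hiE a s (n + 1)
  · rw [hiE, a.map_iSup]
    apply iSup_le
    intro n
    refine le_trans ?_ (le_iSup _ n)
    rw [← RelIso.mul_apply, ← pow_succ', pow_succ, RelIso.mul_apply]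
    exact (a ^ n).monotone h

lemma loE_fix (h : s ≤ a s) : a (loE a s) = loE a s := by
  have h1 : a⁻¹ s ≤ s := inv_le_of_ge h
  have h2 : a⁻¹ (loE a s) = loE a s := by
    apply le_antisymm
    · rw [loE, (a⁻¹).map_iInf]
      apply le_iInf
      intro n
      refine le_trans (iInf_le _ n) ?_
      rw [← RelIso.mul_apply, ← pow_succ', pow_succ, RelIso.mul_apply]
      exact (a⁻¹ ^ n).monotone h1
    · rw [loE, (a⁻¹).map_iInf]
      apply le_iInf
      intro n
      rw [← RelIso.mul_apply, ← pow_succ']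
      exact loE_le a s (n + 1)
  have h3 := congrArg (⇑a) h2
  rw [RelIso.apply_inv_self] at h3
  exact h3.symm

lemma hull_up (h : s ≤ a s) {z : Ω} (h1 : loE a s ≤ z) (h2 : z ≤ hiE a s) : z ≤ a z := by
  rcases lt_or_eq_of_le h1 with h3 | h3
  · rcases lt_or_eq_of_le h2 with h4 | h4
    · by_contra hn
      push Not at hn
      have hdn : ∀ n : ℕ, (a ^ n) z ≤ z := fun n => pow_le hn.le n
      obtain ⟨m, hm⟩ := iInf_lt_iff.mp h3
      change (a⁻¹ ^ m) s < z at hm
      apply absurd h4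
      rw [not_lt]
      apply iSup_le
      intro n
      have h5 := (a ^ (n + m)).monotone hm.le
      have h6 : (a ^ (n + m)) ((a⁻¹ ^ m) s) = (a ^ n) s := by
        rw [pow_add, RelIso.mul_apply, inv_pow, RelIso.apply_inv_self]
      rw [h6] at h5
      exact h5.trans (hdn _)
    · rw [h4, hiE_fix h]
  · rw [← h3, loE_fix h]

/-- `c` commutes with `a`, moves in the direction of `a`, and no farther than a power of `a`. -/
structure Pos (c a : Ω ≃o Ω) : Prop where
  comm : c * a = a * c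
  up : ∀ s, s ≤ a s → s ≤ c s ∧ ∃ n : ℕ, c s ≤ (a ^ n) s
  dn : ∀ s, a s ≤ s → c s ≤ s ∧ ∃ n : ℕ, (a ^ n) s ≤ c s

lemma Pos.hi (h : Pos c a) (hs : s ≤ a s) : c (hiE a s) = hiE a s := by
  obtain ⟨h1, n, hn⟩ := h.up s hs
  have hc : ∀ k : ℕ, c ((a ^ k) s) = (a ^ k) (c s) := by
    intro k
    have : Commute c (a ^ k) := (show Commute c a from h.comm).pow_right k
    rw [← RelIso.mul_apply, this.eq, RelIso.mul_apply]
  apply le_antisymm
  · rw [hiE, c.map_iSup]
    apply iSup_le
    intro k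
    rw [hc]
    have h2 : (a ^ k) (c s) ≤ (a ^ (k + n)) s := by
      rw [pow_add, RelIso.mul_apply]
      exact (a ^ k).monotone hn
    exact h2.trans (le_hiE a s _)
  · rw [hiE, c.map_iSup]
    apply iSup_le
    intro k
    refine le_trans ?_ (le_iSup _ k)
    rw [hc]
    exact (a ^ k).monotone h1

lemma Pos.lo (h : Pos c a) (hs : s ≤ a s) : c (loE a s) = loE a s := by
  obtain ⟨h1, n, hn⟩ := h.up s hs
  have hc : ∀ k : ℕ, c ((a⁻¹ ^ k) s) = (a⁻¹ ^ k) (c s) := by
    intro k
    have : Commute c (a⁻¹ ^ k) := ((show Commute c a from h.comm).inv_right).pow_right k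
    rw [← RelIso.mul_apply, this.eq, RelIso.mul_apply]
  apply le_antisymm
  · rw [loE, c.map_iInf]
    apply le_iInf
    intro k
    refine le_trans (iInf_le _ (k + n)) ?_
    rw [hc, pow_add, RelIso.mul_apply]
    apply (a⁻¹ ^ k).monotone
    have h2 := (a⁻¹ ^ n).monotone hn
    rw [inv_pow, RelIso.inv_apply_self] at h2
    rw [inv_pow]
    exact h2
  · rw [loE, c.map_iInf]
    apply le_iInf
    intro k
    rw [hc]
    exact (loE_le a s k).trans ((a⁻¹ ^ k).monotone h1)

lemma Pos.hull (h : Pos c a) (hs : s ≤ a s) {z : Ω} (h1 : loE a s ≤ z) (h2 : z ≤ hiE a s) :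
    z ≤ c z := (h.up z (hull_up hs h1 h2)).1

/-- The effect of replacing `u` by `c u`, with `c` positive, at a point which `a` moves up. -/
theorem Pos.core_le (h : Pos c a) (hs : s ≤ a s) {u : Ω ≃o Ω} (l : List ℤ)
    (h1 : s ≤ ev a u l s) : s ≤ ev a (c * u) l s :=
  Rot.core_le (loE_le_s a s) (s_le_hiE a s) (loE_fix hs) (hiE_fix hs) (h.hi hs)
    (fun _ g1 g2 => h.hull hs g1 g2) l h1

theorem Pos.core_lt (h : Pos c a) (hs : s ≤ a s) {u : Ω ≃o Ω} (l : List ℤ)
    (h1 : s < ev a u l s) : s < ev a (c * u) l s :=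
  Rot.core_lt (loE_le_s a s) (s_le_hiE a s) (loE_fix hs) (hiE_fix hs) (h.hi hs)
    (fun _ g1 g2 => h.hull hs g1 g2) l h1

/-- At a given point, `a ^ n c⁻¹` is positive on the hull for large `n`. -/
theorem Pos.rev (h : Pos c a) (hs : s ≤ a s) : ∃ n : ℕ, ∀ (u : Ω ≃o Ω) (l : List ℤ),
    (s ≤ ev a u l s → s ≤ ev a (a ^ n * c⁻¹ * u) l s) ∧
    (s < ev a u l s → s < ev a (a ^ n * c⁻¹ * u) l s) := by
  obtain ⟨h1, n, hn⟩ := h.up s hs
  have hcc : ∀ k : ℤ, c * a ^ k = a ^ k * c := fun k =>
    ((show Commute c a from h.comm).zpow_right k).eq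
  have key : ∀ z, loE a s ≤ z → z ≤ hiE a s → c z ≤ (a ^ (n + 1)) z := by
    intro z g1 g2
    rcases lt_or_eq_of_le g1 with h3 | h3
    · rcases lt_or_eq_of_le g2 with h4 | h4
      · obtain ⟨p, hp⟩ := lt_iSup_iff.mp h4
        obtain ⟨q, hq⟩ := iInf_lt_iff.mp h3
        -- the largest `k ≤ p + q` with `a ^ (k - q) s ≤ z`
        have hex : ∃ k : ℕ, (a⁻¹ ^ q) ((a ^ k) s) ≤ z ∧ z ≤ (a⁻¹ ^ q) ((a ^ (k + 1)) s) := by
          by_contra hcon
          push Not at hcon
          have hall : ∀ k : ℕ, (a⁻¹ ^ q) ((a ^ k) s) ≤ z := by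
            intro k
            induction k with
            | zero => exact hq.le
            | succ k ih => exact (hcon k ih).le
          have h5 := hall (p + q)
          have h6 : (a⁻¹ ^ q) ((a ^ (p + q)) s) = (a ^ p) s := by
            rw [add_comm p q, pow_add, RelIso.mul_apply, inv_pow, RelIso.inv_apply_self]
          rw [h6] at h5
          exact absurd hp (not_lt.mpr h5)
        obtain ⟨k, hk1, hk2⟩ := hex
        have e1 : c ((a⁻¹ ^ q) ((a ^ (k + 1)) s)) = (a⁻¹ ^ q) ((a ^ (k + 1)) (c s)) := by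
          have c1 : Commute c (a⁻¹ ^ q * a ^ (k + 1)) :=
            (((show Commute c a from h.comm).inv_right).pow_right q).mul_right
              ((show Commute c a from h.comm).pow_right _)
          have := congrArg (fun x : Ω ≃o Ω => x s) c1.eq
          exact this
        have h7 : c z ≤ (a⁻¹ ^ q) ((a ^ (k + 1)) (c s)) := by
          rw [← e1]; exact c.monotone hk2
        have h8 : (a⁻¹ ^ q) ((a ^ (k + 1)) (c s)) ≤ (a⁻¹ ^ q) ((a ^ (k + 1)) ((a ^ n) s)) :=
          (a⁻¹ ^ q).monotone ((a ^ (k + 1)).monotone hn)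
        have h9 : (a⁻¹ ^ q) ((a ^ (k + 1)) ((a ^ n) s)) =
            (a ^ (n + 1)) ((a⁻¹ ^ q) ((a ^ k) s)) := by
          have c1 : Commute (a⁻¹ ^ q) (a ^ (n + 1)) :=
            ((Commute.refl a).inv_left.pow_left q).pow_right _
          have e2 : a⁻¹ ^ q * (a ^ (k + 1) * a ^ n) = a ^ (n + 1) * (a⁻¹ ^ q * a ^ k) := by
            rw [← mul_assoc (a ^ (n + 1)), ← c1.eq, mul_assoc, ← pow_add, ← pow_add]
            congr 2
            ring
          exact congrArg (fun x : Ω ≃o Ω => x s) e2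
        rw [h9] at h8
        exact h7.trans (h8.trans ((a ^ (n + 1)).monotone hk1))
      · rw [h4, h.hi hs]
        exact (pow_fix' _ (hiE_fix hs)).ge
    · rw [← h3, h.lo hs]
      exact (pow_fix' _ (loE_fix hs)).ge
  refine ⟨n + 1, fun u l => ?_⟩
  have cf : (a ^ (n + 1) * c⁻¹) (hiE a s) = hiE a s := by
    rw [RelIso.mul_apply, inv_fix (h.hi hs), pow_fix' _ (hiE_fix hs)]
  have hc : ∀ z, loE a s ≤ z → z ≤ hiE a s → z ≤ (a ^ (n + 1) * c⁻¹) z := by
    intro z g1 g2
    have g1' : loE a s ≤ c⁻¹ z := by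
      have := (c⁻¹).monotone g1
      rwa [inv_fix (h.lo hs)] at this
    have g2' : c⁻¹ z ≤ hiE a s := by
      have := (c⁻¹).monotone g2
      rwa [inv_fix (h.hi hs)] at this
    have h5 := key (c⁻¹ z) g1' g2'
    rwa [RelIso.apply_inv_self] at h5
  exact ⟨Rot.core_le (loE_le_s a s) (s_le_hiE a s) (loE_fix hs) (hiE_fix hs) cf hc l,
    Rot.core_lt (loE_le_s a s) (s_le_hiE a s) (loE_fix hs) (hiE_fix hs) cf hc l⟩

end Hull

end Pool.Agent.Helper71.Rot
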