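import Mathlib
import Pool.Agent.Helper71.RotCore

/-!
The sequence of elements attached to the dyadic numbers by a pair of group elements.
-/

set_option autoImplicit false

namespace Pool.Agent.Helper71.Rot

section Line

variable {Γ : Type*} [Group Γ]

/-- The boundary element of a frame. -/
def dd (f : Γ × Γ) : Γ := f.1 * f.2⁻¹ * f.1⁻¹ * f.2

/-- Rotation of a frame. -/
def R : Equiv.Perm (Γ × Γ) where
  toFun f := (f.1 * f.2⁻¹ * f.1⁻¹, f.1)
  invFun f := (f.2, f.2⁻¹ * f.1⁻¹ * f.2)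
  left_inv f := by
    apply Prod.ext
    · rfl
    · change f.1⁻¹ * (f.1 * f.2⁻¹ * f.1⁻¹)⁻¹ * f.1 = f.2
      group
  right_inv f := by
    apply Prod.ext
    · change f.2 * (f.2⁻¹ * f.1⁻¹ * f.2)⁻¹ * f.2⁻¹ = f.1
      group
    · rfl

/-- The grid of a frame. -/
def G (f : Γ × Γ) (k : ℤ) : Γ := ((R ^ k) f).1

lemma R_symm_fst (f : Γ × Γ) : (R⁻¹ f).1 = f.2 := rfl

lemma G_zero (f : Γ × Γ) : G f 0 = f.1 := rfl

lemma R_pow_snd (f : Γ × Γ) (k : ℤ) : ((R ^ k) f).2 = G f (k - 1) := by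
  rw [G, sub_eq_neg_add, zpow_add, zpow_neg_one, Equiv.Perm.mul_apply]
  rfl

lemma G_neg_one (f : Γ × Γ) : G f (-1) = f.2 := by
  have := R_pow_snd f 0
  rw [zero_sub] at this
  rw [← this]
  rfl

lemma dd_R (f : Γ × Γ) : dd (R f) = dd f := by
  change f.1 * f.2⁻¹ * f.1⁻¹ * f.1⁻¹ * (f.1 * f.2⁻¹ * f.1⁻¹)⁻¹ * f.1 = f.1 * f.2⁻¹ * f.1⁻¹ * f.2
  group

lemma dd_R_zpow (f : Γ × Γ) (k : ℤ) : dd ((R ^ k) f) = dd f := by
  have hinv : ∀ g : Γ × Γ, dd (R⁻¹ g) = dd g := by
    intro g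
    have h1 := dd_R (R⁻¹ g)
    have h2 : R (R⁻¹ g) = g := R.apply_symm_apply g
    rw [h2] at h1
    exact h1.symm
  induction k with
  | zero => rfl
  | succ n ih => rw [add_comm, zpow_add, zpow_one, Equiv.Perm.mul_apply, dd_R, ih]
  | pred n ih =>
    rw [sub_eq_neg_add, zpow_add, zpow_neg_one, Equiv.Perm.mul_apply, hinv, ih]

lemma G_succ (f : Γ × Γ) (k : ℤ) : G f (k + 1) = G f k * (G f (k - 1))⁻¹ * (G f k)⁻¹ := by
  have h1 : (R ^ (k + 1)) f = R ((R ^ k) f) := by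
    rw [add_comm, zpow_add, zpow_one, Equiv.Perm.mul_apply]
  rw [G, h1]
  change ((R ^ k) f).1 * ((R ^ k) f).2⁻¹ * ((R ^ k) f).1⁻¹ = _
  rw [R_pow_snd]
  rfl

lemma G_com (f : Γ × Γ) (k : ℤ) :
    G f (k + 1) * (G f k)⁻¹ * (G f (k + 1))⁻¹ * G f k = dd f := by
  have h := dd_R_zpow f (k + 1)
  unfold dd at h
  rw [R_pow_snd, add_sub_cancel_right] at h
  exact h

lemma G_per (f : Γ × Γ) (k : ℤ) : G f (k + 2) * G f k = dd f := by
  have h := G_succ f (k + 1)
  rw [add_assoc, show (1 : ℤ) + 1 = 2 by norm_num, add_sub_cancel_right] at h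
  rw [h]
  exact G_com f k

/-- The relations of the sequence at a level of refinement. -/
structure Sq (N : ℤ) (d : Γ) (c : ℤ → Γ) : Prop where
  per : ∀ k, c (k + N) * c k = d
  com : ∀ k, c (k + 1) * (c k)⁻¹ * (c (k + 1))⁻¹ * c k = d

/-- The refinement of a sequence. -/
def ref (c : ℤ → Γ) (k : ℤ) : Γ := if k % 2 = 0 then c (k / 2) else c (k / 2 + 1) * c (k / 2)

lemma ref_even (c : ℤ → Γ) (k : ℤ) : ref c (2 * k) = c k := by
  have h1 : (2 * k) % 2 = 0 := by omega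
  have h2 : (2 * k) / 2 = k := by omega
  rw [ref, if_pos h1, h2]

lemma ref_odd (c : ℤ → Γ) (k : ℤ) : ref c (2 * k + 1) = c (k + 1) * c k := by
  have h1 : ¬ (2 * k + 1) % 2 = 0 := by omega
  have h2 : (2 * k + 1) / 2 = k := by omega
  rw [ref, if_neg h1, h2]

lemma Sq.id2 {N : ℤ} {d : Γ} {c : ℤ → Γ} (h : Sq N d c) (k : ℤ) :
    c (k + N) * c (k + 1) * c k = c (k + 1) := by
  have h1 : c (k + N) = d * (c k)⁻¹ := eq_mul_inv_of_mul_eq (h.per k)
  rw [h1, ← h.com k]
  group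

lemma Sq.id3 {N : ℤ} {d : Γ} {c : ℤ → Γ} (h : Sq N d c) (k : ℤ) :
    c (k + 1) * c k * c (k + 1 - N) = c k := by
  have h1 : c (k + 1 - N) = (c (k + 1))⁻¹ * d := by
    have := h.per (k + 1 - N)
    rw [sub_add_cancel] at this
    exact eq_inv_mul_of_mul_eq this
  rw [h1, ← h.com k]
  group

lemma Sq.ref {N : ℤ} {d : Γ} {c : ℤ → Γ} (h : Sq N d c) : Sq (2 * N) d (ref c) := by
  constructor
  · intro k
    rcases Int.even_or_odd' k with ⟨i, rfl | rfl⟩
    · rw [← mul_add, ref_even, ref_even, h.per]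
    · have e1 : 2 * i + 1 + 2 * N = 2 * (i + N) + 1 := by ring
      rw [e1, ref_odd, ref_odd]
      have e2 := h.id2 i
      have e3 := h.per (i + 1)
      rw [mul_assoc] at e2
      rw [mul_assoc, e2, show i + N + 1 = i + 1 + N by ring, e3]
  · intro k
    rcases Int.even_or_odd' k with ⟨i, rfl | rfl⟩
    · rw [ref_odd, ref_even]
      have e2 := h.com i
      rw [← e2]
      group
    · have e1 : 2 * i + 1 + 1 = 2 * (i + 1) := by ring
      rw [e1, ref_even, ref_odd]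
      have e2 := h.com i
      rw [← e2]
      group

/-- The sequence of the frame at level `n`. -/
def X (f : Γ × Γ) : ℕ → ℤ → Γ
  | 0 => G f
  | n + 1 => ref (X f n)

lemma X_zero (f : Γ × Γ) : X f 0 = G f := rfl

lemma X_succ (f : Γ × Γ) (n : ℕ) : X f (n + 1) = ref (X f n) := rfl

lemma X_sq (f : Γ × Γ) (n : ℕ) : Sq (2 ^ (n + 1)) (dd f) (X f n) := by
  induction n with
  | zero =>
    refine ⟨fun k => ?_, fun k => ?_⟩
    · have := G_per f k
      rw [X_zero, show (2 : ℤ) ^ (0 + 1) = 2 by norm_num]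
      exact this
    · exact G_com f k
  | succ n ih =>
    have := ih.ref
    rw [X_succ, pow_succ, mul_comm]
    exact this

lemma X_lift (f : Γ × Γ) (n m : ℕ) (k : ℤ) : X f (n + m) (2 ^ m * k) = X f n k := by
  induction m with
  | zero => simp
  | succ m ih =>
    rw [← add_assoc, X_succ, pow_succ, mul_comm ((2 : ℤ) ^ m) 2, mul_assoc, ref_even, ih]

lemma G_shift (f : Γ × Γ) (j k : ℤ) : G ((R ^ j) f) k = G f (k + j) := by
  rw [G, G, zpow_add, Equiv.Perm.mul_apply]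

lemma X_shift (f : Γ × Γ) (j : ℤ) (n : ℕ) (k : ℤ) :
    X ((R ^ j) f) n k = X f n (k + j * 2 ^ n) := by
  induction n generalizing k with
  | zero => rw [X_zero, X_zero, G_shift, pow_zero, mul_one]
  | succ n ih =>
    rw [X_succ, X_succ]
    rcases Int.even_or_odd' k with ⟨i, rfl | rfl⟩
    · rw [ref_even, ih, show 2 * i + j * 2 ^ (n + 1) = 2 * (i + j * 2 ^ n) by ring, ref_even]
    · rw [ref_odd, ih, ih, show 2 * i + 1 + j * 2 ^ (n + 1) = 2 * (i + j * 2 ^ n) + 1 by ring,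
        ref_odd, show i + 1 + j * 2 ^ n = i + j * 2 ^ n + 1 by ring]

/-- Refinement is local. -/
lemma ref_local {c c' : ℤ → Γ} {p q : ℤ} {L : ℤ}
    (h : ∀ i : ℤ, 0 ≤ i → i ≤ L → c (p + i) = c' (q + i)) :
    ∀ i : ℤ, 0 ≤ i → i ≤ 2 * L → ref c (2 * p + i) = ref c' (2 * q + i) := by
  intro i h1 h2
  rcases Int.even_or_odd' i with ⟨j, rfl | rfl⟩
  · rw [← mul_add, ← mul_add, ref_even, ref_even]
    exact h j (by omega) (by omega)
  · rw [← add_assoc, ← add_assoc, ← mul_add, ← mul_add, ref_odd, ref_odd]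
    rw [add_assoc, add_assoc, h j (by omega) (by omega), h (j + 1) (by omega) (by omega)]

/-- The level `n + m` is obtained from the level `m` by `n` refinements, locally. -/
lemma X_local {f f' : Γ × Γ} {m m' : ℕ} {p q L : ℤ}
    (h : ∀ i : ℤ, 0 ≤ i → i ≤ L → X f m (p + i) = X f' m' (q + i)) (n : ℕ) :
    ∀ i : ℤ, 0 ≤ i → i ≤ 2 ^ n * L → X f (m + n) (2 ^ n * p + i) =
      X f' (m' + n) (2 ^ n * q + i) := by
  induction n with
  | zero => simpa using h
  | succ n ih =>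
    have := ref_local ih
    intro i h1 h2
    rw [← add_assoc, ← add_assoc, X_succ, X_succ, pow_succ, mul_comm ((2 : ℤ) ^ n) 2,
      mul_assoc, mul_assoc]
    apply this i h1
    rw [pow_succ] at h2
    linarith

variable (a u : Γ)

lemma X_at_zero (n : ℕ) : X (a, u) n 0 = a := by
  induction n with
  | zero => rfl
  | succ n ih =>
    have := ref_even (X (a, u) n) 0
    rw [mul_zero] at this
    rw [X_succ, this, ih]

lemma G_neg_two : G (a, u) (-2) = u⁻¹ * a⁻¹ * u := by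
  have h := G_per (a, u) (-2)
  rw [neg_add_cancel, G_zero] at h
  have h2 : G (a, u) (-2) = a⁻¹ * dd (a, u) := eq_inv_mul_of_mul_eq h
  rw [h2]
  change a⁻¹ * (a * u⁻¹ * a⁻¹ * u) = _
  group

lemma X_at_bot (n : ℕ) : X (a, u) n (-2 ^ (n + 1)) = u⁻¹ * a⁻¹ * u := by
  have h := X_lift (a, u) 0 n (-2)
  rw [zero_add, X_zero, G_neg_two] at h
  rw [← h, show (2 : ℤ) ^ n * -2 = -2 ^ (n + 1) by ring]

lemma X_at_neg_one (n : ℕ) : X (a, u) n (-1) = a ^ n * u := by
  induction n with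
  | zero => rw [X_zero, G_neg_one, pow_zero, one_mul]
  | succ n ih =>
    have := ref_odd (X (a, u) n) (-1)
    rw [show (2 : ℤ) * -1 + 1 = -1 by norm_num, show (-1 : ℤ) + 1 = 0 by norm_num,
      X_at_zero, ih] at this
    rw [X_succ, this, pow_succ', mul_assoc]

lemma X_at_bot_one (n : ℕ) : X (a, u) n (-2 ^ (n + 1) + 1) = a ^ (-(n : ℤ)) * u := by
  induction n with
  | zero =>
    have e : (-2 ^ (0 + 1) + 1 : ℤ) = -1 := by norm_num
    rw [X_zero, e]
    simp [G_neg_one]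
  | succ n ih =>
    have e : (-2 ^ (n + 1 + 1) + 1 : ℤ) = 2 * (-2 ^ (n + 1)) + 1 := by ring
    rw [X_succ, e, ref_odd, ih, X_at_bot]
    push_cast
    rw [neg_add, zpow_add]
    group

/-- In the window `(-2, 0)` the elements are words `a ^ i u a ^ j u ⋯`. -/
lemma exists_ev (n : ℕ) : ∀ k : ℤ, -2 ^ (n + 1) < k → k < 0 →
    ∃ l : List ℤ, ∀ a u : Γ, X (a, u) n k = ev a u l := by
  induction n with
  | zero =>
    intro k h1 h2
    have : k = -1 := by
      norm_num at h1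
      omega
    subst this
    exact ⟨[0], fun a u => by rw [X_zero, G_neg_one]; simp [ev]⟩
  | succ n ih =>
    intro k h1 h2
    rcases Int.even_or_odd' k with ⟨i, rfl | rfl⟩
    · obtain ⟨l, hl⟩ := ih i (by rw [pow_succ] at h1; linarith) (by omega)
      exact ⟨l, fun a u => by rw [X_succ, ref_even, hl]⟩
    · by_cases h3 : i = -1
      · subst h3
        refine ⟨[(n : ℤ) + 1], fun a u => ?_⟩
        rw [show (2 : ℤ) * -1 + 1 = -1 by norm_num, X_at_neg_one]
        simp only [ev, List.map_cons, List.map_nil, List.prod_cons, List.prod_nil, mul_one]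
        rw [show (n : ℤ) + 1 = ((n + 1 : ℕ) : ℤ) by push_cast; ring, zpow_natCast]
      · by_cases h4 : i = -2 ^ (n + 1)
        · refine ⟨[-((n : ℤ) + 1)], fun a u => ?_⟩
          have e : 2 * i + 1 = -2 ^ (n + 1 + 1) + 1 := by rw [h4]; ring
          rw [e, X_at_bot_one]
          simp only [ev, List.map_cons, List.map_nil, List.prod_cons, List.prod_nil, mul_one]
          push_cast
          rfl
        · have h6 : -2 ^ (n + 1) < i := by
            have h7 : -2 ^ (n + 1) ≤ i := by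
              rw [pow_succ (2 : ℤ) (n + 1)] at h1
              linarith
            exact lt_of_le_of_ne h7 (Ne.symm h4)
          obtain ⟨l, hl⟩ := ih i h6 (by omega)
          obtain ⟨l', hl'⟩ := ih (i + 1) (by linarith) (by omega)
          exact ⟨l' ++ l, fun a u => by rw [X_succ, ref_odd, hl, hl', ev_append]⟩

end Line

end Pool.Agent.Helper71.Rot
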