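import Mathlib
import Pool.Agent.Helper71.RotLine

/-!
The set of dyadic numbers whose elements move a point down consists of intervals of length two.
-/

set_option autoImplicit false

namespace Pool.Agent.Helper71.Rot

open Pool.Agent.Helper31.OrderAct

section Dyadic

/-- Dyadic real numbers. -/
def Dy (x : ℝ) : Prop := ∃ (n : ℕ) (k : ℤ), x = k / 2 ^ n

lemma Dy.exists_ge {x : ℝ} (h : Dy x) : ∃ n₀ : ℕ, ∀ n, n₀ ≤ n → ∃ k : ℤ, x = k / 2 ^ n := by
  obtain ⟨n, k, rfl⟩ := h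
  refine ⟨n, fun m hm => ⟨2 ^ (m - n) * k, ?_⟩⟩
  obtain ⟨j, rfl⟩ := Nat.exists_eq_add_of_le hm
  rw [Nat.add_sub_cancel_left, pow_add]
  push_cast
  have h1 : (2 : ℝ) ^ n ≠ 0 := by positivity
  have h2 : (2 : ℝ) ^ j ≠ 0 := by positivity
  field_simp

lemma Dy.int (k : ℤ) : Dy (k : ℝ) := ⟨0, k, by simp⟩

lemma Dy.add_int {x : ℝ} (h : Dy x) (j : ℤ) : Dy (x + j) := by
  obtain ⟨n, k, rfl⟩ := h
  refine ⟨n, k + j * 2 ^ n, ?_⟩
  push_cast
  field_simp

lemma exists_dy {α β : ℝ} (h : α < β) : ∃ x, Dy x ∧ α < x ∧ x < β := by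
  obtain ⟨n, hn⟩ := pow_unbounded_of_one_lt (1 / (β - α)) (show (1 : ℝ) < 2 by norm_num)
  have hpos : (0 : ℝ) < 2 ^ n := by positivity
  have hb : 0 < β - α := sub_pos.mpr h
  have h1 : 1 < 2 ^ n * (β - α) := by
    rw [div_lt_iff₀ hb] at hn
    exact hn
  refine ⟨(⌊α * 2 ^ n⌋ + 1 : ℤ) / 2 ^ n, ⟨n, _, rfl⟩, ?_, ?_⟩
  · rw [lt_div_iff₀ hpos]
    push_cast
    exact Int.lt_floor_add_one _
  · rw [div_lt_iff₀ hpos]
    push_cast
    have := Int.floor_le (α * 2 ^ n)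
    nlinarith

end Dyadic

section Val

variable {Γ : Type*} [Group Γ]

open Classical in
/-- The element attached to a dyadic number. -/
noncomputable def V (f : Γ × Γ) (x : ℝ) : Γ :=
  if h : ∃ p : ℕ × ℤ, x = p.2 / 2 ^ p.1 then X f h.choose.1 h.choose.2 else 1

lemma V_eq (f : Γ × Γ) {x : ℝ} {n : ℕ} {k : ℤ} (h : x = k / 2 ^ n) : V f x = X f n k := by
  have hex : ∃ p : ℕ × ℤ, x = p.2 / 2 ^ p.1 := ⟨(n, k), h⟩
  rw [V, dif_pos hex]
  have h1 := hex.choose_spec
  set p := hex.choose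
  have h2 : (2 : ℤ) ^ n * p.2 = 2 ^ p.1 * k := by
    have h3 : (2 : ℝ) ^ n ≠ 0 := by positivity
    have h4 : (2 : ℝ) ^ p.1 ≠ 0 := by positivity
    rw [h1] at h
    field_simp at h
    have h5 : ((2 ^ n * p.2 : ℤ) : ℝ) = ((2 ^ p.1 * k : ℤ) : ℝ) := by
      push_cast
      linarith
    exact_mod_cast h5
  rw [← X_lift f p.1 n p.2, ← X_lift f n p.1 k, h2, add_comm]

lemma V_shift (f : Γ × Γ) (j : ℤ) {x : ℝ} (h : Dy x) : V ((R ^ j) f) x = V f (x + j) := by
  obtain ⟨n, k, rfl⟩ := h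
  have e : (k / 2 ^ n + j : ℝ) = ((k + j * 2 ^ n : ℤ) : ℝ) / 2 ^ n := by
    push_cast
    field_simp
  rw [V_eq _ rfl, X_shift, V_eq f e]

lemma V_per (f : Γ × Γ) {x : ℝ} (h : Dy x) : V f (x + 2) * V f x = dd f := by
  obtain ⟨n, k, rfl⟩ := h
  have e : (k / 2 ^ n + 2 : ℝ) = ((k + 2 ^ (n + 1) : ℤ) : ℝ) / 2 ^ n := by
    push_cast
    rw [pow_succ]
    field_simp
  rw [V_eq f e, V_eq f rfl]
  exact (X_sq f n).per k

lemma V_zero (a u : Γ) : V (a, u) 0 = a := by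
  rw [V_eq (a, u) (n := 0) (k := 0) (by simp)]
  rfl

lemma V_neg_one (a u : Γ) : V (a, u) (-1) = u := by
  rw [V_eq (a, u) (n := 0) (k := -1) (by simp)]
  exact G_neg_one _

lemma V_neg_two (a u : Γ) : V (a, u) (-2) = u⁻¹ * a⁻¹ * u := by
  rw [V_eq (a, u) (n := 0) (k := -2) (by simp)]
  exact G_neg_two a u

lemma V_ev {x : ℝ} (h : Dy x) (h1 : -2 < x) (h2 : x < 0) :
    ∃ l : List ℤ, ∀ a u : Γ, V (a, u) x = ev a u l := by
  obtain ⟨n, k, rfl⟩ := h
  have hpos : (0 : ℝ) < 2 ^ n := by positivity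
  rw [lt_div_iff₀ hpos] at h1
  rw [div_lt_iff₀ hpos, zero_mul] at h2
  have h1' : -2 ^ (n + 1) < k := by
    have : ((-2 ^ (n + 1) : ℤ) : ℝ) < (k : ℝ) := by
      push_cast
      rw [pow_succ]
      linarith
    exact_mod_cast this
  have h2' : k < 0 := by exact_mod_cast h2
  obtain ⟨l, hl⟩ := exists_ev (Γ := Γ) n k h1' h2'
  exact ⟨l, fun a u => by rw [V_eq (a, u) rfl]; exact hl a u⟩

lemma V_conj (f : Γ × Γ) (g : Γ) (x : ℝ) :
    V (g * f.1 * g⁻¹, g * f.2 * g⁻¹) x = g * V f x * g⁻¹ := by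
  have hG : ∀ k : ℤ, (R ^ k) (g * f.1 * g⁻¹, g * f.2 * g⁻¹) =
      (g * ((R ^ k) f).1 * g⁻¹, g * ((R ^ k) f).2 * g⁻¹) := by
    intro k
    induction k with
    | zero => rfl
    | succ n ih =>
      rw [add_comm, zpow_add, zpow_one, Equiv.Perm.mul_apply, Equiv.Perm.mul_apply, ih]
      apply Prod.ext
      · change g * _ * g⁻¹ * (g * _ * g⁻¹)⁻¹ * (g * _ * g⁻¹)⁻¹ = g * (_ * _ * _) * g⁻¹
        group
      · rfl
    | pred n ih =>
      rw [sub_eq_neg_add, zpow_add, zpow_neg_one, Equiv.Perm.mul_apply, Equiv.Perm.mul_apply, ih]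
      apply Prod.ext
      · rfl
      · change (g * _ * g⁻¹)⁻¹ * (g * _ * g⁻¹)⁻¹ * (g * _ * g⁻¹) = g * (_ * _ * _) * g⁻¹
        group
  have hX : ∀ (n : ℕ) (k : ℤ), X (g * f.1 * g⁻¹, g * f.2 * g⁻¹) n k = g * X f n k * g⁻¹ := by
    intro n
    induction n with
    | zero =>
      intro k
      rw [X_zero, X_zero, G, hG]
      rfl
    | succ n ih =>
      intro k
      rw [X_succ, X_succ]
      rcases Int.even_or_odd' k with ⟨i, rfl | rfl⟩
      · rw [ref_even, ref_even, ih]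
      · rw [ref_odd, ref_odd, ih, ih]
        group
  by_cases h : ∃ p : ℕ × ℤ, x = p.2 / 2 ^ p.1
  · obtain ⟨⟨n, k⟩, hk⟩ := h
    rw [V_eq _ hk, V_eq _ hk, hX]
  · rw [V, V, dif_neg h, dif_neg h]
    group

end Val

section Gap

variable {Ω : Type*} [LinearOrder Ω]

lemma gap_level (f : (Ω ≃o Ω) × (Ω ≃o Ω)) (s : Ω) (n : ℕ) : ∀ (D : ℕ) (k₁ k₂ k₃ : ℤ),
    k₁ < k₂ → k₂ < k₃ → k₃ - k₁ ≤ D → s ≤ X f n k₁ s → X f n k₂ s < s → s ≤ X f n k₃ s →
    2 ^ (n + 1) ≤ k₃ - k₁ := by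
  induction n with
  | zero =>
    intro D k₁ k₂ k₃ h1 h2 _ _ _ _
    norm_num
    omega
  | succ n ihn =>
    intro D
    induction D with
    | zero =>
      intro k₁ k₂ k₃ h1 h2 h3
      exfalso
      push_cast at h3
      omega
    | succ D ihD =>
      intro k₁ k₂ k₃ h1 h2 h3 p1 p2 p3
      -- reduce to the case that everything in between moves down
      by_cases hall : ∀ k, k₁ < k → k < k₃ → X f (n + 1) k s < s
      swap
      · push Not at hall
        obtain ⟨k, g1, g2, g3⟩ := hall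
        rcases lt_trichotomy k k₂ with g4 | g4 | g4
        · have := ihD k k₂ k₃ g4 h2 (by push_cast at h3; omega) g3 p2 p3
          omega
        · rw [g4] at g3
          exact absurd p2 (not_lt.mpr g3)
        · have := ihD k₁ k₂ k h1 g4 (by push_cast at h3; omega) p1 p2 g3
          omega
      have sq := X_sq f n
      have ev : ∀ i : ℤ, X f (n + 1) (2 * i) = X f n i := fun i => ref_even _ i
      have od : ∀ i : ℤ, X f (n + 1) (2 * i + 1) = X f n (i + 1) * X f n i := fun i =>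
        ref_odd _ i
      -- the lower end
      obtain ⟨i₁, hi₁, P1⟩ : ∃ i₁ : ℤ, (k₁ = 2 * i₁ ∨
          (k₁ = 2 * i₁ + 1 ∧ X f n (i₁ + 1) s < s)) ∧ s ≤ X f n i₁ s := by
        rcases Int.even_or_odd' k₁ with ⟨i, hi | hi⟩
        · refine ⟨i, Or.inl hi, ?_⟩
          rw [← ev, ← hi]
          exact p1
        · have g1 : X f n (i + 1) s < s := by
            rw [← ev]
            exact hall _ (by omega) (by omega)
          refine ⟨i, Or.inr ⟨hi, g1⟩, ?_⟩
          by_contra hn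
          push Not at hn
          rw [hi, od, RelIso.mul_apply] at p1
          exact absurd p1 (not_le.mpr (((X f n (i + 1)).strictMono hn).trans g1))
      obtain ⟨i₃, hi₃, P3⟩ : ∃ i₃ : ℤ, (k₃ = 2 * i₃ ∨
          (k₃ = 2 * i₃ - 1 ∧ X f n (i₃ - 1) s < s)) ∧ s ≤ X f n i₃ s := by
        rcases Int.even_or_odd' k₃ with ⟨i, hi | hi⟩
        · refine ⟨i, Or.inl hi, ?_⟩
          rw [← ev, ← hi]
          exact p3
        · have g1 : X f n i s < s := by
            rw [← ev]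
            exact hall _ (by omega) (by omega)
          refine ⟨i + 1, Or.inr ⟨by omega, by rw [add_sub_cancel_right]; exact g1⟩, ?_⟩
          by_contra hn
          push Not at hn
          rw [hi, od, RelIso.mul_apply] at p3
          exact absurd p3 (not_le.mpr (((X f n (i + 1)).strictMono g1).trans hn))
      -- an element in between
      have hmid : i₁ + 1 < i₃ ∧ X f n (i₁ + 1) s < s := by
        rcases hi₁ with hi₁ | ⟨hi₁, g1⟩
        · by_cases g2 : k₁ + 2 < k₃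
          · refine ⟨by omega, ?_⟩
            rw [← ev]
            exact hall _ (by omega) (by omega)
          · exfalso
            have g3 : k₃ = 2 * (i₁ + 1) := by omega
            have g4 : k₂ = 2 * i₁ + 1 := by omega
            rw [g3, ev] at p3
            rw [g4, od, RelIso.mul_apply] at p2
            exact absurd p2 (not_lt.mpr (p3.trans ((X f n (i₁ + 1)).monotone P1)))
        · refine ⟨?_, g1⟩
          by_contra hn
          have g3 : k₃ = 2 * i₁ + 2 ∨ k₃ = 2 * i₁ + 1 ∨ k₃ < 2 * i₁ + 1 := by omega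
          omega
      have hI := ihn (i₃ - i₁).toNat i₁ (i₁ + 1) i₃ (by omega) hmid.1 (by omega) P1 hmid.2 P3
      rcases lt_or_eq_of_le hI with hlt | heq
      · rw [pow_succ]
        rcases hi₁ with hi₁ | ⟨hi₁, _⟩ <;> rcases hi₃ with hi₃ | ⟨hi₃, _⟩ <;> omega
      · have e3 : i₃ = i₁ + 2 ^ (n + 1) := by omega
        have a1 : k₁ = 2 * i₁ := by
          rcases hi₁ with hi₁ | ⟨hi₁, _⟩
          · exact hi₁
          · exfalso
            rw [hi₁, od, RelIso.mul_apply] at p1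
            have id2 := sq.id2 i₁
            rw [← e3] at id2
            have g1 : X f n i₃ (X f n (i₁ + 1) (X f n i₁ s)) = X f n (i₁ + 1) s :=
              congrArg (fun x : Ω ≃o Ω => x s) id2
            have g2 := (X f n i₃).monotone p1
            rw [g1] at g2
            exact absurd (P3.trans g2) (not_le.mpr hmid.2)
        have a3 : k₃ = 2 * i₃ := by
          rcases hi₃ with hi₃ | ⟨hi₃, g0⟩
          · exact hi₃
          · exfalso
            have e4 : k₃ = 2 * (i₃ - 1) + 1 := by omega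
            rw [e4, od, RelIso.mul_apply, sub_add_cancel] at p3
            have id3 := sq.id3 (i₃ - 1)
            rw [sub_add_cancel, show i₃ - 2 ^ (n + 1) = i₁ by omega] at id3
            have g1 : X f n i₃ (X f n (i₃ - 1) (X f n i₁ s)) = X f n (i₃ - 1) s :=
              congrArg (fun x : Ω ≃o Ω => x s) id3
            have g2 := (X f n i₃).monotone ((X f n (i₃ - 1)).monotone P1)
            rw [g1] at g2
            exact absurd (p3.trans g2) (not_le.mpr g0)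
        rw [a1, a3, pow_succ]
        omega

lemma gap (f : (Ω ≃o Ω) × (Ω ≃o Ω)) {s : Ω} {x y z : ℝ} (hx : Dy x) (hy : Dy y) (hz : Dy z)
    (h1 : x < y) (h2 : y < z) (px : s ≤ V f x s) (py : V f y s < s) (pz : s ≤ V f z s) :
    2 ≤ z - x := by
  obtain ⟨n₁, g1⟩ := hx.exists_ge
  obtain ⟨n₂, g2⟩ := hy.exists_ge
  obtain ⟨n₃, g3⟩ := hz.exists_ge
  obtain ⟨k₁, e1⟩ := g1 (n₁ + n₂ + n₃) (by omega)
  obtain ⟨k₂, e2⟩ := g2 (n₁ + n₂ + n₃) (by omega)
  obtain ⟨k₃, e3⟩ := g3 (n₁ + n₂ + n₃) (by omega)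
  set n := n₁ + n₂ + n₃
  rw [V_eq f e1] at px
  rw [V_eq f e2] at py
  rw [V_eq f e3] at pz
  have hpos : (0 : ℝ) < 2 ^ n := by positivity
  rw [e1, e2, div_lt_div_iff_of_pos_right hpos] at h1
  rw [e2, e3, div_lt_div_iff_of_pos_right hpos] at h2
  have h1' : k₁ < k₂ := by exact_mod_cast h1
  have h2' : k₂ < k₃ := by exact_mod_cast h2
  have h3 := gap_level f s n (k₃ - k₁).toNat k₁ k₂ k₃ h1' h2' (by omega) px py pz
  rw [e1, e3, ← sub_div, le_div_iff₀ hpos]
  have h4 : ((2 ^ (n + 1) : ℤ) : ℝ) ≤ ((k₃ - k₁ : ℤ) : ℝ) := by exact_mod_cast h3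
  push_cast at h4
  rw [pow_succ] at h4
  linarith

/-- `φ` is the lower end of an interval of length two whose elements move `s` down. -/
def Tr (f : (Ω ≃o Ω) × (Ω ≃o Ω)) (s : Ω) (φ : ℝ) : Prop :=
  ∀ x, Dy x → φ < x → x < φ + 2 → V f x s < s

lemma neg_add_two {f : (Ω ≃o Ω) × (Ω ≃o Ω)} {s : Ω} (hd : s ≤ dd f s) {x : ℝ} (hx : Dy x)
    (h : V f x s < s) : s < V f (x + 2) s := by
  have h1 := V_per f hx
  have h2 : V f (x + 2) = dd f * (V f x)⁻¹ := eq_mul_inv_of_mul_eq h1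
  rw [h2, RelIso.mul_apply]
  exact hd.trans_lt ((dd f).strictMono (inv_gt_of_lt h))

lemma Tr.below {f : (Ω ≃o Ω) × (Ω ≃o Ω)} {s : Ω} (hd : s ≤ dd f s) {φ : ℝ} (h : Tr f s φ)
    {x : ℝ} (hx : Dy x) (h1 : φ - 2 < x) (h2 : x < φ) : s ≤ V f x s := by
  by_contra hn
  push Not at hn
  have h3 := neg_add_two hd hx hn
  have h4 := h (x + 2) (by exact_mod_cast hx.add_int 2) (by linarith) (by linarith)
  exact absurd (h3.trans h4) (lt_irrefl _)

theorem arc {f : (Ω ≃o Ω) × (Ω ≃o Ω)} {s : Ω} (hd : s ≤ dd f s) {x₀ : ℝ} (hx₀ : Dy x₀)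
    (h₀ : V f x₀ s < s) : ∃ φ : ℝ, φ ≤ x₀ ∧ x₀ ≤ φ + 2 ∧ Tr f s φ := by
  let A : Set ℝ := {x | Dy x ∧ x ≤ x₀ ∧ s ≤ V f x s}
  let B : Set ℝ := {x | Dy x ∧ x₀ ≤ x ∧ s ≤ V f x s}
  have dsub : Dy (x₀ - 2) := by
    have := hx₀.add_int (-2)
    push_cast at this
    exact this
  have dadd : Dy (x₀ + 2) := by exact_mod_cast hx₀.add_int 2
  have hA : x₀ - 2 ∈ A := by
    refine ⟨dsub, by linarith, ?_⟩
    by_contra hn
    push Not at hn
    have := neg_add_two hd dsub hn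
    rw [sub_add_cancel] at this
    exact absurd (this.trans h₀) (lt_irrefl _)
  have hB : x₀ + 2 ∈ B := ⟨dadd, by linarith, (neg_add_two hd hx₀ h₀).le⟩
  have bA : BddAbove A := ⟨x₀, fun x hx => hx.2.1⟩
  have bB : BddBelow B := ⟨x₀, fun x hx => hx.2.1⟩
  have hAx : sSup A ≤ x₀ := csSup_le ⟨_, hA⟩ (fun x hx => hx.2.1)
  have hxB : x₀ ≤ sInf B := le_csInf ⟨_, hB⟩ (fun x hx => hx.2.1)
  have hgap : sSup A + 2 ≤ sInf B := by
    apply le_csInf ⟨_, hB⟩
    intro z hz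
    have : sSup A ≤ z - 2 := by
      apply csSup_le ⟨_, hA⟩
      intro x hx
      have hxne : x < x₀ := lt_of_le_of_ne hx.2.1 (by
        rintro rfl
        exact absurd h₀ (not_lt.mpr hx.2.2))
      have hzne : x₀ < z := lt_of_le_of_ne hz.2.1 (by
        rintro rfl
        exact absurd h₀ (not_lt.mpr hz.2.2))
      have := gap f hx.1 hx₀ hz.1 hxne hzne hx.2.2 h₀ hz.2.2
      linarith
    linarith
  have hin : ∀ y, Dy y → sSup A < y → y < sInf B → V f y s < s := by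
    intro y hy h1 h2
    by_contra hn
    push Not at hn
    rcases le_total y x₀ with h3 | h3
    · exact absurd (le_csSup bA ⟨hy, h3, hn⟩) (not_le.mpr h1)
    · exact absurd (csInf_le bB ⟨hy, h3, hn⟩) (not_le.mpr h2)
  have hle : sInf B ≤ sSup A + 2 := by
    by_contra hn
    push Not at hn
    obtain ⟨y, hy, h1, h2⟩ := exists_dy (show sSup A < sInf B - 2 by linarith)
    have h3 := hin y hy h1 (by linarith)
    have h4 := neg_add_two hd hy h3
    have h5 := hin (y + 2) (by exact_mod_cast hy.add_int 2) (by linarith) (by linarith)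
    exact absurd (h4.trans h5) (lt_irrefl _)
  refine ⟨sSup A, hAx, hxB.trans hle, ?_⟩
  intro y hy h1 h2
  exact hin y hy h1 (by linarith)

end Gap

end Pool.Agent.Helper71.Rot
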