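import Mathlib

/-!
The line of directions of a once-punctured torus, the action of the full twists on it, and the
displacement condition for words in fractional twists.
-/

set_option autoImplicit false

namespace Pool.Agent.Helper71.Rot

/-- The map `y ↦ min (2 y, y + 1 / 2, 1 + y / 2)`, an increasing bijection of `[0, 2]`. -/
noncomputable def rho (y : ℝ) : ℝ := min (2 * y) (min (y + 1 / 2) (1 + y / 2))

/-- The inverse of `rho` on `[0, 2]`. -/
noncomputable def rhoInv (y : ℝ) : ℝ := max (y / 2) (max (y - 1 / 2) (2 * y - 2))

/-- The increasing bijection `τ` of the line which is `rho` on `[0, 2]` and satisfies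
`τ (x + 2) = τ x + 2`. -/
noncomputable def turnFwd (x : ℝ) : ℝ := 2 * ⌊x / 2⌋ + rho (x - 2 * ⌊x / 2⌋)

/-- The inverse of `τ`. -/
noncomputable def turnBwd (x : ℝ) : ℝ := 2 * ⌊x / 2⌋ + rhoInv (x - 2 * ⌊x / 2⌋)

/-- The power `τ ^ k` with an integer `k`. -/
noncomputable def turn : ℤ → ℝ → ℝ
  | Int.ofNat k, x => turnFwd^[k] x
  | Int.negSucc k, x => turnBwd^[k + 1] x

/-- A letter: the curve of the twist (`false` for the curve `a`, `true` for the curve `b`), and a
lower and an upper bound for the twist coefficient, `none` meaning that there is no bound. -/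
structure Letter : Type where
  second : Bool
  lo : Option ℤ
  hi : Option ℤ

/-- The map `τ ^ k`, or its infimum over all `k` if there is no bound. -/
noncomputable def loB : Option ℤ → ℝ → ℝ
  | some k, x => turn k x
  | none, x => 2 * ⌊x / 2⌋

/-- The map `τ ^ k`, or its supremum over all `k` if there is no bound. -/
noncomputable def hiB : Option ℤ → ℝ → ℝ
  | some k, x => turn k x
  | none, x => 2 * ⌈x / 2⌉

/-- The lower displacement map of a letter: for the curve `b` the map is conjugated by the shift
by one. -/
noncomputable def Letter.low (ℓ : Letter) (x : ℝ) : ℝ :=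
  if ℓ.second then loB ℓ.lo (x + 1) - 1 else loB ℓ.lo x

/-- The upper displacement map of a letter. -/
noncomputable def Letter.upp (ℓ : Letter) (x : ℝ) : ℝ :=
  if ℓ.second then hiB ℓ.hi (x + 1) - 1 else hiB ℓ.hi x

/-- The displacement condition for a word: the composition of the lower maps moves every point
up, and the composition of the upper maps moves every point by less than `4`. -/
def Admissible (L : List Letter) : Prop :=
  ∀ x : ℝ, x < L.foldl (fun y ℓ => ℓ.low y) x ∧ L.foldl (fun y ℓ => ℓ.upp y) x < x + 4

end Pool.Agent.Helper71.Rot
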