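import Mathlib
import Pool.Agent.Helper71.RotArc
import Pool.Agent.Helper71.RotDefs

/-!
The piecewise linear map by which a full twist acts on the line of directions.
-/

set_option autoImplicit false

namespace Pool.Agent.Helper71.Rot

section Turn

lemma rho_cases {y : ℝ} : (y ≤ 1 / 2 ∧ rho y = 2 * y) ∨
    (1 / 2 ≤ y ∧ y ≤ 1 ∧ rho y = y + 1 / 2) ∨ (1 ≤ y ∧ rho y = 1 + y / 2) := by
  unfold rho
  rcases le_total y (1 / 2) with h | h
  · left
    refine ⟨h, ?_⟩
    rw [min_eq_left]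
    exact le_min (by linarith) (by linarith)
  · rcases le_total y 1 with h2 | h2
    · right; left
      refine ⟨h, h2, ?_⟩
      rw [min_eq_left (show y + 1 / 2 ≤ 1 + y / 2 by linarith),
        min_eq_right (show y + 1 / 2 ≤ 2 * y by linarith)]
    · right; right
      refine ⟨h2, ?_⟩
      rw [min_eq_right (show 1 + y / 2 ≤ y + 1 / 2 by linarith),
        min_eq_right (show 1 + y / 2 ≤ 2 * y by linarith)]

lemma rhoInv_cases {y : ℝ} : (y ≤ 1 ∧ rhoInv y = y / 2) ∨
    (1 ≤ y ∧ y ≤ 3 / 2 ∧ rhoInv y = y - 1 / 2) ∨ (3 / 2 ≤ y ∧ rhoInv y = 2 * y - 2) := by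
  unfold rhoInv
  rcases le_total y 1 with h | h
  · left
    refine ⟨h, ?_⟩
    rw [max_eq_left]
    exact max_le (by linarith) (by linarith)
  · rcases le_total y (3 / 2) with h2 | h2
    · right; left
      refine ⟨h, h2, ?_⟩
      rw [max_eq_left (show 2 * y - 2 ≤ y - 1 / 2 by linarith),
        max_eq_right (show y / 2 ≤ y - 1 / 2 by linarith)]
    · right; right
      refine ⟨h2, ?_⟩
      rw [max_eq_right (show y - 1 / 2 ≤ 2 * y - 2 by linarith),
        max_eq_right (show y / 2 ≤ 2 * y - 2 by linarith)]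

lemma rho_strictMono : StrictMono rho := by
  intro x y h
  rcases @rho_cases x with ⟨h1, e1⟩ | ⟨h1, h1', e1⟩ | ⟨h1, e1⟩ <;>
  rcases @rho_cases y with ⟨h2, e2⟩ | ⟨h2, h2', e2⟩ | ⟨h2, e2⟩ <;>
  rw [e1, e2] <;> linarith

lemma rho_zero : rho 0 = 0 := by
  rcases @rho_cases 0 with ⟨h1, e1⟩ | ⟨h1, h1', e1⟩ | ⟨h1, e1⟩ <;> linarith

lemma rho_two : rho 2 = 2 := by
  rcases @rho_cases 2 with ⟨h1, e1⟩ | ⟨h1, h1', e1⟩ | ⟨h1, e1⟩ <;> linarith

lemma rhoInv_rho (y : ℝ) : rhoInv (rho y) = y := by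
  rcases @rho_cases y with ⟨h1, e1⟩ | ⟨h1, h1', e1⟩ | ⟨h1, e1⟩ <;>
  rcases @rhoInv_cases (rho y) with ⟨h2, e2⟩ | ⟨h2, h2', e2⟩ | ⟨h2, e2⟩ <;> linarith

lemma rho_rhoInv (y : ℝ) : rho (rhoInv y) = y := by
  rcases @rhoInv_cases y with ⟨h1, e1⟩ | ⟨h1, h1', e1⟩ | ⟨h1, e1⟩ <;>
  rcases @rho_cases (rhoInv y) with ⟨h2, e2⟩ | ⟨h2, h2', e2⟩ | ⟨h2, e2⟩ <;> linarith

lemma floor_window {x : ℝ} {j : ℤ} (h1 : 2 * (j : ℝ) ≤ x) (h2 : x < 2 * j + 2) :
    ⌊x / 2⌋ = j := by
  rw [Int.floor_eq_iff]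
  constructor <;> linarith

lemma window (x : ℝ) : 2 * (⌊x / 2⌋ : ℝ) ≤ x ∧ x < 2 * ⌊x / 2⌋ + 2 := by
  have h1 := Int.floor_le (x / 2)
  have h2 := Int.lt_floor_add_one (x / 2)
  constructor <;> linarith

lemma turnFwd_eq {x : ℝ} {j : ℤ} (h1 : 2 * (j : ℝ) ≤ x) (h2 : x < 2 * j + 2) :
    turnFwd x = 2 * j + rho (x - 2 * j) := by
  rw [turnFwd, floor_window h1 h2]

lemma turnBwd_eq {x : ℝ} {j : ℤ} (h1 : 2 * (j : ℝ) ≤ x) (h2 : x < 2 * j + 2) :
    turnBwd x = 2 * j + rhoInv (x - 2 * j) := by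
  rw [turnBwd, floor_window h1 h2]

/-- The twist as a permutation of the line. -/
noncomputable def T : Equiv.Perm ℝ where
  toFun := turnFwd
  invFun := turnBwd
  left_inv x := by
    obtain ⟨h1, h2⟩ := window x
    set j := ⌊x / 2⌋
    have e1 : turnFwd x = 2 * j + rho (x - 2 * j) := turnFwd_eq h1 h2
    have g1 : 0 ≤ rho (x - 2 * j) := by
      rw [← rho_zero]
      exact rho_strictMono.monotone (by linarith)
    have g2 : rho (x - 2 * j) < 2 := by
      have := rho_strictMono (show x - 2 * (j : ℝ) < 2 by linarith)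
      rwa [rho_two] at this
    rw [turnBwd_eq (x := turnFwd x) (j := j) (by rw [e1]; linarith) (by rw [e1]; linarith), e1,
      add_sub_cancel_left, rhoInv_rho]
    ring
  right_inv x := by
    obtain ⟨h1, h2⟩ := window x
    set j := ⌊x / 2⌋
    have e1 : turnBwd x = 2 * j + rhoInv (x - 2 * j) := turnBwd_eq h1 h2
    have hm : ∀ y z : ℝ, rhoInv y < rhoInv z ↔ y < z := by
      intro y z
      rw [← rho_strictMono.lt_iff_lt, rho_rhoInv, rho_rhoInv]
    have z0 : rhoInv 0 = 0 := by rw [← rho_zero, rhoInv_rho, rho_zero]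
    have z2 : rhoInv 2 = 2 := by
      have := rhoInv_rho 2
      rwa [rho_two] at this
    have g1 : 0 ≤ rhoInv (x - 2 * j) := by
      by_contra hn
      push Not at hn
      have := (hm (x - 2 * j) 0).mp (by rw [z0]; exact hn)
      linarith
    have g2 : rhoInv (x - 2 * j) < 2 := by
      have := (hm (x - 2 * j) 2).mpr (by linarith)
      rwa [z2] at this
    rw [turnFwd_eq (x := turnBwd x) (j := j) (by rw [e1]; linarith) (by rw [e1]; linarith), e1,
      add_sub_cancel_left, rho_rhoInv]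
    ring

lemma T_apply (x : ℝ) : T x = turnFwd x := rfl

lemma T_inv_apply (x : ℝ) : T⁻¹ x = turnBwd x := rfl

lemma turn_eq (k : ℤ) (x : ℝ) : turn k x = (T ^ k : Equiv.Perm ℝ) x := by
  have h1 : ∀ (n : ℕ) (x : ℝ), turnFwd^[n] x = (T ^ n : Equiv.Perm ℝ) x := by
    intro n
    induction n with
    | zero => intro x; rfl
    | succ n ih =>
      intro x
      rw [Function.iterate_succ_apply, ih, pow_succ, Equiv.Perm.mul_apply]
      rfl
  have h2 : ∀ (n : ℕ) (x : ℝ), turnBwd^[n] x = (T⁻¹ ^ n : Equiv.Perm ℝ) x := by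
    intro n
    induction n with
    | zero => intro x; rfl
    | succ n ih =>
      intro x
      rw [Function.iterate_succ_apply, ih, pow_succ, Equiv.Perm.mul_apply]
      rfl
  cases k with
  | ofNat n => rw [Int.ofNat_eq_natCast, zpow_natCast]; exact h1 n x
  | negSucc n => rw [zpow_negSucc, ← inv_pow]; exact h2 (n + 1) x

lemma T_add_two (x : ℝ) : T (x + 2) = T x + 2 := by
  obtain ⟨h1, h2⟩ := window x
  set j := ⌊x / 2⌋
  rw [T_apply, T_apply, turnFwd_eq h1 h2,
    turnFwd_eq (x := x + 2) (j := j + 1) (by push_cast; linarith) (by push_cast; linarith)]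
  push_cast
  rw [show x + 2 - 2 * ((j : ℝ) + 1) = x - 2 * j by ring]
  ring

lemma T_zero : T 0 = 0 := by
  rw [T_apply, turnFwd_eq (x := 0) (j := 0) (by simp) (by simp)]
  simp [rho_zero]

lemma T_strictMono : StrictMono T := by
  intro x y h
  obtain ⟨h1, h2⟩ := window x
  obtain ⟨h3, h4⟩ := window y
  rw [T_apply, T_apply, turnFwd_eq h1 h2, turnFwd_eq h3 h4]
  set i := ⌊x / 2⌋
  set j := ⌊y / 2⌋
  have hij : i ≤ j := by
    by_contra hn
    push Not at hn
    have : (j : ℝ) + 1 ≤ i := by exact_mod_cast hn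
    linarith
  rcases lt_or_eq_of_le hij with h5 | h5
  · have h6 : (i : ℝ) + 1 ≤ j := by exact_mod_cast h5
    have g2 : rho (x - 2 * i) < 2 := by
      have := rho_strictMono (show x - 2 * (i : ℝ) < 2 by linarith)
      rwa [rho_two] at this
    have g1 : 0 ≤ rho (y - 2 * j) := by
      rw [← rho_zero]
      exact rho_strictMono.monotone (by linarith)
    linarith
  · rw [h5]
    have : x - 2 * (j : ℝ) < y - 2 * j := by linarith
    have := rho_strictMono this
    linarith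

lemma Tz_strictMono (k : ℤ) : StrictMono (T ^ k : Equiv.Perm ℝ) := by
  have hinv : StrictMono (T⁻¹ : Equiv.Perm ℝ) := by
    intro x y h
    rw [← T_strictMono.lt_iff_lt]
    have e : ∀ z, T (T⁻¹ z) = z := fun z => T.apply_symm_apply z
    rwa [e, e]
  induction k with
  | zero => exact strictMono_id
  | succ n ih =>
    rw [zpow_add, zpow_one]
    exact ih.comp T_strictMono
  | pred n ih =>
    rw [sub_eq_add_neg, zpow_add, zpow_neg_one]
    exact ih.comp hinv

lemma Tinv_add_two (x : ℝ) : T⁻¹ (x + 2) = T⁻¹ x + 2 := by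
  apply T.injective
  rw [T_add_two]
  have e : ∀ z, T (T⁻¹ z) = z := fun z => T.apply_symm_apply z
  rw [e, e]

lemma Tz_add_two (k : ℤ) (x : ℝ) : (T ^ k : Equiv.Perm ℝ) (x + 2) = (T ^ k : Equiv.Perm ℝ) x + 2 := by
  induction k generalizing x with
  | zero => rfl
  | succ n ih =>
    rw [zpow_add, zpow_one, Equiv.Perm.mul_apply, Equiv.Perm.mul_apply, T_add_two, ih]
  | pred n ih =>
    rw [sub_eq_add_neg, zpow_add, zpow_neg_one, Equiv.Perm.mul_apply, Equiv.Perm.mul_apply,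
      Tinv_add_two, ih]

lemma Tz_add_even (k : ℤ) (j : ℤ) (x : ℝ) :
    (T ^ k : Equiv.Perm ℝ) (x + 2 * j) = (T ^ k : Equiv.Perm ℝ) x + 2 * j := by
  induction j with
  | zero => simp
  | succ n ih =>
    push_cast at ih ⊢
    rw [show x + 2 * ((n : ℝ) + 1) = x + 2 * n + 2 by ring, Tz_add_two, ih]
    ring
  | pred n ih =>
    push_cast at ih ⊢
    have h1 := Tz_add_two k (x + 2 * (-(n : ℝ) - 1))
    rw [show x + 2 * (-(n : ℝ) - 1) + 2 = x + 2 * -(n : ℝ) by ring, ih] at h1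
    linarith

lemma Tz_zero (k : ℤ) : (T ^ k : Equiv.Perm ℝ) 0 = 0 := by
  have hinv : T⁻¹ 0 = 0 := by
    apply T.injective
    have e : ∀ z, T (T⁻¹ z) = z := fun z => T.apply_symm_apply z
    rw [e, T_zero]
  induction k with
  | zero => rfl
  | succ n ih => rw [zpow_add, zpow_one, Equiv.Perm.mul_apply, T_zero, ih]
  | pred n ih =>
    rw [sub_eq_add_neg, zpow_add, zpow_neg_one, Equiv.Perm.mul_apply, hinv, ih]

lemma Tz_neg_two (k : ℤ) : (T ^ k : Equiv.Perm ℝ) (-2) = -2 := by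
  have := Tz_add_even k (-1) 0
  rw [Tz_zero] at this
  push_cast at this
  rw [show (0 : ℝ) + 2 * -1 = -2 by ring] at this
  exact this

lemma T_left {x : ℝ} (h1 : -2 ≤ x) (h2 : x ≤ -3 / 2) : T x = 2 * x + 2 := by
  rw [T_apply, turnFwd_eq (x := x) (j := -1) (by push_cast; linarith) (by push_cast; linarith)]
  push_cast
  rcases @rho_cases (x - 2 * -1) with ⟨h3, e⟩ | ⟨h3, h4, e⟩ | ⟨h3, e⟩
  · rw [e]; ring
  · rw [e]; linarith
  · linarith

lemma T_mid {x : ℝ} (h1 : -3 / 2 ≤ x) (h2 : x ≤ -1) : T x = x + 1 / 2 := by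
  rw [T_apply, turnFwd_eq (x := x) (j := -1) (by push_cast; linarith) (by push_cast; linarith)]
  push_cast
  rcases @rho_cases (x - 2 * -1) with ⟨h3, e⟩ | ⟨h3, h4, e⟩ | ⟨h3, e⟩
  · rw [e]; linarith
  · rw [e]; ring
  · rw [e]; linarith

lemma T_right {x : ℝ} (h1 : -1 ≤ x) (h2 : x ≤ 0) : T x = x / 2 := by
  rcases lt_or_eq_of_le h2 with h2 | h2
  · rw [T_apply, turnFwd_eq (x := x) (j := -1) (by push_cast; linarith) (by push_cast; linarith)]
    push_cast
    rcases @rho_cases (x - 2 * -1) with ⟨h3, e⟩ | ⟨h3, h4, e⟩ | ⟨h3, e⟩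
    · linarith
    · rw [e]; linarith
    · rw [e]; ring
  · rw [h2, T_zero]; simp

end Turn

section VTurn

variable {Γ : Type*} [Group Γ]

lemma V_turn (a u : Γ) {x : ℝ} (hx : Dy x) (h1 : -2 ≤ x) (h2 : x ≤ 0) :
    V (a, a * u) x = V (a, u) (T x) := by
  obtain ⟨n₀, hn₀⟩ := hx.exists_ge
  obtain ⟨k, hk⟩ := hn₀ (n₀ + 1) (by omega)
  set n := n₀
  have hpos : (0 : ℝ) < 2 ^ (n + 1) := by positivity
  have hp2 : (2 : ℝ) ^ (n + 1) = 2 * 2 ^ n := by ring
  have hk' : (k : ℝ) = x * 2 ^ (n + 1) := by rw [hk]; field_simp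
  -- values of the two grids
  have g0 : X (a, a * u) 0 (-1) = a * u := G_neg_one _
  have g1 : X (a, u) 1 (-1) = a * u := by
    have := X_at_neg_one a u 1
    rwa [pow_one] at this
  have g2 : X (a, a * u) 0 0 = a := rfl
  have g3 : X (a, u) 1 0 = a := X_at_zero a u 1
  have g4 : X (a, a * u) 0 (-2) = u⁻¹ * a⁻¹ * u := by
    rw [X_zero, G_neg_two]
    group
  have g5 : X (a, a * u) 1 (-3) = u := by
    have := ref_odd (X (a, a * u) 0) (-2)
    rw [show (2 : ℤ) * -2 + 1 = -3 by norm_num, show (-2 : ℤ) + 1 = -1 by norm_num, g0, g4] at this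
    rw [X_succ, this]
    group
  have g6 : X (a, a * u) 1 (-2) = a * u := by
    have := ref_even (X (a, a * u) 0) (-1)
    rw [show (2 : ℤ) * -1 = -2 by norm_num, g0] at this
    rw [X_succ, this]
  have g7 : X (a, a * u) 1 (-4) = u⁻¹ * a⁻¹ * u := by
    have := ref_even (X (a, a * u) 0) (-2)
    rw [show (2 : ℤ) * -2 = -4 by norm_num, g4] at this
    rw [X_succ, this]
  have g8 : X (a, u) 1 (-2) = u := by
    have := ref_even (X (a, u) 0) (-1)
    rw [show (2 : ℤ) * -1 = -2 by norm_num, X_zero, G_neg_one] at this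
    rw [X_succ, X_zero, this]
  rcases le_total x (-3 / 2) with h3 | h3
  · -- left piece
    rw [T_left h1 h3]
    have hloc := X_local (f := (a, a * u)) (f' := (a, u)) (m := 1) (m' := 0) (p := -4) (q := -2)
      (L := 1) (by
        intro i hi1 hi2
        have : i = 0 ∨ i = 1 := by omega
        rcases this with rfl | rfl
        · rw [add_zero, add_zero, g7, X_zero, G_neg_two]
        · rw [show (-4 : ℤ) + 1 = -3 by norm_num, show (-2 : ℤ) + 1 = -1 by norm_num, g5,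
            X_zero, G_neg_one]) n
    have hi1 : (0 : ℤ) ≤ k + 4 * 2 ^ n := by
      have : (0 : ℝ) ≤ ((k + 4 * 2 ^ n : ℤ) : ℝ) := by
        push_cast
        rw [hk', hp2]
        have : (0 : ℝ) < 2 ^ n := by positivity
        nlinarith
      exact_mod_cast this
    have hi2 : k + 4 * 2 ^ n ≤ 2 ^ n * 1 := by
      have : ((k + 4 * 2 ^ n : ℤ) : ℝ) ≤ ((2 ^ n * 1 : ℤ) : ℝ) := by
        push_cast
        rw [hk', hp2]
        have : (0 : ℝ) < 2 ^ n := by positivity
        nlinarith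
      exact_mod_cast this
    have h4 := hloc _ hi1 hi2
    rw [V_eq (a, a * u) hk, V_eq (a, u) (n := 0 + n) (k := 2 ^ n * -2 + (k + 4 * 2 ^ n))]
    · rw [← h4, add_comm 1 n]
      congr 1
      ring
    · rw [zero_add]
      push_cast
      rw [hk', hp2]
      have : (0 : ℝ) < 2 ^ n := by positivity
      field_simp
      ring
  · rcases le_total x (-1) with h4 | h4
    · rw [T_mid h3 h4]
      have hloc := X_local (f := (a, a * u)) (f' := (a, u)) (m := 1) (m' := 1) (p := -3) (q := -2)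
        (L := 1) (by
          intro i hi1 hi2
          have : i = 0 ∨ i = 1 := by omega
          rcases this with rfl | rfl
          · rw [add_zero, add_zero, g5, g8]
          · rw [show (-3 : ℤ) + 1 = -2 by norm_num, show (-2 : ℤ) + 1 = -1 by norm_num, g6,
              g1]) n
      have hi1 : (0 : ℤ) ≤ k + 3 * 2 ^ n := by
        have : (0 : ℝ) ≤ ((k + 3 * 2 ^ n : ℤ) : ℝ) := by
          push_cast
          rw [hk', hp2]
          have : (0 : ℝ) < 2 ^ n := by positivity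
          nlinarith
        exact_mod_cast this
      have hi2 : k + 3 * 2 ^ n ≤ 2 ^ n * 1 := by
        have : ((k + 3 * 2 ^ n : ℤ) : ℝ) ≤ ((2 ^ n * 1 : ℤ) : ℝ) := by
          push_cast
          rw [hk', hp2]
          have : (0 : ℝ) < 2 ^ n := by positivity
          nlinarith
        exact_mod_cast this
      have h5 := hloc _ hi1 hi2
      rw [V_eq (a, a * u) hk, V_eq (a, u) (n := 1 + n) (k := 2 ^ n * -2 + (k + 3 * 2 ^ n))]
      · rw [← h5, add_comm 1 n]
        congr 1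
        ring
      · rw [add_comm 1 n]
        push_cast
        rw [hk', hp2]
        have : (0 : ℝ) < 2 ^ n := by positivity
        field_simp
        ring
    · rw [T_right h4 h2]
      have hloc := X_local (f := (a, a * u)) (f' := (a, u)) (m := 0) (m' := 1) (p := -1) (q := -1)
        (L := 1) (by
          intro i hi1 hi2
          have : i = 0 ∨ i = 1 := by omega
          rcases this with rfl | rfl
          · rw [add_zero, g0, g1]
          · rw [show (-1 : ℤ) + 1 = 0 by norm_num, g2, g3]) (n + 1)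
      have hi1 : (0 : ℤ) ≤ k + 2 ^ (n + 1) := by
        have : (0 : ℝ) ≤ ((k + 2 ^ (n + 1) : ℤ) : ℝ) := by
          push_cast
          rw [hk']
          nlinarith
        exact_mod_cast this
      have hi2 : k + 2 ^ (n + 1) ≤ 2 ^ (n + 1) * 1 := by
        have : ((k + 2 ^ (n + 1) : ℤ) : ℝ) ≤ ((2 ^ (n + 1) * 1 : ℤ) : ℝ) := by
          push_cast
          rw [hk']
          nlinarith
        exact_mod_cast this
      have h5 := hloc _ hi1 hi2
      rw [V_eq (a, a * u) hk, V_eq (a, u) (n := 1 + (n + 1)) (k := 2 ^ (n + 1) * -1 + (k + 2 ^ (n + 1)))]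
      · rw [← h5, zero_add]
        congr 1
        ring
      · push_cast
        rw [hk', add_comm 1 (n + 1), pow_succ (2 : ℝ) (n + 1)]
        field_simp
        ring

lemma dy_T {x : ℝ} (hx : Dy x) (h1 : -2 ≤ x) (h2 : x ≤ 0) : Dy (T x) := by
  obtain ⟨n, k, rfl⟩ := hx
  rcases le_total (k / 2 ^ n : ℝ) (-3 / 2) with h3 | h3
  · rw [T_left h1 h3]
    refine ⟨n, 2 * k + 2 * 2 ^ n, ?_⟩
    push_cast
    field_simp
  · rcases le_total (k / 2 ^ n : ℝ) (-1) with h4 | h4
    · rw [T_mid h3 h4]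
      refine ⟨n + 1, 2 * k + 2 ^ n, ?_⟩
      push_cast
      rw [pow_succ]
      field_simp
    · rw [T_right h4 h2]
      refine ⟨n + 1, k, ?_⟩
      rw [pow_succ]
      field_simp

lemma rhoInv_dy {y : ℝ} (h : Dy y) : Dy (rhoInv y) := by
  obtain ⟨n, k, rfl⟩ := h
  rcases @rhoInv_cases (k / 2 ^ n) with ⟨_, e⟩ | ⟨_, _, e⟩ | ⟨_, e⟩
  · rw [e]
    refine ⟨n + 1, k, ?_⟩
    rw [pow_succ]
    field_simp
  · rw [e]
    refine ⟨n + 1, 2 * k - 2 ^ n, ?_⟩
    push_cast
    rw [pow_succ]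
    field_simp
  · rw [e]
    refine ⟨n, 2 * k - 2 * 2 ^ n, ?_⟩
    push_cast
    field_simp

lemma dy_Tinv {x : ℝ} (hx : Dy x) : Dy (T⁻¹ x) := by
  rw [T_inv_apply, turnBwd]
  have h1 : Dy (x - 2 * ⌊x / 2⌋) := by
    have := hx.add_int (-(2 * ⌊x / 2⌋))
    push_cast at this
    rwa [← sub_eq_add_neg] at this
  have h2 := (rhoInv_dy h1).add_int (2 * ⌊x / 2⌋)
  push_cast at h2
  rwa [add_comm] at h2

lemma Tz_window (k : ℤ) {x : ℝ} (h1 : -2 ≤ x) (h2 : x ≤ 0) :
    -2 ≤ (T ^ k : Equiv.Perm ℝ) x ∧ (T ^ k : Equiv.Perm ℝ) x ≤ 0 := by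
  have hm := (Tz_strictMono k).monotone
  constructor
  · have := hm h1
    rwa [Tz_neg_two] at this
  · have := hm h2
    rwa [Tz_zero] at this

lemma Tz_window_lt (k : ℤ) {x : ℝ} (h1 : -2 < x) (h2 : x < 0) :
    -2 < (T ^ k : Equiv.Perm ℝ) x ∧ (T ^ k : Equiv.Perm ℝ) x < 0 := by
  have hm := Tz_strictMono k
  constructor
  · have := hm h1
    rwa [Tz_neg_two] at this
  · have := hm h2
    rwa [Tz_zero] at this

lemma V_turn_zpow (a u : Γ) (k : ℤ) : ∀ {x : ℝ}, Dy x → -2 ≤ x → x ≤ 0 →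
    Dy ((T ^ k : Equiv.Perm ℝ) x) ∧ V (a, a ^ k * u) x = V (a, u) ((T ^ k : Equiv.Perm ℝ) x) := by
  induction k with
  | zero =>
    intro x hx _ _
    exact ⟨hx, by simp⟩
  | succ n ih =>
    intro x hx h1 h2
    rw [zpow_add T, zpow_one, Equiv.Perm.mul_apply, add_comm (n : ℤ) 1, zpow_add a, zpow_one,
      mul_assoc, V_turn a _ hx h1 h2]
    have hw := Tz_window 1 h1 h2
    rw [zpow_one] at hw
    exact ih (dy_T hx h1 h2) hw.1 hw.2
  | pred n ih =>
    intro x hx h1 h2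
    have hw := Tz_window (-1) h1 h2
    rw [zpow_neg_one] at hw
    have hy := (dy_Tinv hx)
    have e : T (T⁻¹ x) = x := T.apply_symm_apply x
    rw [sub_eq_add_neg, zpow_add T, zpow_neg_one, Equiv.Perm.mul_apply]
    have h3 := V_turn a (a ^ (-(n : ℤ) + -1) * u) hy hw.1 hw.2
    rw [e, ← mul_assoc, ← zpow_one_add, show (1 : ℤ) + (-(n : ℤ) + -1) = -(n : ℤ) by ring] at h3
    rw [← h3]
    exact ih hy hw.1 hw.2

end VTurn

end Pool.Agent.Helper71.Rot
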