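import Mathlib
import Pool.Agent.Helper71.RotTurn

/-!
The effect of a fractional twist on the lower end of an interval of directions which move a point
down.
-/

set_option autoImplicit false

namespace Pool.Agent.Helper71.Rot

open Pool.Agent.Helper31.OrderAct
open Pool.Agent.Helper31.TwistChain (dualHom)

section Map

variable {Γ Γ' : Type*} [Group Γ] [Group Γ']

lemma R_map (φ : Γ →* Γ') (f : Γ × Γ) (k : ℤ) :
    (R ^ k) (φ f.1, φ f.2) = (φ ((R ^ k) f).1, φ ((R ^ k) f).2) := by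
  induction k with
  | zero => rfl
  | succ n ih =>
    rw [add_comm, zpow_add, zpow_add, zpow_one, zpow_one, Equiv.Perm.mul_apply,
      Equiv.Perm.mul_apply, ih]
    apply Prod.ext
    · change φ _ * (φ _)⁻¹ * (φ _)⁻¹ = φ (_ * _⁻¹ * _⁻¹)
      rw [map_mul, map_mul, map_inv, map_inv]
    · rfl
  | pred n ih =>
    rw [sub_eq_neg_add, zpow_add, zpow_add, zpow_neg_one, zpow_neg_one, Equiv.Perm.mul_apply,
      Equiv.Perm.mul_apply, ih]
    apply Prod.ext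
    · rfl
    · change (φ _)⁻¹ * (φ _)⁻¹ * φ _ = φ (_⁻¹ * _⁻¹ * _)
      rw [map_mul, map_mul, map_inv, map_inv]

lemma X_map (φ : Γ →* Γ') (f : Γ × Γ) (n : ℕ) (k : ℤ) :
    X (φ f.1, φ f.2) n k = φ (X f n k) := by
  induction n generalizing k with
  | zero =>
    rw [X_zero, X_zero, G, R_map]
    rfl
  | succ n ih =>
    rw [X_succ, X_succ]
    rcases Int.even_or_odd' k with ⟨i, rfl | rfl⟩
    · rw [ref_even, ref_even, ih]
    · rw [ref_odd, ref_odd, ih, ih, map_mul]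

lemma V_map (φ : Γ →* Γ') (f : Γ × Γ) (x : ℝ) : V (φ f.1, φ f.2) x = φ (V f x) := by
  by_cases h : ∃ p : ℕ × ℤ, x = p.2 / 2 ^ p.1
  · obtain ⟨⟨n, k⟩, hk⟩ := h
    rw [V_eq _ hk, V_eq _ hk, X_map]
  · rw [V, V, dif_neg h, dif_neg h, map_one]

lemma dd_map (φ : Γ →* Γ') (f : Γ × Γ) : dd (φ f.1, φ f.2) = φ (dd f) := by
  simp only [dd, map_mul, map_inv]

lemma ev_map (φ : Γ →* Γ') (a u : Γ) (l : List ℤ) : ev (φ a) (φ u) l = φ (ev a u l) := by
  induction l with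
  | nil => simp
  | cons i l ih => rw [ev_cons, ev_cons, ih, map_mul, map_mul, map_zpow]

end Map

section PosLemmas

variable {Ω : Type*} [CompleteLinearOrder Ω] {a c : Ω ≃o Ω} {s : Ω}

lemma Pos.dual (h : Pos c a) : Pos (Ω := Ωᵒᵈ) (dualHom c) (dualHom a) := by
  refine ⟨?_, ?_, ?_⟩
  · rw [← map_mul, ← map_mul, h.comm]
  · intro s hs
    obtain ⟨h1, n, h2⟩ := h.dn s hs
    refine ⟨h1, n, ?_⟩
    rw [← map_pow]
    exact h2
  · intro s hs
    obtain ⟨h1, n, h2⟩ := h.up s hs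
    refine ⟨h1, n, ?_⟩
    rw [← map_pow]
    exact h2

theorem Pos.core_ge (h : Pos c a) (hs : a s ≤ s) {u : Ω ≃o Ω} (l : List ℤ)
    (h1 : ev a u l s ≤ s) : ev a (c * u) l s ≤ s := by
  have := Pos.core_le (Ω := Ωᵒᵈ) h.dual (s := s) hs (u := dualHom u) l
    (by rw [ev_map]; exact h1)
  rw [← map_mul, ev_map] at this
  exact this

theorem Pos.core_gt (h : Pos c a) (hs : a s ≤ s) {u : Ω ≃o Ω} (l : List ℤ)
    (h1 : ev a u l s < s) : ev a (c * u) l s < s := by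
  have := Pos.core_lt (Ω := Ωᵒᵈ) h.dual (s := s) hs (u := dualHom u) l
    (by rw [ev_map]; exact h1)
  rw [← map_mul, ev_map] at this
  exact this

theorem Pos.rev_dn (h : Pos c a) (hs : a s ≤ s) : ∃ n : ℕ, ∀ (u : Ω ≃o Ω) (l : List ℤ),
    (ev a u l s ≤ s → ev a (a ^ n * c⁻¹ * u) l s ≤ s) ∧
    (ev a u l s < s → ev a (a ^ n * c⁻¹ * u) l s < s) := by
  obtain ⟨n, hn⟩ := Pos.rev (Ω := Ωᵒᵈ) h.dual (s := s) hs
  refine ⟨n, fun u l => ?_⟩
  obtain ⟨h1, h2⟩ := hn (dualHom u) l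
  rw [← map_pow, ← map_inv, ← map_mul, ← map_mul, ev_map, ev_map] at h1 h2
  exact ⟨h1, h2⟩

lemma Pos.inv (h : Pos c a) : Pos c⁻¹ a⁻¹ := by
  have hc : ∀ n : ℕ, c * a ^ n = a ^ n * c := fun n =>
    ((show Commute c a from h.comm).pow_right n).eq
  refine ⟨?_, ?_, ?_⟩
  · rw [← mul_inv_rev, ← mul_inv_rev, h.comm]
  · intro s hs
    have hs' : a s ≤ s := by
      have := a.monotone hs
      rwa [RelIso.apply_inv_self] at this
    obtain ⟨h1, n, h2⟩ := h.dn s hs'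
    refine ⟨inv_ge_of_le h1, n, ?_⟩
    have h3 := (a ^ n)⁻¹.monotone ((c⁻¹).monotone h2)
    rw [RelIso.inv_apply_self] at h3
    have e : (a ^ n)⁻¹ * (c⁻¹ * a ^ n) = c⁻¹ := by
      have : Commute c⁻¹ (a ^ n) := (show Commute c (a ^ n) from hc n).inv_left
      rw [this.eq, inv_mul_cancel_left]
    have h4 : (a ^ n)⁻¹ (c⁻¹ ((a ^ n) s)) = c⁻¹ s := congrArg (fun x : Ω ≃o Ω => x s) e
    rw [h4] at h3
    rw [inv_pow]
    exact h3
  · intro s hs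
    have hs' : s ≤ a s := by
      have := a.monotone hs
      rwa [RelIso.apply_inv_self] at this
    obtain ⟨h1, n, h2⟩ := h.up s hs'
    refine ⟨inv_le_of_ge h1, n, ?_⟩
    have h3 := (a ^ n)⁻¹.monotone ((c⁻¹).monotone h2)
    rw [RelIso.inv_apply_self] at h3
    have e : (a ^ n)⁻¹ * (c⁻¹ * a ^ n) = c⁻¹ := by
      have : Commute c⁻¹ (a ^ n) := (show Commute c (a ^ n) from hc n).inv_left
      rw [this.eq, inv_mul_cancel_left]
    have h4 : (a ^ n)⁻¹ (c⁻¹ ((a ^ n) s)) = c⁻¹ s := congrArg (fun x : Ω ≃o Ω => x s) e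
    rw [h4] at h3
    rw [inv_pow]
    exact h3

lemma Pos.conj (h : Pos c a) (g : Ω ≃o Ω) : Pos (g * c * g⁻¹) (g * a * g⁻¹) := by
  refine ⟨?_, ?_, ?_⟩
  · have e1 : g * c * g⁻¹ * (g * a * g⁻¹) = g * (c * a) * g⁻¹ := by group
    have e2 : g * a * g⁻¹ * (g * c * g⁻¹) = g * (a * c) * g⁻¹ := by group
    rw [e1, e2, h.comm]
  · intro s hs
    have hs' : g⁻¹ s ≤ a (g⁻¹ s) := by
      have := (g⁻¹).monotone (show s ≤ g (a (g⁻¹ s)) from hs)
      rwa [RelIso.inv_apply_self] at this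
    obtain ⟨h1, n, h2⟩ := h.up _ hs'
    refine ⟨?_, n, ?_⟩
    · have := g.monotone h1
      rwa [RelIso.apply_inv_self] at this
    · rw [conj_pow]
      exact g.monotone h2
  · intro s hs
    have hs' : a (g⁻¹ s) ≤ g⁻¹ s := by
      have := (g⁻¹).monotone (show g (a (g⁻¹ s)) ≤ s from hs)
      rwa [RelIso.inv_apply_self] at this
    obtain ⟨h1, n, h2⟩ := h.dn _ hs'
    refine ⟨?_, n, ?_⟩
    · have := g.monotone h1
      rwa [RelIso.apply_inv_self] at this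
    · rw [conj_pow]
      exact g.monotone h2

/-- `m` is a power of `a` with exponent between `lo` and `hi`, as far as the action on the order
is concerned. -/
structure Bd (lo hi : Option ℤ) (m a : Ω ≃o Ω) : Prop where
  comm : m * a = a * m
  lower : ∀ k, lo = some k → Pos (a ^ (-k) * m) a
  upper : ∀ l, hi = some l → Pos (a ^ l * m⁻¹) a
  some_bd : ∃ k : ℤ, Pos (a ^ (-k) * m) a ∨ Pos (a ^ k * m⁻¹) a

variable {lo hi : Option ℤ} {m : Ω ≃o Ω}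

lemma Bd.inv (h : Bd lo hi m a) : Bd lo hi m⁻¹ a⁻¹ := by
  have hc : Commute m a := h.comm
  have e1 : ∀ k : ℤ, (a ^ (-k) * m)⁻¹ = a⁻¹ ^ (-k) * m⁻¹ := by
    intro k
    rw [mul_inv_rev, inv_zpow, (hc.inv_left.zpow_right (-k)).inv_right.eq]
  have e2 : ∀ k : ℤ, (a ^ k * m⁻¹)⁻¹ = a⁻¹ ^ k * m⁻¹⁻¹ := by
    intro k
    rw [mul_inv_rev, inv_zpow, inv_inv, (hc.zpow_right k).inv_right.eq]
  refine ⟨?_, ?_, ?_, ?_⟩
  · rw [← mul_inv_rev, ← mul_inv_rev, h.comm]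
  · intro k hk
    rw [← e1]
    exact (h.lower k hk).inv
  · intro k hk
    rw [← e2]
    exact (h.upper k hk).inv
  · obtain ⟨k, hk | hk⟩ := h.some_bd
    · exact ⟨k, Or.inl (by rw [← e1]; exact hk.inv)⟩
    · exact ⟨k, Or.inr (by rw [← e2]; exact hk.inv)⟩

lemma Bd.conj (h : Bd lo hi m a) (g : Ω ≃o Ω) : Bd lo hi (g * m * g⁻¹) (g * a * g⁻¹) := by
  have e1 : ∀ k : ℤ, (g * a * g⁻¹) ^ (-k) * (g * m * g⁻¹) = g * (a ^ (-k) * m) * g⁻¹ := by
    intro k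
    rw [conj_zpow]
    group
  have e2 : ∀ k : ℤ, (g * a * g⁻¹) ^ k * (g * m * g⁻¹)⁻¹ = g * (a ^ k * m⁻¹) * g⁻¹ := by
    intro k
    rw [conj_zpow]
    group
  refine ⟨?_, ?_, ?_, ?_⟩
  · have e1 : g * m * g⁻¹ * (g * a * g⁻¹) = g * (m * a) * g⁻¹ := by group
    have e2 : g * a * g⁻¹ * (g * m * g⁻¹) = g * (a * m) * g⁻¹ := by group
    rw [e1, e2, h.comm]
  · intro k hk
    rw [e1]
    exact (h.lower k hk).conj g
  · intro k hk
    rw [e2]
    exact (h.upper k hk).conj g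
  · obtain ⟨k, hk | hk⟩ := h.some_bd
    · exact ⟨k, Or.inl (by rw [e1]; exact hk.conj g)⟩
    · exact ⟨k, Or.inr (by rw [e2]; exact hk.conj g)⟩

lemma Bd.dual (h : Bd lo hi m a) : Bd (Ω := Ωᵒᵈ) lo hi (dualHom m) (dualHom a) := by
  have e1 : ∀ k : ℤ, dualHom a ^ (-k) * dualHom m = dualHom (a ^ (-k) * m) := by
    intro k
    rw [map_mul, map_zpow]
  have e2 : ∀ k : ℤ, dualHom a ^ k * (dualHom m)⁻¹ = dualHom (a ^ k * m⁻¹) := by
    intro k
    rw [map_mul, map_zpow, map_inv]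
  refine ⟨?_, ?_, ?_, ?_⟩
  · rw [← map_mul, ← map_mul, h.comm]
  · intro k hk
    rw [e1]
    exact (h.lower k hk).dual
  · intro k hk
    rw [e2]
    exact (h.upper k hk).dual
  · obtain ⟨k, hk | hk⟩ := h.some_bd
    · exact ⟨k, Or.inl (by rw [e1]; exact hk.dual)⟩
    · exact ⟨k, Or.inr (by rw [e2]; exact hk.dual)⟩

end PosLemmas

section Track

variable {Ω : Type*} [CompleteLinearOrder Ω] {lo hi : Option ℤ}

/-- The frame `f'` is obtained from `f` by a twist along the first direction. -/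
def LetA (lo hi : Option ℤ) (f f' : (Ω ≃o Ω) × (Ω ≃o Ω)) : Prop :=
  ∃ m, Bd lo hi m f.1 ∧ f'.1 = f.1 ∧ f'.2 = m⁻¹ * f.2

lemma LetA.dd {f f' : (Ω ≃o Ω) × (Ω ≃o Ω)} (h : LetA lo hi f f') : Rot.dd f' = Rot.dd f := by
  obtain ⟨m, hb, e1, e2⟩ := h
  have hc : m * f.1⁻¹ = f.1⁻¹ * m := ((show Commute m f.1 from hb.comm).inv_right).eq
  rw [Rot.dd, Rot.dd, e1, e2, mul_inv_rev, inv_inv]
  calc f.1 * (f.2⁻¹ * m) * f.1⁻¹ * (m⁻¹ * f.2) = f.1 * f.2⁻¹ * (m * f.1⁻¹) * m⁻¹ * f.2 := by group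
    _ = f.1 * f.2⁻¹ * f.1⁻¹ * f.2 := by rw [hc]; group

lemma LetA.R2 {f f' : (Ω ≃o Ω) × (Ω ≃o Ω)} (h : LetA lo hi f f') :
    LetA lo hi (R (R f)) (R (R f')) := by
  obtain ⟨m, hb, e1, e2⟩ := h
  obtain ⟨a, u⟩ := f
  obtain ⟨a', u'⟩ := f'
  simp only at e1 e2
  subst e1
  subst e2
  have hc : m * a'⁻¹ = a'⁻¹ * m := ((show Commute m a' from hb.comm).inv_right).eq
  have hc2 : m * a' = a' * m := hb.comm
  have hp : a' * (m⁻¹ * u)⁻¹ * a'⁻¹ = a' * u⁻¹ * a'⁻¹ * m := by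
    rw [mul_inv_rev, inv_inv]
    calc a' * (u⁻¹ * m) * a'⁻¹ = a' * u⁻¹ * (m * a'⁻¹) := by group
      _ = a' * u⁻¹ * a'⁻¹ * m := by rw [hc]; group
  refine ⟨(a' * u⁻¹ * a'⁻¹) * m⁻¹ * (a' * u⁻¹ * a'⁻¹)⁻¹, ?_, ?_, ?_⟩
  · exact (hb.inv).conj (a' * u⁻¹ * a'⁻¹)
  · change (a' * (m⁻¹ * u)⁻¹ * a'⁻¹) * a'⁻¹ * (a' * (m⁻¹ * u)⁻¹ * a'⁻¹)⁻¹ =
      (a' * u⁻¹ * a'⁻¹) * a'⁻¹ * (a' * u⁻¹ * a'⁻¹)⁻¹
    rw [hp]
    calc a' * u⁻¹ * a'⁻¹ * m * a'⁻¹ * (a' * u⁻¹ * a'⁻¹ * m)⁻¹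
        = a' * u⁻¹ * a'⁻¹ * (m * a'⁻¹) * m⁻¹ * (a' * u⁻¹ * a'⁻¹)⁻¹ := by group
      _ = _ := by rw [hc]; group
  · change a' * (m⁻¹ * u)⁻¹ * a'⁻¹ =
      ((a' * u⁻¹ * a'⁻¹) * m⁻¹ * (a' * u⁻¹ * a'⁻¹)⁻¹)⁻¹ * (a' * u⁻¹ * a'⁻¹)
    rw [hp]
    group

lemma LetA.R2inv {f f' : (Ω ≃o Ω) × (Ω ≃o Ω)} (h : LetA lo hi f f') :
    LetA lo hi (R⁻¹ (R⁻¹ f)) (R⁻¹ (R⁻¹ f')) := by
  obtain ⟨m, hb, e1, e2⟩ := h
  obtain ⟨a, u⟩ := f
  obtain ⟨a', u'⟩ := f'
  simp only at e1 e2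
  subst e1
  subst e2
  have hc : m * a'⁻¹ = a'⁻¹ * m := ((show Commute m a' from hb.comm).inv_right).eq
  have hq : (m⁻¹ * u)⁻¹ * a'⁻¹ * (m⁻¹ * u) = u⁻¹ * a'⁻¹ * u := by
    rw [mul_inv_rev, inv_inv]
    calc u⁻¹ * m * a'⁻¹ * (m⁻¹ * u) = u⁻¹ * (m * a'⁻¹) * m⁻¹ * u := by group
      _ = _ := by rw [hc]; group
  have hb' := (hb.inv).conj ((u⁻¹ * a'⁻¹ * u)⁻¹ * u⁻¹)
  have e3 : (u⁻¹ * a'⁻¹ * u)⁻¹ * u⁻¹ * a'⁻¹ * ((u⁻¹ * a'⁻¹ * u)⁻¹ * u⁻¹)⁻¹ =
      u⁻¹ * a'⁻¹ * u := by group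
  rw [e3] at hb'
  refine ⟨_, hb', ?_, ?_⟩
  · change (m⁻¹ * u)⁻¹ * a'⁻¹ * (m⁻¹ * u) = u⁻¹ * a'⁻¹ * u
    exact hq
  · change ((m⁻¹ * u)⁻¹ * a'⁻¹ * (m⁻¹ * u))⁻¹ * (m⁻¹ * u)⁻¹ *
        ((m⁻¹ * u)⁻¹ * a'⁻¹ * (m⁻¹ * u)) =
      ((u⁻¹ * a'⁻¹ * u)⁻¹ * u⁻¹ * m⁻¹ * ((u⁻¹ * a'⁻¹ * u)⁻¹ * u⁻¹)⁻¹)⁻¹ *
        ((u⁻¹ * a'⁻¹ * u)⁻¹ * u⁻¹ * (u⁻¹ * a'⁻¹ * u))
    rw [hq]
    group

lemma LetA.shift {f f' : (Ω ≃o Ω) × (Ω ≃o Ω)} (h : LetA lo hi f f') (j : ℤ) :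
    LetA lo hi ((R ^ (2 * j)) f) ((R ^ (2 * j)) f') := by
  induction j with
  | zero => exact h
  | succ n ih =>
    have e : ∀ g : (Ω ≃o Ω) × (Ω ≃o Ω), (R ^ (2 * ((n : ℤ) + 1))) g =
        R (R ((R ^ (2 * (n : ℤ))) g)) := by
      intro g
      rw [show (2 : ℤ) * ((n : ℤ) + 1) = 1 + (1 + 2 * n) by ring, zpow_add, zpow_add, zpow_one]
      rfl
    rw [e, e]
    exact ih.R2
  | pred n ih =>
    have e : ∀ g : (Ω ≃o Ω) × (Ω ≃o Ω), (R ^ (2 * (-(n : ℤ) - 1))) g =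
        R⁻¹ (R⁻¹ ((R ^ (2 * -(n : ℤ))) g)) := by
      intro g
      rw [show (2 : ℤ) * (-(n : ℤ) - 1) = -1 + (-1 + 2 * -n) by ring, zpow_add, zpow_add,
        zpow_neg_one]
      rfl
    rw [e, e]
    exact ih.R2inv

/-- Tracking in the window `[-2, 0]`. -/
theorem track0 {a u m : Ω ≃o Ω} {s : Ω} {φ : ℝ} (hb : Bd lo hi m a)
    (hd : s ≤ dd (a, u) s) (ht : Tr (a, u) s φ) (h1 : -2 ≤ φ) (h2 : φ < 0) :
    ∃ φ', Tr (a, m⁻¹ * u) s φ' ∧ -2 ≤ φ' ∧ φ' ≤ 0 ∧ (φ = -2 → φ' = -2) ∧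
      (∀ k, lo = some k → (T ^ k : Equiv.Perm ℝ) φ ≤ φ') ∧
      (∀ l, hi = some l → φ' ≤ (T ^ l : Equiv.Perm ℝ) φ) := by
  have hc : Commute m a := hb.comm
  have hdd : dd (a, m⁻¹ * u) = dd (a, u) := LetA.dd (f := (a, u)) ⟨m, hb, rfl, rfl⟩
  have hd' : s ≤ dd (a, m⁻¹ * u) s := by rw [hdd]; exact hd
  -- comparison of the two lines
  have rel : ∀ (k : ℤ) {x : ℝ}, Dy x → -2 < x → x < 0 → ∃ l : List ℤ,
      V (a, u) x = ev a u l ∧
      V (a, m⁻¹ * u) ((T ^ k : Equiv.Perm ℝ) x) = ev a (a ^ k * m⁻¹ * u) l := by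
    intro k x hx g1 g2
    obtain ⟨l, hl⟩ := V_ev (Γ := Ω ≃o Ω) hx g1 g2
    refine ⟨l, hl a u, ?_⟩
    rw [← (V_turn_zpow a (m⁻¹ * u) k hx g1.le g2.le).2, hl, mul_assoc]
  -- the same relation, starting from the second line
  have rel' : ∀ (k : ℤ) {v : ℝ}, Dy v → -2 < v → v < 0 → ∃ l : List ℤ,
      Dy ((T ^ (-k) : Equiv.Perm ℝ) v) ∧ -2 < (T ^ (-k) : Equiv.Perm ℝ) v ∧
      (T ^ (-k) : Equiv.Perm ℝ) v < 0 ∧
      V (a, u) ((T ^ (-k) : Equiv.Perm ℝ) v) = ev a u l ∧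
      V (a, m⁻¹ * u) v = ev a (a ^ k * m⁻¹ * u) l := by
    intro k v hv g1 g2
    have hw := Tz_window_lt (-k) g1 g2
    have hdy := (V_turn_zpow a u (-k) hv g1.le g2.le).1
    obtain ⟨l, hl1, hl2⟩ := rel k hdy hw.1 hw.2
    refine ⟨l, hdy, hw.1, hw.2, hl1, ?_⟩
    have e : (T ^ k : Equiv.Perm ℝ) ((T ^ (-k) : Equiv.Perm ℝ) v) = v := by
      rw [← Equiv.Perm.mul_apply, ← zpow_add, add_neg_cancel, zpow_zero]
      rfl
    rw [e] at hl2
    exact hl2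
  have ec : ∀ k : ℤ, a ^ (-k) * m * (a ^ k * m⁻¹ * u) = u := by
    intro k
    have : m * a ^ k = a ^ k * m := (hc.zpow_right k).eq
    calc a ^ (-k) * m * (a ^ k * m⁻¹ * u) = a ^ (-k) * (m * a ^ k) * m⁻¹ * u := by group
      _ = u := by rw [this]; group
  have monoInv : ∀ (k : ℤ) (x y : ℝ), x < (T ^ k : Equiv.Perm ℝ) y ↔
      (T ^ (-k) : Equiv.Perm ℝ) x < y := by
    intro k x y
    have e : (T ^ k : Equiv.Perm ℝ) ((T ^ (-k) : Equiv.Perm ℝ) x) = x := by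
      rw [← Equiv.Perm.mul_apply, ← zpow_add, add_neg_cancel, zpow_zero]
      rfl
    conv_lhs => rw [← e]
    exact (Tz_strictMono k).lt_iff_lt
  have monoInv' : ∀ (k : ℤ) (x y : ℝ), (T ^ k : Equiv.Perm ℝ) x < y ↔
      x < (T ^ (-k) : Equiv.Perm ℝ) y := by
    intro k x y
    have := monoInv (-k) x y
    rw [neg_neg] at this
    exact this.symm
  rcases lt_or_eq_of_le h1 with h1' | h1'
  · -- the window contains the lower end in its interior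
    have ha : a s < s := by
      have := ht 0 (by simpa using Dy.int 0) h2 (by linarith)
      rwa [V_zero] at this
    obtain ⟨φ', p1, p2, p3⟩ := arc hd' (x₀ := 0) (by simpa using Dy.int 0)
      (by rw [V_zero]; exact ha)
    refine ⟨φ', p3, by linarith, p1, fun h => by linarith, ?_, ?_⟩
    · intro k hk
      by_contra hn
      push Not at hn
      have hw := Tz_window_lt k h1' h2
      obtain ⟨v, hv, g1, g2⟩ := exists_dy (show max φ' (-2) < (T ^ k : Equiv.Perm ℝ) φ from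
        max_lt hn hw.1)
      have g3 : φ' < v := (le_max_left _ _).trans_lt g1
      have g4 : -2 < v := (le_max_right _ _).trans_lt g1
      have g5 : v < 0 := g2.trans hw.2
      obtain ⟨l, q1, q2, q3, q4, q5⟩ := rel' k hv g4 g5
      have g6 := p3 v hv g3 (by linarith)
      rw [q5] at g6
      have g7 := (hb.lower k hk).core_gt ha.le l g6
      rw [ec, ← q4] at g7
      have g8 := ht.below hd q1 (by linarith) ((monoInv k v φ).mp g2)
      exact absurd g7 (not_lt.mpr g8)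
    · intro k hk
      by_contra hn
      push Not at hn
      have hw := Tz_window_lt k h1' h2
      obtain ⟨v, hv, g1, g2⟩ := exists_dy (show max ((T ^ k : Equiv.Perm ℝ) φ) (φ' - 2) < φ' from
        max_lt hn (by linarith))
      have g3 : (T ^ k : Equiv.Perm ℝ) φ < v := (le_max_left _ _).trans_lt g1
      have g4 : φ' - 2 < v := (le_max_right _ _).trans_lt g1
      obtain ⟨l, q1, q2, q3, q4, q5⟩ := rel' k hv (by linarith) (by linarith)
      have g6 := ht _ q1 ((monoInv' k φ v).mp g3) (by linarith)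
      rw [q4] at g6
      have g7 := (hb.upper k hk).core_gt ha.le l g6
      rw [← q5] at g7
      exact absurd g7 (not_lt.mpr (p3.below hd' hv g4 g2))
  · -- the interval is the window
    have hneg : ∀ v, Dy v → -2 < v → v < 0 → V (a, m⁻¹ * u) v s < s := by
      intro v hv g1 g2
      rcases le_total s (a s) with ha | ha
      · -- up
        by_contra hn
        push Not at hn
        have hex : ∃ k : ℤ, ∀ (w : Ω ≃o Ω) (l : List ℤ), s ≤ ev a w l s →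
            s ≤ ev a (a ^ (-k) * m * w) l s := by
          obtain ⟨k, hk | hk⟩ := hb.some_bd
          · exact ⟨k, fun w l hl => hk.core_le ha l hl⟩
          · obtain ⟨n, hn⟩ := hk.rev ha
            refine ⟨k - n, fun w l hl => ?_⟩
            have := (hn w l).1 hl
            have e : a ^ n * (a ^ k * m⁻¹)⁻¹ = a ^ (-(k - n)) * m := by
              have e2 : m * (a ^ k)⁻¹ = (a ^ k)⁻¹ * m := ((hc.zpow_right k).inv_right).eq
              rw [mul_inv_rev, inv_inv, e2, ← zpow_neg, ← zpow_natCast, ← mul_assoc, ← zpow_add]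
              congr 2
              ring
            rwa [e] at this
        obtain ⟨k, hk⟩ := hex
        obtain ⟨l, q1, q2, q3, q4, q5⟩ := rel' k hv g1 g2
        rw [q5] at hn
        have g3 := hk _ l hn
        rw [ec, ← q4] at g3
        exact absurd (ht _ q1 (by linarith) (by linarith)) (not_lt.mpr g3)
      · have hex : ∃ k : ℤ, ∀ (w : Ω ≃o Ω) (l : List ℤ), ev a w l s < s →
            ev a (a ^ k * m⁻¹ * w) l s < s := by
          obtain ⟨k, hk | hk⟩ := hb.some_bd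
          · obtain ⟨n, hn⟩ := hk.rev_dn ha
            refine ⟨n + k, fun w l hl => ?_⟩
            have := (hn w l).2 hl
            have e : a ^ n * (a ^ (-k) * m)⁻¹ = a ^ ((n : ℤ) + k) * m⁻¹ := by
              have e2 : m⁻¹ * a ^ k = a ^ k * m⁻¹ := (hc.inv_left.zpow_right k).eq
              rw [mul_inv_rev, zpow_neg, inv_inv, e2, ← zpow_natCast, ← mul_assoc, ← zpow_add]
            rwa [e] at this
          · exact ⟨k, fun w l hl => hk.core_gt ha l hl⟩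
        obtain ⟨k, hk⟩ := hex
        obtain ⟨l, q1, q2, q3, q4, q5⟩ := rel' k hv g1 g2
        have g6 := ht _ q1 (by linarith) (by linarith)
        rw [q4] at g6
        rw [q5]
        exact hk _ l g6
    refine ⟨-2, fun x hx g1 g2 => hneg x hx g1 (by linarith), le_refl _, by norm_num,
      fun _ => rfl, ?_, ?_⟩
    · intro k _
      rw [← h1', Tz_neg_two]
    · intro k _
      rw [← h1', Tz_neg_two]

lemma loB_some (k : ℤ) (x : ℝ) : loB (some k) x = (T ^ k : Equiv.Perm ℝ) x := turn_eq k x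

lemma hiB_some (k : ℤ) (x : ℝ) : hiB (some k) x = (T ^ k : Equiv.Perm ℝ) x := turn_eq k x

lemma loB_mono (o : Option ℤ) : Monotone (loB o) := by
  cases o with
  | none =>
    intro x y h
    change 2 * (⌊x / 2⌋ : ℝ) ≤ 2 * ⌊y / 2⌋
    have : ⌊x / 2⌋ ≤ ⌊y / 2⌋ := Int.floor_le_floor (by linarith)
    have : (⌊x / 2⌋ : ℝ) ≤ ⌊y / 2⌋ := by exact_mod_cast this
    linarith
  | some k =>
    intro x y h
    rw [loB_some, loB_some]
    exact (Tz_strictMono k).monotone h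

lemma hiB_mono (o : Option ℤ) : Monotone (hiB o) := by
  cases o with
  | none =>
    intro x y h
    change 2 * (⌈x / 2⌉ : ℝ) ≤ 2 * ⌈y / 2⌉
    have : ⌈x / 2⌉ ≤ ⌈y / 2⌉ := Int.ceil_le_ceil (by linarith)
    have : (⌈x / 2⌉ : ℝ) ≤ ⌈y / 2⌉ := by exact_mod_cast this
    linarith
  | some k =>
    intro x y h
    rw [hiB_some, hiB_some]
    exact (Tz_strictMono k).monotone h

/-- Tracking for twists along even directions. -/
theorem trackA {f f' : (Ω ≃o Ω) × (Ω ≃o Ω)} (h : LetA lo hi f f') {s : Ω} {φ : ℝ}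
    (hd : s ≤ dd f s) (ht : Tr f s φ) :
    ∃ φ', Tr f' s φ' ∧ loB lo φ ≤ φ' ∧ φ' ≤ hiB hi φ := by
  obtain ⟨w1, w2⟩ := window φ
  set j : ℤ := ⌊φ / 2⌋ + 1 with hj
  have hjr : (j : ℝ) = ⌊φ / 2⌋ + 1 := by rw [hj]; push_cast; ring
  obtain ⟨m, hb, e1, e2⟩ := h.shift j
  set g := (R ^ (2 * j)) f with hg
  set g' := (R ^ (2 * j)) f' with hg'
  have hgV : ∀ x, Dy x → V g x = V f (x + 2 * j) := by
    intro x hx
    have := V_shift f (2 * j) hx
    push_cast at this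
    exact this
  have hgV' : ∀ x, Dy x → V g' x = V f' (x + 2 * j) := by
    intro x hx
    have := V_shift f' (2 * j) hx
    push_cast at this
    exact this
  have hddg : dd g = dd f := dd_R_zpow f _
  have hge : g = (g.1, g.2) := rfl
  have hge' : g' = (g.1, m⁻¹ * g.2) := Prod.ext e1 e2
  have dysub : ∀ x, Dy x → Dy (x - 2 * j) := by
    intro x hx
    have := hx.add_int (-(2 * j))
    push_cast at this
    rwa [← sub_eq_add_neg] at this
  have dyadd : ∀ x, Dy x → Dy (x + 2 * j) := by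
    intro x hx
    have := hx.add_int (2 * j)
    push_cast at this
    exact this
  have htg : Tr (g.1, g.2) s (φ - 2 * j) := by
    intro x hx g1 g2
    have := ht (x + 2 * j) (dyadd x hx) (by linarith) (by linarith)
    rw [← hgV x hx] at this
    exact this
  obtain ⟨φ', p1, p2, p3, p4, p5, p6⟩ := track0 hb (by rw [← hge, hddg]; exact hd) htg
    (by rw [hjr]; linarith) (by rw [hjr]; linarith)
  have hshift : ∀ k : ℤ, (T ^ k : Equiv.Perm ℝ) (φ - 2 * j) = (T ^ k : Equiv.Perm ℝ) φ - 2 * j := by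
    intro k
    have := Tz_add_even k (-j) φ
    push_cast at this
    rw [show φ + 2 * -(j : ℝ) = φ - 2 * j by ring] at this
    rw [this]
    ring
  refine ⟨φ' + 2 * j, ?_, ?_, ?_⟩
  · intro x hx g1 g2
    have h3 := p1 (x - 2 * j) (dysub x hx) (by linarith) (by linarith)
    rw [← hge', hgV' _ (dysub x hx), sub_add_cancel] at h3
    exact h3
  · cases lo with
    | none =>
      change 2 * (⌊φ / 2⌋ : ℝ) ≤ _
      rw [hjr]
      linarith
    | some k =>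
      rw [loB_some]
      have := p5 k rfl
      rw [hshift] at this
      linarith
  · cases hi with
    | none =>
      change _ ≤ 2 * (⌈φ / 2⌉ : ℝ)
      by_cases hev : φ = 2 * ⌊φ / 2⌋
      · have h3 := p4 (by rw [hjr]; linarith)
        rw [h3, hjr]
        have := Int.le_ceil (φ / 2)
        linarith
      · have h3 : (⌊φ / 2⌋ : ℝ) < φ / 2 := by
          apply lt_of_le_of_ne (Int.floor_le _)
          intro h4
          apply hev
          linarith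
        have h4 : (⌊φ / 2⌋ : ℝ) < ⌈φ / 2⌉ := h3.trans_le (Int.le_ceil _)
        have h5 : ⌊φ / 2⌋ < ⌈φ / 2⌉ := by exact_mod_cast h4
        have h6 : (⌊φ / 2⌋ : ℝ) + 1 ≤ ⌈φ / 2⌉ := by exact_mod_cast h5
        rw [hjr]
        linarith
    | some k =>
      rw [hiB_some]
      have := p6 k rfl
      rw [hshift] at this
      linarith

end Track

end Pool.Agent.Helper71.Rot
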