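import Mathlib
import Pool.Agent.Helper71.RotLetter

/-!
Chains of fractional twists along the two directions of a frame, and the pieces they define when
the displacement bounds hold.
-/

set_option autoImplicit false

namespace Pool.Agent.Helper71.Rot

open Pool.Agent.Helper31.OrderAct
open Pool.Agent.Helper31.TwistChain (dualHom)

lemma Letter.low_mono (ℓ : Letter) : Monotone ℓ.low := by
  intro x y h
  unfold Letter.low
  split_ifs
  · exact sub_le_sub_right (loB_mono _ (by linarith)) _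
  · exact loB_mono _ h

lemma Letter.upp_mono (ℓ : Letter) : Monotone ℓ.upp := by
  intro x y h
  unfold Letter.upp
  split_ifs
  · exact sub_le_sub_right (hiB_mono _ (by linarith)) _
  · exact hiB_mono _ h

/-- The composition of the lower maps of the letters number `i, i + 1, …, i + k - 1`. -/
noncomputable def lw (ℓ : ℕ → Letter) : ℕ → ℝ → ℝ
  | 0, x => x
  | k + 1, x => (ℓ k).low (lw ℓ k x)

/-- The composition of the first `k` upper maps. -/
noncomputable def hw (ℓ : ℕ → Letter) : ℕ → ℝ → ℝ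
  | 0, x => x
  | k + 1, x => (ℓ k).upp (hw ℓ k x)

lemma lw_mono (ℓ : ℕ → Letter) (k : ℕ) : Monotone (lw ℓ k) := by
  induction k with
  | zero => exact monotone_id
  | succ k ih => exact (ℓ k).low_mono.comp ih

lemma hw_mono (ℓ : ℕ → Letter) (k : ℕ) : Monotone (hw ℓ k) := by
  induction k with
  | zero => exact monotone_id
  | succ k ih => exact (ℓ k).upp_mono.comp ih

section Step

variable {Ω : Type*} [CompleteLinearOrder Ω]

/-- A twist along the direction of a letter. -/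
def Step (ℓ : Letter) (f f' : (Ω ≃o Ω) × (Ω ≃o Ω)) : Prop :=
  if ℓ.second then LetA ℓ.lo ℓ.hi (R⁻¹ f) (R⁻¹ f') else LetA ℓ.lo ℓ.hi f f'

lemma dd_Rinv (f : (Ω ≃o Ω) × (Ω ≃o Ω)) : dd (R⁻¹ f) = dd f := by
  have := dd_R_zpow f (-1)
  rwa [zpow_neg_one] at this

lemma Step.dd {ℓ : Letter} {f f' : (Ω ≃o Ω) × (Ω ≃o Ω)} (h : Step ℓ f f') :
    Rot.dd f' = Rot.dd f := by
  unfold Step at h
  split_ifs at h
  · have := h.dd
    rwa [dd_Rinv, dd_Rinv] at this
  · exact h.dd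

lemma V_Rinv (f : (Ω ≃o Ω) × (Ω ≃o Ω)) {x : ℝ} (hx : Dy x) : V (R⁻¹ f) x = V f (x - 1) := by
  have := V_shift f (-1) hx
  rw [zpow_neg_one] at this
  rw [this]
  push_cast
  rw [← sub_eq_add_neg]

lemma Dy.sub_one {x : ℝ} (hx : Dy x) : Dy (x - 1) := by
  have := hx.add_int (-1)
  push_cast at this
  rwa [← sub_eq_add_neg] at this

lemma Dy.add_one {x : ℝ} (hx : Dy x) : Dy (x + 1) := by exact_mod_cast hx.add_int 1

lemma Dy.sub_two {x : ℝ} (hx : Dy x) : Dy (x - 2) := by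
  have := hx.add_int (-2)
  push_cast at this
  rwa [← sub_eq_add_neg] at this

lemma Dy.add_two {x : ℝ} (hx : Dy x) : Dy (x + 2) := by exact_mod_cast hx.add_int 2

lemma Tr_Rinv {f : (Ω ≃o Ω) × (Ω ≃o Ω)} {s : Ω} {φ : ℝ} :
    Tr (R⁻¹ f) s (φ + 1) ↔ Tr f s φ := by
  constructor
  · intro h x hx h1 h2
    have := h (x + 1) hx.add_one (by linarith) (by linarith)
    rwa [V_Rinv f hx.add_one, add_sub_cancel_right] at this
  · intro h x hx h1 h2
    rw [V_Rinv f hx]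
    exact h (x - 1) hx.sub_one (by linarith) (by linarith)

theorem Step.track {ℓ : Letter} {f f' : (Ω ≃o Ω) × (Ω ≃o Ω)} (h : Step ℓ f f') {s : Ω} {φ : ℝ}
    (hd : s ≤ Rot.dd f s) (ht : Tr f s φ) :
    ∃ φ', Tr f' s φ' ∧ ℓ.low φ ≤ φ' ∧ φ' ≤ ℓ.upp φ := by
  unfold Step at h
  unfold Letter.low Letter.upp
  split_ifs at h ⊢
  · obtain ⟨ψ, p1, p2, p3⟩ := trackA h (by rw [dd_Rinv]; exact hd) (Tr_Rinv.mpr ht)
    refine ⟨ψ - 1, ?_, by linarith, by linarith⟩
    rw [← Tr_Rinv, sub_add_cancel]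
    exact p1
  · exact trackA h hd ht

/-- The image of a frame under the passage to the dual order. -/
def dualF (f : (Ω ≃o Ω) × (Ω ≃o Ω)) : (Ωᵒᵈ ≃o Ωᵒᵈ) × (Ωᵒᵈ ≃o Ωᵒᵈ) := (dualHom f.1, dualHom f.2)

lemma LetA.dual {lo hi : Option ℤ} {f f' : (Ω ≃o Ω) × (Ω ≃o Ω)} (h : LetA lo hi f f') :
    LetA (Ω := Ωᵒᵈ) lo hi (dualF f) (dualF f') := by
  obtain ⟨m, hb, e1, e2⟩ := h
  refine ⟨dualHom m, hb.dual, ?_, ?_⟩
  · change dualHom f'.1 = dualHom f.1
    rw [e1]
  · change dualHom f'.2 = (dualHom m)⁻¹ * dualHom f.2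
    rw [e2, map_mul, map_inv]

lemma dualF_Rinv (f : (Ω ≃o Ω) × (Ω ≃o Ω)) : dualF (R⁻¹ f) = R⁻¹ (dualF f) := by
  have := R_map (dualHom (Ω := Ω)) f (-1)
  rw [zpow_neg_one, zpow_neg_one] at this
  exact this.symm

lemma dualF_V (f : (Ω ≃o Ω) × (Ω ≃o Ω)) (x : ℝ) : V (dualF f) x = dualHom (V f x) :=
  V_map (dualHom (Ω := Ω)) f x

lemma dualF_dd (f : (Ω ≃o Ω) × (Ω ≃o Ω)) : dd (dualF f) = dualHom (dd f) :=
  dd_map (dualHom (Ω := Ω)) f

lemma Step.dual {ℓ : Letter} {f f' : (Ω ≃o Ω) × (Ω ≃o Ω)} (h : Step ℓ f f') :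
    Step (Ω := Ωᵒᵈ) ℓ (dualF f) (dualF f') := by
  unfold Step at h ⊢
  split_ifs at h ⊢
  · rw [← dualF_Rinv, ← dualF_Rinv]
    exact h.dual
  · exact h.dual

/-- A closed chain of twists. -/
structure Closed (n : ℕ) (ℓ : ℕ → Letter) (f : ℕ → (Ω ≃o Ω) × (Ω ≃o Ω)) (t : Ω ≃o Ω) : Prop where
  step : ∀ i, i < n → Step (ℓ i) (f i) (f (i + 1))
  close : f n = (t⁻¹ * (f 0).1 * t, t⁻¹ * (f 0).2 * t)
  comm : t * dd (f 0) = dd (f 0) * t

variable {n : ℕ} {ℓ : ℕ → Letter} {f : ℕ → (Ω ≃o Ω) × (Ω ≃o Ω)} {t : Ω ≃o Ω}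

lemma Closed.dual (h : Closed n ℓ f t) :
    Closed (Ω := Ωᵒᵈ) n ℓ (fun i => dualF (f i)) (dualHom t) := by
  refine ⟨fun i hi => (h.step i hi).dual, ?_, ?_⟩
  · rw [h.close]
    apply Prod.ext
    · change dualHom (t⁻¹ * (f 0).1 * t) = (dualHom t)⁻¹ * dualHom (f 0).1 * dualHom t
      rw [map_mul, map_mul, map_inv]
    · change dualHom (t⁻¹ * (f 0).2 * t) = (dualHom t)⁻¹ * dualHom (f 0).2 * dualHom t
      rw [map_mul, map_mul, map_inv]
  · rw [dualF_dd, ← map_mul, ← map_mul, h.comm]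

lemma Closed.dd_eq (h : Closed n ℓ f t) (i : ℕ) (hi : i ≤ n) : dd (f i) = dd (f 0) := by
  induction i with
  | zero => rfl
  | succ i ih => rw [(h.step i hi).dd, ih (by omega)]

lemma Closed.V_close (h : Closed n ℓ f t) (x : ℝ) : V (f n) x = t⁻¹ * V (f 0) x * t := by
  have := V_conj (f 0) t⁻¹ x
  rw [inv_inv] at this
  rw [← this, h.close]

theorem Closed.track (h : Closed n ℓ f t) {s : Ω} {φ : ℝ} (hd : s ≤ dd (f 0) s)
    (ht : Tr (f 0) s φ) (i : ℕ) (hi : i ≤ n) :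
    ∃ φ', Tr (f i) s φ' ∧ lw ℓ i φ ≤ φ' ∧ φ' ≤ hw ℓ i φ := by
  induction i with
  | zero => exact ⟨φ, ht, le_refl _, le_refl _⟩
  | succ i ih =>
    obtain ⟨ψ, p1, p2, p3⟩ := ih (by omega)
    obtain ⟨ψ', q1, q2, q3⟩ := (h.step i hi).track (by rw [h.dd_eq i (by omega)]; exact hd) p1
    exact ⟨ψ', q1, ((ℓ i).low_mono p2).trans q2, q3.trans ((ℓ i).upp_mono p3)⟩

/-- The closing condition excludes displacements between `0` and `4`. -/
theorem Closed.gap (h : Closed n ℓ f t) {s : Ω} (h1 : s ≤ t s) (h2 : t s ≤ dd (f 0) s)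
    {φ ψ : ℝ} (hφ : Tr (f 0) s φ) (hψ : Tr (f n) s ψ) (g1 : φ < ψ) (g2 : ψ < φ + 4) : False := by
  have up : ∀ x, Dy x → φ < x → x < φ + 2 → t s < V (f 0) (x + 2) (t s) := by
    intro x hx a1 a2
    have b1 := hφ x hx a1 a2
    have b2 : V (f 0) (x + 2) = dd (f 0) * (V (f 0) x)⁻¹ := eq_mul_inv_of_mul_eq (V_per (f 0) hx)
    rw [b2, RelIso.mul_apply]
    have b3 : s < (V (f 0) x)⁻¹ (t s) :=
      (inv_gt_of_lt b1).trans_le ((V (f 0) x)⁻¹.monotone h1)
    exact h2.trans_lt ((dd (f 0)).strictMono b3)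
  have dn : ∀ x, Dy x → ψ < x → x < ψ + 2 → V (f 0) x (t s) < t s := by
    intro x hx a1 a2
    have b1 := hψ x hx a1 a2
    rw [h.V_close] at b1
    have b2 := t.strictMono b1
    have b3 : t ((t⁻¹ * V (f 0) x * t) s) = V (f 0) x (t s) := by
      rw [← RelIso.mul_apply, ← RelIso.mul_apply]
      congr 1
      group
    rwa [b3] at b2
  rcases le_total (φ + 2) ψ with h3 | h3
  · obtain ⟨x, hx, c1, c2⟩ := exists_dy (show ψ < φ + 4 from g2)
    have d1 := dn x hx c1 (by linarith)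
    have d2 := up (x - 2) hx.sub_two (by linarith) (by linarith)
    rw [sub_add_cancel] at d2
    exact absurd (d1.trans d2) (lt_irrefl _)
  · obtain ⟨x, hx, c1, c2⟩ := exists_dy (show φ + 2 < ψ + 2 by linarith)
    have d1 := dn x hx (by linarith) c2
    have d2 := up (x - 2) hx.sub_two (by linarith) (by linarith)
    rw [sub_add_cancel] at d2
    exact absurd (d1.trans d2) (lt_irrefl _)

/-- The displacement condition. -/
def Good (n : ℕ) (ℓ : ℕ → Letter) : Prop := ∀ x : ℝ, x < lw ℓ n x ∧ hw ℓ n x < x + 4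

theorem Closed.all_up (h : Closed n ℓ f t) (hg : Good n ℓ) {s : Ω} (h1 : s ≤ t s)
    (h2 : t s ≤ dd (f 0) s) {x : ℝ} (hx : Dy x) : s ≤ V (f 0) x s := by
  by_contra hn
  push Not at hn
  have hd := h1.trans h2
  obtain ⟨φ, _, _, p3⟩ := arc hd hx hn
  obtain ⟨ψ, q1, q2, q3⟩ := h.track hd p3 n le_rfl
  exact h.gap h1 h2 p3 q1 ((hg φ).1.trans_le q2) (q3.trans_lt (hg φ).2)

theorem Closed.all_down (h : Closed n ℓ f t) (hg : Good n ℓ) {s : Ω} (h1 : t s ≤ s)
    (h2 : dd (f 0) s ≤ t s) {x : ℝ} (hx : Dy x) : V (f 0) x s ≤ s := by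
  have := h.dual.all_up hg (s := s) h1 (by rw [dualF_dd]; exact h2) hx
  rw [dualF_V] at this
  exact this

lemma dy0 : Dy (0 : ℝ) := by simpa using Dy.int 0

lemma dy1 : Dy (-1 : ℝ) := by
  have := Dy.int (-1)
  push_cast at this
  exact this

lemma dy2 : Dy (-2 : ℝ) := by
  have := Dy.int (-2)
  push_cast at this
  exact this

lemma V0 (f : (Ω ≃o Ω) × (Ω ≃o Ω)) : V f 0 = f.1 := V_zero f.1 f.2

lemma V1 (f : (Ω ≃o Ω) × (Ω ≃o Ω)) : V f (-1) = f.2 := V_neg_one f.1 f.2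

lemma V2 (f : (Ω ≃o Ω) × (Ω ≃o Ω)) : V f (-2) = f.2⁻¹ * f.1⁻¹ * f.2 := V_neg_two f.1 f.2

theorem Closed.fix (h : Closed n ℓ f t) (hg : Good n ℓ) {s : Ω} (h1 : t s = s)
    (h2 : dd (f 0) s = s) : (f 0).1 s = s ∧ (f 0).2 s = s := by
  have u : ∀ x, Dy x → V (f 0) x s = s := fun x hx =>
    le_antisymm (h.all_down hg h1.le (by rw [h1, h2]) hx)
      (h.all_up hg h1.ge (by rw [h1, h2]) hx)
  have a := u 0 dy0
  have b := u (-1) dy1
  rw [V0] at a
  rw [V1] at b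
  exact ⟨a, b⟩

lemma dd_fix {g : (Ω ≃o Ω) × (Ω ≃o Ω)} {s : Ω} (h1 : g.1 s = s) (h2 : g.2 s = s) :
    dd g s = s := by
  change g.1 (g.2⁻¹ (g.1⁻¹ (g.2 s))) = s
  rw [h2, inv_fix h1, inv_fix h2, h1]

/-- If all directions move all points of an invariant interval weakly up, they fix it. -/
theorem fix_of_all_up {g : (Ω ≃o Ω) × (Ω ≃o Ω)} {e f : Ω} (he : g.1 e = e ∧ g.2 e = e)
    (hf : g.1 f = f ∧ g.2 f = f)
    (hup : ∀ r, e < r → r < f → ∀ x, Dy x → r ≤ V g x r) :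
    ∀ r, e < r → r < f → g.1 r = r ∧ g.2 r = r := by
  have inn : ∀ x : Ω ≃o Ω, x e = e → x f = f → ∀ r, e < r → r < f → e < x r ∧ x r < f := by
    intro x xe xf r h1 h2
    constructor
    · have := x.strictMono h1; rwa [xe] at this
    · have := x.strictMono h2; rwa [xf] at this
  have ha : ∀ r, e < r → r < f → g.1 r = r := by
    intro r h1 h2
    obtain ⟨g1, g2⟩ := inn g.2⁻¹ (inv_fix he.2) (inv_fix hf.2) r h1 h2
    have h3 := hup _ g1 g2 (-2) dy2
    rw [V2, RelIso.mul_apply, RelIso.mul_apply, RelIso.apply_inv_self] at h3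
    have h4 : r ≤ g.1⁻¹ r := (g.2⁻¹).le_iff_le.mp h3
    have h5 := g.1.monotone h4
    rw [RelIso.apply_inv_self] at h5
    have h6 := hup r h1 h2 0 dy0
    rw [V0] at h6
    exact le_antisymm h5 h6
  intro r h1 h2
  refine ⟨ha r h1 h2, ?_⟩
  have h3 := hup r h1 h2 (-1) dy1
  rw [V1] at h3
  have h4 := hup r h1 h2 1 (by simpa using Dy.int 1)
  have e1 : V g 1 = g.1 * g.2⁻¹ * g.1⁻¹ := by
    have h5 := V_per g dy1
    rw [show (-1 : ℝ) + 2 = 1 by norm_num, V1] at h5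
    have h6 : V g 1 = dd g * g.2⁻¹ := eq_mul_inv_of_mul_eq h5
    rw [h6]
    change g.1 * g.2⁻¹ * g.1⁻¹ * g.2 * g.2⁻¹ = _
    group
  rw [e1] at h4
  have h5 : r ≤ g.1 (g.2⁻¹ (g.1⁻¹ r)) := h4
  rw [inv_fix (ha r h1 h2)] at h5
  obtain ⟨g1, g2⟩ := inn g.2⁻¹ (inv_fix he.2) (inv_fix hf.2) r h1 h2
  rw [ha _ g1 g2] at h5
  have h6 := g.2.monotone h5
  rw [RelIso.apply_inv_self] at h6
  exact le_antisymm h6 h3

/-- An interval on which `r ≤ t r ≤ ∂ r` and whose ends are fixed is pointwise fixed. -/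
theorem Closed.trivial_up (h : Closed n ℓ f t) (hg : Good n ℓ) {e e' : Ω}
    (te : t e = e) (de : dd (f 0) e = e) (te' : t e' = e') (de' : dd (f 0) e' = e')
    (hup : ∀ r, e < r → r < e' → r ≤ t r ∧ t r ≤ dd (f 0) r) :
    ∀ r, e < r → r < e' → dd (f 0) r = r := by
  intro r h1 h2
  obtain ⟨a1, a2⟩ := fix_of_all_up (h.fix hg te de) (h.fix hg te' de')
    (fun r h1 h2 x hx => h.all_up hg (hup r h1 h2).1 (hup r h1 h2).2 hx) r h1 h2
  exact dd_fix a1 a2

theorem Closed.trivial_down (h : Closed n ℓ f t) (hg : Good n ℓ) {e e' : Ω}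
    (te : t e = e) (de : dd (f 0) e = e) (te' : t e' = e') (de' : dd (f 0) e' = e')
    (hdn : ∀ r, e < r → r < e' → t r ≤ r ∧ dd (f 0) r ≤ t r) :
    ∀ r, e < r → r < e' → dd (f 0) r = r := by
  intro r h1 h2
  have := h.dual.trivial_up hg (e := e') (e' := e) te' (by rw [dualF_dd]; exact de') te
    (by rw [dualF_dd]; exact de)
    (fun r g1 g2 => ⟨(hdn r g2 g1).1, by rw [dualF_dd]; exact (hdn r g2 g1).2⟩) r h2 h1
  rw [dualF_dd] at this
  exact this

/-- The action of `t ∂⁻¹` compared with the one of `∂`. -/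
lemma tinv_le {d : Ω ≃o Ω} (hc : t * d = d * t) {r : Ω} : (t * d⁻¹) r ≤ r ↔ t r ≤ d r := by
  have hc' : t * d⁻¹ = d⁻¹ * t := ((show Commute t d from hc).inv_right).eq
  rw [hc', RelIso.mul_apply]
  constructor
  · intro h
    have := d.monotone h
    rwa [RelIso.apply_inv_self] at this
  · intro h
    have := d⁻¹.monotone h
    rwa [RelIso.inv_apply_self] at this

lemma le_tinv {d : Ω ≃o Ω} (hc : t * d = d * t) {r : Ω} : r ≤ (t * d⁻¹) r ↔ d r ≤ t r := by
  have hc' : t * d⁻¹ = d⁻¹ * t := ((show Commute t d from hc).inv_right).eq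
  rw [hc', RelIso.mul_apply]
  constructor
  · intro h
    have := d.monotone h
    rwa [RelIso.apply_inv_self] at this
  · intro h
    have := d⁻¹.monotone h
    rwa [RelIso.inv_apply_self] at this

lemma tinv_comm {d : Ω ≃o Ω} (hc : t * d = d * t) : t * (t * d⁻¹) = t * d⁻¹ * t := by
  have hc' : t * d⁻¹ = d⁻¹ * t := ((show Commute t d from hc).inv_right).eq
  rw [mul_assoc, hc']

/-- Positive words in `t` and `t ∂⁻¹` move every point in the same direction. -/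
theorem Closed.opp (h : Closed n ℓ f t) (hg : Good n ℓ) {a b c d : ℕ} (ha : 0 < a) (hb : 0 < b)
    (hc : 0 < c) (hd : 0 < d) {s : Ω}
    (e1 : s ≤ (t ^ a * (t * (dd (f 0))⁻¹) ^ b) s)
    (e2 : (t ^ c * (t * (dd (f 0))⁻¹) ^ d) s ≤ s) :
    t s = s ∧ (t * (dd (f 0))⁻¹) s = s := by
  by_contra e3
  obtain ⟨e, e', hs1, hs2, te, ve, te', ve', hopp⟩ :=
    Glue.pair_lemma (tinv_comm h.comm) ha hb hc hd e1 e2 e3
  have hdf : ∀ r, t r = r → (t * (dd (f 0))⁻¹) r = r → dd (f 0) r = r := by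
    intro r h1 h2
    have h3 := (tinv_le h.comm).mp h2.le
    have h4 := (le_tinv h.comm).mp h2.ge
    rw [h1] at h3 h4
    exact le_antisymm h4 h3
  rcases hopp with g | g
  · have h5 := h.trivial_up hg te (hdf _ te ve) te' (hdf _ te' ve')
      (fun r r1 r2 => ⟨(g r r1 r2).1.le, (tinv_le h.comm).mp (g r r1 r2).2.le⟩) s hs1 hs2
    have h6 : (t * (dd (f 0))⁻¹) s = t s := by rw [RelIso.mul_apply, inv_fix h5]
    obtain ⟨g1, g2⟩ := g s hs1 hs2
    rw [h6] at g2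
    exact absurd (g1.trans g2) (lt_irrefl _)
  · have h5 := h.trivial_down hg te (hdf _ te ve) te' (hdf _ te' ve')
      (fun r r1 r2 => ⟨(g r r1 r2).1.le, (le_tinv h.comm).mp (g r r1 r2).2.le⟩) s hs1 hs2
    have h6 : (t * (dd (f 0))⁻¹) s = t s := by rw [RelIso.mul_apply, inv_fix h5]
    obtain ⟨g1, g2⟩ := g s hs1 hs2
    rw [h6] at g2
    exact absurd (g1.trans g2) (lt_irrefl _)

/-- The component of the complement of the fixed points. -/
lemma component {d : Ω ≃o Ω} {s : Ω} (hs : d s ≠ s) :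
    ∃ e e', e < s ∧ s < e' ∧ d e = e ∧ d e' = e' ∧
      ((∀ r, e < r → r < e' → r < d r) ∨ (∀ r, e < r → r < e' → d r < r)) := by
  have key : ∀ (Ω : Type _) [CompleteLinearOrder Ω] (d : Ω ≃o Ω) (s : Ω), s < d s →
      ∃ e e', e < s ∧ s < e' ∧ d e = e ∧ d e' = e' ∧ (∀ r, e < r → r < e' → r < d r) := by
    intro Ω _ d s h
    have s1 : s < hiE d s := by
      have := le_hiE d s 1
      rw [pow_one] at this
      exact h.trans_le this
    have s2 : loE d s < s := by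
      have := loE_le d s 1
      rw [pow_one] at this
      exact this.trans_lt (inv_lt_of_gt h)
    refine ⟨loE d s, hiE d s, s2, s1, loE_fix h.le, hiE_fix h.le, ?_⟩
    intro r h1 h2
    apply lt_of_le_of_ne (hull_up h.le h1.le h2.le)
    intro hr
    -- `r` is fixed, hence does not lie strictly between points of the orbit
    obtain ⟨p, hp⟩ := lt_iSup_iff.mp h2
    obtain ⟨q, hq⟩ := iInf_lt_iff.mp h1
    rcases le_total r s with h3 | h3
    · have h4 : ∀ q : ℕ, r ≤ (d⁻¹ ^ q) s := by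
        intro q
        have h5 := (d⁻¹ ^ q).monotone h3
        rwa [pow_fix' q (inv_fix hr.symm)] at h5
      exact absurd (h4 q) (not_le.mpr hq)
    · have h4 : ∀ p : ℕ, (d ^ p) s ≤ r := by
        intro p
        have h5 := (d ^ p).monotone h3
        rwa [pow_fix' p hr.symm] at h5
      exact absurd (h4 p) (not_le.mpr hp)
  rcases lt_or_gt_of_ne hs with h | h
  · obtain ⟨e, e', h1, h2, h3, h4, h5⟩ := key Ωᵒᵈ (dualHom d) s h
    exact ⟨e', e, h2, h1, h4, h3, Or.inr (fun r r1 r2 => h5 r r2 r1)⟩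
  · obtain ⟨e, e', h1, h2, h3, h4, h5⟩ := key Ω d s h
    exact ⟨e, e', h1, h2, h3, h4, Or.inl h5⟩

/-- A filled piece: all points are fixed. -/
theorem Closed.root (h : Closed n ℓ f t) (hg : Good n ℓ) {P Q : ℕ} (hPQ : 0 < P + Q)
    (hrel : t ^ P * (t * (dd (f 0))⁻¹) ^ Q = 1) (s : Ω) : t s = s ∧ dd (f 0) s = s := by
  set d := dd (f 0) with hd
  have hc : Commute t d := h.comm
  have hrel' : t ^ (P + Q) = d ^ Q := by
    have h1 : (t * d⁻¹) ^ Q = t ^ Q * (d⁻¹) ^ Q := hc.inv_right.mul_pow Q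
    rw [h1, ← mul_assoc, ← pow_add, inv_pow] at hrel
    exact mul_inv_eq_one.mp hrel
  have hrel2 : (t * d⁻¹) ^ (P + Q) = (d⁻¹) ^ P := by
    rw [hc.inv_right.mul_pow, hrel', pow_add, inv_pow, inv_pow]
    have : Commute (d ^ P)⁻¹ (d ^ Q)⁻¹ := ((Commute.refl d).pow_pow P Q).inv_inv
    rw [this.eq]
    group
  have tup : ∀ r, r ≤ d r → r ≤ t r ∧ t r ≤ d r := by
    intro r hr
    constructor
    · apply of_pow_ge hPQ
      rw [hrel']
      exact pow_ge hr Q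
    · rw [← tinv_le h.comm]
      apply of_pow_le hPQ
      rw [hrel2]
      exact pow_le (inv_le_of_ge hr) P
  have tdn : ∀ r, d r ≤ r → t r ≤ r ∧ d r ≤ t r := by
    intro r hr
    constructor
    · apply of_pow_le hPQ
      rw [hrel']
      exact pow_le hr Q
    · rw [← le_tinv h.comm]
      apply of_pow_ge hPQ
      rw [hrel2]
      exact pow_ge (inv_ge_of_le hr) P
  have tfix : ∀ r, d r = r → t r = r := fun r hr =>
    le_antisymm (tdn r hr.le).1 (tup r hr.ge).1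
  by_cases hs : d s = s
  · exact ⟨tfix s hs, hs⟩
  · exfalso
    obtain ⟨e, e', s1, s2, de, de', hh⟩ := component hs
    rcases hh with g | g
    · exact hs (h.trivial_up hg (tfix e de) de (tfix e' de') de'
        (fun r r1 r2 => tup r (g r r1 r2).le) s s1 s2)
    · exact hs (h.trivial_down hg (tfix e de) de (tfix e' de') de'
        (fun r r1 r2 => tdn r (g r r1 r2).le) s s1 s2)

end Step

section FixLemmas

variable {Ω : Type*} [CompleteLinearOrder Ω] {lo hi : Option ℤ} {m a : Ω ≃o Ω}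

lemma Pos.fix {c a : Ω ≃o Ω} (h : Pos c a) {s : Ω} (hs : a s = s) : c s = s :=
  le_antisymm (h.dn s hs.le).1 (h.up s hs.ge).1

lemma Bd.fix (h : Bd lo hi m a) {s : Ω} (hs : a s = s) : m s = s := by
  obtain ⟨k, hk | hk⟩ := h.some_bd
  · have h1 := hk.fix hs
    rw [RelIso.mul_apply] at h1
    have h2 := congrArg (⇑(a ^ k)) h1
    rw [← RelIso.mul_apply, ← zpow_add, add_neg_cancel, zpow_zero, zpow_fix k hs] at h2
    exact h2
  · have h1 := hk.fix hs
    rw [RelIso.mul_apply] at h1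
    have h2 := congrArg (⇑(a ^ (-k))) h1
    rw [← RelIso.mul_apply, ← zpow_add, neg_add_cancel, zpow_zero, zpow_fix (-k) hs] at h2
    have h3 := congrArg (⇑m) h2
    rw [RelIso.one_apply, RelIso.apply_inv_self] at h3
    exact h3.symm

end FixLemmas

end Pool.Agent.Helper71.Rot
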