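import Mathlib
import Pool.Agent.Helper71.RotDefs

/-!
Manifolds glued along trees from surgered once-punctured torus bundles and from double branched
covers of complements of crossing balls of alternating diagrams: the relations of their
fundamental groups.
-/

set_option autoImplicit false

namespace Pool.Agent.Helper71.Tree

open Pool.Agent.Helper71.Rot (Letter Admissible)

/-- Elements of a group which satisfy the relations of the fundamental group of the following
manifold.  Let `F` be a once-punctured torus with standard curves `a`, `b`.  In `F × [0, 1]`,
drill out for each letter of `L` a copy of the curve of the letter, at increasing heights, and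
glue the top of the result to its bottom.

The elements `a i`, `b i` are the standard generators of the fibre group between the heights of
the letters number `i - 1` and `i`; `m i` is the meridian of the curve number `i`; and `t` is
the loop transverse to the fibres. -/
structure Word (G : Type*) [Group G] (L : List Letter) where
  a : Fin (L.length + 1) → G
  b : Fin (L.length + 1) → G
  m : Fin L.length → G
  t : G
  /-- Passing a curve `a` multiplies `b` by the meridian, which commutes with `a`. -/
  passA : ∀ i, (L.get i).second = false →
    a i.succ = a i.castSucc ∧ b i.succ = b i.castSucc * m i ∧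
      m i * a i.castSucc = a i.castSucc * m i
  /-- Passing a curve `b` multiplies `a` by the inverse of the meridian, which commutes with
  `b`. -/
  passB : ∀ i, (L.get i).second = true →
    b i.succ = b i.castSucc ∧ a i.succ = a i.castSucc * (m i)⁻¹ ∧
      m i * b i.castSucc = b i.castSucc * m i
  closeA : t * a (Fin.last L.length) = a 0 * t
  closeB : t * b (Fin.last L.length) = b 0 * t
  comm : t * (a 0 * b 0 * (a 0)⁻¹ * (b 0)⁻¹) = a 0 * b 0 * (a 0)⁻¹ * (b 0)⁻¹ * t

/-- The boundary of the fibre. -/
def Word.bdry {G : Type*} [Group G] {L : List Letter} (w : Word G L) : G :=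
  w.a 0 * w.b 0 * (w.a 0)⁻¹ * (w.b 0)⁻¹

/-- The curve number `i`. -/
def Word.curve {G : Type*} [Group G] {L : List Letter} (w : Word G L) (i : Fin L.length) : G :=
  if (L.get i).second then w.b i.castSucc else w.a i.castSucc

/-- The set of all the elements `a i`, `b i`, `m i` and `t`. -/
def Word.elts {G : Type*} [Group G] {L : List Letter} (w : Word G L) : Set G :=
  Set.range w.a ∪ Set.range w.b ∪ Set.range w.m ∪ {w.t}

/-- A graph with vertices `0, …, n` and edges `0, …, e`, and for every vertex a list of pairs
`(edge, false)` or `(edge, true)`, which is meant to list the edge ends at the vertex, `false`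
standing for a source and `true` for a target.  For a connected plane graph with the cyclic
orders of the edges at the vertices, this describes an alternating link diagram: the vertices
are the white regions, the edges are the crossings. -/
structure Pattern : Type where
  n : ℕ
  e : ℕ
  src : Fin (e + 1) → Fin (n + 1)
  tgt : Fin (e + 1) → Fin (n + 1)
  rot : Fin (n + 1) → List (Fin (e + 1) × Bool)

/-- The lists consist of the edge ends at the vertices, the edge `0` is not a loop, and the graph
without the edge `0` is connected. -/
def Pattern.Valid (Γ : Pattern) : Prop :=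
  (∀ v i, ((i, false) ∈ Γ.rot v ↔ Γ.src i = v) ∧ ((i, true) ∈ Γ.rot v ↔ Γ.tgt i = v)) ∧
  Γ.src 0 ≠ Γ.tgt 0 ∧
  ∀ v, Relation.EqvGen (fun u w => ∃ i : Fin Γ.e, Γ.src i.succ = u ∧ Γ.tgt i.succ = w) 0 v

/-- Elements of a group which satisfy the relations of the fundamental group (in Brunner's
presentation) of the double cover of the complement of the crossing balls of the alternating
diagram, branched along the strands of the diagram. -/
structure Net (G : Type*) [Group G] (Γ : Pattern) where
  w : Fin (Γ.n + 1) → G
  x : Fin (Γ.e + 1) → G
  base : w 0 = 1
  comm : ∀ i, x i * ((w (Γ.src i))⁻¹ * w (Γ.tgt i)) = (w (Γ.src i))⁻¹ * w (Γ.tgt i) * x i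
  vertex : ∀ v, ((Γ.rot v).map fun ε => if ε.2 then (x ε.1)⁻¹ else x ε.1).prod = 1

/-- The second peripheral element at the crossing number `i`. -/
def Net.step {G : Type*} [Group G] {Γ : Pattern} (N : Net G Γ) (i : Fin (Γ.e + 1)) : G :=
  (N.w (Γ.src i))⁻¹ * N.w (Γ.tgt i)

/-- The two roles of a manifold with torus boundary in a tree: it is a piece with filled inner
boundary tori; or it is used to fill a torus of another piece, where `lo` and `hi` are the bounds
for the slopes, and `strict` tells that slopes of solid tori must be different from `lo`. -/
inductive Role : Type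
  | piece
  | fill (strict : Bool) (lo hi : Option ℤ)

/-- `Glued .piece p q S`: the elements of the set `S` satisfy the relations of the
fundamental group of a piece whose inner boundary tori are filled, `(p, q)` being the pair of
peripheral elements at the outer boundary torus.

`Glued (.fill strict lo hi) m a S`: the elements of `S` satisfy the relations of the fundamental
group of a manifold which fills a torus of another piece with the peripheral pair `(m, a)`
there. -/
inductive Glued {G : Type*} [Group G] : Role → G → G → Set G → Prop
  /-- The piece of an admissible word, the curves of which are filled. -/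
  | word (L : List Letter) (hL : Admissible L) (w : Word G L) (S : Fin L.length → Set G)
      (h : ∀ i, Glued (.fill false (L.get i).lo (L.get i).hi) (w.m i) (w.curve i) (S i)) :
      Glued .piece w.t (w.t * w.bdry⁻¹) (w.elts ∪ ⋃ i, S i)
  /-- The piece of an alternating diagram, the crossings of which other than `0` are filled with
  positive slopes. -/
  | net (Γ : Pattern) (hΓ : Γ.Valid) (N : Net G Γ) (S : Fin Γ.e → Set G)
      (h : ∀ i, Glued (.fill true (some 0) none) (N.x i.succ) (N.step i.succ) (S i)) :
      Glued .piece (N.x 0) (N.step 0)⁻¹ (Set.range N.w ∪ Set.range N.x ∪ ⋃ i, S i)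
  /-- A solid torus, of slope `c / d` in the interval from `lo` to `hi`. -/
  | solid (strict : Bool) (lo hi : Option ℤ) (m a : G) (d c : ℤ) (hd : 0 < d)
      (hlo : ∀ k, lo = some k → k * d ≤ c ∧ (strict = true → k * d ≠ c))
      (hhi : ∀ k, hi = some k → c ≤ k * d) (h : m ^ d = a ^ c) :
      Glued (.fill strict lo hi) m a ∅
  /-- A piece, the slopes `P₁ / P₂` and `Q₁ / Q₂` being strictly between `lo` and `hi`. -/
  | glue (strict : Bool) (lo hi : Option ℤ) (m a p q : G) (S : Set G)
      (h : Glued .piece p q S) (P₁ Q₁ P₂ Q₂ : ℤ) (hP : 0 < P₂) (hQ : 0 < Q₂)
      (hdet : P₁ * Q₂ ≠ P₂ * Q₁)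
      (hlo : ∀ k, lo = some k → k * P₂ < P₁ ∧ k * Q₂ < Q₁)
      (hhi : ∀ k, hi = some k → P₁ < k * P₂ ∧ Q₁ < k * Q₂)
      (hm : m = p ^ P₁ * q ^ Q₁) (ha : a = p ^ P₂ * q ^ Q₂) :
      Glued (.fill strict lo hi) m a S

/-- A group is left-orderable if it is nontrivial and carries a total order which is invariant
under left multiplication. -/
def LeftOrderable (G : Type*) [Group G] : Prop :=
  Nontrivial G ∧ ∃ _ : LinearOrder G, ∀ f g h : G, g ≤ h → f * g ≤ f * h

end Pool.Agent.Helper71.Tree
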