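import Mathlib
import Pool.Agent.Helper71.TreeDefs
import Pool.Agent.Helper71.RotPiece
import Pool.Agent.Helper71.TwistTree

/-!
Trees of pieces acting on a complete linear order.
-/

set_option autoImplicit false

namespace Pool.Agent.Helper71.Tree

open Pool.Agent.Helper31.OrderAct
open Pool.Agent.Helper71.Rot
open Pool.Agent.Helper71.TwistTree (SR)

section Products

variable {Ω : Type*} [CompleteLinearOrder Ω]

/-- If automorphisms which do not move `s` up have product one, they fix `s`. -/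
lemma fix_of_prod {l : List (Ω ≃o Ω)} {s : Ω} (hl : ∀ x ∈ l, x s ≤ s) (h : s ≤ l.prod s) :
    ∀ x ∈ l, x s = s := by
  induction l with
  | nil => intro x hx; simp at hx
  | cons a l ih =>
    have h1 : l.prod s ≤ s := by
      have : ∀ l : List (Ω ≃o Ω), (∀ x ∈ l, x s ≤ s) → l.prod s ≤ s := by
        intro l hl
        induction l with
        | nil => exact le_refl _
        | cons a l ih =>
          rw [List.prod_cons, RelIso.mul_apply]
          exact (a.monotone (ih (fun x hx => hl x (by simp [hx])))).trans (hl a (by simp))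
      exact this l (fun x hx => hl x (by simp [hx]))
    rw [List.prod_cons, RelIso.mul_apply] at h
    have h2 : a s = s := le_antisymm (hl a (by simp)) (h.trans (a.monotone h1))
    have h3 : s ≤ l.prod s := by
      have h4 : a s ≤ a (l.prod s) := h2.le.trans h
      exact a.le_iff_le.mp h4
    intro x hx
    rcases List.mem_cons.mp hx with rfl | hx
    · exact h2
    · exact ih (fun x hx => hl x (by simp [hx])) h3 x hx

end Products

section Signs

variable {Ω : Type*} [CompleteLinearOrder Ω] {lo hi : Option ℤ} {m a : Ω ≃o Ω}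

/-- The data extracted from a piece: the outer pair and the set of all its elements. -/
structure PieceSpec (p q : Ω ≃o Ω) (S : Set (Ω ≃o Ω)) : Prop where
  comm : p * q = q * p
  fix : ∀ s, p s = s → q s = s → ∀ g ∈ S, g s = s
  opp : ∀ a b c d : ℕ, 0 < a → 0 < b → 0 < c → 0 < d → ∀ s,
    s ≤ (p ^ a * q ^ b) s → (p ^ c * q ^ d) s ≤ s → (p s = s ∧ q s = s)
  root : ∀ P Q : ℕ, 0 < P + Q → p ^ P * q ^ Q = 1 →
    ∀ s, p s = s ∧ q s = s

/-- The data extracted from a filled torus. -/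
structure FillSpec (strict : Bool) (lo hi : Option ℤ) (m a : Ω ≃o Ω) (S : Set (Ω ≃o Ω)) :
    Prop where
  bd : m * a = a * m → Bd lo hi m a
  fix : ∀ s, m s = s → a s = s → ∀ g ∈ S, g s = s
  str : m * a = a * m → strict = true → ∀ k, lo = some k → ∀ s, (a ^ (-k) * m) s = s → a s = s

variable {p q : Ω ≃o Ω}

/-- Integer words with positive exponents. -/
lemma PieceSpec.opp' {S : Set (Ω ≃o Ω)} (h : PieceSpec p q S)
    {a b c d : ℤ} (ha : 0 < a) (hb : 0 < b) (hc : 0 < c) (hd : 0 < d) {s : Ω}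
    (e1 : s ≤ (p ^ a * q ^ b) s) (e2 : (p ^ c * q ^ d) s ≤ s) : p s = s ∧ q s = s := by
  lift a to ℕ using ha.le
  lift b to ℕ using hb.le
  lift c to ℕ using hc.le
  lift d to ℕ using hd.le
  simp only [zpow_natCast] at e1 e2
  exact h.opp a b c d (by exact_mod_cast ha) (by exact_mod_cast hb) (by exact_mod_cast hc)
    (by exact_mod_cast hd) s e1 e2

lemma word_comm (hc : p * q = q * p) (A B C D : ℤ) :
    Commute (p ^ A * q ^ B) (p ^ C * q ^ D) := by
  have h : Commute p q := hc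
  exact ((Commute.refl p).zpow_zpow A C |>.mul_right (h.zpow_zpow A D)).mul_left
    ((h.symm.zpow_zpow B C).mul_right ((Commute.refl q).zpow_zpow B D))

lemma word_mul (hc : p * q = q * p) (A B C D : ℤ) :
    (p ^ A * q ^ B) * (p ^ C * q ^ D) = p ^ (A + C) * q ^ (B + D) := by
  have h : Commute (q ^ B) (p ^ C) := (show Commute q p from hc.symm).zpow_zpow B C
  rw [zpow_add, zpow_add]
  calc p ^ A * q ^ B * (p ^ C * q ^ D) = p ^ A * (q ^ B * p ^ C) * q ^ D := by group
    _ = p ^ A * p ^ C * (q ^ B * q ^ D) := by rw [h.eq]; group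

lemma word_pow (hc : p * q = q * p) (A B k : ℤ) :
    (p ^ A * q ^ B) ^ k = p ^ (A * k) * q ^ (B * k) := by
  have h : Commute (p ^ A) (q ^ B) := (show Commute p q from hc).zpow_zpow A B
  rw [h.mul_zpow, zpow_mul, zpow_mul]

lemma word_inv (hc : p * q = q * p) (A B : ℤ) :
    (p ^ A * q ^ B)⁻¹ = p ^ (-A) * q ^ (-B) := by
  have := word_pow hc A B (-1)
  rw [zpow_neg_one] at this
  rw [this]
  congr 2 <;> ring

/-- A positive word in an outer pair is positive with respect to another positive word. -/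
lemma PieceSpec.pos {S : Set (Ω ≃o Ω)} (h : PieceSpec p q S)
    {A B C D : ℤ} (hA : 0 < A) (hB : 0 < B) (hC : 0 < C) (hD : 0 < D) :
    Pos (p ^ A * q ^ B) (p ^ C * q ^ D) := by
  have hbig : ∃ n : ℕ, A < C * n ∧ B < D * n := by
    refine ⟨(A + B).toNat, ?_, ?_⟩
    · have h1 : ((A + B).toNat : ℤ) = A + B := Int.toNat_of_nonneg (by omega)
      rw [h1]
      nlinarith
    · have h1 : ((A + B).toNat : ℤ) = A + B := Int.toNat_of_nonneg (by omega)
      rw [h1]
      nlinarith
  obtain ⟨n, hn1, hn2⟩ := hbig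
  have hsplit : (p ^ C * q ^ D) ^ n = (p ^ A * q ^ B) * (p ^ (C * n - A) * q ^ (D * n - B)) := by
    rw [← zpow_natCast, word_pow h.comm, word_mul h.comm]
    congr 2 <;> ring
  refine ⟨word_comm h.comm A B C D, ?_, ?_⟩
  · intro s hs
    constructor
    · by_contra hn
      push Not at hn
      obtain ⟨g1, g2⟩ := h.opp' hC hD hA hB hs hn.le
      have : (p ^ A * q ^ B) s = s := by rw [RelIso.mul_apply, zpow_fix _ g2, zpow_fix _ g1]
      rw [this] at hn
      exact absurd hn (lt_irrefl _)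
    · refine ⟨n, ?_⟩
      rw [hsplit, RelIso.mul_apply]
      have key : s ≤ (p ^ (C * n - A) * q ^ (D * n - B)) s := by
        by_contra hn
        push Not at hn
        obtain ⟨g1, g2⟩ := h.opp' hC hD (by omega) (by omega) hs hn.le
        have : (p ^ (C * n - A) * q ^ (D * n - B)) s = s := by
          rw [RelIso.mul_apply, zpow_fix _ g2, zpow_fix _ g1]
        rw [this] at hn
        exact absurd hn (lt_irrefl _)
      exact (p ^ A * q ^ B).monotone key
  · intro s hs
    constructor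
    · by_contra hn
      push Not at hn
      obtain ⟨g1, g2⟩ := h.opp' hA hB hC hD hn.le hs
      have : (p ^ A * q ^ B) s = s := by rw [RelIso.mul_apply, zpow_fix _ g2, zpow_fix _ g1]
      rw [this] at hn
      exact absurd hn (lt_irrefl _)
    · refine ⟨n, ?_⟩
      rw [hsplit, RelIso.mul_apply]
      have key : (p ^ (C * n - A) * q ^ (D * n - B)) s ≤ s := by
        by_contra hn
        push Not at hn
        obtain ⟨g1, g2⟩ := h.opp' (show (0:ℤ) < C * n - A by omega)
          (show (0:ℤ) < D * n - B by omega) hC hD hn.le hs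
        have : (p ^ (C * n - A) * q ^ (D * n - B)) s = s := by
          rw [RelIso.mul_apply, zpow_fix _ g2, zpow_fix _ g1]
        rw [this] at hn
        exact absurd hn (lt_irrefl _)
      exact (p ^ A * q ^ B).monotone key

theorem PieceSpec.glue {strict : Bool} {S : Set (Ω ≃o Ω)} (h : PieceSpec p q S)
    {P₁ Q₁ P₂ Q₂ : ℤ} (hP : 0 < P₂) (hQ : 0 < Q₂) (hdet : P₁ * Q₂ ≠ P₂ * Q₁)
    (hlo : ∀ k, lo = some k → k * P₂ < P₁ ∧ k * Q₂ < Q₁)
    (hhi : ∀ k, hi = some k → P₁ < k * P₂ ∧ Q₁ < k * Q₂) :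
    FillSpec strict lo hi (p ^ P₁ * q ^ Q₁) (p ^ P₂ * q ^ Q₂) S := by
  have elo : ∀ k : ℤ, (p ^ P₂ * q ^ Q₂) ^ (-k) * (p ^ P₁ * q ^ Q₁) =
      p ^ (P₁ - k * P₂) * q ^ (Q₁ - k * Q₂) := by
    intro k
    rw [word_pow h.comm, word_mul h.comm]
    congr 2 <;> ring
  have ehi : ∀ k : ℤ, (p ^ P₂ * q ^ Q₂) ^ k * (p ^ P₁ * q ^ Q₁)⁻¹ =
      p ^ (k * P₂ - P₁) * q ^ (k * Q₂ - Q₁) := by
    intro k
    rw [word_pow h.comm, word_inv h.comm, word_mul h.comm]
    congr 2 <;> ring
  have plo : ∀ k : ℤ, k * P₂ < P₁ → k * Q₂ < Q₁ →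
      Pos ((p ^ P₂ * q ^ Q₂) ^ (-k) * (p ^ P₁ * q ^ Q₁)) (p ^ P₂ * q ^ Q₂) := by
    intro k h1 h2
    rw [elo]
    exact h.pos (by omega) (by omega) hP hQ
  refine ⟨fun _ => ⟨word_comm h.comm _ _ _ _, ?_, ?_, ?_⟩, ?_, ?_⟩
  · intro k hk
    exact plo k (hlo k hk).1 (hlo k hk).2
  · intro k hk
    rw [ehi]
    obtain ⟨h1, h2⟩ := hhi k hk
    exact h.pos (by omega) (by omega) hP hQ
  · refine ⟨-(|P₁| + |Q₁| + 1), Or.inl (plo _ ?_ ?_)⟩
    · have h1 := neg_abs_le P₁
      have h2 := abs_nonneg Q₁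
      have h3 := abs_nonneg P₁
      nlinarith
    · have h1 := neg_abs_le Q₁
      have h2 := abs_nonneg P₁
      have h3 := abs_nonneg Q₁
      nlinarith
  · intro s h1 h2 g hg
    -- both `p` and `q` have a power which fixes `s`
    have e1 : (p ^ P₁ * q ^ Q₁) ^ Q₂ * (p ^ P₂ * q ^ Q₂) ^ (-Q₁) = p ^ (P₁ * Q₂ - P₂ * Q₁) := by
      rw [word_pow h.comm, word_pow h.comm, word_mul h.comm,
        show Q₁ * Q₂ + Q₂ * -Q₁ = 0 by ring, zpow_zero, mul_one]
      congr 1
      ring
    have e2 : (p ^ P₁ * q ^ Q₁) ^ P₂ * (p ^ P₂ * q ^ Q₂) ^ (-P₁) = q ^ (P₂ * Q₁ - P₁ * Q₂) := by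
      rw [word_pow h.comm, word_pow h.comm, word_mul h.comm,
        show P₁ * P₂ + P₂ * -P₁ = 0 by ring, zpow_zero, one_mul]
      congr 1
      ring
    have zfix : ∀ (x : Ω ≃o Ω) (n : ℤ), n ≠ 0 → (x ^ n) s = s → x s = s := by
      intro x n hn hx
      rcases lt_or_gt_of_ne hn with h3 | h3
      · have h4 : (x ^ (-n)) s = s := by
          rw [zpow_neg]
          exact inv_fix hx
        have h5 : 0 < -n := by omega
        lift -n to ℕ using h5.le with n' hn'
        rw [zpow_natCast] at h4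
        exact TwistTree.fix_of_pow_fix (by exact_mod_cast h5) h4
      · lift n to ℕ using h3.le
        rw [zpow_natCast] at hx
        exact TwistTree.fix_of_pow_fix (by exact_mod_cast h3) hx
    refine h.fix s (zfix p _ (sub_ne_zero.mpr hdet) ?_) (zfix q _ (sub_ne_zero.mpr hdet.symm) ?_)
      g hg
    · rw [← e1, RelIso.mul_apply, zpow_fix _ h2, zpow_fix _ h1]
    · rw [← e2, RelIso.mul_apply, zpow_fix _ h2, zpow_fix _ h1]
  · intro _ _ k hk s hs
    rw [elo] at hs
    obtain ⟨h1, h2⟩ := hlo k hk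
    obtain ⟨g1, g2⟩ := h.opp' (show (0 : ℤ) < P₁ - k * P₂ by omega)
      (show (0 : ℤ) < Q₁ - k * Q₂ by omega) (show (0 : ℤ) < P₁ - k * P₂ by omega)
      (show (0 : ℤ) < Q₁ - k * Q₂ by omega) hs.ge hs.le
    rw [RelIso.mul_apply, zpow_fix _ g2, zpow_fix _ g1]

/-- Fractional powers. -/
lemma pos_of_pow {c x : Ω ≃o Ω} (hc : c * x = x * c) {d : ℕ} {e : ℕ} (hd : 0 < d)
    (h : c ^ d = x ^ e) : Pos c x := by
  have hcc : Commute c x := hc
  refine ⟨hc, ?_, ?_⟩
  · intro s hs
    have h1 : s ≤ c s := by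
      apply of_pow_ge hd
      rw [h]
      exact pow_ge hs e
    refine ⟨h1, e, ?_⟩
    rw [← h]
    obtain ⟨d', rfl⟩ : ∃ d', d = d' + 1 := ⟨d - 1, by omega⟩
    rw [pow_succ', RelIso.mul_apply]
    exact c.monotone (pow_ge h1 d')
  · intro s hs
    have h1 : c s ≤ s := by
      apply of_pow_le hd
      rw [h]
      exact pow_le hs e
    refine ⟨h1, e, ?_⟩
    rw [← h]
    obtain ⟨d', rfl⟩ : ∃ d', d = d' + 1 := ⟨d - 1, by omega⟩
    rw [pow_succ', RelIso.mul_apply]
    exact c.monotone (pow_le h1 d')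

theorem solid_spec {strict : Bool} {d c : ℤ} (hd : 0 < d)
    (hlo : ∀ k, lo = some k → k * d ≤ c ∧ (strict = true → k * d ≠ c))
    (hhi : ∀ k, hi = some k → c ≤ k * d) (h : m ^ d = a ^ c) : FillSpec strict lo hi m a ∅ := by
  refine ⟨fun hcm => ?_, fun s _ _ g hg => absurd hg (Set.notMem_empty g), ?_⟩
  swap
  · intro hcm hst k hk s hs
    have hc : Commute m a := hcm
    obtain ⟨h1, h2⟩ := hlo k hk
    have h3 := h2 hst
    have h4 : (a ^ (-k) * m) ^ d = a ^ (c - k * d) := by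
      have h5 : Commute (a ^ (-k)) m := (hc.zpow_right (-k)).symm
      rw [h5.mul_zpow, h, ← zpow_mul, ← zpow_add]
      congr 1
      ring
    have h6 : (a ^ (c - k * d)) s = s := by
      rw [← h4]
      exact zpow_fix d hs
    have h7 : 0 < c - k * d := by omega
    lift c - k * d to ℕ using h7.le with e he
    rw [zpow_natCast] at h6
    exact TwistTree.fix_of_pow_fix (by exact_mod_cast h7) h6
  have hc : Commute m a := hcm
  lift d to ℕ using hd.le
  have hd' : 0 < d := by exact_mod_cast hd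
  rw [zpow_natCast] at h
  have plo : ∀ k : ℤ, k * d ≤ c → Pos (a ^ (-k) * m) a := by
    intro k hk
    obtain ⟨e, he⟩ : ∃ e : ℕ, c - k * d = e := ⟨(c - k * d).toNat, by omega⟩
    refine pos_of_pow (e := e) ?_ hd' ?_
    · exact (((Commute.refl a).zpow_left (-k)).mul_left hc).eq
    · have h1 : Commute (a ^ (-k)) m := (hc.zpow_right (-k)).symm
      rw [h1.mul_pow, h, ← zpow_natCast (a ^ (-k)), ← zpow_mul, ← zpow_add, ← zpow_natCast a e,
        ← he]
      congr 1
      ring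
  have phi : ∀ k : ℤ, c ≤ k * d → Pos (a ^ k * m⁻¹) a := by
    intro k hk
    obtain ⟨e, he⟩ : ∃ e : ℕ, k * d - c = e := ⟨(k * d - c).toNat, by omega⟩
    refine pos_of_pow (e := e) ?_ hd' ?_
    · exact (((Commute.refl a).zpow_left k).mul_left hc.inv_left).eq
    · have h1 : Commute (a ^ k) m⁻¹ := (hc.zpow_right k).symm.inv_right
      rw [h1.mul_pow, inv_pow, h, ← zpow_natCast (a ^ k), ← zpow_mul, ← zpow_neg, ← zpow_add,
        ← zpow_natCast a e, ← he]
      congr 1
  refine ⟨hcm, fun k hk => plo k (hlo k hk).1, fun k hk => phi k (hhi k hk), ?_⟩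
  refine ⟨-|c|, Or.inl (plo _ ?_)⟩
  have h1 := neg_abs_le c
  have h2 := abs_nonneg c
  have h3 : (1 : ℤ) ≤ d := by exact_mod_cast hd'
  nlinarith

end Signs

section Words

variable {Ω : Type*} [CompleteLinearOrder Ω] {G : Type*} [Group G]

/-- The letters of a word as a sequence. -/
def seq (L : List Letter) (i : ℕ) : Letter := L.getD i ⟨false, none, none⟩

lemma seq_get (L : List Letter) {i : ℕ} (hi : i < L.length) : seq L i = L.get ⟨i, hi⟩ := by
  simp [seq, hi]

lemma lw_take (L : List Letter) (k : ℕ) (hk : k ≤ L.length) (x : ℝ) :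
    lw (seq L) k x = (L.take k).foldl (fun y ℓ => ℓ.low y) x := by
  induction k with
  | zero => simp [lw]
  | succ k ih =>
    have hk' : k < L.length := by omega
    rw [List.take_succ_eq_append_getElem hk', List.foldl_append, ← ih (by omega)]
    change (seq L k).low _ = _
    rw [seq_get L hk']
    rfl

lemma hw_take (L : List Letter) (k : ℕ) (hk : k ≤ L.length) (x : ℝ) :
    hw (seq L) k x = (L.take k).foldl (fun y ℓ => ℓ.upp y) x := by
  induction k with
  | zero => simp [hw]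
  | succ k ih =>
    have hk' : k < L.length := by omega
    rw [List.take_succ_eq_append_getElem hk', List.foldl_append, ← ih (by omega)]
    change (seq L k).upp _ = _
    rw [seq_get L hk']
    rfl

lemma good_of_admissible {L : List Letter} (h : Admissible L) : Good L.length (seq L) := by
  intro x
  have h1 := lw_take L L.length le_rfl x
  have h2 := hw_take L L.length le_rfl x
  rw [List.take_length] at h1 h2
  rw [h1, h2]
  exact h x

/-- The frames of a word. -/
def frames {L : List Letter} (w : Word G L) (ρ : G →* (Ω ≃o Ω)) (i : ℕ) :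
    (Ω ≃o Ω) × (Ω ≃o Ω) :=
  (ρ (w.a ⟨min i L.length, by omega⟩), (ρ (w.b ⟨min i L.length, by omega⟩))⁻¹)

variable {L : List Letter} (w : Word G L) (ρ : G →* (Ω ≃o Ω))

lemma frames_cast (i : Fin L.length) :
    frames w ρ i = (ρ (w.a i.castSucc), (ρ (w.b i.castSucc))⁻¹) := by
  have : (⟨min i L.length, by omega⟩ : Fin (L.length + 1)) = i.castSucc := by
    apply Fin.ext
    simp only [Fin.val_castSucc]
    omega
  rw [frames, this]

lemma frames_succ (i : Fin L.length) :
    frames w ρ (i + 1) = (ρ (w.a i.succ), (ρ (w.b i.succ))⁻¹) := by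
  have : (⟨min ((i : ℕ) + 1) L.length, by omega⟩ : Fin (L.length + 1)) = i.succ := by
    apply Fin.ext
    simp only [Fin.val_succ]
    omega
  rw [frames, this]

lemma frames_zero : frames w ρ 0 = (ρ (w.a 0), (ρ (w.b 0))⁻¹) := by
  have : (⟨min 0 L.length, by omega⟩ : Fin (L.length + 1)) = 0 := by
    apply Fin.ext
    simp
  rw [frames, this]

lemma frames_last : frames w ρ L.length =
    (ρ (w.a (Fin.last L.length)), (ρ (w.b (Fin.last L.length)))⁻¹) := by
  have : (⟨min L.length L.length, by omega⟩ : Fin (L.length + 1)) = Fin.last L.length := by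
    apply Fin.ext
    simp
  rw [frames, this]

lemma dd_frames : dd (frames w ρ 0) = ρ w.bdry := by
  rw [frames_zero, Word.bdry, map_mul, map_mul, map_mul, map_inv, map_inv]
  change ρ (w.a 0) * (ρ (w.b 0))⁻¹⁻¹ * (ρ (w.a 0))⁻¹ * (ρ (w.b 0))⁻¹ = _
  rw [inv_inv]

/-- The meridians commute with the curves. -/
lemma m_comm (i : Fin L.length) : w.m i * w.curve i = w.curve i * w.m i := by
  unfold Word.curve
  split_ifs with h
  · exact (w.passB i h).2.2
  · exact (w.passA i (by simpa using h)).2.2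

theorem closed_of_word (S : Fin L.length → Set (Ω ≃o Ω))
    (h : ∀ i, FillSpec false (L.get i).lo (L.get i).hi (ρ (w.m i)) (ρ (w.curve i)) (S i)) :
    Closed L.length (seq L) (frames w ρ) (ρ w.t) := by
  have hbd : ∀ i, Bd (L.get i).lo (L.get i).hi (ρ (w.m i)) (ρ (w.curve i)) := fun i =>
    (h i).bd (by rw [← map_mul, m_comm, map_mul])
  refine ⟨?_, ?_, ?_⟩
  · intro i hi
    rw [seq_get L hi]
    have hb := hbd ⟨i, hi⟩
    have e1 := frames_cast w ρ ⟨i, hi⟩
    have e2 := frames_succ w ρ ⟨i, hi⟩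
    change frames w ρ i = _ at e1
    change frames w ρ (i + 1) = _ at e2
    rw [e1, e2]
    unfold Step
    unfold Word.curve at hb
    split_ifs with hs
    · rw [if_pos hs] at hb
      obtain ⟨p1, p2, p3⟩ := w.passB ⟨i, hi⟩ hs
      refine ⟨(ρ (w.m ⟨i, hi⟩))⁻¹, hb.inv, ?_, ?_⟩
      · change (ρ (w.b (Fin.succ ⟨i, hi⟩)))⁻¹ = (ρ (w.b (Fin.castSucc ⟨i, hi⟩)))⁻¹
        rw [p1]
      · change (ρ (w.b (Fin.succ ⟨i, hi⟩)))⁻¹⁻¹ * (ρ (w.a (Fin.succ ⟨i, hi⟩)))⁻¹ *
          (ρ (w.b (Fin.succ ⟨i, hi⟩)))⁻¹ = (ρ (w.m ⟨i, hi⟩))⁻¹⁻¹ *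
          ((ρ (w.b (Fin.castSucc ⟨i, hi⟩)))⁻¹⁻¹ * (ρ (w.a (Fin.castSucc ⟨i, hi⟩)))⁻¹ *
          (ρ (w.b (Fin.castSucc ⟨i, hi⟩)))⁻¹)
        rw [p1, p2, map_mul, map_inv, inv_inv, inv_inv, mul_inv_rev, inv_inv]
        have p4 : ρ (w.m ⟨i, hi⟩) * ρ (w.b (Fin.castSucc ⟨i, hi⟩)) =
            ρ (w.b (Fin.castSucc ⟨i, hi⟩)) * ρ (w.m ⟨i, hi⟩) := by
          rw [← map_mul, p3, map_mul]
        rw [← mul_assoc, ← mul_assoc, ← mul_assoc, p4]
    · rw [if_neg hs] at hb
      obtain ⟨p1, p2, p3⟩ := w.passA ⟨i, hi⟩ (by simpa using hs)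
      refine ⟨ρ (w.m ⟨i, hi⟩), hb, ?_, ?_⟩
      · change ρ (w.a (Fin.succ ⟨i, hi⟩)) = ρ (w.a (Fin.castSucc ⟨i, hi⟩))
        rw [p1]
      · change (ρ (w.b (Fin.succ ⟨i, hi⟩)))⁻¹ = (ρ (w.m ⟨i, hi⟩))⁻¹ *
          (ρ (w.b (Fin.castSucc ⟨i, hi⟩)))⁻¹
        rw [p2, map_mul, mul_inv_rev]
  · rw [frames_last, frames_zero]
    have h1 : ρ w.t * ρ (w.a (Fin.last L.length)) = ρ (w.a 0) * ρ w.t := by
      rw [← map_mul, w.closeA, map_mul]
    have h2 : ρ w.t * ρ (w.b (Fin.last L.length)) = ρ (w.b 0) * ρ w.t := by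
      rw [← map_mul, w.closeB, map_mul]
    apply Prod.ext
    · change ρ (w.a (Fin.last L.length)) = (ρ w.t)⁻¹ * ρ (w.a 0) * ρ w.t
      rw [mul_assoc, ← h1, inv_mul_cancel_left]
    · change (ρ (w.b (Fin.last L.length)))⁻¹ = (ρ w.t)⁻¹ * (ρ (w.b 0))⁻¹ * ρ w.t
      have h3 : ρ (w.b (Fin.last L.length)) = (ρ w.t)⁻¹ * ρ (w.b 0) * ρ w.t := by
        rw [mul_assoc, ← h2, inv_mul_cancel_left]
      rw [h3]
      group
  · rw [dd_frames, ← map_mul, ← map_mul]
    exact congrArg ρ w.comm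

/-- If the fibre group of the first fibre and the loop `t` fix a point, so do all elements. -/
theorem all_fix (S : Fin L.length → Set (Ω ≃o Ω))
    (h : ∀ i, FillSpec false (L.get i).lo (L.get i).hi (ρ (w.m i)) (ρ (w.curve i)) (S i)) {s : Ω}
    (ha : ρ (w.a 0) s = s) (hb : ρ (w.b 0) s = s) (ht : ρ w.t s = s) :
    (∀ g ∈ w.elts, ρ g s = s) ∧ ∀ i, ∀ g ∈ S i, g s = s := by
  have hbd : ∀ i, Bd (L.get i).lo (L.get i).hi (ρ (w.m i)) (ρ (w.curve i)) := fun i =>
    (h i).bd (by rw [← map_mul, m_comm, map_mul])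
  have hm : ∀ i : Fin L.length, ρ (w.a i.castSucc) s = s → ρ (w.b i.castSucc) s = s →
      ρ (w.curve i) s = s ∧ ρ (w.m i) s = s := by
    intro i h1 h2
    have h3 : ρ (w.curve i) s = s := by
      unfold Word.curve
      split_ifs
      · exact h2
      · exact h1
    exact ⟨h3, (hbd i).fix h3⟩
  have hab : ∀ i : Fin (L.length + 1), ρ (w.a i) s = s ∧ ρ (w.b i) s = s := by
    intro i
    induction i using Fin.induction with
    | zero => exact ⟨ha, hb⟩
    | succ i ih =>
      obtain ⟨_, h4⟩ := hm i ih.1 ih.2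
      cases hs : (L.get i).second with
      | false =>
        obtain ⟨p1, p2, _⟩ := w.passA i hs
        rw [p1, p2, map_mul, RelIso.mul_apply, h4]
        exact ih
      | true =>
        obtain ⟨p1, p2, _⟩ := w.passB i hs
        rw [p1, p2, map_mul, map_inv, RelIso.mul_apply, inv_fix h4]
        exact ih
  constructor
  · rintro g (((⟨i, rfl⟩ | ⟨i, rfl⟩) | ⟨i, rfl⟩) | hg)
    · exact (hab i).1
    · exact (hab i).2
    · exact (hm i (hab _).1 (hab _).2).2
    · rw [Set.mem_singleton_iff] at hg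
      rw [hg]
      exact ht
  · intro i g hg
    obtain ⟨h3, h4⟩ := hm i (hab _).1 (hab _).2
    exact (h i).fix s h4 h3 g hg

theorem word_spec (hL : Admissible L) (S : Fin L.length → Set G)
    (h : ∀ i, FillSpec false (L.get i).lo (L.get i).hi (ρ (w.m i)) (ρ (w.curve i)) (ρ '' (S i))) :
    PieceSpec (ρ w.t) (ρ (w.t * w.bdry⁻¹)) (ρ '' (w.elts ∪ ⋃ i, S i)) := by
  have hc := closed_of_word w ρ _ h
  have hg := good_of_admissible hL
  have hq : ρ (w.t * w.bdry⁻¹) = ρ w.t * (dd (frames w ρ 0))⁻¹ := by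
    rw [dd_frames, map_mul, map_inv]
  have hfix : ∀ s, ρ w.t s = s → dd (frames w ρ 0) s = s →
      ∀ g ∈ ρ '' (w.elts ∪ ⋃ i, S i), g s = s := by
    intro s h1 h2
    obtain ⟨h3, h4⟩ := hc.fix hg h1 h2
    rw [frames_zero] at h3 h4
    have h5 : ρ (w.b 0) s = s := by
      have := inv_fix h4
      rwa [inv_inv] at this
    obtain ⟨h6, h7⟩ := all_fix w ρ _ h h3 h5 h1
    rintro _ ⟨g, hg | hg, rfl⟩
    · exact h6 g hg
    · obtain ⟨i, hi⟩ := Set.mem_iUnion.mp hg
      exact h7 i _ ⟨g, hi, rfl⟩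
  refine ⟨?_, ?_, ?_, ?_⟩
  · rw [hq]
    exact tinv_comm hc.comm
  · intro s h1 h2
    refine hfix s h1 ?_
    rw [hq] at h2
    have h3 := (tinv_le hc.comm).mp h2.le
    have h4 := (le_tinv hc.comm).mp h2.ge
    rw [h1] at h3 h4
    exact le_antisymm h4 h3
  · intro a b c d h1 h2 h3 h4 s e1 e2
    rw [hq] at e1 e2 ⊢
    exact hc.opp hg h1 h2 h3 h4 e1 e2
  · intro P Q hPQ hrel s
    rw [hq] at hrel ⊢
    obtain ⟨h1, h2⟩ := hc.root hg (by omega) hrel s
    refine ⟨h1, ?_⟩
    rw [RelIso.mul_apply, inv_fix h2, h1]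

end Words

section Nets

variable {Ω : Type*} [CompleteLinearOrder Ω] {G : Type*} [Group G] {Γ : Pattern} (N : Net G Γ)
  (ρ : G →* (Ω ≃o Ω))

/-- The sign argument for alternating diagrams. -/
theorem net_all (hΓ : Γ.Valid) (S : Fin Γ.e → Set (Ω ≃o Ω))
    (h : ∀ i, FillSpec true (some 0) none (ρ (N.x i.succ)) (ρ (N.step i.succ)) (S i)) {s : Ω}
    (hout : (ρ (N.step 0) s < s → ρ (N.x 0) s ≤ s) ∧ (s < ρ (N.step 0) s → s ≤ ρ (N.x 0) s)) :
    (∀ v, ρ (N.w v) s = s) ∧ ∀ i, ρ (N.x i) s = s := by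
  obtain ⟨hrot, hloop, hconn⟩ := hΓ
  -- rules for the inner edges
  have hin : ∀ i : Fin Γ.e, (ρ (N.step i.succ) s ≤ s → ρ (N.x i.succ) s ≤ s) ∧
      (s ≤ ρ (N.step i.succ) s → s ≤ ρ (N.x i.succ) s) ∧
      (ρ (N.x i.succ) s = s → ρ (N.step i.succ) s = s) := by
    intro i
    have hc : ρ (N.x i.succ) * ρ (N.step i.succ) = ρ (N.step i.succ) * ρ (N.x i.succ) := by
      rw [← map_mul, ← map_mul]
      exact congrArg ρ (N.comm i.succ)
    have hp := ((h i).bd hc).lower 0 rfl
    have hs := (h i).str hc rfl 0 rfl s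
    rw [neg_zero, zpow_zero, one_mul] at hp hs
    exact ⟨fun g => (hp.dn s g).1, fun g => (hp.up s g).1, hs⟩
  -- heights
  have hstep : ∀ i : Fin (Γ.e + 1), ρ (N.w (Γ.src i)) (ρ (N.step i) s) = ρ (N.w (Γ.tgt i)) s := by
    intro i
    rw [← RelIso.mul_apply, ← map_mul, Net.step, mul_inv_cancel_left]
  have hle : ∀ i : Fin (Γ.e + 1), ρ (N.step i) s ≤ s ↔
      ρ (N.w (Γ.tgt i)) s ≤ ρ (N.w (Γ.src i)) s := by
    intro i
    rw [← hstep i]
    exact (ρ (N.w (Γ.src i))).le_iff_le.symm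
  have hge : ∀ i : Fin (Γ.e + 1), s ≤ ρ (N.step i) s ↔
      ρ (N.w (Γ.src i)) s ≤ ρ (N.w (Γ.tgt i)) s := by
    intro i
    rw [← hstep i]
    exact (ρ (N.w (Γ.src i))).le_iff_le.symm
  obtain ⟨v₀, hv₀⟩ := Finite.exists_max (fun v => ρ (N.w v) s)
  set M := ρ (N.w v₀) s with hM
  let y : Fin (Γ.e + 1) × Bool → (Ω ≃o Ω) := fun ε =>
    if ε.2 then (ρ (N.x ε.1))⁻¹ else ρ (N.x ε.1)
  have hprod : ∀ v, ((Γ.rot v).map y).prod = 1 := by
    intro v
    have h1 := congrArg ρ (N.vertex v)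
    rw [map_list_prod, List.map_map, map_one] at h1
    rw [← h1]
    congr 1
    apply List.map_congr_left
    intro ε _
    change (if ε.2 then (ρ (N.x ε.1))⁻¹ else ρ (N.x ε.1)) =
      ρ (if ε.2 then (N.x ε.1)⁻¹ else N.x ε.1)
    split_ifs
    · rw [map_inv]
    · rfl
  have hvert : ∀ v, (∀ ε ∈ Γ.rot v, y ε s ≤ s) → ∀ ε ∈ Γ.rot v, y ε s = s := by
    intro v hv ε hε
    refine fix_of_prod (l := (Γ.rot v).map y) ?_ ?_ (y ε) (List.mem_map_of_mem hε)
    · intro x hx
      obtain ⟨ε', h1, rfl⟩ := List.mem_map.mp hx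
      exact hv ε' h1
    · rw [hprod]
      exact le_refl s
  -- the signs of the inner edges at a highest vertex
  have hinner : ∀ v, ρ (N.w v) s = M → ∀ (i : Fin Γ.e) (o : Bool), (i.succ, o) ∈ Γ.rot v →
      y (i.succ, o) s ≤ s := by
    intro v hv i o hmem
    cases o with
    | false =>
      have h1 := ((hrot v i.succ).1).mp hmem
      change ρ (N.x i.succ) s ≤ s
      apply (hin i).1
      rw [hle, h1, hv]
      exact hv₀ _
    | true =>
      have h1 := ((hrot v i.succ).2).mp hmem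
      change (ρ (N.x i.succ))⁻¹ s ≤ s
      apply inv_le_of_ge
      apply (hin i).2.1
      rw [hge, h1, hv]
      exact hv₀ _
  -- all edges at a highest vertex
  have hmax : ∀ v, ρ (N.w v) s = M → ∀ ε ∈ Γ.rot v, y ε s = s := by
    intro v hv
    by_cases hz : ρ (N.step 0) s = s
    · -- the ends of the edge `0` have the same height
      have hst : ρ (N.w (Γ.tgt 0)) s = ρ (N.w (Γ.src 0)) s := by rw [← hstep, hz]
      have hx0 : (Γ.src 0 = v ∨ Γ.tgt 0 = v) → ρ (N.x 0) s = s := by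
        intro hor
        have hsrc : ρ (N.w (Γ.src 0)) s = M := by
          rcases hor with h1 | h1
          · rw [h1, hv]
          · rw [← hst, h1, hv]
        have htgt : ρ (N.w (Γ.tgt 0)) s = M := hst.trans hsrc
        rcases le_total (ρ (N.x 0) s) s with h1 | h1
        · have h2 := hvert (Γ.src 0) (by
            rintro ⟨i, o⟩ hmem
            rcases Fin.eq_zero_or_eq_succ i with rfl | ⟨j, rfl⟩
            · cases o with
              | false => exact h1
              | true => exact absurd (((hrot _ 0).2).mp hmem).symm hloop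
            · exact hinner _ hsrc j o hmem)
          exact h2 (0, false) (((hrot _ 0).1).mpr rfl)
        · have h2 := hvert (Γ.tgt 0) (by
            rintro ⟨i, o⟩ hmem
            rcases Fin.eq_zero_or_eq_succ i with rfl | ⟨j, rfl⟩
            · cases o with
              | true => exact inv_le_of_ge h1
              | false => exact absurd (((hrot _ 0).1).mp hmem) hloop
            · exact hinner _ htgt j o hmem)
          have h3 := h2 (0, true) (((hrot _ 0).2).mpr rfl)
          have h4 : (ρ (N.x 0))⁻¹ s = s := h3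
          have h5 := congrArg (⇑(ρ (N.x 0))) h4
          rw [RelIso.apply_inv_self] at h5
          exact h5.symm
      apply hvert
      rintro ⟨i, o⟩ hmem
      rcases Fin.eq_zero_or_eq_succ i with rfl | ⟨j, rfl⟩
      · cases o with
        | false => exact (hx0 (Or.inl (((hrot _ 0).1).mp hmem))).le
        | true => exact (inv_fix (hx0 (Or.inr (((hrot _ 0).2).mp hmem)))).le
      · exact hinner _ hv j o hmem
    · apply hvert
      rintro ⟨i, o⟩ hmem
      rcases Fin.eq_zero_or_eq_succ i with rfl | ⟨j, rfl⟩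
      · cases o with
        | false =>
          have h1 := ((hrot v 0).1).mp hmem
          apply hout.1
          apply lt_of_le_of_ne _ hz
          rw [hle, h1, hv]
          exact hv₀ _
        | true =>
          have h1 := ((hrot v 0).2).mp hmem
          apply inv_le_of_ge
          apply hout.2
          apply lt_of_le_of_ne _ (Ne.symm hz)
          rw [hge, h1, hv]
          exact hv₀ _
      · exact hinner _ hv j o hmem
  -- the height is constant
  have hedge : ∀ i : Fin Γ.e, ρ (N.w (Γ.src i.succ)) s = M ↔ ρ (N.w (Γ.tgt i.succ)) s = M := by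
    intro i
    constructor
    · intro h1
      have h2 := hmax _ h1 (i.succ, false) (((hrot _ _).1).mpr rfl)
      have h3 := (hin i).2.2 h2
      rw [← hstep, h3, h1]
    · intro h1
      have h2 := hmax _ h1 (i.succ, true) (((hrot _ _).2).mpr rfl)
      have h4 : (ρ (N.x i.succ))⁻¹ s = s := h2
      have h5 := congrArg (⇑(ρ (N.x i.succ))) h4
      rw [RelIso.apply_inv_self] at h5
      have h3 := (hin i).2.2 h5.symm
      have h6 := hstep i.succ
      rw [h3, h1] at h6
      exact h6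
  have hall : ∀ u v, Relation.EqvGen
      (fun u w => ∃ i : Fin Γ.e, Γ.src i.succ = u ∧ Γ.tgt i.succ = w) u v →
      (ρ (N.w u) s = M ↔ ρ (N.w v) s = M) := by
    intro u v huv
    induction huv with
    | rel u v h1 =>
      obtain ⟨i, rfl, rfl⟩ := h1
      exact hedge i
    | refl u => exact Iff.rfl
    | symm u v _ ih => exact ih.symm
    | trans u v w _ _ ih1 ih2 => exact ih1.trans ih2
  have h0 : ρ (N.w 0) s = M := (hall 0 v₀ (hconn v₀)).mpr rfl
  have hM0 : M = s := by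
    rw [← h0, N.base, map_one]
    rfl
  have hw : ∀ v, ρ (N.w v) s = M := fun v => (hall 0 v (hconn v)).mp h0
  refine ⟨fun v => (hw v).trans hM0, fun i => ?_⟩
  exact hmax (Γ.src i) (hw _) (i, false) (((hrot _ _).1).mpr rfl)

theorem net_spec (hΓ : Γ.Valid) (S : Fin Γ.e → Set G)
    (h : ∀ i, FillSpec true (some 0) none (ρ (N.x i.succ)) (ρ (N.step i.succ)) (ρ '' (S i))) :
    PieceSpec (ρ (N.x 0)) (ρ (N.step 0)⁻¹)
      (ρ '' (Set.range N.w ∪ Set.range N.x ∪ ⋃ i, S i)) := by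
  have hq : ρ (N.step 0)⁻¹ = (ρ (N.step 0))⁻¹ := map_inv _ _
  have hc : ρ (N.x 0) * ρ (N.step 0) = ρ (N.step 0) * ρ (N.x 0) := by
    rw [← map_mul, ← map_mul]
    exact congrArg ρ (N.comm 0)
  have hfix : ∀ s, (ρ (N.step 0) s < s → ρ (N.x 0) s ≤ s) ∧
      (s < ρ (N.step 0) s → s ≤ ρ (N.x 0) s) →
      ∀ g ∈ ρ '' (Set.range N.w ∪ Set.range N.x ∪ ⋃ i, S i), g s = s := by
    intro s hout
    obtain ⟨h1, h2⟩ := net_all N ρ hΓ _ h hout
    rintro _ ⟨g, (⟨v, rfl⟩ | ⟨i, rfl⟩) | hg, rfl⟩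
    · exact h1 v
    · exact h2 i
    · obtain ⟨i, hi⟩ := Set.mem_iUnion.mp hg
      refine (h i).fix s (h2 _) ?_ _ ⟨g, hi, rfl⟩
      rw [Net.step, map_mul, map_inv, RelIso.mul_apply, h1, inv_fix (h1 _)]
  have hx : ∀ s, (ρ (N.step 0) s < s → ρ (N.x 0) s ≤ s) ∧
      (s < ρ (N.step 0) s → s ≤ ρ (N.x 0) s) → ρ (N.x 0) s = s ∧ (ρ (N.step 0))⁻¹ s = s := by
    intro s hout
    obtain ⟨h1, h2⟩ := net_all N ρ hΓ _ h hout
    refine ⟨h2 0, inv_fix ?_⟩
    rw [Net.step, map_mul, map_inv, RelIso.mul_apply, h1, inv_fix (h1 _)]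
  rw [hq]
  refine ⟨?_, ?_, ?_, ?_⟩
  · exact ((show Commute _ _ from hc).inv_right).eq
  · intro s h1 h2
    have h3 : ρ (N.step 0) s = s := by
      have h4 := congrArg (⇑(ρ (N.step 0))) h2
      rw [RelIso.apply_inv_self] at h4
      exact h4.symm
    exact hfix s ⟨fun h4 => absurd h4 (by rw [h3]; exact lt_irrefl _),
      fun h4 => absurd h4 (by rw [h3]; exact lt_irrefl _)⟩
  · intro a b c d ha hb hc' hd s e1 e2
    by_contra e3
    obtain ⟨e, e', hs1, hs2, _, _, _, _, hopp⟩ :=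
      Glue.pair_lemma ((show Commute _ _ from hc).inv_right).eq ha hb hc' hd e1 e2 e3
    apply e3
    apply hx
    rcases hopp with g | g
    · obtain ⟨g1, g2⟩ := g s hs1 hs2
      refine ⟨fun h4 => ?_, fun _ => g1.le⟩
      have h5 := inv_gt_of_lt h4
      exact absurd (h5.trans g2) (lt_irrefl _)
    · obtain ⟨g1, g2⟩ := g s hs1 hs2
      refine ⟨fun _ => g1.le, fun h4 => ?_⟩
      have h5 := inv_lt_of_gt h4
      exact absurd (h5.trans g2) (lt_irrefl _)
  · intro P Q hPQ hrel s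
    have hrel' : ρ (N.x 0) ^ P = ρ (N.step 0) ^ Q := by
      rw [inv_pow] at hrel
      exact mul_inv_eq_one.mp hrel
    apply hx
    rcases Nat.eq_zero_or_pos P with hP | hP
    · have hQ : 0 < Q := by omega
      have h1 : ρ (N.step 0) s = s := by
        apply TwistTree.fix_of_pow_fix hQ
        rw [← hrel', hP, pow_zero]
        rfl
      exact ⟨fun h4 => absurd h4 (by rw [h1]; exact lt_irrefl _),
        fun h4 => absurd h4 (by rw [h1]; exact lt_irrefl _)⟩
    · constructor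
      · intro h4
        apply of_pow_le hP
        rw [hrel']
        exact pow_le h4.le Q
      · intro h4
        apply of_pow_ge hP
        rw [hrel']
        exact pow_ge h4.le Q

end Nets

section Main

/-- What a role means for the action. -/
def Spec {Ω : Type*} [CompleteLinearOrder Ω] : Role → (Ω ≃o Ω) → (Ω ≃o Ω) → Set (Ω ≃o Ω) → Prop
  | .piece => PieceSpec
  | .fill strict lo hi => FillSpec strict lo hi

theorem spec_of_glued {Ω : Type*} [CompleteLinearOrder Ω] {G : Type*} [Group G]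
    (ρ : G →* (Ω ≃o Ω)) {r : Role} {p q : G} {S : Set G} (h : Glued r p q S) :
    Spec r (ρ p) (ρ q) (ρ '' S) := by
  induction h with
  | word L hL w S _ ih => exact word_spec w ρ hL S ih
  | net Γ hΓ N S _ ih => exact net_spec N ρ hΓ S ih
  | solid strict lo hi m a d c hd hlo hhi h =>
    change FillSpec strict lo hi (ρ m) (ρ a) (ρ '' ∅)
    rw [Set.image_empty]
    refine solid_spec hd hlo hhi ?_
    rw [← map_zpow, ← map_zpow, h]
  | glue strict lo hi m a p q S _ P₁ Q₁ P₂ Q₂ hP hQ hdet hlo hhi hm ha ih =>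
    change FillSpec strict lo hi (ρ m) (ρ a) (ρ '' S)
    have := PieceSpec.glue (strict := strict) (show PieceSpec (ρ p) (ρ q) (ρ '' S) from ih)
      hP hQ hdet hlo hhi
    rw [hm, ha, map_mul, map_mul, map_zpow, map_zpow, map_zpow, map_zpow]
    exact this

theorem not_leftOrderable {G : Type*} [Group G] {p q : G} {S : Set G}
    (h : Glued .piece p q S) (hS : Subgroup.closure S = ⊤) {P Q : ℕ}
    (hPQ : 0 < P + Q) (hrel : p ^ P * q ^ Q = 1) :
    ¬ LeftOrderable G := by
  rintro ⟨hnt, ⟨ho, hmul⟩⟩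
  have spec : PieceSpec (cutHom hmul p) (cutHom hmul q) (cutHom hmul '' S) :=
    spec_of_glued (cutHom hmul) h
  have hrel' : cutHom hmul p ^ P * cutHom hmul q ^ Q = 1 := by
    rw [← map_pow, ← map_pow, ← map_mul, hrel, map_one]
  have hall : ∀ L : LowerSet G, ∀ g : G, cutHom hmul g L = L := by
    intro L g
    obtain ⟨h1, h2⟩ := spec.root P Q hPQ hrel' L
    have hg : g ∈ Subgroup.closure S := by rw [hS]; trivial
    induction hg using Subgroup.closure_induction with
    | mem y hy => exact spec.fix L h1 h2 _ ⟨y, hy, rfl⟩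
    | one => simp
    | mul a b _ _ ha hb => rw [map_mul, RelIso.mul_apply, hb, ha]
    | inv a _ ha => rw [map_inv]; exact inv_fix ha
  obtain ⟨x, y, hxy⟩ := exists_pair_ne G
  have key : ∀ x y : G, y ≤ x := by
    intro x y
    have h1 := hall (LowerSet.Iic x) (y * x⁻¹)
    have h2 : y ∈ LowerSet.Iic x := by
      rw [← h1, mem_cutHom]
      simp
    exact h2
  exact hxy (le_antisymm (key y x) (key x y))

end Main

end Pool.Agent.Helper71.Tree
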