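import Mathlib
import Pool.Agent.Helper71.RotPiece

/-!
Twists whose coefficient is strictly larger than the lower bound, and their effect on the
elements attached to dyadic directions.
-/

set_option autoImplicit false

namespace Pool.Agent.Helper71.Rot

open Pool.Agent.Helper31.OrderAct
open Pool.Agent.Helper31.TwistChain (dualHom)

section Generic

variable {Γ : Type*} [Group Γ]

/-- Relations between a meridian and a curve which are invariant under inversion and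
conjugation. -/
structure InvRel (P : Γ → Γ → Prop) : Prop where
  comm : ∀ {m a : Γ}, P m a → m * a = a * m
  inv : ∀ {m a : Γ}, P m a → P m⁻¹ a⁻¹
  conj : ∀ {m a : Γ} (g : Γ), P m a → P (g * m * g⁻¹) (g * a * g⁻¹)

/-- A twist along the first direction with a meridian obeying a given relation. -/
def LetP (P : Γ → Γ → Prop) (f f' : Γ × Γ) : Prop :=
  ∃ m, P m f.1 ∧ f'.1 = f.1 ∧ f'.2 = m⁻¹ * f.2

variable {P : Γ → Γ → Prop}

lemma LetP.R2 (hP : InvRel P) {f f' : Γ × Γ} (h : LetP P f f') :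
    LetP P (R (R f)) (R (R f')) := by
  obtain ⟨m, hb, e1, e2⟩ := h
  obtain ⟨a, u⟩ := f
  obtain ⟨a', u'⟩ := f'
  simp only at e1 e2
  subst e1
  subst e2
  have hc : m * a'⁻¹ = a'⁻¹ * m := ((show Commute m a' from hP.comm hb).inv_right).eq
  have hp : a' * (m⁻¹ * u)⁻¹ * a'⁻¹ = a' * u⁻¹ * a'⁻¹ * m := by
    rw [mul_inv_rev, inv_inv]
    calc a' * (u⁻¹ * m) * a'⁻¹ = a' * u⁻¹ * (m * a'⁻¹) := by group
      _ = a' * u⁻¹ * a'⁻¹ * m := by rw [hc]; group
  refine ⟨(a' * u⁻¹ * a'⁻¹) * m⁻¹ * (a' * u⁻¹ * a'⁻¹)⁻¹, ?_, ?_, ?_⟩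
  · exact hP.conj (a' * u⁻¹ * a'⁻¹) (hP.inv hb)
  · change (a' * (m⁻¹ * u)⁻¹ * a'⁻¹) * a'⁻¹ * (a' * (m⁻¹ * u)⁻¹ * a'⁻¹)⁻¹ =
      (a' * u⁻¹ * a'⁻¹) * a'⁻¹ * (a' * u⁻¹ * a'⁻¹)⁻¹
    rw [hp]
    calc a' * u⁻¹ * a'⁻¹ * m * a'⁻¹ * (a' * u⁻¹ * a'⁻¹ * m)⁻¹
        = a' * u⁻¹ * a'⁻¹ * (m * a'⁻¹) * m⁻¹ * (a' * u⁻¹ * a'⁻¹)⁻¹ := by group
      _ = _ := by rw [hc]; group
  · change a' * (m⁻¹ * u)⁻¹ * a'⁻¹ =
      ((a' * u⁻¹ * a'⁻¹) * m⁻¹ * (a' * u⁻¹ * a'⁻¹)⁻¹)⁻¹ * (a' * u⁻¹ * a'⁻¹)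
    rw [hp]
    group

lemma LetP.R2inv (hP : InvRel P) {f f' : Γ × Γ} (h : LetP P f f') :
    LetP P (R⁻¹ (R⁻¹ f)) (R⁻¹ (R⁻¹ f')) := by
  obtain ⟨m, hb, e1, e2⟩ := h
  obtain ⟨a, u⟩ := f
  obtain ⟨a', u'⟩ := f'
  simp only at e1 e2
  subst e1
  subst e2
  have hc : m * a'⁻¹ = a'⁻¹ * m := ((show Commute m a' from hP.comm hb).inv_right).eq
  have hq : (m⁻¹ * u)⁻¹ * a'⁻¹ * (m⁻¹ * u) = u⁻¹ * a'⁻¹ * u := by
    rw [mul_inv_rev, inv_inv]
    calc u⁻¹ * m * a'⁻¹ * (m⁻¹ * u) = u⁻¹ * (m * a'⁻¹) * m⁻¹ * u := by group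
      _ = _ := by rw [hc]; group
  have hb' := hP.conj ((u⁻¹ * a'⁻¹ * u)⁻¹ * u⁻¹) (hP.inv hb)
  have e3 : (u⁻¹ * a'⁻¹ * u)⁻¹ * u⁻¹ * a'⁻¹ * ((u⁻¹ * a'⁻¹ * u)⁻¹ * u⁻¹)⁻¹ =
      u⁻¹ * a'⁻¹ * u := by group
  rw [e3] at hb'
  refine ⟨_, hb', ?_, ?_⟩
  · change (m⁻¹ * u)⁻¹ * a'⁻¹ * (m⁻¹ * u) = u⁻¹ * a'⁻¹ * u
    exact hq
  · change ((m⁻¹ * u)⁻¹ * a'⁻¹ * (m⁻¹ * u))⁻¹ * (m⁻¹ * u)⁻¹ *
        ((m⁻¹ * u)⁻¹ * a'⁻¹ * (m⁻¹ * u)) =
      ((u⁻¹ * a'⁻¹ * u)⁻¹ * u⁻¹ * m⁻¹ * ((u⁻¹ * a'⁻¹ * u)⁻¹ * u⁻¹)⁻¹)⁻¹ *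
        ((u⁻¹ * a'⁻¹ * u)⁻¹ * u⁻¹ * (u⁻¹ * a'⁻¹ * u))
    rw [hq]
    group

lemma LetP.shift (hP : InvRel P) {f f' : Γ × Γ} (h : LetP P f f') (j : ℤ) :
    LetP P ((R ^ (2 * j)) f) ((R ^ (2 * j)) f') := by
  induction j with
  | zero => exact h
  | succ n ih =>
    have e : ∀ g : Γ × Γ, (R ^ (2 * ((n : ℤ) + 1))) g = R (R ((R ^ (2 * (n : ℤ))) g)) := by
      intro g
      rw [show (2 : ℤ) * ((n : ℤ) + 1) = 1 + (1 + 2 * n) by ring, zpow_add, zpow_add, zpow_one]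
      rfl
    rw [e, e]
    exact ih.R2 hP
  | pred n ih =>
    have e : ∀ g : Γ × Γ, (R ^ (2 * (-(n : ℤ) - 1))) g =
        R⁻¹ (R⁻¹ ((R ^ (2 * -(n : ℤ))) g)) := by
      intro g
      rw [show (2 : ℤ) * (-(n : ℤ) - 1) = -1 + (-1 + 2 * -n) by ring, zpow_add, zpow_add,
        zpow_neg_one]
      rfl
    rw [e, e]
    exact ih.R2inv hP

/-- The frame rotated by an even number. -/
lemma V_even_shift (f : Γ × Γ) (j : ℤ) {x : ℝ} (hx : Dy x) :
    V ((R ^ (2 * j)) f) x = V f (x + 2 * j) := by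
  have := V_shift f (2 * j) hx
  push_cast at this
  exact this

lemma Dy.add_even {x : ℝ} (hx : Dy x) (j : ℤ) : Dy (x + 2 * j) := by
  have := hx.add_int (2 * j)
  push_cast at this
  exact this

lemma Dy.sub_even {x : ℝ} (hx : Dy x) (j : ℤ) : Dy (x - 2 * j) := by
  have := hx.add_int (-(2 * j))
  push_cast at this
  rwa [← sub_eq_add_neg] at this

lemma Tz_sub_even (k j : ℤ) (x : ℝ) :
    (T ^ k : Equiv.Perm ℝ) (x - 2 * j) = (T ^ k : Equiv.Perm ℝ) x - 2 * j := by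
  have := Tz_add_even k (-j) x
  push_cast at this
  rw [show x + 2 * -(j : ℝ) = x - 2 * j by ring] at this
  rw [this]
  ring

/-- Full twists act on the line. -/
theorem V_turn_all (a u : Γ) (k : ℤ) {x : ℝ} (hx : Dy x) :
    Dy ((T ^ k : Equiv.Perm ℝ) x) ∧ V (a, a ^ k * u) x = V (a, u) ((T ^ k : Equiv.Perm ℝ) x) := by
  have hP : InvRel (fun m a : Γ => m = a ^ (-k)) := by
    refine ⟨?_, ?_, ?_⟩
    · rintro m a rfl
      exact ((Commute.refl a).zpow_left (-k)).eq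
    · rintro m a rfl
      rw [inv_zpow]
    · rintro m a g rfl
      rw [conj_zpow]
  have h0 : LetP (fun m a : Γ => m = a ^ (-k)) (a, u) (a, a ^ k * u) := by
    refine ⟨a ^ (-k), rfl, rfl, ?_⟩
    change a ^ k * u = (a ^ (-k))⁻¹ * u
    rw [zpow_neg, inv_inv]
  obtain ⟨w1, w2⟩ := window x
  set j : ℤ := ⌊x / 2⌋ + 1 with hj
  have hjr : (j : ℝ) = ⌊x / 2⌋ + 1 := by rw [hj]; push_cast; ring
  obtain ⟨m, hm, e1, e2⟩ := h0.shift hP j
  set g := (R ^ (2 * j)) (a, u)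
  set g' := (R ^ (2 * j)) (a, a ^ k * u)
  have hg' : g' = (g.1, g.1 ^ k * g.2) := by
    have e3 : g'.2 = g.1 ^ k * g.2 := by rw [e2, hm, zpow_neg, inv_inv]
    exact Prod.ext e1 e3
  have dx := hx.sub_even j
  obtain ⟨t1, t2⟩ := V_turn_zpow g.1 g.2 k dx (by rw [hjr]; linarith) (by rw [hjr]; linarith)
  rw [Tz_sub_even] at t1 t2
  have t3 := t1.add_even j
  rw [sub_add_cancel] at t3
  refine ⟨t3, ?_⟩
  rw [← hg', V_even_shift _ _ dx, sub_add_cancel] at t2
  rw [t2]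
  change V g _ = _
  rw [V_even_shift _ _ t1, sub_add_cancel]

lemma exists_ev_cons (n : ℕ) : ∀ k : ℤ, -2 ^ (n + 1) < k → k < 0 →
    ∃ (i : ℤ) (l : List ℤ), ∀ a u : Γ, X (a, u) n k = ev a u (i :: l) := by
  induction n with
  | zero =>
    intro k h1 h2
    have : k = -1 := by
      norm_num at h1
      omega
    subst this
    exact ⟨0, [], fun a u => by rw [X_zero, G_neg_one]; simp [ev]⟩
  | succ n ih =>
    intro k h1 h2
    rcases Int.even_or_odd' k with ⟨i, rfl | rfl⟩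
    · obtain ⟨i', l, hl⟩ := ih i (by rw [pow_succ] at h1; linarith) (by omega)
      exact ⟨i', l, fun a u => by rw [X_succ, ref_even, hl]⟩
    · by_cases h3 : i = -1
      · subst h3
        refine ⟨(n : ℤ) + 1, [], fun a u => ?_⟩
        rw [show (2 : ℤ) * -1 + 1 = -1 by norm_num, X_at_neg_one]
        simp only [ev, List.map_cons, List.map_nil, List.prod_cons, List.prod_nil, mul_one]
        rw [show (n : ℤ) + 1 = ((n + 1 : ℕ) : ℤ) by push_cast; ring, zpow_natCast]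
      · by_cases h4 : i = -2 ^ (n + 1)
        · refine ⟨-((n : ℤ) + 1), [], fun a u => ?_⟩
          have e : 2 * i + 1 = -2 ^ (n + 1 + 1) + 1 := by rw [h4]; ring
          rw [e, X_at_bot_one]
          simp only [ev, List.map_cons, List.map_nil, List.prod_cons, List.prod_nil, mul_one]
          push_cast
          rfl
        · have h6 : -2 ^ (n + 1) < i := by
            have h7 : -2 ^ (n + 1) ≤ i := by
              rw [pow_succ (2 : ℤ) (n + 1)] at h1
              linarith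
            exact lt_of_le_of_ne h7 (Ne.symm h4)
          obtain ⟨i1, l, hl⟩ := ih i h6 (by omega)
          obtain ⟨i2, l', hl'⟩ := ih (i + 1) (by linarith) (by omega)
          refine ⟨i2, l' ++ i1 :: l, fun a u => ?_⟩
          rw [X_succ, ref_odd, hl, hl', ← ev_append, List.cons_append]

lemma V_ev_cons {x : ℝ} (h : Dy x) (h1 : -2 < x) (h2 : x < 0) :
    ∃ (i : ℤ) (l : List ℤ), ∀ a u : Γ, V (a, u) x = ev a u (i :: l) := by
  obtain ⟨n, k, rfl⟩ := h
  have hpos : (0 : ℝ) < 2 ^ n := by positivity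
  rw [lt_div_iff₀ hpos] at h1
  rw [div_lt_iff₀ hpos, zero_mul] at h2
  have h1' : -2 ^ (n + 1) < k := by
    have : ((-2 ^ (n + 1) : ℤ) : ℝ) < (k : ℝ) := by
      push_cast
      rw [pow_succ]
      linarith
    exact_mod_cast this
  have h2' : k < 0 := by exact_mod_cast h2
  obtain ⟨i, l, hl⟩ := exists_ev_cons (Γ := Γ) n k h1' h2'
  exact ⟨i, l, fun a u => by rw [V_eq (a, u) rfl]; exact hl a u⟩

/-- The relation between the two lines on a window which does not contain the direction of the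
twist. -/
lemma LetP.window {f f' : Γ × Γ} (hP : InvRel P) (h : LetP P f f') {x : ℝ} (hx : Dy x) (k : ℤ)
    {j : ℤ} (h1 : 2 * (j : ℝ) - 2 < x) (h2 : x < 2 * j) :
    ∃ m υ : Γ, P m (V f (2 * j)) ∧ (R ^ (2 * j)) f = (V f (2 * j), υ) ∧
      (R ^ (2 * j)) f' = (V f (2 * j), m⁻¹ * υ) ∧
      ∃ (i : ℤ) (l : List ℤ), V f x = ev (V f (2 * j)) υ (i :: l) ∧
        V f' ((T ^ k : Equiv.Perm ℝ) x) =
          ev (V f (2 * j)) ((V f (2 * j)) ^ k * m⁻¹ * υ) (i :: l) := by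
  obtain ⟨m, hm, e1, e2⟩ := h.shift hP j
  set g := (R ^ (2 * j)) f with hg
  set g' := (R ^ (2 * j)) f' with hg'
  have hg1 : g.1 = V f (2 * j) := by
    have h0 : Dy (0 : ℝ) := by simpa using Dy.int 0
    have := V_even_shift f j h0
    rw [zero_add] at this
    rw [← this, ← hg]
    exact (V_zero g.1 g.2).symm
  have dx := hx.sub_even j
  obtain ⟨i, l, hl⟩ := V_ev_cons (Γ := Γ) dx (by linarith) (by linarith)
  refine ⟨m, g.2, by rw [← hg1]; exact hm, by rw [← hg1], ?_, i, l, ?_, ?_⟩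
  · rw [← hg1]
    exact Prod.ext e1 e2
  · rw [← hg1, ← hl]
    change V f x = V g (x - 2 * j)
    rw [hg, V_even_shift _ _ dx, sub_add_cancel]
  · rw [← hg1, ← hl, mul_assoc]
    obtain ⟨t1, t2⟩ := V_turn_all g.1 (m⁻¹ * g.2) k dx
    rw [t2, Tz_sub_even]
    have e3 : g' = (g.1, m⁻¹ * g.2) := Prod.ext e1 e2
    rw [← e3, hg']
    rw [Tz_sub_even] at t1
    rw [V_even_shift _ _ t1, sub_add_cancel]

/-- Along its own directions a twist changes nothing. -/
lemma LetP.even {f f' : Γ × Γ} (hP : InvRel P) (h : LetP P f f') (j : ℤ) :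
    V f' (2 * j) = V f (2 * j) := by
  obtain ⟨m, hm, e1, e2⟩ := h.shift hP j
  have h0 : Dy (0 : ℝ) := by simpa using Dy.int 0
  have a1 := V_even_shift f j h0
  have a2 := V_even_shift f' j h0
  rw [zero_add] at a1 a2
  rw [← a1, ← a2]
  have b1 : V ((R ^ (2 * j)) f) 0 = ((R ^ (2 * j)) f).1 := V_zero _ _
  have b2 : V ((R ^ (2 * j)) f') 0 = ((R ^ (2 * j)) f').1 := V_zero _ _
  rw [b1, b2, e1]

lemma Tz_even (k j : ℤ) : (T ^ k : Equiv.Perm ℝ) (2 * j) = 2 * j := by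
  have := Tz_add_even k j 0
  rw [Tz_zero] at this
  simpa using this

end Generic

section Strict

variable {Ω : Type*}

/-- The strict form of `core_lt` when the original word fixes the point. -/
theorem core_strict [LinearOrder Ω] {a c u : Ω ≃o Ω} {e f s : Ω} (es : e < s) (sf : s < f)
    (ae : a e = e) (af : a f = f)
    (cf : c f = f) (hc : ∀ z, e ≤ z → z ≤ f → z ≤ c z) (hcs : ∀ z, e < z → z < f → z < c z)
    (i : ℤ) (l : List ℤ) (h : ev a u (i :: l) s = s) : s < ev a (c * u) (i :: l) s := by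
  have h0 := e_le_of es.le ae i l (by rw [h]; exact es.le)
  have hmin := core_min es.le sf.le ae af cf hc l h0
  rw [ev_cons, RelIso.mul_apply, RelIso.mul_apply] at h
  rw [ev_cons, RelIso.mul_apply, RelIso.mul_apply, RelIso.mul_apply]
  set Z := ev a u l s
  set Z' := ev a (c * u) l s
  have huZ : u Z = (a ^ i)⁻¹ s := by
    have := congrArg (⇑(a ^ i)⁻¹) h
    rwa [RelIso.inv_apply_self] at this
  have g1 : e < u Z := by
    have := ((a ^ i)⁻¹).strictMono es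
    rw [inv_fix (zpow_fix i ae)] at this
    rwa [huZ]
  have g2 : u Z < f := by
    have := ((a ^ i)⁻¹).strictMono sf
    rw [inv_fix (zpow_fix i af)] at this
    rwa [huZ]
  rcases le_or_gt Z f with h1 | h1
  · rw [min_eq_left h1] at hmin
    have h2 := hcs _ g1 g2
    have h3 := (a ^ i).strictMono h2
    rw [h] at h3
    exact h3.trans_le ((a ^ i).monotone (c.monotone (u.monotone hmin)))
  · exfalso
    rcases le_or_gt (u f) f with h2 | h2
    · exact absurd (le_f_of sf.le af h2 l) (not_le.mpr h1)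
    · exact absurd (((u.strictMono h1).trans g2).trans h2) (lt_irrefl _)

variable [CompleteLinearOrder Ω]

/-- Points strictly inside the hull of the orbit are moved strictly up. -/
lemma hull_lt {a : Ω ≃o Ω} {s z : Ω} (h : s ≤ a s) (h1 : loE a s < z) (h2 : z < hiE a s) :
    z < a z := by
  apply lt_of_le_of_ne (hull_up h h1.le h2.le)
  intro hr
  obtain ⟨p, hp⟩ := lt_iSup_iff.mp h2
  obtain ⟨q, hq⟩ := iInf_lt_iff.mp h1
  rcases le_total z s with h3 | h3
  · have h5 := (a⁻¹ ^ q).monotone h3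
    rw [pow_fix' q (inv_fix hr.symm)] at h5
    exact absurd h5 (not_le.mpr hq)
  · have h5 := (a ^ p).monotone h3
    rw [pow_fix' p hr.symm] at h5
    exact absurd h5 (not_le.mpr hp)

/-- The strict effect of a strictly positive twist. -/
theorem Pos.core_str {c a u : Ω ≃o Ω} {s : Ω} (h : Pos c a) (hst : ∀ z, c z = z → a z = z)
    (hs : s < a s) {b : Ω ≃o Ω} (hb : ∀ z, a z = z → b z = z) (i : ℤ) (l : List ℤ)
    (h1 : ev b u (i :: l) s = s) : s < ev b (c * u) (i :: l) s := by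
  have s1 : s < hiE a s := by
    have := le_hiE a s 1
    rw [pow_one] at this
    exact hs.trans_le this
  have s2 : loE a s < s := by
    have := loE_le a s 1
    rw [pow_one] at this
    exact this.trans_lt (inv_lt_of_gt hs)
  refine core_strict s2 s1 (hb _ (loE_fix hs.le)) (hb _ (hiE_fix hs.le)) (h.hi hs.le)
    (fun z g1 g2 => h.hull hs.le g1 g2) ?_ i l h1
  intro z g1 g2
  apply lt_of_le_of_ne (h.hull hs.le g1.le g2.le)
  intro he
  have h3 := hull_lt hs.le g1 g2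
  rw [hst z he.symm] at h3
  exact absurd h3 (lt_irrefl _)

/-- A twist with coefficient between `k` and `h`, and different from `k` unless `k = h`. -/
def SB (k h : ℤ) (m a : Ω ≃o Ω) : Prop :=
  Bd (some k) (some h) m a ∧ (k ≠ h → ∀ s, (a ^ (-k) * m) s = s → a s = s)

lemma SB.invRel (k h : ℤ) : InvRel (Γ := Ω ≃o Ω) (SB k h) := by
  refine ⟨fun hm => hm.1.comm, ?_, ?_⟩
  · rintro m a ⟨hb, hs⟩
    refine ⟨hb.inv, fun hk s hfix => ?_⟩
    have hc : Commute m a := hb.comm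
    have e : a⁻¹ ^ (-k) * m⁻¹ = (a ^ (-k) * m)⁻¹ := by
      rw [mul_inv_rev, inv_zpow, (hc.inv_left.zpow_right (-k)).inv_right.eq]
    rw [e] at hfix
    apply inv_fix
    apply hs hk
    have := inv_fix hfix
    rwa [inv_inv] at this
  · rintro m a g ⟨hb, hs⟩
    refine ⟨hb.conj g, fun hk s hfix => ?_⟩
    have e : (g * a * g⁻¹) ^ (-k) * (g * m * g⁻¹) = g * (a ^ (-k) * m) * g⁻¹ := by
      rw [conj_zpow]
      group
    rw [e] at hfix
    have h1 : g ((a ^ (-k) * m) (g⁻¹ s)) = s := hfix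
    have h2 := congrArg (⇑g⁻¹) h1
    rw [RelIso.inv_apply_self] at h2
    have h3 := hs hk _ h2
    change g (a (g⁻¹ s)) = s
    rw [h3, RelIso.apply_inv_self]

lemma SB.dual {k h : ℤ} {m a : Ω ≃o Ω} (hm : SB k h m a) :
    SB (Ω := Ωᵒᵈ) k h (dualHom m) (dualHom a) := by
  refine ⟨hm.1.dual, fun hk s hfix => hm.2 hk s ?_⟩
  rw [← map_zpow, ← map_mul] at hfix
  exact hfix

lemma LetP.dual {k h : ℤ} {f f' : (Ω ≃o Ω) × (Ω ≃o Ω)} (hl : LetP (SB k h) f f') :
    LetP (SB (Ω := Ωᵒᵈ) k h) (dualF f) (dualF f') := by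
  obtain ⟨m, hb, e1, e2⟩ := hl
  refine ⟨dualHom m, hb.dual, ?_, ?_⟩
  · change dualHom f'.1 = dualHom f.1
    rw [e1]
  · change dualHom f'.2 = (dualHom m)⁻¹ * dualHom f.2
    rw [e2, map_mul, map_inv]

variable {k h : ℤ} {f f' : (Ω ≃o Ω) × (Ω ≃o Ω)} {s : Ω}

/-- If all directions in `(x, x + 2)` move `s` weakly down, the twist pushes `V x s` up. -/
theorem push_up (hl : LetP (SB k h) f f') {x : ℝ} (hx : Dy x)
    (hy : ∀ y, Dy y → x < y → y < x + 2 → V f y s ≤ s) :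
    (s ≤ V f x s → s ≤ V f' ((T ^ k : Equiv.Perm ℝ) x) s) ∧
    (s < V f x s → s < V f' ((T ^ k : Equiv.Perm ℝ) x) s) := by
  obtain ⟨w1, w2⟩ := Rot.window x
  rcases lt_or_eq_of_le w1 with w1 | w1
  · set j : ℤ := ⌊x / 2⌋ + 1 with hj
    have hjr : (j : ℝ) = ⌊x / 2⌋ + 1 := by rw [hj]; push_cast; ring
    obtain ⟨m, υ, hm, _, _, i, l, e3, e4⟩ := hl.window (SB.invRel k h) hx k (j := j)
      (by rw [hjr]; linarith) (by rw [hjr]; linarith)
    have hα := hy (2 * j) (by have := Dy.int (2 * j); push_cast at this; exact this)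
      (by rw [hjr]; linarith) (by rw [hjr]; linarith)
    set α := V f (2 * j)
    have hc : Commute m α := hm.1.comm
    have ec : α ^ (-k) * m * (α ^ k * m⁻¹ * υ) = υ := by
      have : m * α ^ k = α ^ k * m := (hc.zpow_right k).eq
      calc α ^ (-k) * m * (α ^ k * m⁻¹ * υ) = α ^ (-k) * (m * α ^ k) * m⁻¹ * υ := by group
        _ = υ := by rw [this]; group
    have hpos := hm.1.lower k rfl
    rw [e3, e4]
    constructor
    · intro g1
      by_contra hn
      push Not at hn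
      have := hpos.core_gt hα _ hn
      rw [ec] at this
      exact absurd g1 (not_le.mpr this)
    · intro g1
      by_contra hn
      push Not at hn
      have := hpos.core_ge hα _ hn
      rw [ec] at this
      exact absurd g1 (not_lt.mpr this)
  · rw [← w1, Tz_even, hl.even (SB.invRel k h)]
    exact ⟨id, id⟩

theorem push_dn (hl : LetP (SB k h) f f') {x : ℝ} (hx : Dy x)
    (hy : ∀ y, Dy y → x < y → y < x + 2 → s ≤ V f y s) :
    (V f x s ≤ s → V f' ((T ^ k : Equiv.Perm ℝ) x) s ≤ s) ∧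
    (V f x s < s → V f' ((T ^ k : Equiv.Perm ℝ) x) s < s) := by
  have := push_up (Ω := Ωᵒᵈ) (s := s) hl.dual hx (fun y h1 h2 h3 => by
    rw [dualF_V]
    exact hy y h1 h2 h3)
  rw [dualF_V, dualF_V] at this
  exact this

/-- A rotated frame is fixed if the frame is. -/
lemma fix_rot (j : ℤ) {g : (Ω ≃o Ω) × (Ω ≃o Ω)} (h1 : g.1 s = s) (h2 : g.2 s = s) :
    ((R ^ j) g).1 s = s ∧ ((R ^ j) g).2 s = s := by
  have up : ∀ g : (Ω ≃o Ω) × (Ω ≃o Ω), g.1 s = s → g.2 s = s →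
      (R g).1 s = s ∧ (R g).2 s = s := by
    intro g a1 a2
    refine ⟨?_, a1⟩
    change g.1 (g.2⁻¹ (g.1⁻¹ s)) = s
    rw [inv_fix a1, inv_fix a2, a1]
  have dn : ∀ g : (Ω ≃o Ω) × (Ω ≃o Ω), g.1 s = s → g.2 s = s →
      (R⁻¹ g).1 s = s ∧ (R⁻¹ g).2 s = s := by
    intro g a1 a2
    refine ⟨a2, ?_⟩
    change g.2⁻¹ (g.1⁻¹ (g.2 s)) = s
    rw [a2, inv_fix a1, inv_fix a2]
  induction j with
  | zero => exact ⟨h1, h2⟩
  | succ n ih =>
    rw [add_comm, zpow_add, zpow_one, Equiv.Perm.mul_apply]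
    exact up _ ih.1 ih.2
  | pred n ih =>
    rw [sub_eq_neg_add, zpow_add, zpow_neg_one, Equiv.Perm.mul_apply]
    exact dn _ ih.1 ih.2

/-- The frame is fixed if a rotated frame is. -/
lemma fix_of_rot (j : ℤ) {g : (Ω ≃o Ω) × (Ω ≃o Ω)} (h1 : ((R ^ j) g).1 s = s)
    (h2 : ((R ^ j) g).2 s = s) : g.1 s = s ∧ g.2 s = s := by
  have := fix_rot (-j) h1 h2
  rw [← Equiv.Perm.mul_apply, ← zpow_add, neg_add_cancel, zpow_zero] at this
  exact this

/-- If a frame fixes a point, all directions do. -/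
lemma V_fix {g : (Ω ≃o Ω) × (Ω ≃o Ω)} (h1 : g.1 s = s) (h2 : g.2 s = s) (x : ℝ) :
    V g x s = s := by
  have hX : ∀ (n : ℕ) (k : ℤ), X g n k s = s := by
    intro n
    induction n with
    | zero => intro k; exact (fix_rot k h1 h2).1
    | succ n ih =>
      intro k
      rw [X_succ]
      rcases Int.even_or_odd' k with ⟨i, rfl | rfl⟩
      · rw [ref_even]; exact ih i
      · rw [ref_odd, RelIso.mul_apply, ih, ih]
  by_cases h : ∃ p : ℕ × ℤ, x = p.2 / 2 ^ p.1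
  · obtain ⟨⟨n, k⟩, hk⟩ := h
    rw [V_eq _ hk]
    exact hX n k
  · rw [V, dif_neg h]
    rfl

/-- The strict form: the twist moves a fixed point of `V x`, unless it is fixed by everything. -/
theorem push_str_up (hl : LetP (SB k h) f f') (hkh : k ≠ h) {x : ℝ} (hx : Dy x)
    (hne : ∀ j : ℤ, x ≠ 2 * j)
    (hy : ∀ y, Dy y → x < y → y < x + 2 → V f y s ≤ s) (hfix : V f x s = s) :
    s < V f' ((T ^ k : Equiv.Perm ℝ) x) s ∨ (f.1 s = s ∧ f.2 s = s) := by
  obtain ⟨w1, w2⟩ := Rot.window x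
  have w1 : 2 * (⌊x / 2⌋ : ℝ) < x := lt_of_le_of_ne w1 (Ne.symm (hne _))
  set j : ℤ := ⌊x / 2⌋ + 1 with hj
  have hjr : (j : ℝ) = ⌊x / 2⌋ + 1 := by rw [hj]; push_cast; ring
  obtain ⟨m, υ, hm, hR, _, i, l, e3, e4⟩ := hl.window (SB.invRel k h) hx k (j := j)
    (by rw [hjr]; linarith) (by rw [hjr]; linarith)
  have hα := hy (2 * j) (by have := Dy.int (2 * j); push_cast at this; exact this)
    (by rw [hjr]; linarith) (by rw [hjr]; linarith)
  set α := V f (2 * j) with hαd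
  rw [e3] at hfix
  rcases lt_or_eq_of_le hα with hα | hα
  · left
    have hc : Commute m α := hm.1.comm
    have hpos := (hm.1.lower k rfl).inv
    have hinv : (α ^ (-k) * m)⁻¹ = α ^ k * m⁻¹ := by
      rw [mul_inv_rev, zpow_neg, inv_inv, (hc.inv_left.zpow_right k).eq]
    rw [e4, ← hinv]
    refine hpos.core_str ?_ (inv_gt_of_lt hα) (b := α) ?_ i l hfix
    · intro z hz
      apply inv_fix
      apply hm.2 hkh
      have := inv_fix hz
      rwa [inv_inv] at this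
    · intro z hz
      have := inv_fix hz
      rwa [inv_inv] at this
  · right
    have hυ : υ s = s := by
      rcases lt_trichotomy (υ s) s with g | g | g
      · exfalso
        have hall : ∀ l : List ℤ, ev α υ l s ≤ s := by
          intro l
          induction l with
          | nil => exact le_refl _
          | cons j l ih =>
            rw [ev_cons, RelIso.mul_apply, RelIso.mul_apply]
            have h2 := (α ^ j).monotone ((υ.monotone ih).trans g.le)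
            rwa [zpow_fix j hα] at h2
        rw [ev_cons, RelIso.mul_apply, RelIso.mul_apply] at hfix
        have h2 := (α ^ i).strictMono ((υ.monotone (hall l)).trans_lt g)
        rw [hfix, zpow_fix i hα] at h2
        exact absurd h2 (lt_irrefl _)
      · exact g
      · exfalso
        have hall : ∀ l : List ℤ, s ≤ ev α υ l s := by
          intro l
          induction l with
          | nil => exact le_refl _
          | cons j l ih =>
            rw [ev_cons, RelIso.mul_apply, RelIso.mul_apply]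
            have h2 := (α ^ j).monotone (g.le.trans (υ.monotone ih))
            rwa [zpow_fix j hα] at h2
        rw [ev_cons, RelIso.mul_apply, RelIso.mul_apply] at hfix
        have h2 := (α ^ i).strictMono (g.trans_le (υ.monotone (hall l)))
        rw [hfix, zpow_fix i hα] at h2
        exact absurd h2 (lt_irrefl _)
    exact fix_of_rot (2 * j) (by rw [hR]; exact hα) (by rw [hR]; exact hυ)

theorem push_str_dn (hl : LetP (SB k h) f f') (hkh : k ≠ h) {x : ℝ} (hx : Dy x)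
    (hne : ∀ j : ℤ, x ≠ 2 * j)
    (hy : ∀ y, Dy y → x < y → y < x + 2 → s ≤ V f y s) (hfix : V f x s = s) :
    V f' ((T ^ k : Equiv.Perm ℝ) x) s < s ∨ (f.1 s = s ∧ f.2 s = s) := by
  have := push_str_up (Ω := Ωᵒᵈ) (s := s) hl.dual hkh hx hne (fun y h1 h2 h3 => by
    rw [dualF_V]
    exact hy y h1 h2 h3) (by rw [dualF_V]; exact hfix)
  rw [dualF_V] at this
  exact this

end Strict

end Pool.Agent.Helper71.Rot
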