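import Mathlib
import Pool.Agent.Helper71.RotPush

/-!
Closed chains of fractional twists with `t = 1` for which the lower displacement map may have
fixed points: a point fixed by one direction is fixed by everything.
-/

set_option autoImplicit false

namespace Pool.Agent.Helper71.Rot

open Pool.Agent.Helper31.OrderAct
open Pool.Agent.Helper31.TwistChain (dualHom)

section Letters

/-- The shift belonging to the second curve. -/
noncomputable def cs (sec : Bool) : ℝ := if sec then 1 else 0

lemma Dy.add_cs {x : ℝ} (hx : Dy x) (sec : Bool) : Dy (x + cs sec) := by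
  cases sec
  · simpa [cs] using hx
  · simpa [cs] using hx.add_one

lemma Dy.sub_cs {x : ℝ} (hx : Dy x) (sec : Bool) : Dy (x - cs sec) := by
  cases sec
  · simpa [cs] using hx
  · simpa [cs] using hx.sub_one

/-- The frame seen from the curve of the letter. -/
def Fr {Γ : Type*} [Group Γ] (sec : Bool) (f : Γ × Γ) : Γ × Γ := if sec then R⁻¹ f else f

lemma V_Fr {Γ : Type*} [Group Γ] (sec : Bool) (f : Γ × Γ) {x : ℝ} (hx : Dy x) :
    V (Fr sec f) x = V f (x - cs sec) := by
  cases sec
  · simp [Fr, cs]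
  · have := V_shift f (-1) hx
    rw [zpow_neg_one] at this
    change V (R⁻¹ f) x = _
    rw [this]
    simp [cs, sub_eq_add_neg]

lemma Tz_dy (k : ℤ) {x : ℝ} (hx : Dy x) : Dy ((T ^ k : Equiv.Perm ℝ) x) :=
  (V_turn_all (1 : Multiplicative ℤ) 1 k hx).1

lemma Tz_inv_apply (k : ℤ) (x : ℝ) :
    (T ^ (-k) : Equiv.Perm ℝ) ((T ^ k : Equiv.Perm ℝ) x) = x := by
  rw [← Equiv.Perm.mul_apply, ← zpow_add, neg_add_cancel, zpow_zero]
  rfl

lemma Tz_apply_inv (k : ℤ) (x : ℝ) :
    (T ^ k : Equiv.Perm ℝ) ((T ^ (-k) : Equiv.Perm ℝ) x) = x := by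
  rw [← Equiv.Perm.mul_apply, ← zpow_add, add_neg_cancel, zpow_zero]
  rfl

lemma Tz_dy_iff (k : ℤ) {x : ℝ} : Dy ((T ^ k : Equiv.Perm ℝ) x) ↔ Dy x := by
  refine ⟨fun h => ?_, Tz_dy k⟩
  have := Tz_dy (-k) h
  rwa [Tz_inv_apply] at this

lemma le_T (x : ℝ) : x ≤ T x := by
  obtain ⟨h1, h2⟩ := window x
  rw [T_apply, turnFwd_eq h1 h2]
  rcases @rho_cases (x - 2 * ⌊x / 2⌋) with ⟨h3, e⟩ | ⟨h3, h4, e⟩ | ⟨h3, e⟩ <;> rw [e] <;> linarith

lemma Tz_le {k h : ℤ} (hkh : k ≤ h) (x : ℝ) :
    (T ^ k : Equiv.Perm ℝ) x ≤ (T ^ h : Equiv.Perm ℝ) x := by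
  obtain ⟨n, rfl⟩ : ∃ n : ℕ, h = n + k := ⟨(h - k).toNat, by omega⟩
  rw [zpow_add, Equiv.Perm.mul_apply, zpow_natCast]
  induction n with
  | zero => rfl
  | succ n ih =>
    refine (ih (by omega)).trans ?_
    rw [pow_succ', Equiv.Perm.mul_apply]
    exact le_T _

lemma mk_low (sec : Bool) (k h : ℤ) (x : ℝ) :
    (Letter.mk sec (some k) (some h)).low x = (T ^ k : Equiv.Perm ℝ) (x + cs sec) - cs sec := by
  unfold Letter.low
  cases sec
  · simp [cs, loB_some]
  · simp [cs, loB_some]

lemma mk_upp (sec : Bool) (k h : ℤ) (x : ℝ) :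
    (Letter.mk sec (some k) (some h)).upp x = (T ^ h : Equiv.Perm ℝ) (x + cs sec) - cs sec := by
  unfold Letter.upp
  cases sec
  · simp [cs, hiB_some]
  · simp [cs, hiB_some]

end Letters

section TwoDir

variable {Ω : Type*} [CompleteLinearOrder Ω] {s : Ω}

lemma ev_fix_of {α υ : Ω ≃o Ω} (hα : α s = s) {i : ℤ} {l : List ℤ}
    (hfix : ev α υ (i :: l) s = s) : υ s = s := by
  rcases lt_trichotomy (υ s) s with g | g | g
  · exfalso
    have hall : ∀ l : List ℤ, ev α υ l s ≤ s := by
      intro l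
      induction l with
      | nil => exact le_refl _
      | cons j l ih =>
        rw [ev_cons, RelIso.mul_apply, RelIso.mul_apply]
        have h2 := (α ^ j).monotone ((υ.monotone ih).trans g.le)
        rwa [zpow_fix j hα] at h2
    rw [ev_cons, RelIso.mul_apply, RelIso.mul_apply] at hfix
    have h2 := (α ^ i).strictMono ((υ.monotone (hall l)).trans_lt g)
    rw [hfix, zpow_fix i hα] at h2
    exact absurd h2 (lt_irrefl _)
  · exact g
  · exfalso
    have hall : ∀ l : List ℤ, s ≤ ev α υ l s := by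
      intro l
      induction l with
      | nil => exact le_refl _
      | cons j l ih =>
        rw [ev_cons, RelIso.mul_apply, RelIso.mul_apply]
        have h2 := (α ^ j).monotone (g.le.trans (υ.monotone ih))
        rwa [zpow_fix j hα] at h2
    rw [ev_cons, RelIso.mul_apply, RelIso.mul_apply] at hfix
    have h2 := (α ^ i).strictMono (g.trans_le (υ.monotone (hall l)))
    rw [hfix, zpow_fix i hα] at h2
    exact absurd h2 (lt_irrefl _)

/-- If two different directions fix a point, everything does. -/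
theorem two_dir (m : ℕ) : ∀ (g : (Ω ≃o Ω) × (Ω ≃o Ω)) (k : ℤ) (x : ℝ), Dy x →
    (k : ℝ) / 2 ^ m - 2 < x → x < (k : ℝ) / 2 ^ m → V g x s = s → V g ((k : ℝ) / 2 ^ m) s = s →
    g.1 s = s ∧ g.2 s = s := by
  induction m with
  | zero =>
    intro g k x hx h1 h2 h3 h4
    rw [pow_zero, div_one] at h1 h2 h4
    have dx : Dy (x - k) := by
      have := hx.add_int (-k)
      push_cast at this
      rwa [← sub_eq_add_neg] at this
    have e1 := V_shift g k dx
    rw [sub_add_cancel] at e1
    have e2 := V_shift g k dy0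
    rw [zero_add, V0] at e2
    rw [← e1] at h3
    rw [← e2] at h4
    obtain ⟨i, l, hl⟩ := V_ev_cons (Γ := Ω ≃o Ω) dx (by linarith) (by linarith)
    have h5 : ev ((R ^ k) g).1 ((R ^ k) g).2 (i :: l) s = s := by
      rw [← hl]
      exact h3
    exact fix_of_rot k h4 (ev_fix_of h4 h5)
  | succ m ih =>
    intro g k x hx h1 h2 h3 h4
    set y : ℝ := (k : ℝ) / 2 ^ (m + 1) with hy
    have hpos : (0 : ℝ) < 2 ^ m := by positivity
    have hky : (k : ℝ) = y * 2 ^ (m + 1) := by rw [hy]; field_simp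
    have hdy : Dy y := ⟨m + 1, k, rfl⟩
    set j : ℤ := round y with hj
    have hj1 := abs_sub_round y
    rw [← hj, abs_le] at hj1
    have dx : Dy (x - j) := by
      have := hx.add_int (-j)
      push_cast at this
      rwa [← sub_eq_add_neg] at this
    have dyj : Dy (y - j) := by
      have := hdy.add_int (-j)
      push_cast at this
      rwa [← sub_eq_add_neg] at this
    have e1 := V_shift g j dx
    have e2 := V_shift g j dyj
    rw [sub_add_cancel] at e1 e2
    rw [← e1] at h3
    rw [← e2] at h4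
    set g1 := (R ^ j) g with hg1
    have hz : (((k - j * 2 ^ (m + 1) : ℤ) : ℝ) / 2 ^ m) = 2 * (y - j) := by
      push_cast
      rw [hky, pow_succ]
      field_simp
    have key : g1.1 s = s ∧ g1.2 s = s := by
      rcases lt_trichotomy (y - j) 0 with hneg | hzero | hposz
      · -- negative side
        have t1 : T (2 * (y - j)) = y - j := by
          rw [T_right (by linarith) (by linarith)]
          ring
        have t2 : T (T⁻¹ (x - j)) = x - j := T.apply_symm_apply _
        have dx' : Dy (T⁻¹ (x - j)) := dy_Tinv dx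
        obtain ⟨_, v1⟩ := V_turn_all g1.1 g1.2 1 dx'
        have d2 : Dy (2 * (y - j)) := by rw [← hz]; exact ⟨m, _, rfl⟩
        obtain ⟨_, v2⟩ := V_turn_all g1.1 g1.2 1 d2
        rw [zpow_one, zpow_one] at v1 v2
        rw [t2] at v1
        rw [t1] at v2
        have l1 : 2 * (y - j) - 2 < T⁻¹ (x - j) := by
          rw [← T_strictMono.lt_iff_lt, t2]
          have t3 := T_add_two (2 * (y - j) - 2)
          rw [sub_add_cancel, t1] at t3
          linarith
        have l2 : T⁻¹ (x - j) < 2 * (y - j) := by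
          rw [← T_strictMono.lt_iff_lt, t2, t1]
          linarith
        obtain ⟨r1, r2⟩ := ih (g1.1, g1.1 * g1.2) (k - j * 2 ^ (m + 1)) (T⁻¹ (x - j)) dx'
          (by rw [hz]; exact l1) (by rw [hz]; exact l2) (by rw [v1]; exact h3)
          (by rw [hz, v2]; exact h4)
        refine ⟨r1, ?_⟩
        change g1.1 (g1.2 s) = s at r2
        exact g1.1.injective (r2.trans (show s = g1.1 s from r1.symm))
      · -- the direction is an integer
        have hyj : y = j := by linarith
        have e3 : (((0 : ℤ) : ℝ) / 2 ^ m) = 0 := by simp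
        refine ih g1 0 (x - j) dx ?_ ?_ h3 ?_
        · rw [e3]; linarith
        · rw [e3]; linarith
        · rw [e3, ← hzero]; exact h4
      · -- positive side
        have t1 : T (y - j) = 2 * (y - j) := by
          rw [T_apply, turnFwd_eq (x := y - j) (j := 0) (by push_cast; linarith)
            (by push_cast; linarith)]
          push_cast
          rcases @rho_cases (y - j - 2 * 0) with ⟨h3, e⟩ | ⟨h3, h4, e⟩ | ⟨h3, e⟩
          · rw [e]; ring
          · rw [e]; linarith
          · linarith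
        have dx' : Dy (T (x - j)) := by
          have := Tz_dy 1 dx
          rwa [zpow_one] at this
        obtain ⟨_, v1⟩ := V_turn_all g1.1 g1.2 (-1) dx'
        have d2 : Dy (T (y - j)) := by
          have := Tz_dy 1 dyj
          rwa [zpow_one] at this
        obtain ⟨_, v2⟩ := V_turn_all g1.1 g1.2 (-1) d2
        have t4 : ∀ w : ℝ, (T ^ (-1 : ℤ) : Equiv.Perm ℝ) (T w) = w := by
          intro w
          have := Tz_inv_apply 1 w
          rwa [zpow_one] at this
        rw [t4] at v1 v2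
        rw [t1] at v2
        have l1 : 2 * (y - j) - 2 < T (x - j) := by
          have t3 := T_add_two (y - j - 2)
          rw [sub_add_cancel, t1] at t3
          have t5 := T_strictMono (show y - j - 2 < x - j by linarith)
          linarith
        have l2 : T (x - j) < 2 * (y - j) := by
          have t5 := T_strictMono (show x - j < y - j by linarith)
          rwa [t1] at t5
        obtain ⟨r1, r2⟩ := ih (g1.1, g1.1 ^ (-1 : ℤ) * g1.2) (k - j * 2 ^ (m + 1)) (T (x - j)) dx'
          (by rw [hz]; exact l1) (by rw [hz]; exact l2) (by rw [v1]; exact h3)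
          (by rw [hz, v2]; exact h4)
        refine ⟨r1, ?_⟩
        change (g1.1 ^ (-1 : ℤ)) (g1.2 s) = s at r2
        rw [zpow_neg_one] at r2
        have r3 := congrArg (⇑g1.1) r2
        rw [RelIso.apply_inv_self] at r3
        exact r3.trans r1
    exact fix_of_rot j key.1 key.2

end TwoDir

section Steps

variable {Ω : Type*} [CompleteLinearOrder Ω]

/-- A step of the chain. -/
def StepP (sec : Bool) (k h : ℤ) (f f' : (Ω ≃o Ω) × (Ω ≃o Ω)) : Prop :=
  LetP (SB k h) (Fr sec f) (Fr sec f')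

variable {sec : Bool} {k h : ℤ} {f f' : (Ω ≃o Ω) × (Ω ≃o Ω)} {s : Ω}

lemma StepP.toStep (hl : StepP sec k h f f') : Step ⟨sec, some k, some h⟩ f f' := by
  obtain ⟨m, hb, e1, e2⟩ := hl
  unfold Step
  cases sec
  · exact ⟨m, hb.1, e1, e2⟩
  · exact ⟨m, hb.1, e1, e2⟩

lemma Fr_dual : dualF (Fr sec f) = Fr sec (dualF f) := by
  cases sec
  · rfl
  · exact dualF_Rinv f

lemma StepP.dual (hl : StepP sec k h f f') :
    StepP (Ω := Ωᵒᵈ) sec k h (dualF f) (dualF f') := by
  unfold StepP
  rw [← Fr_dual, ← Fr_dual]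
  exact LetP.dual hl

lemma fix_of_Fr (h1 : (Fr sec f).1 s = s) (h2 : (Fr sec f).2 s = s) : f.1 s = s ∧ f.2 s = s := by
  cases sec
  · exact ⟨h1, h2⟩
  · have h3 : ((R ^ (-1 : ℤ)) f).1 s = s := by rw [zpow_neg_one]; exact h1
    have h4 : ((R ^ (-1 : ℤ)) f).2 s = s := by rw [zpow_neg_one]; exact h2
    exact fix_of_rot (-1) h3 h4

lemma fix_Fr (h1 : f.1 s = s) (h2 : f.2 s = s) : (Fr sec f).1 s = s ∧ (Fr sec f).2 s = s := by
  cases sec
  · exact ⟨h1, h2⟩
  · have := fix_rot (-1) h1 h2
    rw [zpow_neg_one] at this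
    exact this

/-- Frames which fix a point are mapped to frames which fix it. -/
lemma StepP.fix (hl : StepP sec k h f f') (h1 : f.1 s = s) (h2 : f.2 s = s) :
    f'.1 s = s ∧ f'.2 s = s := by
  obtain ⟨m, hb, e1, e2⟩ := hl
  obtain ⟨g1, g2⟩ := fix_Fr (sec := sec) h1 h2
  apply fix_of_Fr (sec := sec)
  · rw [e1, g1]
  · rw [e2, RelIso.mul_apply, g2, inv_fix (hb.1.fix g1)]

variable {x : ℝ}

private lemma V_low (hx : Dy x) :
    V (Fr sec f') ((T ^ k : Equiv.Perm ℝ) (x + cs sec)) =
      V f' ((Letter.mk sec (some k) (some h)).low x) := by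
  rw [V_Fr sec f' (Tz_dy k (hx.add_cs sec)), mk_low]

private lemma V_self (hx : Dy x) : V (Fr sec f) (x + cs sec) = V f x := by
  rw [V_Fr sec f (hx.add_cs sec), add_sub_cancel_right]

theorem StepP.up (hl : StepP sec k h f f') (hx : Dy x)
    (hy : ∀ y, Dy y → x < y → y < x + 2 → V f y s ≤ s) :
    (s ≤ V f x s → s ≤ V f' ((Letter.mk sec (some k) (some h)).low x) s) ∧
    (s < V f x s → s < V f' ((Letter.mk sec (some k) (some h)).low x) s) := by
  have := push_up (s := s) hl (hx.add_cs sec) (fun y h1 h2 h3 => by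
    rw [V_Fr sec f h1]
    exact hy _ (h1.sub_cs sec) (by linarith) (by linarith))
  rwa [V_low (h := h) hx, V_self hx] at this

theorem StepP.dn (hl : StepP sec k h f f') (hx : Dy x)
    (hy : ∀ y, Dy y → x < y → y < x + 2 → s ≤ V f y s) :
    (V f x s ≤ s → V f' ((Letter.mk sec (some k) (some h)).low x) s ≤ s) ∧
    (V f x s < s → V f' ((Letter.mk sec (some k) (some h)).low x) s < s) := by
  have := push_dn (s := s) hl (hx.add_cs sec) (fun y h1 h2 h3 => by
    rw [V_Fr sec f h1]
    exact hy _ (h1.sub_cs sec) (by linarith) (by linarith))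
  rwa [V_low (h := h) hx, V_self hx] at this

/-- The direction `x` is one of the directions of the curve. -/
def Par (sec : Bool) (x : ℝ) : Prop := ∃ j : ℤ, x + cs sec = 2 * j

theorem StepP.str_up (hl : StepP sec k h f f') (hkh : k ≠ h) (hx : Dy x) (hne : ¬ Par sec x)
    (hy : ∀ y, Dy y → x < y → y < x + 2 → V f y s ≤ s) (hfix : V f x s = s) :
    s < V f' ((Letter.mk sec (some k) (some h)).low x) s ∨ (f.1 s = s ∧ f.2 s = s) := by
  have := push_str_up (s := s) hl hkh (hx.add_cs sec) (fun j hj => hne ⟨j, hj⟩)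
    (fun y h1 h2 h3 => by
      rw [V_Fr sec f h1]
      exact hy _ (h1.sub_cs sec) (by linarith) (by linarith)) (by rw [V_self hx]; exact hfix)
  rw [V_low (h := h) hx] at this
  rcases this with h1 | ⟨h1, h2⟩
  · exact Or.inl h1
  · exact Or.inr (fix_of_Fr h1 h2)

theorem StepP.str_dn (hl : StepP sec k h f f') (hkh : k ≠ h) (hx : Dy x) (hne : ¬ Par sec x)
    (hy : ∀ y, Dy y → x < y → y < x + 2 → s ≤ V f y s) (hfix : V f x s = s) :
    V f' ((Letter.mk sec (some k) (some h)).low x) s < s ∨ (f.1 s = s ∧ f.2 s = s) := by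
  have := push_str_dn (s := s) hl hkh (hx.add_cs sec) (fun j hj => hne ⟨j, hj⟩)
    (fun y h1 h2 h3 => by
      rw [V_Fr sec f h1]
      exact hy _ (h1.sub_cs sec) (by linarith) (by linarith)) (by rw [V_self hx]; exact hfix)
  rw [V_low (h := h) hx] at this
  rcases this with h1 | ⟨h1, h2⟩
  · exact Or.inl h1
  · exact Or.inr (fix_of_Fr h1 h2)

end Steps

end Pool.Agent.Helper71.Rot
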