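import Mathlib
import Pool.Agent.Helper71.RotDegen

/-!
Periodic chains of fractional twists for which the lower displacement map may have fixed points
and the upper one has none.
-/

set_option autoImplicit false

namespace Pool.Agent.Helper71.Rot

open Pool.Agent.Helper31.OrderAct
open Pool.Agent.Helper31.TwistChain (dualHom)

section Maps

/-- The letter with given finite bounds. -/
def lt3 (w : Bool × ℤ × ℤ) : Letter := ⟨w.1, some w.2.1, some w.2.2⟩

variable (w : Bool × ℤ × ℤ)

lemma lt3_low (x : ℝ) :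
    (lt3 w).low x = (T ^ w.2.1 : Equiv.Perm ℝ) (x + cs w.1) - cs w.1 := mk_low _ _ _ _

lemma lt3_upp (x : ℝ) :
    (lt3 w).upp x = (T ^ w.2.2 : Equiv.Perm ℝ) (x + cs w.1) - cs w.1 := mk_upp _ _ _ _

lemma lt3_low_strict : StrictMono (lt3 w).low := by
  intro x y h
  rw [lt3_low, lt3_low]
  have := Tz_strictMono w.2.1 (show x + cs w.1 < y + cs w.1 by linarith)
  linarith

lemma lt3_upp_strict : StrictMono (lt3 w).upp := by
  intro x y h
  rw [lt3_upp, lt3_upp]
  have := Tz_strictMono w.2.2 (show x + cs w.1 < y + cs w.1 by linarith)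
  linarith

lemma lt3_low_add_two (x : ℝ) : (lt3 w).low (x + 2) = (lt3 w).low x + 2 := by
  rw [lt3_low, lt3_low, show x + 2 + cs w.1 = x + cs w.1 + 2 by ring, Tz_add_two]
  ring

lemma lt3_upp_add_two (x : ℝ) : (lt3 w).upp (x + 2) = (lt3 w).upp x + 2 := by
  rw [lt3_upp, lt3_upp, show x + 2 + cs w.1 = x + cs w.1 + 2 by ring, Tz_add_two]
  ring

lemma lt3_low_dy {x : ℝ} : Dy ((lt3 w).low x) ↔ Dy x := by
  rw [lt3_low]
  constructor
  · intro h
    have h1 := h.add_cs w.1
    rw [sub_add_cancel, Tz_dy_iff] at h1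
    have h2 := h1.sub_cs w.1
    rwa [add_sub_cancel_right] at h2
  · intro h
    exact (Tz_dy _ (h.add_cs w.1)).sub_cs w.1

lemma lt3_low_surj (y : ℝ) : ∃ x, (lt3 w).low x = y := by
  refine ⟨(T ^ (-w.2.1) : Equiv.Perm ℝ) (y + cs w.1) - cs w.1, ?_⟩
  rw [lt3_low, sub_add_cancel, Tz_apply_inv, add_sub_cancel_right]

lemma lt3_upp_surj (y : ℝ) : ∃ x, (lt3 w).upp x = y := by
  refine ⟨(T ^ (-w.2.2) : Equiv.Perm ℝ) (y + cs w.1) - cs w.1, ?_⟩
  rw [lt3_upp, sub_add_cancel, Tz_apply_inv, add_sub_cancel_right]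

variable {w}

lemma lt3_low_le_upp (h : w.2.1 ≤ w.2.2) (x : ℝ) : (lt3 w).low x ≤ (lt3 w).upp x := by
  rw [lt3_low, lt3_upp]
  have := Tz_le h (x + cs w.1)
  linarith

lemma lt3_eq_of_eq (h : w.2.1 = w.2.2) (x : ℝ) : (lt3 w).low x = (lt3 w).upp x := by
  rw [lt3_low, lt3_upp, h]

lemma lt3_eq_of_par {x : ℝ} (h : Par w.1 x) : (lt3 w).low x = (lt3 w).upp x := by
  obtain ⟨j, hj⟩ := h
  rw [lt3_low, lt3_upp, hj, Tz_even, Tz_even]

end Maps

section Compositions

/-- The composition of the first `k` lower maps. -/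
noncomputable def LW (W : ℕ → Bool × ℤ × ℤ) (k : ℕ) : ℝ → ℝ := lw (fun i => lt3 (W i)) k

/-- The composition of the first `k` upper maps. -/
noncomputable def HW (W : ℕ → Bool × ℤ × ℤ) (k : ℕ) : ℝ → ℝ := hw (fun i => lt3 (W i)) k

variable (W : ℕ → Bool × ℤ × ℤ)

lemma LW_succ (k : ℕ) (x : ℝ) : LW W (k + 1) x = (lt3 (W k)).low (LW W k x) := rfl

lemma HW_succ (k : ℕ) (x : ℝ) : HW W (k + 1) x = (lt3 (W k)).upp (HW W k x) := rfl

lemma LW_strict (k : ℕ) : StrictMono (LW W k) := by
  induction k with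
  | zero => exact strictMono_id
  | succ k ih => exact (lt3_low_strict (W k)).comp ih

lemma HW_strict (k : ℕ) : StrictMono (HW W k) := by
  induction k with
  | zero => exact strictMono_id
  | succ k ih => exact (lt3_upp_strict (W k)).comp ih

lemma LW_add_two (k : ℕ) (x : ℝ) : LW W k (x + 2) = LW W k x + 2 := by
  induction k with
  | zero => rfl
  | succ k ih => rw [LW_succ, LW_succ, ih, lt3_low_add_two]

lemma HW_add_two (k : ℕ) (x : ℝ) : HW W k (x + 2) = HW W k x + 2 := by
  induction k with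
  | zero => rfl
  | succ k ih => rw [HW_succ, HW_succ, ih, lt3_upp_add_two]

lemma LW_add_even (k : ℕ) (j : ℤ) (x : ℝ) : LW W k (x + 2 * j) = LW W k x + 2 * j := by
  induction j with
  | zero => simp
  | succ n ih =>
    push_cast at ih ⊢
    rw [show x + 2 * ((n : ℝ) + 1) = x + 2 * n + 2 by ring, LW_add_two, ih]
    ring
  | pred n ih =>
    push_cast at ih ⊢
    have h1 := LW_add_two W k (x + 2 * (-(n : ℝ) - 1))
    rw [show x + 2 * (-(n : ℝ) - 1) + 2 = x + 2 * -(n : ℝ) by ring, ih] at h1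
    linarith

lemma LW_dy (k : ℕ) {x : ℝ} : Dy (LW W k x) ↔ Dy x := by
  induction k with
  | zero => exact Iff.rfl
  | succ k ih => rw [LW_succ, lt3_low_dy, ih]

lemma LW_surj (k : ℕ) (y : ℝ) : ∃ x, LW W k x = y := by
  induction k generalizing y with
  | zero => exact ⟨y, rfl⟩
  | succ k ih =>
    obtain ⟨z, hz⟩ := lt3_low_surj (W k) y
    obtain ⟨x, hx⟩ := ih z
    exact ⟨x, by rw [LW_succ, hx, hz]⟩

lemma HW_surj (k : ℕ) (y : ℝ) : ∃ x, HW W k x = y := by
  induction k generalizing y with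
  | zero => exact ⟨y, rfl⟩
  | succ k ih =>
    obtain ⟨z, hz⟩ := lt3_upp_surj (W k) y
    obtain ⟨x, hx⟩ := ih z
    exact ⟨x, by rw [HW_succ, hx, hz]⟩

lemma LW_add (a b : ℕ) (x : ℝ) :
    LW W (a + b) x = LW (fun j => W (a + j)) b (LW W a x) := by
  induction b with
  | zero => rfl
  | succ b ih => rw [← add_assoc, LW_succ, ih, LW_succ]

lemma HW_add (a b : ℕ) (x : ℝ) :
    HW W (a + b) x = HW (fun j => W (a + j)) b (HW W a x) := by
  induction b with
  | zero => rfl
  | succ b ih => rw [← add_assoc, HW_succ, ih, HW_succ]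

variable {W}

/-- If the two compositions agree at the end, but not strictly earlier. -/
lemma exists_strict {n : ℕ} {x : ℝ} (h : LW W n x ≠ HW W n x) :
    ∃ i, i < n ∧ (lt3 (W i)).low (LW W i x) ≠ (lt3 (W i)).upp (LW W i x) := by
  by_contra hcon
  push Not at hcon
  apply h
  have : ∀ i, i ≤ n → LW W i x = HW W i x := by
    intro i hi
    induction i with
    | zero => rfl
    | succ i ih => rw [LW_succ, HW_succ, ← ih (by omega), hcon i (by omega)]
  exact this n le_rfl

end Compositions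

section Chains

variable {Ω : Type*} [CompleteLinearOrder Ω]

/-- A periodic chain of twists. -/
structure Chain (n : ℕ) (W : ℕ → Bool × ℤ × ℤ) (f : ℕ → (Ω ≃o Ω) × (Ω ≃o Ω)) : Prop where
  le : ∀ i, (W i).2.1 ≤ (W i).2.2
  step : ∀ i, StepP (W i).1 (W i).2.1 (W i).2.2 (f i) (f (i + 1))
  perW : ∀ i, W (i + n) = W i
  perf : ∀ i, f (i + n) = f i
  disp : ∀ x : ℝ, x ≤ LW W n x ∧ x < HW W n x ∧ HW W n x < x + 4

variable {n : ℕ} {W : ℕ → Bool × ℤ × ℤ} {f : ℕ → (Ω ≃o Ω) × (Ω ≃o Ω)} {s : Ω}

lemma Chain.shiftW (c : Chain n W f) : (fun j => W (n + j)) = W := by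
  funext j
  rw [add_comm, c.perW]

lemma Chain.rot (c : Chain n W f) (i : ℕ) :
    Chain n (fun j => W (i + j)) (fun j => f (i + j)) := by
  refine ⟨fun j => c.le _, fun j => c.step _, fun j => ?_, fun j => ?_, ?_⟩
  · rw [← add_assoc, c.perW]
  · rw [← add_assoc, c.perf]
  · intro y
    have hL : ∀ x, LW (fun j => W (i + j)) n (LW W i x) = LW W i (LW W n x) := by
      intro x
      rw [← LW_add, add_comm i n, LW_add, c.shiftW]
    have hH : ∀ x, HW (fun j => W (i + j)) n (HW W i x) = HW W i (HW W n x) := by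
      intro x
      rw [← HW_add, add_comm i n, HW_add, c.shiftW]
    constructor
    · obtain ⟨x, rfl⟩ := LW_surj W i y
      rw [hL]
      exact (LW_strict W i).monotone (c.disp x).1
    · obtain ⟨x, rfl⟩ := HW_surj W i y
      rw [hH]
      refine ⟨HW_strict W i (c.disp x).2.1, ?_⟩
      have h1 := HW_strict W i (c.disp x).2.2
      have h2 := HW_add_two W i (x + 2)
      rw [show x + 2 + 2 = x + 4 by ring, HW_add_two] at h2
      linarith

lemma Chain.closed (c : Chain n W f) : Closed n (fun i => lt3 (W i)) f 1 := by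
  refine ⟨fun i _ => (c.step i).toStep, ?_, by rw [one_mul, mul_one]⟩
  have := c.perf 0
  rw [zero_add] at this
  rw [this]
  simp

lemma Chain.dual (c : Chain n W f) : Chain (Ω := Ωᵒᵈ) n W (fun i => dualF (f i)) :=
  ⟨c.le, fun i => (c.step i).dual, c.perW, fun i => by
    change dualF (f (i + n)) = dualF (f i)
    rw [c.perf], c.disp⟩

/-- Two different lower ends have distance at least four. -/
lemma spacing {g : (Ω ≃o Ω) × (Ω ≃o Ω)} (hd : s ≤ dd g s) {φ ψ : ℝ} (h1 : Tr g s φ)
    (h2 : Tr g s ψ) (h3 : φ < ψ) (h4 : ψ < φ + 4) : False := by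
  obtain ⟨x, hx, c1, c2⟩ := exists_dy
    (show max φ (ψ - 2) < min (φ + 2) ψ from
      max_lt (lt_min (by linarith) h3) (lt_min (by linarith) (by linarith)))
  have g1 := (le_max_left _ _).trans_lt c1
  have g2 := (le_max_right _ _).trans_lt c1
  have g3 := c2.trans_le (min_le_left _ _)
  have g4 := c2.trans_le (min_le_right _ _)
  have e1 := neg_add_two hd hx (h1 x hx g1 g3)
  have e2 := h2 (x + 2) hx.add_two (by linarith) (by linarith)
  exact absurd (e1.trans e2) (lt_irrefl _)

lemma Chain.f_n (c : Chain n W f) : f n = f 0 := by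
  have := c.perf 0
  rwa [zero_add] at this

lemma Chain.dd_all (c : Chain n W f) (i : ℕ) : dd (f i) = dd (f 0) := by
  induction i with
  | zero => rfl
  | succ i ih => rw [(c.step i).toStep.dd, ih]

/-- Tracking along the chain. -/
theorem Chain.track (c : Chain n W f) {φ : ℝ} (hd : s ≤ dd (f 0) s)
    (ht : Tr (f 0) s φ) (i : ℕ) : ∃ φ', Tr (f i) s φ' ∧ LW W i φ ≤ φ' ∧ φ' ≤ HW W i φ := by
  induction i with
  | zero => exact ⟨φ, ht, le_refl _, le_refl _⟩
  | succ i ih =>
    obtain ⟨ψ, p1, p2, p3⟩ := ih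
    obtain ⟨ψ', q1, q2, q3⟩ := (c.step i).toStep.track (by rw [c.dd_all]; exact hd) p1
    exact ⟨ψ', q1, ((lt3_low_strict (W i)).monotone p2).trans q2,
      q3.trans ((lt3_upp_strict (W i)).monotone p3)⟩

/-- The lower ends move with the lower displacement maps. -/
theorem Chain.track_const (c : Chain n W f) {φ : ℝ} (hd : s ≤ dd (f 0) s)
    (ht : Tr (f 0) s φ) : LW W n φ = φ ∧ ∀ i, i ≤ n → Tr (f i) s (LW W i φ) := by
  have key : ∀ i, i ≤ n → Tr (f i) s (LW W i φ) ∧ LW W n φ = φ := by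
    intro i hi
    obtain ⟨ψ, p1, p2, p3⟩ := c.track hd ht i
    obtain ⟨ψ', q1, q2, q3⟩ := (c.rot i).track (s := s) (φ := ψ)
      (by change s ≤ dd (f i) s; rw [c.dd_all]; exact hd) p1 (n - i)
    rw [Nat.add_sub_cancel' hi, c.f_n] at q1
    have e1 := LW_add W i (n - i) φ
    have e2 := HW_add W i (n - i) φ
    rw [Nat.add_sub_cancel' hi] at e1 e2
    have a1 := (LW_strict (fun j => W (i + j)) (n - i)).monotone p2
    have a2 := (HW_strict (fun j => W (i + j)) (n - i)).monotone p3
    rw [← e1] at a1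
    rw [← e2] at a2
    obtain ⟨d1, _, d3⟩ := c.disp φ
    have h1 : ψ' = φ := by
      by_contra hne
      have : φ < ψ' := lt_of_le_of_ne (d1.trans (a1.trans q2)) (Ne.symm hne)
      exact spacing hd ht q1 this ((q3.trans a2).trans_lt d3)
    have h2 : LW (fun j => W (i + j)) (n - i) ψ ≤ LW (fun j => W (i + j)) (n - i) (LW W i φ) := by
      rw [← e1]
      rw [h1] at q2
      exact q2.trans d1
    have h3 : ψ = LW W i φ := le_antisymm ((LW_strict _ _).le_iff_le.mp h2) p2
    refine ⟨h3 ▸ p1, ?_⟩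
    apply le_antisymm _ d1
    rw [h1] at q2
    exact a1.trans q2
  exact ⟨(key 0 (Nat.zero_le _)).2, fun i hi => (key i hi).1⟩

/-- All lower ends along the chain come from lower ends at the beginning. -/
theorem Chain.back (c : Chain n W f) {ψ : ℝ} (hd : s ≤ dd (f 0) s) {i : ℕ} (hi : i ≤ n)
    (ht : Tr (f i) s ψ) : ∃ φ, Tr (f 0) s φ ∧ ψ = LW W i φ := by
  obtain ⟨h1, h2⟩ := (c.rot i).track_const (s := s) (φ := ψ)
    (by change s ≤ dd (f i) s; rw [c.dd_all]; exact hd) ht
  have h3 := h2 (n - i) (Nat.sub_le _ _)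
  rw [Nat.add_sub_cancel' hi, c.f_n] at h3
  refine ⟨_, h3, ?_⟩
  have h4 := LW_add (fun j => W (i + j)) (n - i) i ψ
  rw [Nat.sub_add_cancel hi, h1] at h4
  have h5 : (fun j => W (i + (n - i + j))) = W := by
    funext j
    rw [← add_assoc, Nat.add_sub_cancel' hi, add_comm, c.perW]
  rw [h5] at h4
  exact h4

lemma Chain.fixAll (c : Chain n W f) {i : ℕ} (h : (f i).1 s = s ∧ (f i).2 s = s) (j : ℕ) :
    (f (i + j)).1 s = s ∧ (f (i + j)).2 s = s := by
  induction j with
  | zero => exact h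
  | succ j ih => exact (c.step (i + j)).fix ih.1 ih.2

lemma Chain.fix_iff (c : Chain n W f) {i : ℕ} (hi : i ≤ n) :
    ((f i).1 s = s ∧ (f i).2 s = s) ↔ ((f 0).1 s = s ∧ (f 0).2 s = s) := by
  constructor
  · intro h
    have := c.fixAll h (n - i)
    rwa [Nat.add_sub_cancel' hi, c.f_n] at this
  · intro h
    have := c.fixAll h i
    rwa [zero_add] at this

lemma lt_two_of_fixed {φ₀ : ℝ} (h0 : LW W n φ₀ = φ₀) (x : ℝ) : LW W n x < x + 2 := by
  set j : ℤ := ⌊(x - φ₀) / 2⌋ + 1 with hj
  have h1 := Int.lt_floor_add_one ((x - φ₀) / 2)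
  have h2 := Int.floor_le ((x - φ₀) / 2)
  have h3 : (j : ℝ) = ⌊(x - φ₀) / 2⌋ + 1 := by rw [hj]; push_cast; ring
  have h4 : x < φ₀ + 2 * j := by rw [h3]; linarith
  have h5 := LW_strict W n h4
  rw [LW_add_even, h0] at h5
  rw [h3] at h5
  linarith

/-- A point fixed by one direction is fixed by everything. -/
theorem Chain.fixUp (c : Chain n W f) {φ₀ : ℝ} (h0 : LW W n φ₀ = φ₀) (hd : s ≤ dd (f 0) s)
    {x : ℝ} (hx : Dy x) (hfix : V (f 0) x s = s) : (f 0).1 s = s ∧ (f 0).2 s = s := by
  have hdy : ∀ i, Dy (LW W i x) := fun i => (LW_dy W i).mpr hx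
  have hV2 : s ≤ V (f 0) (x + 2) s := by
    have h1 := V_per (f 0) hx
    have h2 : V (f 0) (x + 2) (V (f 0) x s) = dd (f 0) s :=
      congrArg (fun y : Ω ≃o Ω => y s) h1
    rw [hfix] at h2
    rw [h2]
    exact hd
  by_cases hcase : ∃ y, Dy y ∧ x < y ∧ y < x + 2 ∧ V (f 0) y s < s
  · exfalso
    obtain ⟨y, hy, y1, y2, y3⟩ := hcase
    obtain ⟨φ, p1, p2, p3⟩ := arc hd hy y3
    have e1 : φ = x := by
      by_contra hne
      rcases lt_or_gt_of_ne hne with h | h
      · exact absurd (p3 x hx h (by linarith)) (by rw [hfix]; exact lt_irrefl _)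
      · exact absurd (p3 (x + 2) hx.add_two (by linarith) (by linarith)) (not_lt.mpr hV2)
    subst e1
    obtain ⟨hn, ht⟩ := c.track_const hd p3
    have hle : ∀ i, i ≤ n → ∀ y, Dy y → LW W i φ < y → y < LW W i φ + 2 → V (f i) y s ≤ s :=
      fun i hi y h1 h2 h3 => (ht i hi y h1 h2 h3).le
    have hge : ∀ i, i ≤ n → s ≤ V (f i) (LW W i φ) s := by
      intro i hi
      induction i with
      | zero => exact hfix.ge
      | succ i ih =>
        exact ((c.step i).up (hdy i) (hle i (by omega))).1 (ih (by omega))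
    have hst : ∀ i j, i + j ≤ n → s < V (f i) (LW W i φ) s →
        s < V (f (i + j)) (LW W (i + j) φ) s := by
      intro i j hj h
      induction j with
      | zero => exact h
      | succ j ih =>
        exact ((c.step (i + j)).up (hdy (i + j)) (hle (i + j) (by omega))).2 (ih (by omega))
    have heq : ∀ i, i ≤ n → V (f i) (LW W i φ) s = s := by
      intro i hi
      by_contra hne
      have h1 := hst i (n - i) (by omega) (lt_of_le_of_ne (hge i hi) (Ne.symm hne))
      rw [Nat.add_sub_cancel' hi, c.f_n, hn, hfix] at h1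
      exact absurd h1 (lt_irrefl _)
    obtain ⟨i, hi, hne⟩ := exists_strict (W := W) (n := n) (x := φ)
      (by rw [hn]; exact ((c.disp φ).2.1).ne)
    have hkh : (W i).2.1 ≠ (W i).2.2 := fun h => hne (lt3_eq_of_eq h _)
    have hpar : ¬ Par (W i).1 (LW W i φ) := fun h => hne (lt3_eq_of_par h)
    rcases (c.step i).str_up hkh (hdy i) hpar (hle i hi.le) (heq i hi.le) with h1 | ⟨h1, h2⟩
    · have h2 := heq (i + 1) (by omega)
      change s < V (f (i + 1)) (LW W (i + 1) φ) s at h1
      rw [h2] at h1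
      exact absurd h1 (lt_irrefl _)
    · obtain ⟨y, hy, a1, a2⟩ := exists_dy (show LW W i φ < LW W i φ + 2 by linarith)
      have h3 := ht i hi.le y hy a1 a2
      rw [V_fix h1 h2] at h3
      exact absurd h3 (lt_irrefl _)
  · push Not at hcase
    have hle : ∀ i, i ≤ n → ∀ y, Dy y → LW W i x < y → y < LW W i x + 2 → s ≤ V (f i) y s := by
      intro i hi y hy h1 h2
      by_contra hn
      push Not at hn
      obtain ⟨ψ, p1, p2, p3⟩ := arc (by rw [c.dd_all]; exact hd) hy hn
      obtain ⟨φ, q1, q2⟩ := c.back hd hi p3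
      rw [q2] at p1 p2
      have g1 : φ < x + 2 := by
        rw [← (LW_strict W i).lt_iff_lt, LW_add_two]
        linarith
      have g2 : x < φ + 2 := by
        rw [← (LW_strict W i).lt_iff_lt, LW_add_two]
        linarith
      obtain ⟨z, hz, z1, z2⟩ := exists_dy (show max φ x < min (φ + 2) (x + 2) from
        max_lt (lt_min (by linarith) g1) (lt_min g2 (by linarith)))
      have b1 := (le_max_left _ _).trans_lt z1
      have b2 := (le_max_right _ _).trans_lt z1
      have b3 := z2.trans_le (min_le_left _ _)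
      have b4 := z2.trans_le (min_le_right _ _)
      exact absurd (q1 z hz b1 b3) (not_lt.mpr (hcase z hz b2 b4))
    have hge : ∀ i, i ≤ n → V (f i) (LW W i x) s ≤ s := by
      intro i hi
      induction i with
      | zero => exact hfix.le
      | succ i ih =>
        exact ((c.step i).dn (hdy i) (hle i (by omega))).1 (ih (by omega))
    have hst : ∀ i j, i + j ≤ n → V (f i) (LW W i x) s < s →
        V (f (i + j)) (LW W (i + j) x) s < s := by
      intro i j hj h
      induction j with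
      | zero => exact h
      | succ j ih =>
        exact ((c.step (i + j)).dn (hdy (i + j)) (hle (i + j) (by omega))).2 (ih (by omega))
    obtain ⟨d1, d2, _⟩ := c.disp x
    have heq : ∀ i, i ≤ n → V (f i) (LW W i x) s = s := by
      intro i hi
      by_contra hne
      have h1 := hst i (n - i) (by omega) (lt_of_le_of_ne (hge i hi) hne)
      rw [Nat.add_sub_cancel' hi, c.f_n] at h1
      obtain ⟨φ, p1, p2, p3⟩ := arc hd (hdy n) h1
      obtain ⟨hn, _⟩ := c.track_const hd p3
      rcases lt_or_ge φ (x + 2) with g1 | g1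
      · rcases lt_or_ge x (φ + 2) with g2 | g2
        · obtain ⟨z, hz, z1, z2⟩ := exists_dy (show max φ x < min (φ + 2) (x + 2) from
            max_lt (lt_min (by linarith) g1) (lt_min g2 (by linarith)))
          have b1 := (le_max_left _ _).trans_lt z1
          have b2 := (le_max_right _ _).trans_lt z1
          have b3 := z2.trans_le (min_le_left _ _)
          have b4 := z2.trans_le (min_le_right _ _)
          exact absurd (p3 z hz b1 b3) (not_lt.mpr (hcase z hz b2 b4))
        · have g3 : LW W n x = x := le_antisymm (by linarith) d1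
          rw [g3, hfix] at h1
          exact absurd h1 (lt_irrefl _)
      · have g2 := (LW_strict W n).monotone (show x ≤ φ - 2 by linarith)
        have g3 := LW_add_two W n (φ - 2)
        rw [sub_add_cancel, hn] at g3
        linarith
    by_cases hex : ∃ i, i < n ∧ (lt3 (W i)).low (LW W i x) ≠ (lt3 (W i)).upp (LW W i x)
    · obtain ⟨i, hi, hne⟩ := hex
      have hkh : (W i).2.1 ≠ (W i).2.2 := fun h => hne (lt3_eq_of_eq h _)
      have hpar : ¬ Par (W i).1 (LW W i x) := fun h => hne (lt3_eq_of_par h)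
      rcases (c.step i).str_dn hkh (hdy i) hpar (hle i hi.le) (heq i hi.le) with h1 | h1
      · exfalso
        have h2 := heq (i + 1) (by omega)
        change V (f (i + 1)) (LW W (i + 1) x) s < s at h1
        rw [h2] at h1
        exact absurd h1 (lt_irrefl _)
      · exact (c.fix_iff hi.le).mp h1
    · have g1 : LW W n x = HW W n x := by
        by_contra hne
        exact hex (exists_strict hne)
      have g2 : x < LW W n x := by rw [g1]; exact d2
      have g3 := lt_two_of_fixed h0 x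
      have g4 := heq n le_rfl
      rw [c.f_n] at g4
      obtain ⟨m, k, hk⟩ := hdy n
      rw [hk] at g2 g3 g4
      exact two_dir m (f 0) k x hx (by linarith) g2 hfix g4

theorem Chain.fix (c : Chain n W f) {φ₀ : ℝ} (h0 : LW W n φ₀ = φ₀)
    {x : ℝ} (hx : Dy x) (hfix : V (f 0) x s = s) : (f 0).1 s = s ∧ (f 0).2 s = s := by
  rcases le_total s (dd (f 0) s) with hd | hd
  · exact c.fixUp h0 hd hx hfix
  · exact Chain.fixUp (Ω := Ωᵒᵈ) (s := s) c.dual h0 (by rw [dualF_dd]; exact hd) hx
      (by rw [dualF_V]; exact hfix)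

end Chains

end Pool.Agent.Helper71.Rot
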