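import Mathlib
import Pool.Agent.Helper71.RotChain

/-!
Periodic chains of fractional twists fix every point.
-/

set_option autoImplicit false

namespace Pool.Agent.Helper71.Rot

open Pool.Agent.Helper31.OrderAct
open Pool.Agent.Helper31.TwistChain (dualHom)

section Component

variable {Ω : Type*} [CompleteLinearOrder Ω]

lemma sSup_fixed {x : Ω ≃o Ω} {A : Set Ω} (h : ∀ r ∈ A, x r = r) : x (sSup A) = sSup A := by
  apply le_antisymm
  · have h1 : sSup A ≤ x⁻¹ (sSup A) := sSup_le (fun r hr => by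
      have := (x⁻¹).monotone (le_sSup hr)
      rwa [inv_fix (h r hr)] at this)
    have := x.monotone h1
    rwa [RelIso.apply_inv_self] at this
  · exact sSup_le (fun r hr => by
      have := x.monotone (le_sSup hr)
      rwa [h r hr] at this)

lemma sInf_fixed {x : Ω ≃o Ω} {A : Set Ω} (h : ∀ r ∈ A, x r = r) : x (sInf A) = sInf A := by
  apply le_antisymm
  · exact le_sInf (fun r hr => by
      have := x.monotone (sInf_le hr)
      rwa [h r hr] at this)
  · have h1 : x⁻¹ (sInf A) ≤ sInf A := le_sInf (fun r hr => by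
      have := (x⁻¹).monotone (sInf_le hr)
      rwa [inv_fix (h r hr)] at this)
    have := x.monotone h1
    rwa [RelIso.apply_inv_self] at this

/-- The component of the set of points which are not fixed by a frame. -/
lemma frame_component {g : (Ω ≃o Ω) × (Ω ≃o Ω)} {s : Ω} (hs : ¬ (g.1 s = s ∧ g.2 s = s)) :
    ∃ e e', e < s ∧ s < e' ∧ (g.1 e = e ∧ g.2 e = e) ∧ (g.1 e' = e' ∧ g.2 e' = e') ∧
      ∀ r, e < r → r < e' → ¬ (g.1 r = r ∧ g.2 r = r) := by
  let A : Set Ω := {r | r ≤ s ∧ g.1 r = r ∧ g.2 r = r}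
  let B : Set Ω := {r | s ≤ r ∧ g.1 r = r ∧ g.2 r = r}
  have eA : g.1 (sSup A) = sSup A ∧ g.2 (sSup A) = sSup A :=
    ⟨sSup_fixed (fun r hr => hr.2.1), sSup_fixed (fun r hr => hr.2.2)⟩
  have eB : g.1 (sInf B) = sInf B ∧ g.2 (sInf B) = sInf B :=
    ⟨sInf_fixed (fun r hr => hr.2.1), sInf_fixed (fun r hr => hr.2.2)⟩
  refine ⟨sSup A, sInf B, ?_, ?_, eA, eB, ?_⟩
  · apply lt_of_le_of_ne (sSup_le (fun r hr => hr.1))
    intro h
    rw [h] at eA
    exact hs eA
  · apply lt_of_le_of_ne (le_sInf (fun r hr => hr.1))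
    intro h
    rw [← h] at eB
    exact hs eB
  · intro r h1 h2 hr
    rcases le_total r s with h | h
    · exact absurd (le_sSup (show r ∈ A from ⟨h, hr⟩)) (not_le.mpr h1)
    · exact absurd (sInf_le (show r ∈ B from ⟨h, hr⟩)) (not_le.mpr h2)

end Component

section Dyadic

variable {Γ : Type*} [Group Γ]

lemma X_right (f : Γ × Γ) (n m : ℕ) (k : ℤ) :
    X f (n + m) (2 ^ m * k + 1) = X f n (k + 1) * X f n k ^ m := by
  induction m with
  | zero => simp
  | succ m ih =>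
    rw [← add_assoc, X_succ, show (2 : ℤ) ^ (m + 1) * k + 1 = 2 * (2 ^ m * k) + 1 by ring,
      ref_odd, ih, X_lift, pow_succ, mul_assoc]

lemma X_left (f : Γ × Γ) (n m : ℕ) (k : ℤ) :
    X f (n + m) (2 ^ m * k - 1) = X f n k ^ m * X f n (k - 1) := by
  induction m with
  | zero => simp
  | succ m ih =>
    rw [← add_assoc, X_succ, show (2 : ℤ) ^ (m + 1) * k - 1 = 2 * (2 ^ m * k - 1) + 1 by ring,
      ref_odd, sub_add_cancel, ih, X_lift, pow_succ', mul_assoc]

lemma V_mid (f : Γ × Γ) (n : ℕ) (k : ℤ) :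
    V f (((2 * k + 1 : ℤ) : ℝ) / 2 ^ (n + 1)) =
      V f (((k + 1 : ℤ) : ℝ) / 2 ^ n) * V f ((k : ℝ) / 2 ^ n) := by
  rw [V_eq f (n := n + 1) (k := 2 * k + 1) rfl, V_eq f (n := n) (k := k + 1) rfl,
    V_eq f (n := n) (k := k) rfl, X_succ, ref_odd]

end Dyadic

section Cases

variable {Ω : Type*} [CompleteLinearOrder Ω]

lemma in_comp {x : Ω ≃o Ω} {e e' z : Ω} (xe : x e = e) (xe' : x e' = e') (h1 : e < z)
    (h2 : z < e') : e < x z ∧ x z < e' := by
  constructor
  · have := x.strictMono h1; rwa [xe] at this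
  · have := x.strictMono h2; rwa [xe'] at this

/-- The threshold between the two signs is not dyadic. -/
lemma dyadic_contra {g : (Ω ≃o Ω) × (Ω ≃o Ω)} {e e' s : Ω} (he : g.1 e = e ∧ g.2 e = e)
    (he' : g.1 e' = e' ∧ g.2 e' = e') (s1 : e < s) (s2 : s < e') {φ : ℝ} (hφ : Dy φ)
    (hne : ∀ r, e < r → r < e' → V g φ r ≠ r)
    (H1 : ∀ r, e < r → r < e' → ∀ x, Dy x → φ - 2 < x → x < φ → r < V g x r)
    (H2 : ∀ r, e < r → r < e' → ∀ x, Dy x → φ < x → x < φ + 2 → V g x r < r) : False := by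
  obtain ⟨n, k, rfl⟩ := hφ
  have ha : V g ((k : ℝ) / 2 ^ n) = X g n k := V_eq g rfl
  rw [ha] at hne
  set α := X g n k with hα
  have hV : ∀ x : ℝ, V g x e = e ∧ V g x e' = e' := fun x =>
    ⟨V_fix he.1 he.2 x, V_fix he'.1 he'.2 x⟩
  have hXV : ∀ (N : ℕ) (K : ℤ), V g ((K : ℝ) / 2 ^ N) = X g N K := fun N K => V_eq g rfl
  have hX : ∀ (N : ℕ) (K : ℤ), X g N K e = e ∧ X g N K e' = e' := by
    intro N K
    rw [← hXV]
    exact hV _
  have hp : ∀ m : ℕ, (0 : ℝ) < 1 / 2 ^ (n + m) ∧ (1 : ℝ) / 2 ^ (n + m) ≤ 1 := by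
    intro m
    refine ⟨by positivity, ?_⟩
    rw [div_le_one (by positivity)]
    exact one_le_pow₀ (by norm_num)
  rcases Glue.const_sign hne with hpos | hneg
  · -- directions slightly above
    have h1 : ∀ m : ℕ, (α ^ m) s ≤ (X g n (k + 1))⁻¹ s := by
      intro m
      have h2 : (((2 ^ m * k + 1 : ℤ) : ℝ) / 2 ^ (n + m)) = (k : ℝ) / 2 ^ n + 1 / 2 ^ (n + m) := by
        push_cast
        rw [pow_add]
        field_simp
      obtain ⟨p1, p2⟩ := hp m
      have h3 := H2 s s1 s2 (((2 ^ m * k + 1 : ℤ) : ℝ) / 2 ^ (n + m)) ⟨_, _, rfl⟩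
        (by rw [h2]; linarith) (by rw [h2]; linarith)
      rw [hXV, X_right, RelIso.mul_apply] at h3
      have h4 := ((X g n (k + 1))⁻¹).monotone h3.le
      rwa [RelIso.inv_apply_self] at h4
    have h2 : hiE α s ≤ (X g n (k + 1))⁻¹ s := iSup_le h1
    have h3 := in_comp (inv_fix (hX n (k + 1)).1) (inv_fix (hX n (k + 1)).2) s1 s2
    exact hne _ (s1.trans_le (s_le_hiE α s)) (h2.trans_lt h3.2) (hiE_fix (hpos s s1 s2).le)
  · have h1 : ∀ m : ℕ, s ≤ (α ^ m) (X g n (k - 1) s) := by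
      intro m
      have h2 : (((2 ^ m * k - 1 : ℤ) : ℝ) / 2 ^ (n + m)) = (k : ℝ) / 2 ^ n - 1 / 2 ^ (n + m) := by
        push_cast
        rw [pow_add]
        field_simp
      obtain ⟨p1, p2⟩ := hp m
      have h3 := H1 s s1 s2 (((2 ^ m * k - 1 : ℤ) : ℝ) / 2 ^ (n + m)) ⟨_, _, rfl⟩
        (by rw [h2]; linarith) (by rw [h2]; linarith)
      rw [hXV, X_left, RelIso.mul_apply] at h3
      exact h3.le
    set w := X g n (k - 1) s with hw
    have hw2 := in_comp (hX n (k - 1)).1 (hX n (k - 1)).2 s1 s2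
    have h2 : s ≤ loE α⁻¹ w := by
      apply le_iInf
      intro m
      rw [inv_inv]
      exact h1 m
    have h3 : w ≤ α⁻¹ w := inv_ge_of_le (hneg w hw2.1 hw2.2).le
    have h4 := inv_fix (loE_fix h3)
    rw [inv_inv] at h4
    exact hne _ (s1.trans_le h2) ((loE_le_s α⁻¹ w).trans_lt hw2.2) h4

/-- The threshold is dyadic if there is a strict letter; window version. -/
lemma nondyadic_win {k h : ℤ} {a u m : Ω ≃o Ω} (hm : SB k h m a) (hkh : k ≠ h) {e e' s : Ω}
    (he : a e = e ∧ u e = e) (he' : a e' = e' ∧ u e' = e') (s1 : e < s) (s2 : s < e') {θ : ℝ}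
    (hθ : ¬ Dy θ) (t1 : -2 < θ) (t2 : θ < 0)
    (Ha : ∀ z, e < z → z < e' → a z < z)
    (H1 : ∀ z, e < z → z < e' → ∀ x, Dy x → -2 < x → x < θ → z < V (a, u) x z)
    (H2 : ∀ z, e < z → z < e' → ∀ x, Dy x → (T ^ k : Equiv.Perm ℝ) θ < x → x < 0 →
      V (a, m⁻¹ * u) x z < z) : False := by
  set c := a ^ (-k) * m with hc
  have hpos : Pos c a := hm.1.lower k rfl
  have hcom : Commute m a := hm.1.comm
  have ce : c e = e := by
    rw [hc, RelIso.mul_apply, hm.1.fix he.1, zpow_fix _ he.1]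
  have ce' : c e' = e' := by
    rw [hc, RelIso.mul_apply, hm.1.fix he'.1, zpow_fix _ he'.1]
  have hcz : ∀ z, e < z → z < e' → c z < z := by
    intro z h1 h2
    have h3 := Ha z h1 h2
    apply lt_of_le_of_ne (hpos.dn z h3.le).1
    intro h4
    rw [hm.2 hkh z h4] at h3
    exact absurd h3 (lt_irrefl _)
  have hcinv : a ^ k * (m⁻¹ * u) = c⁻¹ * u := by
    rw [hc, mul_inv_rev, zpow_neg, inv_inv, (hcom.inv_left.zpow_right k).eq, mul_assoc]
  -- words preserve the component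
  have hev : ∀ (v : Ω ≃o Ω), v e = e → v e' = e' → ∀ (l : List ℤ) (z : Ω), e < z → z < e' →
      e < ev a v l z ∧ ev a v l z < e' := by
    intro v ve ve' l z h1 h2
    induction l with
    | nil => exact ⟨h1, h2⟩
    | cons i l ih =>
      rw [ev_cons, RelIso.mul_apply, RelIso.mul_apply]
      obtain ⟨g1, g2⟩ := in_comp ve ve' ih.1 ih.2
      exact in_comp (zpow_fix i he.1) (zpow_fix i he'.1) g1 g2
  -- comparison of words
  have hcmp : ∀ (l : List ℤ) (z : Ω), e < z → z < e' → ev a u l z ≤ ev a (c⁻¹ * u) l z := by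
    intro l z h1 h2
    induction l with
    | nil => exact le_refl _
    | cons i l ih =>
      rw [ev_cons, ev_cons, RelIso.mul_apply, RelIso.mul_apply, RelIso.mul_apply,
        RelIso.mul_apply]
      apply (a ^ i).monotone
      obtain ⟨g1, g2⟩ := hev u he.2 he'.2 l z h1 h2
      obtain ⟨g3, g4⟩ := in_comp he.2 he'.2 g1 g2
      have h3 : u (ev a u l z) ≤ c⁻¹ (u (ev a u l z)) := inv_ge_of_le (hcz _ g3 g4).le
      exact h3.trans ((c⁻¹).monotone (u.monotone ih))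
  have key : ∀ q, Dy q → θ < q → q < 0 → ∀ z, e < z → z < e' → V (a, u) q z ≤ c z := by
    intro q hq q1 q2 z h1 h2
    obtain ⟨i, l, hl⟩ := V_ev_cons (Γ := Ω ≃o Ω) hq (by linarith) q2
    obtain ⟨r1, r2⟩ := V_turn_all a (m⁻¹ * u) k hq
    have hw := Tz_window_lt k (by linarith) q2
    have h3 := H2 z h1 h2 _ r1 (Tz_strictMono k q1) hw.2
    rw [← r2, hcinv, hl] at h3
    rw [hl]
    have h4 : c⁻¹ (ev a u (i :: l) z) ≤ ev a (c⁻¹ * u) (i :: l) z := by
      rw [ev_cons, ev_cons, RelIso.mul_apply, RelIso.mul_apply, RelIso.mul_apply,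
        RelIso.mul_apply]
      have h5 : c⁻¹ ((a ^ i) (u (ev a u l z))) = (a ^ i) (c⁻¹ (u (ev a u l z))) := by
        have h6 : Commute c⁻¹ (a ^ i) := ((show Commute c a from hpos.comm).inv_left).zpow_right i
        rw [← RelIso.mul_apply, h6.eq, RelIso.mul_apply]
      rw [h5]
      exact (a ^ i).monotone ((c⁻¹).monotone (u.monotone (hcmp l z h1 h2)))
    have h5 := c.monotone (h4.trans h3.le)
    rwa [RelIso.apply_inv_self] at h5
  -- approximation from below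
  have hfe : ∀ x : ℝ, V (a, u) x e = e ∧ V (a, u) x e' = e' := fun x =>
    ⟨V_fix (g := (a, u)) he.1 he.2 x, V_fix (g := (a, u)) he'.1 he'.2 x⟩
  obtain ⟨N₀, hN₀⟩ := pow_unbounded_of_one_lt (1 / min (-θ) (θ + 2))
    (show (1 : ℝ) < 2 by norm_num)
  have hmin : 0 < min (-θ) (θ + 2) := lt_min (by linarith) (by linarith)
  have hsmall : ∀ N, N₀ ≤ N → (1 : ℝ) / 2 ^ N < min (-θ) (θ + 2) := by
    intro N hN
    have h1 : (2 : ℝ) ^ N₀ ≤ 2 ^ N := pow_le_pow_right₀ (by norm_num) hN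
    have h2 : 1 / min (-θ) (θ + 2) < 2 ^ N := hN₀.trans_le h1
    rw [div_lt_iff₀ hmin] at h2
    rw [div_lt_iff₀ (by positivity)]
    linarith
  let K : ℕ → ℤ := fun N => ⌊θ * 2 ^ N⌋
  let p : ℕ → ℝ := fun N => (K N : ℝ) / 2 ^ N
  have hple : ∀ N, p N < θ := by
    intro N
    have hpos : (0 : ℝ) < 2 ^ N := by positivity
    have h1 : p N ≤ θ := by
      change (K N : ℝ) / 2 ^ N ≤ θ
      rw [div_le_iff₀ hpos]
      exact Int.floor_le _
    apply lt_of_le_of_ne h1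
    intro h2
    exact hθ ⟨N, K N, h2.symm⟩
  have hpge : ∀ N, θ < p N + 1 / 2 ^ N := by
    intro N
    have hpos : (0 : ℝ) < 2 ^ N := by positivity
    change θ < (K N : ℝ) / 2 ^ N + 1 / 2 ^ N
    rw [← add_div, lt_div_iff₀ hpos]
    exact Int.lt_floor_add_one _
  have hK : ∀ N, K (N + 1) = 2 * K N ∨ K (N + 1) = 2 * K N + 1 := by
    intro N
    have h1 := Int.floor_le (θ * 2 ^ N)
    have h2 := Int.lt_floor_add_one (θ * 2 ^ N)
    have h3 : 2 * K N ≤ K (N + 1) := by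
      change 2 * K N ≤ ⌊θ * 2 ^ (N + 1)⌋
      rw [Int.le_floor]
      push_cast
      rw [pow_succ]
      linarith
    have h4 : K (N + 1) < 2 * K N + 2 := by
      change ⌊θ * 2 ^ (N + 1)⌋ < _
      rw [Int.floor_lt]
      push_cast
      rw [pow_succ]
      linarith
    omega
  let P : ℕ → Ω := fun N => V (a, u) (p N) s
  have hPin : ∀ N, e < P N ∧ P N < e' := fun N => in_comp (hfe _).1 (hfe _).2 s1 s2
  have hstep : ∀ N, N₀ ≤ N → (p (N + 1) = p N) ∨ P (N + 1) ≤ c (P N) := by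
    intro N hN
    rcases hK N with h1 | h1
    · left
      change (K (N + 1) : ℝ) / 2 ^ (N + 1) = (K N : ℝ) / 2 ^ N
      rw [h1, pow_succ]
      push_cast
      field_simp
    · right
      change V (a, u) ((K (N + 1) : ℝ) / 2 ^ (N + 1)) s ≤ c (V (a, u) ((K N : ℝ) / 2 ^ N) s)
      rw [h1, V_mid, RelIso.mul_apply]
      have h2 : (((K N + 1 : ℤ) : ℝ) / 2 ^ N) = p N + 1 / 2 ^ N := by
        push_cast
        rw [add_div]
      have h3 := hsmall N hN
      have h4 := h3.trans_le (min_le_left _ _)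
      have h5 := hple N
      refine key _ ⟨N, _, rfl⟩ (by rw [h2]; exact hpge N) (by rw [h2]; linarith) _
        (hPin N).1 (hPin N).2
  have hmove : ∀ N, N₀ ≤ N → ∀ j, p (N + j) = p N ∨ P (N + j) ≤ c (P N) := by
    intro N hN j
    induction j with
    | zero => left; rfl
    | succ j ih =>
      rcases hstep (N + j) (by omega) with h1 | h1
      · rcases ih with h2 | h2
        · left
          rw [← add_assoc, h1, h2]
        · right
          change V (a, u) (p (N + j + 1)) s ≤ _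
          rw [h1]
          exact h2
      · right
        refine h1.trans (c.monotone ?_)
        rcases ih with h2 | h2
        · change V (a, u) (p (N + j)) s ≤ V (a, u) (p N) s
          rw [h2]
        · exact h2.trans (hcz _ (hPin N).1 (hPin N).2).le
  have hchange : ∀ N, ∃ j, p (N + j) ≠ p N := by
    intro N
    by_contra hcon
    push Not at hcon
    have h1 : 0 < θ - p N := by linarith [hple N]
    obtain ⟨M, hM⟩ := pow_unbounded_of_one_lt (1 / (θ - p N)) (show (1 : ℝ) < 2 by norm_num)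
    rw [div_lt_iff₀ h1] at hM
    have h2 : (2 : ℝ) ^ M ≤ 2 ^ (N + M) := pow_le_pow_right₀ (by norm_num) (by omega)
    have h3 := hpge (N + M)
    rw [hcon M] at h3
    have h4 : (1 : ℝ) / 2 ^ (N + M) ≤ θ - p N := by
      rw [div_le_iff₀ (by positivity)]
      nlinarith
    linarith
  set b : Ω := ⨅ j : ℕ, P (N₀ + j) with hb
  have hb1 : s ≤ b := by
    apply le_iInf
    intro j
    have h1 := hsmall (N₀ + j) (by omega)
    have h2 := h1.trans_le (min_le_right _ _)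
    have h3 := hpge (N₀ + j)
    exact (H1 s s1 s2 (p (N₀ + j)) ⟨_, _, rfl⟩ (by linarith) (hple _)).le
  have hb2 : b ≤ P N₀ := iInf_le (fun j => P (N₀ + j)) 0
  have hb3 : b ≤ c b := by
    have h1 : c b = ⨅ j : ℕ, c (P (N₀ + j)) := by rw [hb, c.map_iInf]
    rw [h1]
    apply le_iInf
    intro j
    obtain ⟨j', hj'⟩ := hchange (N₀ + j)
    rcases hmove (N₀ + j) (by omega) j' with h2 | h2
    · exact absurd h2 hj'
    · refine le_trans ?_ h2
      rw [add_assoc]
      exact iInf_le (fun j => P (N₀ + j)) (j + j')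
  exact absurd (hcz b (s1.trans_le hb1) (hb2.trans_lt (hPin N₀).2)) (not_lt.mpr hb3)

/-- The same for a general position of the threshold. -/
lemma nondyadic_let {k h : ℤ} {f f' : (Ω ≃o Ω) × (Ω ≃o Ω)} (hl : LetP (SB k h) f f')
    (hkh : k ≠ h) {e e' s : Ω} (he : f.1 e = e ∧ f.2 e = e) (he' : f.1 e' = e' ∧ f.2 e' = e')
    (s1 : e < s) (s2 : s < e') {θ : ℝ} (hθ : ¬ Dy θ)
    (H1 : ∀ z, e < z → z < e' → ∀ x, Dy x → θ - 2 < x → x < θ → z < V f x z)
    (H2 : ∀ z, e < z → z < e' → ∀ x, Dy x → (T ^ k : Equiv.Perm ℝ) θ < x →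
      x < (T ^ k : Equiv.Perm ℝ) θ + 2 → V f' x z < z) : False := by
  obtain ⟨w1, w2⟩ := Rot.window θ
  have w1 : 2 * (⌊θ / 2⌋ : ℝ) < θ := by
    apply lt_of_le_of_ne w1
    intro h1
    apply hθ
    rw [← h1]
    have := Dy.int (2 * ⌊θ / 2⌋)
    push_cast at this
    exact this
  set j : ℤ := ⌊θ / 2⌋ + 1 with hj
  have hjr : (j : ℝ) = ⌊θ / 2⌋ + 1 := by rw [hj]; push_cast; ring
  obtain ⟨m, hm, e1, e2⟩ := hl.shift (SB.invRel k h) j
  have hVe := fun {x : ℝ} (hx : Dy x) => V_even_shift f j hx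
  have hVe' := fun {x : ℝ} (hx : Dy x) => V_even_shift f' j hx
  set g := (R ^ (2 * j)) f with hg
  set g' := (R ^ (2 * j)) f' with hg'
  have hge : g = (g.1, g.2) := rfl
  have hge' : g' = (g.1, m⁻¹ * g.2) := Prod.ext e1 e2
  have ge := fix_rot (2 * j) he.1 he.2
  have ge' := fix_rot (2 * j) he'.1 he'.2
  have hθ' : ¬ Dy (θ - 2 * j) := fun hd => hθ (by
    have := hd.add_even j
    rwa [sub_add_cancel] at this)
  have hk := Tz_sub_even k j θ
  have hwin := Tz_window_lt k (x := θ - 2 * j) (by rw [hjr]; linarith) (by rw [hjr]; linarith)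
  rw [hk] at hwin
  refine nondyadic_win (a := g.1) (u := g.2) hm hkh ge ge' s1 s2 hθ' (by rw [hjr]; linarith)
    (by rw [hjr]; linarith) ?_ ?_ ?_
  · intro z z1 z2
    have h1 := H2 z z1 z2 (0 + 2 * j) (dy0.add_even j) (by linarith) (by linarith)
    rw [← hVe' dy0, V0, e1] at h1
    exact h1
  · intro z z1 z2 x hx x1 x2
    have h1 := H1 z z1 z2 (x + 2 * j) (hx.add_even j) (by linarith) (by linarith)
    rw [← hVe hx] at h1
    exact h1
  · intro z z1 z2 x hx x1 x2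
    rw [hk] at x1
    have h1 := H2 z z1 z2 (x + 2 * j) (hx.add_even j) (by linarith) (by linarith)
    rw [← hVe' hx, hge'] at h1
    exact h1

/-- The same for a step of a chain. -/
lemma nondyadic_step {w : Bool × ℤ × ℤ} {f f' : (Ω ≃o Ω) × (Ω ≃o Ω)}
    (hl : StepP w.1 w.2.1 w.2.2 f f')
    (hkh : w.2.1 ≠ w.2.2) {e e' s : Ω} (he : f.1 e = e ∧ f.2 e = e)
    (he' : f.1 e' = e' ∧ f.2 e' = e')
    (s1 : e < s) (s2 : s < e') {θ : ℝ} (hθ : ¬ Dy θ)
    (H1 : ∀ z, e < z → z < e' → ∀ x, Dy x → θ - 2 < x → x < θ → z < V f x z)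
    (H2 : ∀ z, e < z → z < e' → ∀ x, Dy x → (lt3 w).low θ < x →
      x < (lt3 w).low θ + 2 → V f' x z < z) : False := by
  rw [lt3_low] at H2
  refine nondyadic_let (θ := θ + cs w.1) hl hkh (fix_Fr he.1 he.2) (fix_Fr he'.1 he'.2) s1 s2
    (fun h => hθ ?_) ?_ ?_
  · have := h.sub_cs w.1
    rwa [add_sub_cancel_right] at this
  · intro z z1 z2 x hx x1 x2
    rw [V_Fr _ _ hx]
    exact H1 z z1 z2 _ (hx.sub_cs _) (by linarith) (by linarith)
  · intro z z1 z2 x hx x1 x2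
    rw [V_Fr _ _ hx]
    exact H2 z z1 z2 _ (hx.sub_cs _) (by linarith) (by linarith)

variable {n : ℕ} {W : ℕ → Bool × ℤ × ℤ} {f : ℕ → (Ω ≃o Ω) × (Ω ≃o Ω)} {s : Ω}

theorem Chain.all_fix_up (c : Chain n W f) {φ₀ : ℝ} (h0 : LW W n φ₀ = φ₀)
    (hd : s ≤ dd (f 0) s) : (f 0).1 s = s ∧ (f 0).2 s = s := by
  by_contra hs
  obtain ⟨e, e', s1, s2, he, he', hno⟩ := frame_component hs
  have sgn : ∀ i, i ≤ n → ∀ x, Dy x → (∀ r, e < r → r < e' → r < V (f i) x r) ∨
      (∀ r, e < r → r < e' → V (f i) x r < r) := by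
    intro i hi x hx
    apply Glue.const_sign
    intro r r1 r2 hr
    have h1 : LW (fun j => W (i + j)) n (LW W i φ₀) = LW W i φ₀ := by
      rw [← LW_add, add_comm i n, LW_add, c.shiftW, h0]
    have h2 := (c.rot i).fix (s := r) h1 hx hr
    exact hno r r1 r2 ((c.fix_iff hi).mp h2)
  -- some direction moves down
  have hex : ∃ x, Dy x ∧ V (f 0) x s < s := by
    rcases sgn 0 (Nat.zero_le _) 0 dy0 with h1 | h1
    · refine ⟨-2, dy2, ?_⟩
      rw [V0] at h1
      rw [V2, RelIso.mul_apply, RelIso.mul_apply]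
      obtain ⟨g1, g2⟩ := in_comp he.2 he'.2 s1 s2
      have h2 := ((f 0).2⁻¹).strictMono (inv_lt_of_gt (h1 _ g1 g2))
      rwa [RelIso.inv_apply_self] at h2
    · exact ⟨0, dy0, h1 s s1 s2⟩
  obtain ⟨x₀, hx₀, hx₁⟩ := hex
  obtain ⟨φ, _, _, hφ⟩ := arc hd hx₀ hx₁
  obtain ⟨hn, htr⟩ := c.track_const hd hφ
  have hdn : ∀ i, i ≤ n → ∀ z, e < z → z < e' → ∀ x, Dy x → LW W i φ < x →
      x < LW W i φ + 2 → V (f i) x z < z := by
    intro i hi z z1 z2 x hx x1 x2
    rcases sgn i hi x hx with h1 | h1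
    · exact absurd ((h1 s s1 s2).trans (htr i hi x hx x1 x2)) (lt_irrefl _)
    · exact h1 z z1 z2
  have hup : ∀ i, i ≤ n → ∀ z, e < z → z < e' → ∀ x, Dy x → LW W i φ - 2 < x →
      x < LW W i φ → z < V (f i) x z := by
    intro i hi z z1 z2 x hx x1 x2
    rcases sgn i hi x hx with h1 | h1
    · exact h1 z z1 z2
    · have h2 := (htr i hi).below (by rw [c.dd_all]; exact hd) hx x1 x2
      exact absurd (h2.trans_lt (h1 s s1 s2)) (lt_irrefl _)
  by_cases hdy : Dy φ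
  · refine dyadic_contra he he' s1 s2 hdy ?_ (fun r r1 r2 => hup 0 (Nat.zero_le _) r r1 r2)
      (fun r r1 r2 => hdn 0 (Nat.zero_le _) r r1 r2)
    intro r r1 r2 hr
    rcases sgn 0 (Nat.zero_le _) φ hdy with h1 | h1
    · exact absurd (h1 r r1 r2) (by rw [hr]; exact lt_irrefl _)
    · exact absurd (h1 r r1 r2) (by rw [hr]; exact lt_irrefl _)
  · obtain ⟨i, hi, hne⟩ := exists_strict (W := W) (n := n) (x := φ)
      (by rw [hn]; exact ((c.disp φ).2.1).ne)
    have hkh : (W i).2.1 ≠ (W i).2.2 := fun h => hne (lt3_eq_of_eq h _)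
    exact nondyadic_step (c.step i) hkh ((c.fix_iff hi.le).mpr he) ((c.fix_iff hi.le).mpr he')
      s1 s2 (fun h => hdy ((LW_dy W i).mp h)) (fun z z1 z2 => hup i hi.le z z1 z2)
      (fun z z1 z2 => hdn (i + 1) hi z z1 z2)

/-- A periodic chain fixes every point. -/
theorem Chain.all_fix (c : Chain n W f) (s : Ω) : (f 0).1 s = s ∧ (f 0).2 s = s := by
  by_cases h0 : ∃ φ₀, LW W n φ₀ = φ₀
  · obtain ⟨φ₀, h0⟩ := h0
    rcases le_total s (dd (f 0) s) with hd | hd
    · exact c.all_fix_up h0 hd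
    · exact Chain.all_fix_up (Ω := Ωᵒᵈ) (s := s) c.dual h0 (by rw [dualF_dd]; exact hd)
  · push Not at h0
    have hg : Good n (fun i => lt3 (W i)) := fun x =>
      ⟨lt_of_le_of_ne (c.disp x).1 (Ne.symm (h0 x)), (c.disp x).2.2⟩
    obtain ⟨h1, h2⟩ := c.closed.root hg (P := 1) (Q := 0) (by norm_num) (by simp) s
    exact c.closed.fix hg h1 h2

end Cases

end Pool.Agent.Helper71.Rot
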