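import Mathlib
import Pool.Agent.Helper71.RotEnd
import Pool.Agent.Helper71.TreeProof

/-!
Closed words in fractional twists: the elements of the fibre groups fix every point of a complete
linear order.
-/

set_option autoImplicit false

namespace Pool.Agent.Helper71.Rot

open Pool.Agent.Helper31.OrderAct

section Closing

variable {Ω : Type*} [CompleteLinearOrder Ω]

lemma LW_congr {W W' : ℕ → Bool × ℤ × ℤ} {n : ℕ} (h : ∀ i, i < n → W i = W' i) (x : ℝ) :
    LW W n x = LW W' n x ∧ HW W n x = HW W' n x := by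
  induction n with
  | zero => exact ⟨rfl, rfl⟩
  | succ n ih =>
    obtain ⟨h1, h2⟩ := ih (fun i hi => h i (by omega))
    rw [LW_succ, LW_succ, HW_succ, HW_succ, h1, h2, h n (by omega)]
    exact ⟨rfl, rfl⟩

/-- A closed chain fixes every point. -/
theorem chain_fix {n : ℕ} {W : ℕ → Bool × ℤ × ℤ} {F : ℕ → (Ω ≃o Ω) × (Ω ≃o Ω)}
    (hle : ∀ i, i < n → (W i).2.1 ≤ (W i).2.2)
    (hstep : ∀ i, i < n → StepP (W i).1 (W i).2.1 (W i).2.2 (F i) (F (i + 1)))
    (hclose : F n = F 0)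
    (hdisp : ∀ x : ℝ, x ≤ LW W n x ∧ x < HW W n x ∧ HW W n x < x + 4) (s : Ω) :
    (F 0).1 s = s ∧ (F 0).2 s = s := by
  have hn : 0 < n := by
    rcases Nat.eq_zero_or_pos n with h | h
    · subst h
      have := (hdisp 0).2.1
      exact absurd this (lt_irrefl _)
    · exact h
  have hmod : ∀ i, i % n < n := fun i => Nat.mod_lt i hn
  have hc : Chain n (fun i => W (i % n)) (fun i => F (i % n)) := by
    refine ⟨fun i => hle _ (hmod i), ?_, ?_, ?_, ?_⟩
    · intro i
      have h1 := hstep _ (hmod i)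
      by_cases h2 : i % n + 1 = n
      · have h3 : (i + 1) % n = 0 := by
          rw [← Nat.mod_add_mod, h2, Nat.mod_self]
        rw [h2, hclose] at h1
        change StepP _ _ _ (F (i % n)) (F ((i + 1) % n))
        rw [h3]
        exact h1
      · have h3 : (i + 1) % n = i % n + 1 := by
          have h4 := hmod i
          rw [← Nat.mod_add_mod, Nat.mod_eq_of_lt (by omega)]
        change StepP _ _ _ (F (i % n)) (F ((i + 1) % n))
        rw [h3]
        exact h1
    · intro i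
      rw [Nat.add_mod_right]
    · intro i
      rw [Nat.add_mod_right]
    · intro x
      obtain ⟨h1, h2⟩ := LW_congr (W := fun i => W (i % n)) (W' := W) (n := n)
        (fun i hi => by rw [Nat.mod_eq_of_lt hi]) x
      rw [h1, h2]
      exact hdisp x
  have := hc.all_fix s
  rw [Nat.zero_mod] at this
  exact this

/-- The same in terms of the standard generators of the fibre groups. -/
theorem word_fix {n : ℕ} {W : ℕ → Bool × ℤ × ℤ} {a b m : ℕ → (Ω ≃o Ω)}
    (hle : ∀ i, i < n → (W i).2.1 ≤ (W i).2.2)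
    (hA : ∀ i, i < n → (W i).1 = false → a (i + 1) = a i ∧ b (i + 1) = b i * m i ∧
      SB (W i).2.1 (W i).2.2 (m i) (a i))
    (hB : ∀ i, i < n → (W i).1 = true → b (i + 1) = b i ∧ a (i + 1) = a i * (m i)⁻¹ ∧
      SB (W i).2.1 (W i).2.2 (m i) (b i))
    (hca : a n = a 0) (hcb : b n = b 0)
    (hdisp : ∀ x : ℝ, x ≤ LW W n x ∧ x < HW W n x ∧ HW W n x < x + 4) (s : Ω) :
    a 0 s = s ∧ b 0 s = s := by
  have hstep : ∀ i, i < n → StepP (W i).1 (W i).2.1 (W i).2.2 (a i, (b i)⁻¹)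
      (a (i + 1), (b (i + 1))⁻¹) := by
    intro i hi
    change LetP _ (Fr (W i).1 (a i, (b i)⁻¹)) (Fr (W i).1 (a (i + 1), (b (i + 1))⁻¹))
    cases hs : (W i).1 with
    | false =>
      obtain ⟨p1, p2, p3⟩ := hA i hi hs
      refine ⟨m i, p3, ?_, ?_⟩
      · exact p1
      · change (b (i + 1))⁻¹ = (m i)⁻¹ * (b i)⁻¹
        rw [p2, mul_inv_rev]
    | true =>
      obtain ⟨p1, p2, p3⟩ := hB i hi hs
      have p4 : m i * b i = b i * m i := p3.1.comm
      refine ⟨(m i)⁻¹, (SB.invRel _ _).inv p3, ?_, ?_⟩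
      · change (b (i + 1))⁻¹ = (b i)⁻¹
        rw [p1]
      · change (b (i + 1))⁻¹⁻¹ * (a (i + 1))⁻¹ * (b (i + 1))⁻¹ =
          (m i)⁻¹⁻¹ * ((b i)⁻¹⁻¹ * (a i)⁻¹ * (b i)⁻¹)
        rw [p1, p2, inv_inv, inv_inv, mul_inv_rev, inv_inv, ← mul_assoc, ← mul_assoc,
          ← mul_assoc, p4]
  obtain ⟨h1, h2⟩ := chain_fix (F := fun i => (a i, (b i)⁻¹)) hle hstep
    (by simp only [hca, hcb]) hdisp s
  refine ⟨h1, ?_⟩
  have := inv_fix h2
  rwa [inv_inv] at this

end Closing

section Fraction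

variable {Ω : Type*} [CompleteLinearOrder Ω]

/-- A fractional power with exponent `p` is bounded by the neighbouring integral powers. -/
theorem SB_of_rat {m a : Ω ≃o Ω} (hcm : m * a = a * m) (p : ℚ)
    (h : ∃ k : ℕ, 0 < k ∧ m ^ (k * p.den) = a ^ (k * p.num)) :
    SB ⌊p⌋ ⌈p⌉ m a := by
  obtain ⟨k, hk, h⟩ := h
  have hkz : (0 : ℤ) < k := by exact_mod_cast hk
  have hden : (0 : ℤ) < p.den := by exact_mod_cast p.pos
  have hq : (0 : ℚ) < p.den := by exact_mod_cast p.pos
  have hnum : p * p.den = p.num := Rat.mul_den_eq_num p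
  have h1 : ⌊p⌋ * (p.den : ℤ) ≤ p.num := by
    have h2 : (⌊p⌋ : ℚ) * p.den ≤ p * p.den :=
      mul_le_mul_of_nonneg_right (Int.floor_le p) hq.le
    rw [hnum] at h2
    exact_mod_cast h2
  have h3 : p.num ≤ ⌈p⌉ * (p.den : ℤ) := by
    have h2 : p * p.den ≤ (⌈p⌉ : ℚ) * p.den :=
      mul_le_mul_of_nonneg_right (Int.le_ceil p) hq.le
    rw [hnum] at h2
    exact_mod_cast h2
  have hz : m ^ ((k : ℤ) * p.den) = a ^ ((k : ℤ) * p.num) := by
    rw [← h, ← zpow_natCast]
    push_cast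
    rfl
  have spec : Tree.FillSpec (decide (⌊p⌋ ≠ ⌈p⌉)) (some ⌊p⌋) (some ⌈p⌉) m a ∅ := by
    refine Tree.solid_spec (mul_pos hkz hden) ?_ ?_ hz
    · intro j hj
      rw [Option.some.injEq] at hj
      subst hj
      refine ⟨by nlinarith, fun hne heq => ?_⟩
      rw [decide_eq_true_eq] at hne
      apply hne
      have heq' : ⌊p⌋ * (p.den : ℤ) = p.num := by
        have h6 : (k : ℤ) * (⌊p⌋ * p.den) = k * p.num := by rw [← heq]; ring
        exact mul_left_cancel₀ hkz.ne' h6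
      have h4 : (⌊p⌋ : ℚ) = p := by
        have h5 : (⌊p⌋ : ℚ) * p.den = p * p.den := by
          rw [hnum]
          exact_mod_cast heq'
        exact mul_right_cancel₀ hq.ne' h5
      rw [← h4, Int.floor_intCast, Int.ceil_intCast]
    · intro j hj
      rw [Option.some.injEq] at hj
      subst hj
      nlinarith
  refine ⟨spec.bd hcm, fun hne s hs => spec.str hcm ?_ _ rfl s hs⟩
  rw [decide_eq_true_eq]
  exact hne

end Fraction

end Pool.Agent.Helper71.Rot
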