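import Pool.Agent.Helper71.TfField

set_option autoImplicit false

namespace Pool.Agent.Helper71.TfExotic

open Polynomial Pool.Agent.Helper71.TfCore Pool.Agent.Helper71.TfMatch
  Pool.Agent.Helper71.TfField

section

variable {I : Type*} [Fintype I] [DecidableEq I] {lam : I → ℂ} {P : ℤ[X]}

lemma nin_comap {L : Type*} [Field L] [CharZero L] (σ : L ≃ₐ[ℚ] L)
    (Q : Ideal (integralClosure ℤ L)) (x : L) :
    Nin (Q.comap (σ.restrictScalars ℤ).mapIntegralClosure.toRingEquiv.toRingHom) x ↔
      Nin Q (σ x) := by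
  constructor
  · rintro ⟨h1, h2⟩
    refine ⟨h1.map (σ.restrictScalars ℤ), fun h => h2 ?_⟩
    rw [Ideal.mem_comap]
    exact h
  · rintro ⟨h1, h2⟩
    have h3 : IsIntegral ℤ x := by
      have := h1.map (σ.symm.restrictScalars ℤ)
      simpa using this
    refine ⟨h3, fun h => h2 ?_⟩
    rw [Ideal.mem_comap] at h
    exact h

/-- The quadratic equation of the exotic eigenvalues -/
lemma exotic (hI : Fintype.card I = 6)
    (hP : ∏ i, (X - C (lam i)) = P.map (Int.castRingHom ℂ)) {p a : ℕ} (hp : p.Prime)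
    (hrank : ¬ ((p : ℤ) ∣ P.coeff 4 ∧ (p : ℤ) ∣ P.coeff 3))
    (hn : ∀ i, ‖lam i‖ ^ 2 = (p ^ a : ℕ)) (m : I → I) (hm1 : ∀ i, m (m i) = i)
    (hm2 : ∀ i, m i ≠ i)
    (hm3 : ∀ i, lam i * lam (m i) = (p ^ a : ℕ) ∨
      (lam i ^ 2 = (p ^ a : ℕ) ∧ lam (m i) ^ 2 = (p ^ a : ℕ))) :
    ∃ t : ℤ, t ^ 2 ≤ 4 * (p ^ a : ℕ) ∧ ∀ ix : Fin 3 → I,
      (∀ l l', l ≠ l' → ix l ≠ ix l' ∧
        ∀ n : ℕ, 0 < n → (lam (ix l) * lam (ix l')) ^ n ≠ ((p ^ a : ℕ) : ℂ) ^ n) →
      IsIntegral ℤ ((∏ l, lam (ix l)) / (p ^ a : ℕ)) →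
      (∏ l, lam (ix l)) ^ 2 - t * (p ^ a : ℕ) * (∏ l, lam (ix l)) + ((p ^ a : ℕ) : ℂ) ^ 3 = 0 := by
  obtain ⟨L, hfin, hgal, hL⟩ := exists_field hP
  set q : ℕ := p ^ a with hqdef
  have hq : q ≠ 0 := pow_ne_zero _ hp.ne_zero
  have hqC : (q : ℂ) ≠ 0 := by exact_mod_cast hq
  have hqL : (q : L) ≠ 0 := by exact_mod_cast hq
  let x : I → L := fun i => ⟨lam i, hL i⟩
  have hx : ∀ i, algebraMap L ℂ (x i) = lam i := fun i => rfl
  have hlam0 : ∀ i, lam i ≠ 0 := by
    intro i h
    have := hn i
    rw [h] at this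
    simp only [norm_zero, ne_eq, OfNat.ofNat_ne_zero, not_false_eq_true, zero_pow] at this
    exact hq (by exact_mod_cast this.symm)
  have hx0 : ∀ i, x i ≠ 0 := by
    intro i h
    apply hlam0 i
    rw [← hx, h, map_zero]
  have hconj : ∀ i, (q : ℂ) / lam i = (starRingEnd ℂ) (lam i) := by
    intro i
    rw [div_eq_iff (hlam0 i), mul_comm, Complex.mul_conj, Complex.normSq_eq_norm_sq, hn]
    simp
  have hinj : ∀ z : L, IsIntegral ℤ (algebraMap L ℂ z) ↔ IsIntegral ℤ z := fun z =>
    isIntegral_algebraMap_iff (algebraMap L ℂ).injective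
  have hxi : ∀ i, IsIntegral ℤ (x i) := fun i => (hinj _).1 (isIntegral_lam hP i)
  have hyi : ∀ i, IsIntegral ℤ ((q : L) / x i) := by
    intro i
    rw [← hinj, map_div₀, map_natCast, hx, hconj]
    exact (isIntegral_lam hP i).map (starRingEnd ℂ).toIntAlgHom
  -- the relation with the partner in `L`
  have hmx : ∀ i, x (m i) = (q : L) / x i ∨ (x i ^ 2 = q ∧ x (m i) ^ 2 = q) := by
    intro i
    rcases hm3 i with h | ⟨h1, h2⟩
    · left
      rw [eq_div_iff (hx0 i), mul_comm]
      apply (algebraMap L ℂ).injective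
      rw [map_mul, hx, hx, map_natCast, h]
    · right
      constructor
      · apply (algebraMap L ℂ).injective
        rw [map_pow, hx, map_natCast, h1]
      · apply (algebraMap L ℂ).injective
        rw [map_pow, hx, map_natCast, h2]
  -- pair free triples
  let PF : (Fin 3 → I) → Prop := fun ix => ∀ l l', l ≠ l' → ix l ≠ ix l' ∧
        ∀ n : ℕ, 0 < n → (lam (ix l) * lam (ix l')) ^ n ≠ ((q : ℕ) : ℂ) ^ n
  have hpm : ∀ i, ∃ n : ℕ, 0 < n ∧ (lam i * lam (m i)) ^ n = (q : ℂ) ^ n := by
    intro i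
    rcases hm3 i with h | ⟨h1, h2⟩
    · exact ⟨1, one_pos, by rw [h]⟩
    · exact ⟨2, two_pos, by rw [mul_pow, h1, h2]; ring⟩
  have hcover : ∀ ix, PF ix → ∀ i, ∃ l, i = ix l ∨ i = m (ix l) := by
    intro ix hix
    have hnm : ∀ l l', ix l ≠ m (ix l') := by
      intro l l' h
      by_cases hll : l = l'
      · rw [hll] at h; exact hm2 _ h.symm
      · obtain ⟨n, hn0, hn1⟩ := hpm (ix l')
        rw [← h] at hn1
        exact (hix l' l (Ne.symm hll)).2 n hn0 hn1
    let f : Fin 3 × Bool → I := fun z => if z.2 then m (ix z.1) else ix z.1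
    have hf : Function.Injective f := by
      rintro ⟨l, b⟩ ⟨l', b'⟩ h
      have hix' : ∀ l l', ix l = ix l' → l = l' := by
        intro l l' h
        by_contra hne
        exact (hix l l' hne).1 h
      cases b <;> cases b' <;> simp only [f, if_true, if_false, Bool.false_eq_true] at h
      · rw [hix' _ _ h]
      · exact (hnm _ _ h).elim
      · exact (hnm _ _ h.symm).elim
      · have h2 := congrArg m h
        rw [hm1, hm1] at h2
        rw [hix' _ _ h2]
    have hfs : Function.Surjective f := by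
      have : Fintype.card (Fin 3 × Bool) = Fintype.card I := by rw [hI]; simp
      exact ((Fintype.bijective_iff_injective_and_card f).2 ⟨hf, this⟩).2
    intro i
    obtain ⟨⟨l, b⟩, h⟩ := hfs i
    refine ⟨l, ?_⟩
    cases b <;> simp only [f, if_true, if_false, Bool.false_eq_true] at h
    · exact Or.inl h.symm
    · exact Or.inr h.symm
  have htrip : ∀ ix, PF ix → Trip q (fun l => x (ix l)) := by
    intro ix hix
    refine ⟨fun l => hx0 _, fun l => hxi _, fun l => hyi _, ?_, ?_⟩
    · intro Q hQ hqQ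
      obtain ⟨i, j, hij, hi, hj⟩ := two_units hP hI hp hrank hL Q hQ hqQ
      change Nin Q (x i) at hi
      change Nin Q (x j) at hj
      have hsqn : ∀ z : L, z ^ 2 = q → ¬ Nin Q z := by
        intro z hz h
        have h2 := nin_mul h h
        rw [← pow_two, hz] at h2
        exact not_nin_nat hqQ h2
      have hext : ∀ i, Nin Q (x i) → ∀ l, i = ix l ∨ i = m (ix l) →
          Nin Q (x (ix l)) ∨ Nin Q ((q : L) / x (ix l)) := by
        intro i hi l hl
        rcases hl with hl | hl
        · left; rw [← hl]; exact hi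
        · right
          rcases hmx (ix l) with h | ⟨h1, h2⟩
          · rw [← h, ← hl]; exact hi
          · rw [← hl] at h2
            exact (hsqn _ h2 hi).elim
      obtain ⟨l, hl⟩ := hcover ix hix i
      obtain ⟨l', hl'⟩ := hcover ix hix j
      refine ⟨l, l', ?_, hext i hi l hl, hext j hj l' hl'⟩
      rintro rfl
      have hpair : ∀ i, Nin Q (x i) → Nin Q (x (m i)) → False := by
        intro i h1 h2
        rcases hmx i with h | ⟨h3, h4⟩
        · rw [h] at h2
          exact excl hqL hQ hqQ (hx0 i) ⟨h1, h2⟩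
        · exact hsqn _ h3 h1
      rcases hl with hl | hl <;> rcases hl' with hl' | hl'
      · exact hij (hl.trans hl'.symm)
      · rw [← hl] at hl'
        rw [hl'] at hj
        exact hpair i hi hj
      · rw [← hl'] at hl
        rw [hl] at hi
        exact hpair j hj hi
      · exact hij (hl.trans hl'.symm)
    · intro l l' hll hint
      obtain ⟨n, hn0, hn1⟩ := kronecker hP hL hq hn (ix l) (ix l') hint
      exact (hix l l' hll).2 n hn0 hn1
  have hstar : ∀ ix, PF ix → IsIntegral ℤ ((∏ l, lam (ix l)) / (q : ℂ)) →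
      Star q (fun l => x (ix l)) := by
    intro ix hix hint
    refine star_of hq (htrip ix hix) ?_ ?_
    · rw [← hinj, map_div₀, map_prod, map_natCast]
      exact hint
    · rw [← hinj, map_div₀, map_prod, map_pow, map_natCast]
      have h1 : (q : ℂ) ^ 2 / ∏ l, algebraMap L ℂ (x (ix l)) =
          (starRingEnd ℂ) ((∏ l, lam (ix l)) / (q : ℂ)) := by
        rw [map_div₀, map_prod, map_natCast, ← Finset.prod_congr rfl fun l _ => hconj (ix l),
          Finset.prod_div_distrib, Finset.prod_const, Finset.card_univ, Fintype.card_fin,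
          Finset.prod_congr rfl fun l _ => hx (ix l)]
        have : (∏ l, lam (ix l)) ≠ 0 := Finset.prod_ne_zero_iff.2 fun l _ => hlam0 _
        field_simp
      rw [h1]
      exact hint.map (starRingEnd ℂ).toIntAlgHom
  -- values of the other triples
  have hval : ∀ ix, PF ix → Star q (fun l => x (ix l)) → ∀ i, ∃ l,
      x i = x (ix l) ∨ x i = (q : L) / x (ix l) := by
    intro ix hix hst i
    obtain ⟨l, hl⟩ := hcover ix hix i
    refine ⟨l, ?_⟩
    rcases hl with hl | hl
    · left; rw [hl]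
    · right
      rcases hmx (ix l) with h | ⟨h1, -⟩
      · rw [hl, h]
      · exact (trip_sq hq (htrip ix hix) hst l h1).elim
  have hneq : ∀ ix, PF ix → ∀ l l', l ≠ l' → x (ix l) * x (ix l') ≠ q := by
    intro ix hix l l' hll h
    refine (hix l l' hll).2 1 one_pos ?_
    have := congrArg (algebraMap L ℂ) h
    rw [map_mul, hx, hx, map_natCast] at this
    rw [this]
  by_cases hex : ∃ ix, PF ix ∧ IsIntegral ℤ ((∏ l, lam (ix l)) / (q : ℂ))
  swap
  · push Not at hex
    refine ⟨0, by positivity, fun ix hix hint => (hex ix hix hint).elim⟩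
  obtain ⟨ix, hix, hint⟩ := hex
  have ht := htrip ix hix
  have hst := hstar ix hix hint
  set β : L := ∏ l, x (ix l) with hβ
  have hβC : algebraMap L ℂ β = ∏ l, lam (ix l) := by
    rw [hβ, map_prod]
    exact Finset.prod_congr rfl fun l _ => hx _
  have hβ0 : β ≠ 0 := Finset.prod_ne_zero_iff.2 fun l _ => hx0 _
  -- Galois invariance
  have hσ : ∀ σ : L ≃ₐ[ℚ] L, σ β = β ∨ σ β = (q : L) ^ 3 / β := by
    intro σ
    have h1 := prod_eq_or hq ht hst (r := fun l => σ (x (ix l))) ?_ ?_ ?_
    · rw [← map_prod] at h1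
      exact h1
    · intro l
      obtain ⟨j, hj⟩ := hom_lam hP hL ((algebraMap L ℂ).comp σ.toRingEquiv.toRingHom) (ix l)
      have hj' : σ (x (ix l)) = x j := (algebraMap L ℂ).injective hj
      rw [hj']
      exact hval ix hix hst j
    · intro l l' hll
      constructor
      · intro h
        exact trip_ne hq ht hst hll (σ.injective h)
      · intro h
        apply hneq ix hix l l' hll
        apply σ.injective
        rw [map_mul, h, map_natCast]
    · intro Q hQ hqQ
      have hQ' : (Q.comap (σ.restrictScalars ℤ).mapIntegralClosure.toRingEquiv.toRingHom).IsPrime :=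
        Ideal.comap_isPrime _ _
      obtain ⟨l, l', hll, h1, h2⟩ := hst _ hQ' (by
        rw [Ideal.mem_comap, map_natCast]; exact hqQ)
      refine ⟨l, l', hll, (nin_comap σ Q _).1 h1, ?_⟩
      have := (nin_comap σ Q _).1 h2
      rwa [map_div₀, map_natCast] at this
  have hfix : ∀ σ : L ≃ₐ[ℚ] L, σ (β / q + (q : L) ^ 2 / β) = β / q + (q : L) ^ 2 / β := by
    intro σ
    rw [map_add, map_div₀, map_div₀, map_pow, map_natCast]
    rcases hσ σ with h | h
    · rw [h]
    · rw [h]
      field_simp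
      ring
  obtain ⟨r, hr⟩ := (IsGalois.mem_range_algebraMap_iff_fixed (F := ℚ) (E := L)
    (β / q + (q : L) ^ 2 / β)).2 hfix
  have hβi : IsIntegral ℤ (β / q) := by
    rw [← hinj, map_div₀, map_natCast, hβC]
    exact hint
  have hβi' : IsIntegral ℤ ((q : L) ^ 2 / β) := by
    rw [← hinj, map_div₀, map_pow, map_natCast, hβC]
    have h1 : (q : ℂ) ^ 2 / ∏ l, lam (ix l) =
          (starRingEnd ℂ) ((∏ l, lam (ix l)) / (q : ℂ)) := by
        rw [map_div₀, map_prod, map_natCast, ← Finset.prod_congr rfl fun l _ => hconj (ix l),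
          Finset.prod_div_distrib, Finset.prod_const, Finset.card_univ, Fintype.card_fin]
        have : (∏ l, lam (ix l)) ≠ 0 := Finset.prod_ne_zero_iff.2 fun l _ => hlam0 _
        field_simp
    rw [h1]
    exact hint.map (starRingEnd ℂ).toIntAlgHom
  have hri : IsIntegral ℤ r := by
    have h1 := hβi.add hβi'
    rw [← hr] at h1
    exact (isIntegral_algebraMap_iff (algebraMap ℚ L).injective).1 h1
  obtain ⟨t, htr⟩ := IsIntegrallyClosed.isIntegral_iff.1 hri
  have htL : (t : L) = β / q + (q : L) ^ 2 / β := by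
    rw [← hr, ← htr]
    simp
  have htC : (t : ℂ) * q = (∏ l, lam (ix l)) + (starRingEnd ℂ) (∏ l, lam (ix l)) := by
    have h1 := congrArg (algebraMap L ℂ) htL
    rw [map_intCast, map_add, map_div₀, map_div₀, map_pow, map_natCast, hβC] at h1
    have h2 : (starRingEnd ℂ) (∏ l, lam (ix l)) = (q : ℂ) ^ 3 / ∏ l, lam (ix l) := by
      rw [map_prod, ← Finset.prod_congr rfl fun l _ => hconj (ix l),
          Finset.prod_div_distrib, Finset.prod_const, Finset.card_univ, Fintype.card_fin]
    rw [h2, h1]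
    have : (∏ l, lam (ix l)) ≠ 0 := Finset.prod_ne_zero_iff.2 fun l _ => hlam0 _
    field_simp
  refine ⟨t, ?_, ?_⟩
  · -- the bound
    have h1 : ((t : ℝ) * q) = 2 * (∏ l, lam (ix l)).re := by
      have h2 := congrArg Complex.re htC
      have h3 : ((t : ℂ) * q).re = (t : ℝ) * q := by
        rw [show ((t : ℂ) * q) = (((t : ℝ) * q : ℝ) : ℂ) by push_cast; rfl, Complex.ofReal_re]
      rw [h3] at h2
      rw [h2, Complex.add_re, Complex.conj_re]
      ring
    have h4 : ‖∏ l, lam (ix l)‖ ^ 2 = (q : ℝ) ^ 3 := by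
      rw [norm_prod, ← Finset.prod_pow, Finset.prod_congr rfl fun l _ => hn (ix l)]
      simp
    have h5 : (∏ l, lam (ix l)).re ^ 2 ≤ (q : ℝ) ^ 3 := by
      rw [← h4, ← Complex.normSq_eq_norm_sq, Complex.normSq_apply]
      nlinarith [mul_self_nonneg (∏ l, lam (ix l)).im]
    have h6 : ((t : ℝ) * q) ^ 2 ≤ 4 * (q : ℝ) ^ 3 := by
      rw [h1]; nlinarith
    have hq1 : (0 : ℝ) < q := by exact_mod_cast Nat.pos_of_ne_zero hq
    have h7 : (t : ℝ) ^ 2 ≤ 4 * q := by
      have h8 : (t : ℝ) ^ 2 * (q : ℝ) ^ 2 ≤ (4 * q) * (q : ℝ) ^ 2 := by nlinarith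
      exact le_of_mul_le_mul_right h8 (by positivity)
    exact_mod_cast h7
  · intro ix' hix' hint'
    have hst' := hstar ix' hix' hint'
    have ht' := htrip ix' hix'
    have h1 := prod_eq_or hq ht hst (r := fun l => x (ix' l))
      (fun l => hval ix hix hst (ix' l))
      (fun l l' hll => ⟨trip_ne hq ht' hst' hll, hneq ix' hix' l l' hll⟩) hst'
    have h2 : (∏ l, x (ix' l)) ^ 2 - t * q * (∏ l, x (ix' l)) + (q : L) ^ 3 = 0 := by
      rw [htL]
      rcases h1 with h | h
      · rw [h, ← hβ]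
        field_simp
        ring
      · rw [h, ← hβ]
        field_simp
        ring
    have h3 := congrArg (algebraMap L ℂ) h2
    rw [map_zero, map_add, map_sub, map_pow, map_mul, map_mul, map_intCast, map_natCast,
      map_pow, map_natCast, map_prod] at h3
    exact h3

end

end Pool.Agent.Helper71.TfExotic
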