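import Mathlib

set_option autoImplicit false

namespace Pool.Agent.Helper71.Gordan

/-- Gordan's lemma for the monoid of exponent vectors and levels. -/
lemma gordan (d N : ℕ) (C : Finset (Fin d → ℕ)) : ∃ B : ℕ, ∀ (k : Fin d → ℕ) (ν : ℕ),
    (∀ c ∈ C, N * ν ≤ ∑ j, k j * c j) →
    ∃ L : List ((Fin d → ℕ) × ℕ), (∀ y ∈ L, ∑ j, y.1 j ≤ B ∧
      ∀ c ∈ C, N * y.2 ≤ ∑ j, y.1 j * c j) ∧ (L.map Prod.fst).sum = k ∧
      (L.map Prod.snd).sum = ν := by
  classical
  let M := (Fin d → ℕ) × ℕ × (C → ℕ)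
  let f : M →+ (C → ℕ) :=
    { toFun := fun x c => ∑ j, x.1 j * c.1 j
      map_zero' := by funext c; simp
      map_add' := by
        intro x y
        funext c
        change ∑ j, (x.1 j + y.1 j) * c.1 j = ∑ j, x.1 j * c.1 j + ∑ j, y.1 j * c.1 j
        simp only [add_mul, Finset.sum_add_distrib] }
  let g : M →+ (C → ℕ) :=
    { toFun := fun x c => N * x.2.1 + x.2.2 c
      map_zero' := by funext c; simp
      map_add' := by
        intro x y
        funext c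
        change N * (x.2.1 + y.2.1) + (x.2.2 c + y.2.2 c) =
          (N * x.2.1 + x.2.2 c) + (N * y.2.1 + y.2.2 c)
        ring }
  have hfg : (f.eqLocusM g).FG := AddSubmonoid.fg_eqLocusM f g
  obtain ⟨S, hS⟩ := hfg
  refine ⟨S.sup fun x => ∑ j, x.1 j, fun k ν h => ?_⟩
  let x : M := (k, ν, fun c => ∑ j, k j * c.1 j - N * ν)
  have hx : x ∈ f.eqLocusM g := by
    change f x = g x
    funext c
    change ∑ j, k j * c.1 j = N * ν + (∑ j, k j * c.1 j - N * ν)
    have := h c.1 c.2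
    omega
  rw [← hS] at hx
  obtain ⟨L, hL1, hL2⟩ := AddSubmonoid.exists_list_of_mem_closure hx
  refine ⟨L.map fun y => (y.1, y.2.1), ?_, ?_, ?_⟩
  · intro y hy
    obtain ⟨z, hz, rfl⟩ := List.mem_map.1 hy
    have hzS : z ∈ S := by simpa using hL1 z hz
    refine ⟨Finset.le_sup (f := fun x : M => ∑ j, x.1 j) hzS, fun c hc => ?_⟩
    have hz2 : z ∈ f.eqLocusM g := by
      rw [← hS]; exact AddSubmonoid.subset_closure hzS
    have h3 : f z = g z := hz2
    have h4 := congrFun h3 ⟨c, hc⟩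
    change ∑ j, z.1 j * c j = N * z.2.1 + z.2.2 ⟨c, hc⟩ at h4
    change N * z.2.1 ≤ ∑ j, z.1 j * c j
    omega
  · rw [List.map_map]
    have h3 := congrArg (fun z : M => z.1) hL2
    have h4 : (L.map fun z : M => z.1).sum = L.sum.1 :=
      (map_list_sum (AddMonoidHom.fst (Fin d → ℕ) (ℕ × (C → ℕ))) L).symm
    change (L.map fun z : M => z.1).sum = k
    rw [h4]; exact h3
  · rw [List.map_map]
    have h3 := congrArg (fun z : M => z.2.1) hL2
    have h4 : (L.map fun z : M => z.2.1).sum = L.sum.2.1 :=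
      (map_list_sum ((AddMonoidHom.fst ℕ (C → ℕ)).comp
        (AddMonoidHom.snd (Fin d → ℕ) (ℕ × (C → ℕ)))) L).symm
    change (L.map fun z : M => z.2.1).sum = ν
    rw [h4]; exact h3

/-- The bound can be chosen for all sets of vectors with bounded entries. -/
lemma gordan_uniform (d N : ℕ) : ∃ B : ℕ, ∀ C : Finset (Fin d → ℕ), (∀ c ∈ C, ∀ j, c j ≤ N) →
    ∀ (k : Fin d → ℕ) (ν : ℕ), (∀ c ∈ C, N * ν ≤ ∑ j, k j * c j) →
    ∃ L : List ((Fin d → ℕ) × ℕ), (∀ y ∈ L, ∑ j, y.1 j ≤ B ∧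
      ∀ c ∈ C, N * y.2 ≤ ∑ j, y.1 j * c j) ∧ (L.map Prod.fst).sum = k ∧
      (L.map Prod.snd).sum = ν := by
  classical
  choose B hB using gordan d N
  let F : Finset (Fin d → ℕ) := Fintype.piFinset fun _ => Finset.range (N + 1)
  refine ⟨F.powerset.sup B, fun C hC k ν h => ?_⟩
  obtain ⟨L, h1, h2, h3⟩ := hB C k ν h
  refine ⟨L, fun y hy => ⟨(h1 y hy).1.trans ?_, (h1 y hy).2⟩, h2, h3⟩
  refine Finset.le_sup (f := B) ?_
  rw [Finset.mem_powerset]
  intro c hc
  rw [Fintype.mem_piFinset]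
  intro j
  rw [Finset.mem_range]
  have := hC c hc j
  omega

end Pool.Agent.Helper71.Gordan
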