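import Mathlib
import Pool.Agent.Helper71.RotChain

/-!
Compositions of full twists which move some direction up and some direction down have no dyadic
fixed point.
-/

set_option autoImplicit false

namespace Pool.Agent.Helper71.Rot

section Naturality

variable {Γ Γ' : Type*} [Group Γ] [Group Γ']

/-- The frame before a letter, computed from the frame after it. -/
def pre (w : Bool × ℤ) (g : Γ × Γ) : Γ × Γ :=
  if w.1 then R ((R⁻¹ g).1, (R⁻¹ g).1 ^ w.2 * (R⁻¹ g).2) else (g.1, g.1 ^ w.2 * g.2)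

lemma V_pre (w : Bool × ℤ × ℤ) (g : Γ × Γ) {x : ℝ} (hx : Dy x) :
    V g ((lt3 w).low x) = V (pre (w.1, w.2.1) g) x := by
  rw [lt3_low]
  obtain ⟨sec, k, h⟩ := w
  cases sec with
  | false =>
    simp only [cs, Bool.false_eq_true, if_false, add_zero, sub_zero, pre]
    exact ((V_turn_all g.1 g.2 k hx).2).symm
  | true =>
    simp only [cs, if_true, pre]
    have h1 := V_shift ((R⁻¹ g).1, (R⁻¹ g).1 ^ k * (R⁻¹ g).2) 1 hx
    rw [zpow_one] at h1
    push_cast at h1
    rw [h1]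
    obtain ⟨h2, h3⟩ := V_turn_all (R⁻¹ g).1 (R⁻¹ g).2 k hx.add_one
    rw [h3]
    have h4 := V_shift g (-1) h2
    rw [zpow_neg_one] at h4
    push_cast at h4
    rw [← sub_eq_add_neg] at h4
    exact h4.symm

/-- The frame before the first `n` letters. -/
def preN (W : ℕ → Bool × ℤ × ℤ) : ℕ → Γ × Γ → Γ × Γ
  | 0, g => g
  | n + 1, g => preN W n (pre ((W n).1, (W n).2.1) g)

lemma V_preN (W : ℕ → Bool × ℤ × ℤ) (n : ℕ) (g : Γ × Γ) {x : ℝ} (hx : Dy x) :
    V g (LW W n x) = V (preN W n g) x := by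
  induction n generalizing g with
  | zero => rfl
  | succ n ih =>
    rw [LW_succ, V_pre (W n) g ((LW_dy W n).mpr hx), ih]
    rfl

end Naturality

section Abelian

/-- The determinant of two vectors. -/
def dt (v w : ℤ × ℤ) : ℤ := v.1 * w.2 - v.2 * w.1

/-- The multiplicative version of `ℤ × ℤ`. -/
abbrev Z2 : Type := Multiplicative (ℤ × ℤ)

/-- The vector of an element. -/
def vc (g : Z2) : ℤ × ℤ := Multiplicative.toAdd g

lemma vc_mul (g h : Z2) : vc (g * h) = vc g + vc h := rfl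

lemma vc_inv (g : Z2) : vc g⁻¹ = -vc g := rfl

lemma vc_zpow (g : Z2) (k : ℤ) : vc (g ^ k) = k • vc g := rfl

/-- The standard frame. -/
def st : Z2 × Z2 := (Multiplicative.ofAdd (1, 0), Multiplicative.ofAdd (0, 1))

lemma dt_R (g : Z2 × Z2) : dt (vc (R g).1) (vc (R g).2) = dt (vc g.1) (vc g.2) := by
  change dt (vc (g.1 * g.2⁻¹ * g.1⁻¹)) (vc g.1) = _
  rw [vc_mul, vc_mul, vc_inv, vc_inv]
  simp only [dt, Prod.fst_add, Prod.snd_add, Prod.fst_neg, Prod.snd_neg]
  ring

lemma dt_Rinv (g : Z2 × Z2) : dt (vc (R⁻¹ g).1) (vc (R⁻¹ g).2) = dt (vc g.1) (vc g.2) := by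
  have h := dt_R (R⁻¹ g)
  have h2 : R (R⁻¹ g) = g := R.apply_symm_apply g
  rw [h2] at h
  exact h.symm

lemma dt_turn (a u : Z2) (k : ℤ) : dt (vc a) (vc (a ^ k * u)) = dt (vc a) (vc u) := by
  rw [vc_mul, vc_zpow]
  simp only [dt, Prod.fst_add, Prod.snd_add, Prod.smul_fst, Prod.smul_snd, smul_eq_mul]
  ring

lemma dt_pre (w : Bool × ℤ) (g : Z2 × Z2) :
    dt (vc (pre w g).1) (vc (pre w g).2) = dt (vc g.1) (vc g.2) := by
  obtain ⟨sec, k⟩ := w
  cases sec with
  | false => exact dt_turn g.1 g.2 k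
  | true =>
    change dt (vc (R ((R⁻¹ g).1, (R⁻¹ g).1 ^ k * (R⁻¹ g).2)).1)
      (vc (R ((R⁻¹ g).1, (R⁻¹ g).1 ^ k * (R⁻¹ g).2)).2) = _
    rw [dt_R, ← dt_Rinv g]
    exact dt_turn _ _ k

lemma dt_preN (W : ℕ → Bool × ℤ × ℤ) (n : ℕ) (g : Z2 × Z2) :
    dt (vc (preN W n g).1) (vc (preN W n g).2) = dt (vc g.1) (vc g.2) := by
  induction n generalizing g with
  | zero => rfl
  | succ n ih =>
    change dt (vc (preN W n (pre ((W n).1, (W n).2.1) g)).1)
      (vc (preN W n (pre ((W n).1, (W n).2.1) g)).2) = _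
    rw [ih, dt_pre]

lemma dd_st : dd st = 1 := by
  simp only [dd, st]
  rfl

/-- The vectors at level `n`. -/
def xv (n : ℕ) (k : ℤ) : ℤ × ℤ := vc (X st n k)

lemma xv_even (n : ℕ) (k : ℤ) : xv (n + 1) (2 * k) = xv n k := by
  unfold xv
  rw [X_succ, ref_even]

lemma xv_odd (n : ℕ) (k : ℤ) : xv (n + 1) (2 * k + 1) = xv n (k + 1) + xv n k := by
  unfold xv
  rw [X_succ, ref_odd, vc_mul]

lemma xv_per (n : ℕ) (k : ℤ) : xv n (k + 2 ^ (n + 1)) = -xv n k := by
  have h := (X_sq st n).per k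
  rw [dd_st] at h
  unfold xv
  rw [← vc_inv, eq_inv_of_mul_eq_one_left h]

lemma dt_add_left (v v' w : ℤ × ℤ) : dt (v + v') w = dt v w + dt v' w := by
  simp only [dt, Prod.fst_add, Prod.snd_add]; ring

lemma dt_add_right (v w w' : ℤ × ℤ) : dt v (w + w') = dt v w + dt v w' := by
  simp only [dt, Prod.fst_add, Prod.snd_add]; ring

lemma dt_self (v : ℤ × ℤ) : dt v v = 0 := by
  simp only [dt]; ring

lemma dt_neg_left (v w : ℤ × ℤ) : dt (-v) w = -dt v w := by
  simp only [dt, Prod.fst_neg, Prod.snd_neg]; ring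

lemma G_st (k : ℤ) : dt (vc (G st (k + 1))) (vc (G st k)) = 1 := by
  have h1 : ∀ k : ℤ, dt (vc ((R ^ k) st).1) (vc ((R ^ k) st).2) = 1 := by
    intro k
    induction k with
    | zero => simp [st, dt, vc]
    | succ n ih => rw [add_comm, zpow_add, zpow_one, Equiv.Perm.mul_apply, dt_R, ih]
    | pred n ih =>
      rw [sub_eq_neg_add, zpow_add, zpow_neg_one, Equiv.Perm.mul_apply, dt_Rinv, ih]
  have h2 := h1 (k + 1)
  rw [R_pow_snd, add_sub_cancel_right] at h2
  exact h2

lemma dt_pos (n : ℕ) : ∀ k j : ℤ, 0 < j → j < 2 ^ (n + 1) → 0 < dt (xv n (k + j)) (xv n k) := by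
  induction n with
  | zero =>
    intro k j h1 h2
    have : j = 1 := by
      norm_num at h2
      omega
    subst this
    have := G_st k
    change 0 < dt (vc (X st 0 (k + 1))) (vc (X st 0 k))
    rw [X_zero, this]
    norm_num
  | succ n ih =>
    have hN : (0 : ℤ) < 2 ^ n := by positivity
    have hnn : ∀ i l : ℤ, i ≤ l → l - i ≤ 2 ^ (n + 1) → 0 ≤ dt (xv n l) (xv n i) := by
      intro i l h1 h2
      rcases lt_or_eq_of_le h1 with h3 | h3
      · rcases lt_or_eq_of_le h2 with h4 | h4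
        · have := ih i (l - i) (by omega) h4
          rw [add_sub_cancel] at this
          exact this.le
        · have : l = i + 2 ^ (n + 1) := by omega
          rw [this, xv_per, dt_neg_left, dt_self]
          norm_num
      · rw [h3, dt_self]
    have hp : ∀ i l : ℤ, i < l → l - i < 2 ^ (n + 1) → 0 < dt (xv n l) (xv n i) := by
      intro i l h1 h2
      have := ih i (l - i) (by omega) h2
      rwa [add_sub_cancel] at this
    intro k j h1 h2
    rw [pow_succ] at h2
    set N : ℤ := 2 ^ (n + 1) with hNdef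
    have hN2 : 2 ≤ N := by
      rw [hNdef, pow_succ]; omega
    obtain ⟨K, hK⟩ : ∃ K, K = k + j := ⟨_, rfl⟩
    rw [← hK]
    rcases Int.even_or_odd' k with ⟨i, hi | hi⟩ <;> rcases Int.even_or_odd' K with ⟨l, hl | hl⟩
    · rw [hl, hi, xv_even, xv_even]
      exact hp i l (by omega) (by omega)
    · rw [hl, hi, xv_even, xv_odd, dt_add_left]
      rcases lt_or_ge i l with h3 | h3
      · have := hp i l h3 (by omega)
        have := hnn i (l + 1) (by omega) (by omega)
        omega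
      · have h4 : l = i := by omega
        have := hp i (l + 1) (by omega) (by omega)
        have := hnn i l (by omega) (by omega)
        omega
    · rw [hl, hi, xv_even, xv_odd, dt_add_right]
      rcases lt_or_ge (l - i) N with h3 | h3
      · have := hp i l (by omega) h3
        have := hnn (i + 1) l (by omega) (by omega)
        omega
      · have := hp (i + 1) l (by omega) (by omega)
        have := hnn i l (by omega) (by omega)
        omega
    · rw [hl, hi, xv_odd, xv_odd, dt_add_left, dt_add_right, dt_add_right]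
      have := hp (i + 1) (l + 1) (by omega) (by omega)
      have := hp i l (by omega) (by omega)
      have := hnn i (l + 1) (by omega) (by omega)
      have := hnn (i + 1) l (by omega) (by omega)
      omega

lemma vec_pos {x y : ℝ} (hx : Dy x) (hy : Dy y) (h1 : x < y) (h2 : y < x + 2) :
    0 < dt (vc (V st y)) (vc (V st x)) := by
  obtain ⟨n₁, g1⟩ := hx.exists_ge
  obtain ⟨n₂, g2⟩ := hy.exists_ge
  obtain ⟨k₁, e1⟩ := g1 (n₁ + n₂) (by omega)
  obtain ⟨k₂, e2⟩ := g2 (n₁ + n₂) (by omega)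
  set n := n₁ + n₂
  rw [V_eq st e1, V_eq st e2]
  have hpos : (0 : ℝ) < 2 ^ n := by positivity
  have h3 : k₁ < k₂ := by
    rw [e1, e2, div_lt_div_iff_of_pos_right hpos] at h1
    exact_mod_cast h1
  have h4 : k₂ - k₁ < 2 ^ (n + 1) := by
    rw [e1, e2, ← sub_lt_iff_lt_add', ← sub_div, div_lt_iff₀ hpos] at h2
    have : ((k₂ - k₁ : ℤ) : ℝ) < ((2 ^ (n + 1) : ℤ) : ℝ) := by
      push_cast
      rw [pow_succ]
      linarith
    exact_mod_cast this
  have := dt_pos n k₁ (k₂ - k₁) (by omega) h4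
  rwa [add_sub_cancel] at this

/-- The endomorphism of `ℤ²` with given columns. -/
def lin (p q : ℤ × ℤ) : Z2 →* Z2 where
  toFun g := Multiplicative.ofAdd ((vc g).1 • p + (vc g).2 • q)
  map_one' := by
    change Multiplicative.ofAdd ((0 : ℤ) • p + (0 : ℤ) • q) = 1
    simp
  map_mul' g h := by
    rw [vc_mul, ← ofAdd_add]
    congr 1
    simp only [Prod.fst_add, Prod.snd_add, add_smul]
    abel

lemma alg_contra (p q r s v1 v2 a1 a2 b1 b2 z1 z2 : ℤ) (e1 : v1 = v1 * p + v2 * q)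
    (e4 : v2 = v1 * r + v2 * s) (hdet : p * s - r * q = 1)
    (p1 : 0 < a1 * (a1 * r + a2 * s) - a2 * (a1 * p + a2 * q))
    (p2 : 0 < (b1 * p + b2 * q) * b2 - (b1 * r + b2 * s) * b1)
    (p3 : 0 < z1 * v2 - z2 * v1) : False := by
  have tr : p + s = 2 := by
    have k1 : (p - 1) * v1 + q * v2 = 0 := by linarith
    have k2 : r * v1 + (s - 1) * v2 = 0 := by linarith
    have k3 : ((p - 1) * (s - 1) - q * r) * v1 = 0 := by linear_combination (s - 1) * k1 - q * k2
    have k4 : ((p - 1) * (s - 1) - q * r) * v2 = 0 := by linear_combination (p - 1) * k2 - r * k1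
    have k5 : (p - 1) * (s - 1) - q * r = 0 := by
      rcases mul_eq_zero.mp k3 with h | h
      · exact h
      · rcases mul_eq_zero.mp k4 with h' | h'
        · exact h'
        · exfalso
          rw [h, h'] at p3
          simp at p3
    linear_combination hdet - k5
  have key : (p - s) ^ 2 + 4 * (q * r) = 0 := by
    have h1 : (p - s) ^ 2 + 4 * (q * r) = (p + s) ^ 2 - 4 * (p * s - r * q) := by ring
    rw [h1, tr, hdet]; norm_num
  obtain ⟨A, hA⟩ : ∃ A, A = q * a2 ^ 2 + (p - s) * a1 * a2 - r * a1 ^ 2 := ⟨_, rfl⟩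
  obtain ⟨B, hB⟩ : ∃ B, B = q * b2 ^ 2 + (p - s) * b1 * b2 - r * b1 ^ 2 := ⟨_, rfl⟩
  have qa : A < 0 := by
    have : A = -(a1 * (a1 * r + a2 * s) - a2 * (a1 * p + a2 * q)) := by rw [hA]; ring
    omega
  have qb : 0 < B := by
    have : B = (b1 * p + b2 * q) * b2 - (b1 * r + b2 * s) * b1 := by rw [hB]; ring
    omega
  have sq1 : 4 * q * A = (2 * q * a2 + (p - s) * a1) ^ 2 := by
    rw [hA]; linear_combination (-a1 ^ 2) * key
  have sq2 : 4 * q * B = (2 * q * b2 + (p - s) * b1) ^ 2 := by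
    rw [hB]; linear_combination (-b1 ^ 2) * key
  have sr1 : -4 * r * A = (2 * r * a1 - (p - s) * a2) ^ 2 := by
    rw [hA]; linear_combination (-a2 ^ 2) * key
  have sr2 : -4 * r * B = (2 * r * b1 - (p - s) * b2) ^ 2 := by
    rw [hB]; linear_combination (-b2 ^ 2) * key
  have q0 : q = 0 := by
    rcases lt_trichotomy q 0 with h | h | h
    · have h1 : 4 * q * B < 0 := mul_neg_of_neg_of_pos (by omega) qb
      rw [sq2] at h1
      exact absurd h1 (not_lt.mpr (sq_nonneg _))
    · exact h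
    · have h1 : 4 * q * A < 0 := mul_neg_of_pos_of_neg (by omega) qa
      rw [sq1] at h1
      exact absurd h1 (not_lt.mpr (sq_nonneg _))
  have r0 : r = 0 := by
    rcases lt_trichotomy r 0 with h | h | h
    · have h1 : -4 * r * A < 0 := mul_neg_of_pos_of_neg (by omega) qa
      rw [sr1] at h1
      exact absurd h1 (not_lt.mpr (sq_nonneg _))
    · exact h
    · have h1 : -4 * r * B < 0 := mul_neg_of_neg_of_pos (by omega) qb
      rw [sr2] at h1
      exact absurd h1 (not_lt.mpr (sq_nonneg _))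
  have hps : p - s = 0 := by
    rw [q0, zero_mul, mul_zero, add_zero] at key
    exact pow_eq_zero_iff (two_ne_zero) |>.mp key
  rw [q0, r0, hps] at hA
  simp at hA
  omega

/-- A composition of full twists which moves some direction up and some direction down has no
dyadic fixed point. -/
theorem no_dy_fix (W : ℕ → Bool × ℤ × ℤ) (n : ℕ) {α x y : ℝ} (hα : Dy α) (hx : Dy x) (hy : Dy y)
    (h1 : LW W n α = α) (h2 : LW W n x < x) (h3 : y < LW W n y) : False := by
  set g := preN W n st with hg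
  set φ := lin (vc g.1) (vc g.2) with hφ
  have hstd : g = (φ st.1, φ st.2) := by
    apply Prod.ext
    · change g.1 = Multiplicative.ofAdd ((1 : ℤ) • vc g.1 + (0 : ℤ) • vc g.2)
      simp [vc]
    · change g.2 = Multiplicative.ofAdd ((0 : ℤ) • vc g.1 + (1 : ℤ) • vc g.2)
      simp [vc]
  have hdet : dt (vc g.1) (vc g.2) = 1 := by
    rw [hg, dt_preN]
    simp [dt, st, vc]
  have hV : ∀ z, Dy z → vc (V st (LW W n z)) = (vc (V st z)).1 • vc g.1 + (vc (V st z)).2 • vc g.2 := by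
    intro z hz
    have h5 : V g z = φ (V st z) := by
      rw [← V_map φ st z]
      exact congrArg (fun t => V t z) hstd
    rw [V_preN W n st hz, ← hg, h5]
    rfl
  -- the displacement is less than two
  have hdy := fun z : ℝ => LW_dy W n (x := z)
  have up2 : ∀ z, LW W n z < z + 2 := fun z => lt_two_of_fixed h1 z
  have low2 : ∀ z, z - 2 < LW W n z := by
    intro z
    set j : ℤ := ⌊(z - α) / 2⌋ with hj
    have g1 := Int.lt_floor_add_one ((z - α) / 2)
    have g2 := Int.floor_le ((z - α) / 2)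
    rw [← hj] at g1 g2
    have g3 : α + 2 * j ≤ z := by linarith
    have g4 := (LW_strict W n).monotone g3
    rw [LW_add_even, h1] at g4
    linarith
  obtain ⟨v, hv⟩ : ∃ v, v = vc (V st α) := ⟨_, rfl⟩
  obtain ⟨a, ha⟩ : ∃ v, v = vc (V st x) := ⟨_, rfl⟩
  obtain ⟨b, hb⟩ : ∃ v, v = vc (V st y) := ⟨_, rfl⟩
  obtain ⟨P, hP⟩ : ∃ v, v = vc g.1 := ⟨_, rfl⟩
  obtain ⟨Q, hQ⟩ : ∃ v, v = vc g.2 := ⟨_, rfl⟩
  have e1 := hV α hα
  have e2 := hV x hx
  have e3 := hV y hy
  rw [h1] at e1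
  have p1 := vec_pos ((hdy x).mpr hx) hx h2 (by linarith [low2 x])
  have p2 := vec_pos hy ((hdy y).mpr hy) h3 (up2 y)
  have p3 := vec_pos hα hα.add_one (by linarith) (by linarith)
  rw [e2] at p1
  rw [e3] at p2
  rw [← hv, ← hP, ← hQ] at e1
  rw [← ha, ← hP, ← hQ] at p1
  rw [← hb, ← hP, ← hQ] at p2
  rw [← hv] at p3
  rw [← hP, ← hQ] at hdet
  obtain ⟨p, r⟩ := P
  obtain ⟨q, s⟩ := Q
  obtain ⟨v1, v2⟩ := v
  obtain ⟨a1, a2⟩ := a
  obtain ⟨b1, b2⟩ := b
  generalize vc (V st (α + 1)) = z at p3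
  obtain ⟨z1, z2⟩ := z
  simp only [dt, Prod.smul_mk, smul_eq_mul, Prod.mk_add_mk, Prod.mk.injEq] at *
  obtain ⟨e1, e4⟩ := e1
  clear hV e2 e3 up2 low2 hdy h1 h2 h3
  exact alg_contra p q r s v1 v2 a1 a2 b1 b2 z1 z2 e1 e4 hdet p1 p2 p3

end Abelian

end Pool.Agent.Helper71.Rot
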