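import Mathlib
import Pool.Agent.Helper71.HypAb
import Pool.Agent.Helper71.RotEnd

/-!
Periodic chains of fractional twists for which the upper displacement map moves some direction
down and the lower displacement map moves some direction up: a point fixed by a moving direction
is fixed by everything.
-/

set_option autoImplicit false

namespace Pool.Agent.Helper71.Rot

open Pool.Agent.Helper31.OrderAct
open Pool.Agent.Helper31.TwistChain (dualHom)

lemma LW_le_HW {W : ℕ → Bool × ℤ × ℤ} (h : ∀ i, (W i).2.1 ≤ (W i).2.2) (k : ℕ) (x : ℝ) :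
    LW W k x ≤ HW W k x := by
  induction k with
  | zero => exact le_refl _
  | succ k ih =>
    rw [LW_succ, HW_succ]
    exact (lt3_low_le_upp (h k) _).trans ((lt3_upp_strict (W k)).monotone ih)

section Chains

variable {Ω : Type*} [CompleteLinearOrder Ω]

/-- A periodic chain of twists of hyperbolic type. -/
structure HChain (n : ℕ) (W : ℕ → Bool × ℤ × ℤ) (f : ℕ → (Ω ≃o Ω) × (Ω ≃o Ω)) : Prop where
  le : ∀ i, (W i).2.1 ≤ (W i).2.2
  step : ∀ i, StepP (W i).1 (W i).2.1 (W i).2.2 (f i) (f (i + 1))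
  back : ∀ i, StepP (W i).1 (-(W i).2.2) (-(W i).2.1) (f (i + 1)) (f i)
  perW : ∀ i, W (i + n) = W i
  perf : ∀ i, f (i + n) = f i
  dn : ∃ x, HW W n x < x
  up : ∃ y, y < LW W n y
  good : ∀ i, (W i).2.1 ≠ (W i).2.2 →
    -cs (W i).1 < LW (fun j => W (i + j)) n (-cs (W i).1) ∨
      HW (fun j => W (i + j)) n (-cs (W i).1) < -cs (W i).1

variable {n : ℕ} {W : ℕ → Bool × ℤ × ℤ} {f : ℕ → (Ω ≃o Ω) × (Ω ≃o Ω)} {s : Ω}

lemma HChain.shiftW (c : HChain n W f) : (fun j => W (n + j)) = W := by
  funext j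
  rw [add_comm, c.perW]

lemma HChain.rot (c : HChain n W f) (i : ℕ) :
    HChain n (fun j => W (i + j)) (fun j => f (i + j)) := by
  refine ⟨fun j => c.le _, fun j => c.step _, fun j => c.back _, fun j => ?_, fun j => ?_,
    ?_, ?_, ?_⟩
  · rw [← add_assoc, c.perW]
  · rw [← add_assoc, c.perf]
  · obtain ⟨x, hx⟩ := c.dn
    refine ⟨HW W i x, ?_⟩
    rw [← HW_add, add_comm i n, HW_add, c.shiftW]
    exact HW_strict W i hx
  · obtain ⟨x, hx⟩ := c.up
    refine ⟨LW W i x, ?_⟩
    rw [← LW_add, add_comm i n, LW_add, c.shiftW]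
    exact LW_strict W i hx
  · intro j hj
    have := c.good (i + j) hj
    have e : (fun l => W (i + (j + l))) = fun l => W (i + j + l) := by
      funext l
      rw [add_assoc]
    rw [e]
    exact this

lemma HChain.dual (c : HChain n W f) : HChain (Ω := Ωᵒᵈ) n W (fun i => dualF (f i)) :=
  ⟨c.le, fun i => (c.step i).dual, fun i => (c.back i).dual, c.perW, fun i => by
    change dualF (f (i + n)) = dualF (f i)
    rw [c.perf], c.dn, c.up, c.good⟩

lemma HChain.f_n (c : HChain n W f) : f n = f 0 := by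
  have := c.perf 0
  rwa [zero_add] at this

lemma HChain.dd_all (c : HChain n W f) (i : ℕ) : dd (f i) = dd (f 0) := by
  induction i with
  | zero => rfl
  | succ i ih => rw [(c.step i).toStep.dd, ih]

lemma HChain.low2 (c : HChain n W f) (x : ℝ) : x - 2 < LW W n x := by
  obtain ⟨α, hα⟩ := c.up
  set j : ℤ := ⌊(x - α) / 2⌋ with hj
  have g1 := Int.lt_floor_add_one ((x - α) / 2)
  have g2 := Int.floor_le ((x - α) / 2)
  rw [← hj] at g1 g2
  have g3 : α + 2 * j ≤ x := by linarith
  have g4 := (LW_strict W n).monotone g3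
  rw [LW_add_even] at g4
  linarith

lemma HW_add_even (W : ℕ → Bool × ℤ × ℤ) (k : ℕ) (j : ℤ) (x : ℝ) :
    HW W k (x + 2 * j) = HW W k x + 2 * j := by
  induction j with
  | zero => simp
  | succ n ih =>
    push_cast at ih ⊢
    rw [show x + 2 * ((n : ℝ) + 1) = x + 2 * n + 2 by ring, HW_add_two, ih]
    ring
  | pred n ih =>
    push_cast at ih ⊢
    have h1 := HW_add_two W k (x + 2 * (-(n : ℝ) - 1))
    rw [show x + 2 * (-(n : ℝ) - 1) + 2 = x + 2 * -(n : ℝ) by ring, ih] at h1
    linarith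

lemma HChain.upp2 (c : HChain n W f) (x : ℝ) : HW W n x < x + 2 := by
  obtain ⟨β, hβ⟩ := c.dn
  set j : ℤ := ⌊(x - β) / 2⌋ + 1 with hj
  have g1 := Int.lt_floor_add_one ((x - β) / 2)
  have g2 := Int.floor_le ((x - β) / 2)
  have hj' : (j : ℝ) = ⌊(x - β) / 2⌋ + 1 := by rw [hj]; push_cast; ring
  have g3 : x ≤ β + 2 * j := by rw [hj']; linarith
  have g4 := (HW_strict W n).monotone g3
  rw [HW_add_even] at g4
  rw [hj'] at g4
  linarith

/-- Tracking along the chain. -/
theorem HChain.track (c : HChain n W f) {φ : ℝ} (hd : s ≤ dd (f 0) s)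
    (ht : Tr (f 0) s φ) (i : ℕ) : ∃ φ', Tr (f i) s φ' ∧ LW W i φ ≤ φ' ∧ φ' ≤ HW W i φ := by
  induction i with
  | zero => exact ⟨φ, ht, le_refl _, le_refl _⟩
  | succ i ih =>
    obtain ⟨ψ, p1, p2, p3⟩ := ih
    obtain ⟨ψ', q1, q2, q3⟩ := (c.step i).toStep.track (by rw [c.dd_all]; exact hd) p1
    exact ⟨ψ', q1, ((lt3_low_strict (W i)).monotone p2).trans q2,
      q3.trans ((lt3_upp_strict (W i)).monotone p3)⟩

/-- A lower end lies between its lower and upper images. -/
theorem HChain.lower (c : HChain n W f) {φ : ℝ} (hd : s ≤ dd (f 0) s) (ht : Tr (f 0) s φ) :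
    LW W n φ ≤ φ ∧ φ ≤ HW W n φ := by
  obtain ⟨φ', p1, p2, p3⟩ := c.track hd ht n
  rw [c.f_n] at p1
  have h1 := c.low2 φ
  have h2 := c.upp2 φ
  have : φ' = φ := by
    by_contra hne
    rcases lt_or_gt_of_ne hne with h | h
    · exact spacing hd p1 ht h (by linarith)
    · exact spacing hd ht p1 h (by linarith)
  rw [this] at p2 p3
  exact ⟨p2, p3⟩

/-- The lower ends at two places of the chain correspond to each other. -/
theorem HChain.corr (c : HChain n W f) {ψ : ℝ} (hd : s ≤ dd (f 0) s) {i : ℕ} (hi : i ≤ n)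
    (ht : Tr (f i) s ψ) : ∃ φ, Tr (f 0) s φ ∧ LW (fun j => W (i + j)) (n - i) ψ ≤ φ ∧
      φ ≤ HW (fun j => W (i + j)) (n - i) ψ ∧ LW W i φ ≤ ψ ∧ ψ ≤ HW W i φ := by
  obtain ⟨φ, p1, p2, p3⟩ := (c.rot i).track (s := s) (φ := ψ)
    (by change s ≤ dd (f i) s; rw [c.dd_all]; exact hd) ht (n - i)
  rw [Nat.add_sub_cancel' hi, c.f_n] at p1
  obtain ⟨ψ', q1, q2, q3⟩ := c.track hd p1 i
  have h5 : (fun j => W (i + (n - i + j))) = W := by
    funext j
    rw [← add_assoc, Nat.add_sub_cancel' hi, add_comm, c.perW]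
  have e1 := LW_add (fun j => W (i + j)) (n - i) i ψ
  have e2 := HW_add (fun j => W (i + j)) (n - i) i ψ
  rw [Nat.sub_add_cancel hi, h5] at e1 e2
  have a1 := (LW_strict W i).monotone p2
  have a2 := (HW_strict W i).monotone p3
  rw [← e1] at a1
  rw [← e2] at a2
  have b1 := (c.rot i).low2 ψ
  have b2 := (c.rot i).upp2 ψ
  have hd' : s ≤ dd (f i) s := by rw [c.dd_all]; exact hd
  have : ψ' = ψ := by
    by_contra hne
    rcases lt_or_gt_of_ne hne with h | h
    · exact spacing hd' q1 ht h (by linarith)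
    · exact spacing hd' ht q1 h (by linarith)
  rw [this] at q2 q3
  exact ⟨φ, p1, p2, p3, q2, q3⟩

lemma HChain.fixAll (c : HChain n W f) {i : ℕ} (h : (f i).1 s = s ∧ (f i).2 s = s) (j : ℕ) :
    (f (i + j)).1 s = s ∧ (f (i + j)).2 s = s := by
  induction j with
  | zero => exact h
  | succ j ih => exact (c.step (i + j)).fix ih.1 ih.2

lemma HChain.fix_iff (c : HChain n W f) {i : ℕ} (hi : i ≤ n) :
    ((f i).1 s = s ∧ (f i).2 s = s) ↔ ((f 0).1 s = s ∧ (f 0).2 s = s) := by
  constructor
  · intro h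
    have := c.fixAll h (n - i)
    rwa [Nat.add_sub_cancel' hi, c.f_n] at this
  · intro h
    have := c.fixAll h i
    rwa [zero_add] at this

lemma dd_of_fix {g : (Ω ≃o Ω) × (Ω ≃o Ω)} {x : ℝ} (hx : Dy x) (hd : s ≤ dd g s)
    (hfix : V g x s = s) : s ≤ V g (x + 2) s := by
  have h1 := V_per g hx
  have h2 : V g (x + 2) (V g x s) = dd g s := congrArg (fun y : Ω ≃o Ω => y s) h1
  rw [hfix] at h2
  rw [h2]
  exact hd

/-- If a direction which is not between its two images fixes a point, then all directions up to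
the next turn move the point weakly up. -/
lemma HChain.nonneg (c : HChain n W f) (hd : s ≤ dd (f 0) s) {x : ℝ} (hx : Dy x)
    (hout : x < LW W n x ∨ HW W n x < x) (hfix : V (f 0) x s = s) :
    ∀ y, Dy y → x < y → y < x + 2 → s ≤ V (f 0) y s := by
  intro y hy h1 h2
  by_contra hn
  push Not at hn
  obtain ⟨φ, p1, p2, p3⟩ := arc hd hy hn
  have e1 : φ = x := by
    by_contra hne
    rcases lt_or_gt_of_ne hne with h | h
    · exact absurd (p3 x hx h (by linarith)) (by rw [hfix]; exact lt_irrefl _)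
    · exact absurd (p3 (x + 2) hx.add_two (by linarith) (by linarith))
        (not_lt.mpr (dd_of_fix hx hd hfix))
  rw [e1] at p3
  obtain ⟨g1, g2⟩ := c.lower hd p3
  rcases hout with h | h <;> linarith

lemma sep_of_nonneg {g : (Ω ≃o Ω) × (Ω ≃o Ω)} {x φ : ℝ}
    (h : ∀ y, Dy y → x < y → y < x + 2 → s ≤ V g y s) (ht : Tr g s φ) :
    x + 2 ≤ φ ∨ φ + 2 ≤ x := by
  by_contra hcon
  push Not at hcon
  obtain ⟨h1, h2⟩ := hcon
  obtain ⟨z, hz, z1, z2⟩ := exists_dy (show max φ x < min (φ + 2) (x + 2) from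
    max_lt (lt_min (by linarith) h1) (lt_min h2 (by linarith)))
  have b1 := (le_max_left _ _).trans_lt z1
  have b2 := (le_max_right _ _).trans_lt z1
  have b3 := z2.trans_le (min_le_left _ _)
  have b4 := z2.trans_le (min_le_right _ _)
  exact absurd (ht z hz b1 b3) (not_lt.mpr (h z hz b2 b4))

theorem HChain.fixLow (c : HChain n W f) (hd : s ≤ dd (f 0) s) {x : ℝ} (hx : Dy x)
    (hxl : x < LW W n x) (hfix : V (f 0) x s = s) : (f 0).1 s = s ∧ (f 0).2 s = s := by
  have hno := c.nonneg hd hx (Or.inl hxl) hfix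
  have hdy : ∀ i, Dy (LW W i x) := fun i => (LW_dy W i).mpr hx
  have hle : ∀ i, i ≤ n → ∀ y, Dy y → LW W i x < y → y < LW W i x + 2 → s ≤ V (f i) y s := by
    intro i hi y hy h1 h2
    by_contra hn
    push Not at hn
    obtain ⟨ψ, p1, p2, p3⟩ := arc (by rw [c.dd_all]; exact hd) hy hn
    obtain ⟨φ, q1, q2, q3, q4, q5⟩ := c.corr hd hi p3
    rcases sep_of_nonneg hno q1 with h3 | h3
    · have h4 := (LW_strict W i).monotone h3
      rw [LW_add_two] at h4
      linarith
    · have h4 : LW (fun j => W (i + j)) (n - i) (LW W i x) <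
          LW (fun j => W (i + j)) (n - i) (ψ + 2) := LW_strict _ _ (by linarith)
      rw [LW_add_two] at h4
      have h5 := LW_add W i (n - i) x
      rw [Nat.add_sub_cancel' hi] at h5
      rw [← h5] at h4
      linarith
  have hst : ∀ i, i ≤ n → V (f i) (LW W i x) s ≤ s := by
    intro i hi
    induction i with
    | zero => exact hfix.le
    | succ i ih => exact ((c.step i).dn (hdy i) (hle i (by omega))).1 (ih (by omega))
  have h1 := hst n le_rfl
  rw [c.f_n] at h1
  have h2 : LW W n x < x + 2 := (LW_le_HW c.le n x).trans_lt (c.upp2 x)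
  have h3 := le_antisymm h1 (hno _ (hdy n) hxl h2)
  obtain ⟨m, k, hk⟩ := hdy n
  rw [hk] at hxl h2 h3
  exact two_dir m (f 0) k x hx (by linarith) hxl hfix h3

theorem HChain.fixUpp (c : HChain n W f) (hd : s ≤ dd (f 0) s) {x : ℝ} (hx : Dy x)
    (hxh : HW W n x < x) (hfix : V (f 0) x s = s) : (f 0).1 s = s ∧ (f 0).2 s = s := by
  have hno := c.nonneg hd hx (Or.inr hxh) hfix
  choose p hp using fun i : ℕ => HW_surj (fun j => W (i + j)) (n - i) x
  have hnext : ∀ i, i < n → (lt3 (W i)).upp (p i) = p (i + 1) := by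
    intro i hi
    have h1 := HW_add (fun j => W (i + j)) 1 (n - (i + 1)) (p i)
    rw [show 1 + (n - (i + 1)) = n - i by omega, hp i] at h1
    have h2 : (fun j => W (i + (1 + j))) = fun j => W (i + 1 + j) := by
      funext j
      rw [add_assoc]
    rw [h2, ← hp (i + 1)] at h1
    exact ((HW_strict _ _).injective h1).symm
  have hprev : ∀ i, i < n →
      (Letter.mk (W i).1 (some (-(W i).2.2)) (some (-(W i).2.1))).low (p (i + 1)) = p i := by
    intro i hi
    rw [mk_low, ← hnext i hi, lt3_upp, sub_add_cancel, Tz_inv_apply, add_sub_cancel_right]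
  have hle : ∀ i, i ≤ n → ∀ y, Dy y → p i < y → y < p i + 2 → s ≤ V (f i) y s := by
    intro i hi y hy h1 h2
    by_contra hn
    push Not at hn
    obtain ⟨ψ, p1, p2, p3⟩ := arc (by rw [c.dd_all]; exact hd) hy hn
    obtain ⟨φ, q1, q2, q3, q4, q5⟩ := c.corr hd hi p3
    rcases sep_of_nonneg hno q1 with h3 | h3
    · have h4 : HW (fun j => W (i + j)) (n - i) (p i + 2) ≤
          HW (fun j => W (i + j)) (n - i) ψ := by
        rw [HW_add_two, hp i]
        linarith
      have h5 := (HW_strict _ _).le_iff_le.mp h4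
      linarith
    · have h4 : HW W i (φ + 2) ≤ HW W i x := (HW_strict W i).monotone h3
      rw [HW_add_two] at h4
      have h5 := HW_add W i (n - i) x
      rw [Nat.add_sub_cancel' hi] at h5
      have h6 : HW (fun j => W (i + j)) (n - i) (HW W i x) <
          HW (fun j => W (i + j)) (n - i) (p i) := by
        rw [← h5, hp i]
        exact hxh
      have h7 := (HW_strict _ _).lt_iff_lt.mp h6
      linarith
  have hst : ∀ j, j ≤ n → Dy (p (n - j)) ∧ V (f (n - j)) (p (n - j)) s ≤ s := by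
    intro j hj
    induction j with
    | zero =>
      have h1 : p n = x := by
        have := hp n
        rw [Nat.sub_self] at this
        exact this
      rw [Nat.sub_zero, h1, c.f_n]
      exact ⟨hx, hfix.le⟩
    | succ j ih =>
      obtain ⟨i1, i2⟩ := ih (by omega)
      have e1 : n - j = n - (j + 1) + 1 := by omega
      rw [e1] at i1 i2
      have h1 := ((c.back (n - (j + 1))).dn i1 (by
        have := hle (n - (j + 1) + 1) (by omega)
        exact this)).1 i2
      rw [hprev _ (by omega)] at h1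
      refine ⟨?_, h1⟩
      rw [← hprev _ (by omega), mk_low]
      exact (Tz_dy _ (i1.add_cs _)).sub_cs _
  obtain ⟨h0, h1⟩ := hst n le_rfl
  rw [Nat.sub_self] at h0 h1
  have h2 : HW W n (p 0) = x := by
    have := hp 0
    rw [Nat.sub_zero] at this
    have e : (fun j => W (0 + j)) = W := by
      funext j
      rw [zero_add]
    rwa [e] at this
  have h3 : x < p 0 := by
    rw [← (HW_strict W n).lt_iff_lt, h2]
    exact hxh
  have h4 : p 0 < x + 2 := by
    rw [← (HW_strict W n).lt_iff_lt, h2, HW_add_two]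
    have := c.low2 x
    have := LW_le_HW c.le n x
    linarith
  have h5 := le_antisymm h1 (hno _ h0 h3 h4)
  obtain ⟨m, k, hk⟩ := h0
  rw [hk] at h3 h4 h5
  exact two_dir m (f 0) k x hx (by linarith) h3 hfix h5

/-- A point fixed by a direction which is not between its two images is fixed by the frame. -/
theorem HChain.fix (c : HChain n W f) {x : ℝ} (hx : Dy x)
    (hout : x < LW W n x ∨ HW W n x < x) (hfix : V (f 0) x s = s) :
    (f 0).1 s = s ∧ (f 0).2 s = s := by
  rcases le_total s (dd (f 0) s) with hd | hd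
  · rcases hout with h | h
    · exact c.fixLow hd hx h hfix
    · exact c.fixUpp hd hx h hfix
  · have hd' : (show Ωᵒᵈ from s) ≤ dd (dualF (f 0)) (show Ωᵒᵈ from s) := by
      rw [dualF_dd]; exact hd
    have hf' : V (dualF (f 0)) x (show Ωᵒᵈ from s) = s := by
      rw [dualF_V]; exact hfix
    rcases hout with h | h
    · exact HChain.fixLow (Ω := Ωᵒᵈ) (s := s) c.dual hd' hx h hf'
    · exact HChain.fixUpp (Ω := Ωᵒᵈ) (s := s) c.dual hd' hx h hf'

end Chains

end Pool.Agent.Helper71.Rot
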