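import Mathlib
import Pool.Agent.Helper71.Hyp

/-!
The comparison of the elements attached to the directions before and after a twist, on a component
of the set of points which are not fixed.
-/

set_option autoImplicit false

namespace Pool.Agent.Helper71.Rot

open Pool.Agent.Helper31.OrderAct
open Pool.Agent.Helper31.TwistChain (dualHom)

section Piecewise

/-- The map which is `T ^ (χ m)` on the window `[2 m, 2 m + 2)`. -/
noncomputable def pw (χ : ℤ → ℤ) (x : ℝ) : ℝ := (T ^ χ ⌊x / 2⌋ : Equiv.Perm ℝ) x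

lemma Tz_in_window (k m : ℤ) {x : ℝ} (h1 : 2 * (m : ℝ) ≤ x) (h2 : x < 2 * m + 2) :
    2 * (m : ℝ) ≤ (T ^ k : Equiv.Perm ℝ) x ∧ (T ^ k : Equiv.Perm ℝ) x < 2 * m + 2 := by
  constructor
  · have := (Tz_strictMono k).monotone h1
    rwa [Tz_even] at this
  · have := Tz_strictMono k h2
    have e : (2 * (m : ℝ) + 2) = 2 * ((m + 1 : ℤ) : ℝ) := by push_cast; ring
    rw [e, Tz_even] at this
    rw [e]
    exact this

lemma pw_strict (χ : ℤ → ℤ) : StrictMono (pw χ) := by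
  intro x y h
  obtain ⟨a1, a2⟩ := window x
  obtain ⟨b1, b2⟩ := window y
  unfold pw
  rcases lt_or_ge ⌊x / 2⌋ ⌊y / 2⌋ with h1 | h1
  · have c1 := (Tz_in_window (χ ⌊x / 2⌋) _ a1 a2).2
    have c2 := (Tz_in_window (χ ⌊y / 2⌋) _ b1 b2).1
    have h2 : (⌊x / 2⌋ : ℝ) + 1 ≤ ⌊y / 2⌋ := by exact_mod_cast h1
    linarith
  · have h2 : ⌊x / 2⌋ = ⌊y / 2⌋ := le_antisymm (Int.floor_le_floor (by linarith)) h1
    rw [h2]
    exact Tz_strictMono _ h

lemma pw_surj (χ : ℤ → ℤ) (y : ℝ) : ∃ x, pw χ x = y := by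
  obtain ⟨b1, b2⟩ := window y
  set m := ⌊y / 2⌋
  obtain ⟨c1, c2⟩ := Tz_in_window (-χ m) m b1 b2
  refine ⟨(T ^ (-χ m) : Equiv.Perm ℝ) y, ?_⟩
  unfold pw
  rw [floor_window c1 c2, Tz_apply_inv]

lemma pw_dy (χ : ℤ → ℤ) {x : ℝ} (hx : Dy x) : Dy (pw χ x) := Tz_dy _ hx

lemma pw_dy_iff (χ : ℤ → ℤ) {x : ℝ} : Dy (pw χ x) ↔ Dy x := Tz_dy_iff _

end Piecewise

section Compare

variable {Ω : Type*} [CompleteLinearOrder Ω]

/-- The two ends are fixed. -/
def FixE (e e' : Ω) (x : Ω ≃o Ω) : Prop := x e = e ∧ x e' = e'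

lemma FixE.mul {e e' : Ω} {x y : Ω ≃o Ω} (hx : FixE e e' x) (hy : FixE e e' y) :
    FixE e e' (x * y) :=
  ⟨by rw [RelIso.mul_apply, hy.1, hx.1], by rw [RelIso.mul_apply, hy.2, hx.2]⟩

lemma FixE.inv {e e' : Ω} {x : Ω ≃o Ω} (hx : FixE e e' x) : FixE e e' x⁻¹ :=
  ⟨inv_fix hx.1, inv_fix hx.2⟩

lemma FixE.zpow {e e' : Ω} {x : Ω ≃o Ω} (hx : FixE e e' x) (k : ℤ) : FixE e e' (x ^ k) :=
  ⟨zpow_fix k hx.1, zpow_fix k hx.2⟩

lemma FixE.ev {e e' : Ω} {x y : Ω ≃o Ω} (hx : FixE e e' x) (hy : FixE e e' y) (l : List ℤ) :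
    FixE e e' (ev x y l) := by
  induction l with
  | nil => exact ⟨rfl, rfl⟩
  | cons i l ih => rw [ev_cons]; exact ((hx.zpow i).mul hy).mul ih

lemma FixE.mem {e e' z : Ω} {x : Ω ≃o Ω} (hx : FixE e e' x) (h1 : e < z) (h2 : z < e') :
    e < x z ∧ x z < e' := in_comp hx.1 hx.2 h1 h2

lemma ev_le {e e' : Ω} {b υ c : Ω ≃o Ω} (hb : FixE e e' b) (hυ : FixE e e' υ)
    (hc : ∀ z, e < z → z < e' → z ≤ c z) (l : List ℤ) {z : Ω} (h1 : e < z) (h2 : z < e') :
    ev b υ l z ≤ ev b (c * υ) l z := by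
  induction l with
  | nil => exact le_refl _
  | cons i l ih =>
    rw [ev_cons, ev_cons, RelIso.mul_apply, RelIso.mul_apply, RelIso.mul_apply, RelIso.mul_apply,
      RelIso.mul_apply]
    apply (b ^ i).monotone
    obtain ⟨g1, g2⟩ := (hb.ev hυ l).mem h1 h2
    obtain ⟨g3, g4⟩ := hυ.mem g1 g2
    exact (hc _ g3 g4).trans (c.monotone (υ.monotone ih))

/-- The comparison at one letter. -/
lemma letter_le {k h : ℤ} {g g' : (Ω ≃o Ω) × (Ω ≃o Ω)} (hl : LetP (SB k h) g g') {e e' : Ω}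
    (he : ∀ x, FixE e e' (V g x)) (he2 : ∀ j : ℤ, FixE e e' ((R ^ j) g).2) {χ : ℤ → ℤ}
    (hχ : ∀ m : ℤ, (χ m = k ∧ ∀ r, e < r → r < e' → V g (2 * ((m + 1 : ℤ) : ℝ)) r ≤ r) ∨
      (χ m = h ∧ ∀ r, e < r → r < e' → r ≤ V g (2 * ((m + 1 : ℤ) : ℝ)) r))
    {x : ℝ} (hx : Dy x) {r : Ω} (r1 : e < r) (r2 : r < e') :
    V g x r ≤ V g' (pw χ x) r := by
  obtain ⟨w1, w2⟩ := window x
  set m := ⌊x / 2⌋ with hm
  have hpw : pw χ x = (T ^ χ m : Equiv.Perm ℝ) x := rfl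
  rcases lt_or_eq_of_le w1 with w3 | w3
  · obtain ⟨μ, υ, hP, e1, e2, i, l, v1, v2⟩ := hl.window (SB.invRel k h) hx (χ m) (j := m + 1)
      (by push_cast; linarith) (by push_cast; linarith)
    set b := V g (2 * ((m + 1 : ℤ) : ℝ)) with hb
    have fb : FixE e e' b := he _
    have fυ : FixE e e' υ := by
      have := he2 (2 * (m + 1))
      rw [e1] at this
      exact this
    have fμ : FixE e e' μ := ⟨hP.1.fix fb.1, hP.1.fix fb.2⟩
    rw [hpw, v1, v2]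
    refine ev_le fb fυ ?_ (i :: l) r1 r2
    intro z z1 z2
    rcases hχ m with ⟨c1, c2⟩ | ⟨c1, c2⟩
    · rw [c1]
      obtain ⟨y1, y2⟩ := fμ.inv.mem z1 z2
      have h1 := ((hP.1.lower k rfl).dn _ (c2 _ y1 y2)).1
      rw [RelIso.mul_apply, RelIso.apply_inv_self] at h1
      have h2 := (b ^ k).monotone h1
      have h3 : (b ^ k) ((b ^ (-k)) z) = z := by
        rw [← RelIso.mul_apply, ← zpow_add, add_neg_cancel, zpow_zero]
        rfl
      rw [h3] at h2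
      exact h2
    · rw [c1]
      exact ((hP.1.upper h rfl).up _ (c2 _ z1 z2)).1
  · rw [hpw, ← w3, Tz_even]
    rw [LetP.even (SB.invRel k h) hl m]

lemma V_even_fst {Γ : Type*} [Group Γ] (g : Γ × Γ) (j : ℤ) : V g (2 * j) = ((R ^ (2 * j)) g).1 := by
  have h0 : Dy (0 : ℝ) := by simpa using Dy.int 0
  have := V_even_shift g j h0
  rw [zero_add] at this
  rw [← this]
  exact V_zero ((R ^ (2 * j)) g).1 ((R ^ (2 * j)) g).2

lemma fst_R2 {Γ : Type*} [Group Γ] (g : Γ × Γ) (j : ℤ) : ∃ q : Γ,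
    (∃ p : Γ × Γ, p = (R ^ (2 * j)) g ∧ q = p.1 * p.2⁻¹ * p.1⁻¹) ∧
    V g (2 * ((j + 1 : ℤ) : ℝ)) = q * (V g (2 * j))⁻¹ * q⁻¹ := by
  refine ⟨_, ⟨_, rfl, rfl⟩, ?_⟩
  rw [V_even_fst, V_even_fst, show (2 : ℤ) * (j + 1) = 1 + (1 + 2 * j) by ring, zpow_add, zpow_add,
    zpow_one, Equiv.Perm.mul_apply, Equiv.Perm.mul_apply]
  rfl

/-- The signs of the directions of a curve alternate. -/
lemma sign_step {g : (Ω ≃o Ω) × (Ω ≃o Ω)} {e e' : Ω} (he : ∀ j : ℤ, FixE e e' ((R ^ j) g).1)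
    (he2 : ∀ j : ℤ, FixE e e' ((R ^ j) g).2) (j : ℤ) :
    ((∀ r, e < r → r < e' → V g (2 * j) r < r) →
      ∀ r, e < r → r < e' → r < V g (2 * ((j + 1 : ℤ) : ℝ)) r) ∧
    ((∀ r, e < r → r < e' → r < V g (2 * j) r) →
      ∀ r, e < r → r < e' → V g (2 * ((j + 1 : ℤ) : ℝ)) r < r) ∧
    ((∀ r, e < r → r < e' → V g (2 * ((j + 1 : ℤ) : ℝ)) r < r) →
      ∀ r, e < r → r < e' → r < V g (2 * j) r) ∧
    ((∀ r, e < r → r < e' → r < V g (2 * ((j + 1 : ℤ) : ℝ)) r) →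
      ∀ r, e < r → r < e' → V g (2 * j) r < r) := by
  obtain ⟨q, ⟨p, hp, hq⟩, h⟩ := fst_R2 g j
  have fq : FixE e e' q := by
    rw [hq, hp]
    exact ((he _).mul (he2 _).inv).mul (he _).inv
  have h' : V g (2 * j) = q⁻¹ * (V g (2 * ((j + 1 : ℤ) : ℝ)))⁻¹ * q := by
    rw [h]; group
  refine ⟨?_, ?_, ?_, ?_⟩
  · intro hs r r1 r2
    obtain ⟨y1, y2⟩ := fq.inv.mem r1 r2
    have h1 := q.strictMono (inv_gt_of_lt (hs _ y1 y2))
    rw [h, RelIso.mul_apply, RelIso.mul_apply]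
    rwa [RelIso.apply_inv_self] at h1
  · intro hs r r1 r2
    obtain ⟨y1, y2⟩ := fq.inv.mem r1 r2
    have h1 := q.strictMono (inv_lt_of_gt (hs _ y1 y2))
    rw [h, RelIso.mul_apply, RelIso.mul_apply]
    rwa [RelIso.apply_inv_self] at h1
  · intro hs r r1 r2
    obtain ⟨y1, y2⟩ := fq.mem r1 r2
    have h1 := (q⁻¹).strictMono (inv_gt_of_lt (hs _ y1 y2))
    rw [h', RelIso.mul_apply, RelIso.mul_apply]
    rwa [RelIso.inv_apply_self] at h1
  · intro hs r r1 r2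
    obtain ⟨y1, y2⟩ := fq.mem r1 r2
    have h1 := (q⁻¹).strictMono (inv_lt_of_gt (hs _ y1 y2))
    rw [h', RelIso.mul_apply, RelIso.mul_apply]
    rwa [RelIso.inv_apply_self] at h1

/-- All directions of a curve have a sign if one has. -/
lemma sign_all {g : (Ω ≃o Ω) × (Ω ≃o Ω)} {e e' : Ω} (he : ∀ j : ℤ, FixE e e' ((R ^ j) g).1)
    (he2 : ∀ j : ℤ, FixE e e' ((R ^ j) g).2)
    (h0 : (∀ r, e < r → r < e' → r < V g 0 r) ∨ (∀ r, e < r → r < e' → V g 0 r < r)) (j : ℤ) :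
    (∀ r, e < r → r < e' → r < V g (2 * j) r) ∨ (∀ r, e < r → r < e' → V g (2 * j) r < r) := by
  induction j with
  | zero => simpa using h0
  | succ j ih =>
    obtain ⟨a1, a2, _, _⟩ := sign_step he he2 (j : ℤ)
    rcases ih with h | h
    · exact Or.inr (a2 h)
    · exact Or.inl (a1 h)
  | pred j ih =>
    obtain ⟨_, _, a3, a4⟩ := sign_step he he2 (-(j : ℤ) - 1)
    rw [sub_add_cancel] at a3 a4
    rcases ih with h | h
    · exact Or.inr (a4 h)
    · exact Or.inl (a3 h)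

end Compare

section Maps

variable {Ω : Type*} [CompleteLinearOrder Ω] {n : ℕ} {W : ℕ → Bool × ℤ × ℤ}
  {f : ℕ → (Ω ≃o Ω) × (Ω ≃o Ω)} {s : Ω} {e e' : Ω}

lemma fixE_R {g : (Ω ≃o Ω) × (Ω ≃o Ω)} (he : g.1 e = e ∧ g.2 e = e)
    (he' : g.1 e' = e' ∧ g.2 e' = e') (j : ℤ) :
    FixE e e' ((R ^ j) g).1 ∧ FixE e e' ((R ^ j) g).2 :=
  ⟨⟨(fix_rot j he.1 he.2).1, (fix_rot j he'.1 he'.2).1⟩,
    ⟨(fix_rot j he.1 he.2).2, (fix_rot j he'.1 he'.2).2⟩⟩

/-- Signs on the component. -/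
lemma HChain.sign (c : HChain n W f) (hno : ∀ r, e < r → r < e' → ¬ ((f 0).1 r = r ∧ (f 0).2 r = r))
    {i : ℕ} (hi : i ≤ n) {x : ℝ} (hx : Dy x)
    (hout : x < LW (fun j => W (i + j)) n x ∨ HW (fun j => W (i + j)) n x < x) :
    (∀ r, e < r → r < e' → r < V (f i) x r) ∨ (∀ r, e < r → r < e' → V (f i) x r < r) := by
  apply Glue.const_sign
  intro r r1 r2 hr
  have h2 := (c.rot i).fix (s := r) hx hout hr
  exact hno r r1 r2 ((c.fix_iff hi).mp h2)

/-- One letter: there is a map between the two displacement maps along which the elements grow. -/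
lemma HChain.letter (c : HChain n W f) (he : (f 0).1 e = e ∧ (f 0).2 e = e)
    (he' : (f 0).1 e' = e' ∧ (f 0).2 e' = e')
    (hno : ∀ r, e < r → r < e' → ¬ ((f 0).1 r = r ∧ (f 0).2 r = r)) {i : ℕ} (hi : i ≤ n) :
    ∃ χ : ℤ → ℤ, (∀ m, (W i).2.1 ≤ χ m ∧ χ m ≤ (W i).2.2) ∧
      ∀ x, Dy x → ∀ r, e < r → r < e' →
        V (f i) x r ≤ V (f (i + 1)) (pw χ (x + cs (W i).1) - cs (W i).1) r := by
  have hei := (c.fix_iff (s := e) hi).mpr he
  have hei' := (c.fix_iff (s := e') hi).mpr he'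
  set sec := (W i).1 with hsec
  have g1 := fix_Fr (sec := sec) hei.1 hei.2
  have g2 := fix_Fr (sec := sec) hei'.1 hei'.2
  have gR := fixE_R g1 g2
  have gV : ∀ x, FixE e e' (V (Fr sec (f i)) x) := fun x =>
    ⟨V_fix g1.1 g1.2 x, V_fix g2.1 g2.2 x⟩
  have main : ∀ χ : ℤ → ℤ,
      (∀ m : ℤ, (χ m = (W i).2.1 ∧
        ∀ r, e < r → r < e' → V (Fr sec (f i)) (2 * ((m + 1 : ℤ) : ℝ)) r ≤ r) ∨
        (χ m = (W i).2.2 ∧
        ∀ r, e < r → r < e' → r ≤ V (Fr sec (f i)) (2 * ((m + 1 : ℤ) : ℝ)) r)) →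
      ∀ x, Dy x → ∀ r, e < r → r < e' →
        V (f i) x r ≤ V (f (i + 1)) (pw χ (x + cs sec) - cs sec) r := by
    intro χ hχ x hx r r1 r2
    have h1 := letter_le (c.step i) gV (fun j => (gR j).2) hχ (hx.add_cs sec) r1 r2
    rw [V_Fr sec (f i) (hx.add_cs sec), add_sub_cancel_right,
      V_Fr sec (f (i + 1)) (pw_dy χ (hx.add_cs sec))] at h1
    exact h1
  by_cases hkh : (W i).2.1 = (W i).2.2
  · -- an integral letter: no sign is needed
    refine ⟨fun _ => (W i).2.1, fun m => ⟨le_refl _, c.le i⟩, ?_⟩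
    intro x hx r r1 r2
    obtain ⟨m, hP, e1, e2⟩ := c.step i
    set g := Fr sec (f i) with hg
    set g' := Fr sec (f (i + 1)) with hg'
    obtain ⟨t1, t2⟩ := V_turn_all g.1 (m⁻¹ * g.2) (W i).2.1 (hx.add_cs sec)
    have h3 : g' = (g.1, m⁻¹ * g.2) := Prod.ext e1 e2
    rw [← h3] at t2
    have h4 : V (f (i + 1)) (pw (fun _ => (W i).2.1) (x + cs sec) - cs sec) =
        V g' ((T ^ (W i).2.1 : Equiv.Perm ℝ) (x + cs sec)) := by
      rw [hg', V_Fr sec (f (i + 1)) t1]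
      rfl
    have h5 : V (f i) x = V g (x + cs sec) := by
      rw [hg, V_Fr sec (f i) (hx.add_cs sec), add_sub_cancel_right]
    rw [h4, h5, ← t2]
    -- `m = a ^ k`
    have hm : g.1 ^ (W i).2.1 * (m⁻¹ * g.2) = g.2 := by
      have hc : Commute m g.1 := hP.1.comm
      have hall : ∀ z : Ω, (g.1 ^ (-(W i).2.1) * m) z = z := by
        intro z
        have h6 := hP.1.lower _ rfl
        have h7 := hP.1.upper _ rfl
        rw [← hkh] at h7
        have e3 : g.1 ^ (W i).2.1 * m⁻¹ = (g.1 ^ (-(W i).2.1) * m)⁻¹ := by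
          rw [mul_inv_rev, zpow_neg, inv_inv, (hc.zpow_right _).inv_left.eq]
        rw [e3] at h7
        rcases le_total z (g.1 z) with hz | hz
        · have a1 := (h6.up z hz).1
          have a2 := (h7.up z hz).1
          have a3 := (g.1 ^ (-(W i).2.1) * m).monotone a2
          rw [RelIso.apply_inv_self] at a3
          exact le_antisymm a3 a1
        · have a1 := (h6.dn z hz).1
          have a2 := (h7.dn z hz).1
          have a3 := (g.1 ^ (-(W i).2.1) * m).monotone a2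
          rw [RelIso.apply_inv_self] at a3
          exact le_antisymm a1 a3
      have h8 : g.1 ^ (-(W i).2.1) * m = 1 := by
        ext z
        exact hall z
      have h9 : m = g.1 ^ (W i).2.1 := by
        rw [zpow_neg, inv_mul_eq_one] at h8
        exact h8.symm
      rw [h9]
      group
    rw [hm]
  · have hg0 := c.good i hkh
    have hdc : Dy (-cs sec) := by
      have := (Dy.int 0).sub_cs sec
      simpa using this
    have hs0 : (∀ r, e < r → r < e' → r < V (Fr sec (f i)) 0 r) ∨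
        (∀ r, e < r → r < e' → V (Fr sec (f i)) 0 r < r) := by
      have h1 := c.sign hno hi hdc hg0
      have h2 : V (Fr sec (f i)) 0 = V (f i) (-cs sec) := by
        have := V_Fr sec (f i) (Dy.int 0)
        simpa using this
      rw [h2]
      exact h1
    have hall := sign_all (fun j => (gR j).1) (fun j => (gR j).2) hs0
    classical
    let χ : ℤ → ℤ := fun m =>
      if ∀ r, e < r → r < e' → V (Fr sec (f i)) (2 * ((m + 1 : ℤ) : ℝ)) r < r
        then (W i).2.1 else (W i).2.2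
    refine ⟨χ, ?_, main χ ?_⟩
    · intro m
      change (W i).2.1 ≤ (if _ then _ else _) ∧ (if _ then _ else _) ≤ (W i).2.2
      split_ifs
      · exact ⟨le_refl _, c.le i⟩
      · exact ⟨c.le i, le_refl _⟩
    · intro m
      by_cases h : ∀ r, e < r → r < e' → V (Fr sec (f i)) (2 * ((m + 1 : ℤ) : ℝ)) r < r
      · left
        exact ⟨if_pos h, fun r r1 r2 => (h r r1 r2).le⟩
      · right
        refine ⟨if_neg h, fun r r1 r2 => ?_⟩
        rcases hall (m + 1) with h1 | h1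
        · exact (h1 r r1 r2).le
        · exact absurd h1 h

/-- Composition of piecewise maps. -/
noncomputable def pwN (W : ℕ → Bool × ℤ × ℤ) (χ : ℕ → ℤ → ℤ) : ℕ → ℝ → ℝ
  | 0, x => x
  | n + 1, x => pw (χ n) (pwN W χ n x + cs (W n).1) - cs (W n).1

lemma pwN_strict (χ : ℕ → ℤ → ℤ) (k : ℕ) : StrictMono (pwN W χ k) := by
  induction k with
  | zero => exact strictMono_id
  | succ k ih =>
    intro x y h
    have := pw_strict (χ k) (show pwN W χ k x + cs (W k).1 < pwN W χ k y + cs (W k).1 by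
      have := ih h; linarith)
    change pw _ _ - _ < pw _ _ - _
    linarith

lemma pwN_surj (χ : ℕ → ℤ → ℤ) (k : ℕ) (y : ℝ) : ∃ x, pwN W χ k x = y := by
  induction k generalizing y with
  | zero => exact ⟨y, rfl⟩
  | succ k ih =>
    obtain ⟨z, hz⟩ := pw_surj (χ k) (y + cs (W k).1)
    obtain ⟨x, hx⟩ := ih (z - cs (W k).1)
    refine ⟨x, ?_⟩
    change pw _ (_ + _) - _ = _
    rw [hx, sub_add_cancel, hz, add_sub_cancel_right]

lemma pwN_dy (χ : ℕ → ℤ → ℤ) (k : ℕ) {x : ℝ} (hx : Dy x) : Dy (pwN W χ k x) := by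
  induction k with
  | zero => exact hx
  | succ k ih => exact (pw_dy (χ k) (ih.add_cs _)).sub_cs _

lemma pwN_dy_iff (χ : ℕ → ℤ → ℤ) (k : ℕ) {x : ℝ} : Dy (pwN W χ k x) ↔ Dy x := by
  refine ⟨fun h => ?_, pwN_dy χ k⟩
  induction k with
  | zero => exact h
  | succ k ih =>
    have h1 : Dy (pw (χ k) (pwN W χ k x + cs (W k).1) - cs (W k).1) := h
    have h2 := h1.add_cs (W k).1
    rw [sub_add_cancel, pw_dy_iff] at h2
    have h3 := h2.sub_cs (W k).1
    rw [add_sub_cancel_right] at h3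
    exact ih h3

/-- Each value of the composition is a value of a composition of full twists. -/
lemma pwN_local {χ : ℕ → ℤ → ℤ} (hχ : ∀ i m, (W i).2.1 ≤ χ i m ∧ χ i m ≤ (W i).2.2) (k : ℕ)
    (x : ℝ) : ∃ E : ℕ → ℤ, (∀ i, (W i).2.1 ≤ E i ∧ E i ≤ (W i).2.2) ∧
      ∀ j, j ≤ k → pwN W χ j x = LW (fun i => ((W i).1, E i, E i)) j x := by
  refine ⟨fun i => χ i ⌊(pwN W χ i x + cs (W i).1) / 2⌋, fun i => hχ i _, ?_⟩
  intro j hj
  induction j with
  | zero => rfl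
  | succ j ih =>
    rw [LW_succ, ← ih (by omega), lt3_low]
    rfl

lemma LW_between {E : ℕ → ℤ} (hE : ∀ i, (W i).2.1 ≤ E i ∧ E i ≤ (W i).2.2) (k : ℕ) (x : ℝ) :
    LW W k x ≤ LW (fun i => ((W i).1, E i, E i)) k x ∧
      LW (fun i => ((W i).1, E i, E i)) k x ≤ HW W k x := by
  induction k with
  | zero => exact ⟨le_refl _, le_refl _⟩
  | succ k ih =>
    rw [LW_succ, LW_succ, HW_succ]
    constructor
    · refine le_trans ?_ ((lt3_low_strict _).monotone ih.1)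
      rw [lt3_low, lt3_low]
      have := Tz_le (hE k).1 (LW W k x + cs (W k).1)
      linarith
    · refine le_trans ((lt3_low_strict _).monotone ih.2) ?_
      rw [lt3_low, lt3_upp]
      have := Tz_le (hE k).2 (HW W k x + cs (W k).1)
      linarith

/-- The return map: a homeomorphism between the two displacement maps along which the elements
grow on the component, without dyadic fixed points. -/
theorem HChain.map (c : HChain n W f) (he : (f 0).1 e = e ∧ (f 0).2 e = e)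
    (he' : (f 0).1 e' = e' ∧ (f 0).2 e' = e')
    (hno : ∀ r, e < r → r < e' → ¬ ((f 0).1 r = r ∧ (f 0).2 r = r)) :
    ∃ M : ℝ → ℝ, StrictMono M ∧ (∀ y, ∃ x, M x = y) ∧ (∀ x, Dy (M x) ↔ Dy x) ∧
      (∀ x, Dy x → M x ≠ x) ∧ (∀ x, LW W n x ≤ M x ∧ M x ≤ HW W n x) ∧
      ∀ x, Dy x → ∀ r, e < r → r < e' → V (f 0) x r ≤ V (f 0) (M x) r := by
  have hex : ∀ i : ℕ, ∃ χ : ℤ → ℤ, (∀ m, (W i).2.1 ≤ χ m ∧ χ m ≤ (W i).2.2) ∧
      (i ≤ n → ∀ x, Dy x → ∀ r, e < r → r < e' →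
        V (f i) x r ≤ V (f (i + 1)) (pw χ (x + cs (W i).1) - cs (W i).1) r) := by
    intro i
    by_cases hi : i ≤ n
    · obtain ⟨χ, h1, h2⟩ := c.letter he he' hno hi
      exact ⟨χ, h1, fun _ => h2⟩
    · exact ⟨fun _ => (W i).2.1, fun m => ⟨le_refl _, c.le i⟩, fun h => absurd h hi⟩
  choose χ h1 h2 using hex
  refine ⟨pwN W χ n, pwN_strict χ n, pwN_surj χ n, fun x => pwN_dy_iff χ n, ?_, ?_, ?_⟩
  · intro x hx hfix
    obtain ⟨E, hE, hloc⟩ := pwN_local h1 n x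
    rw [hloc n le_rfl] at hfix
    obtain ⟨x₀, hx₀⟩ := c.dn
    obtain ⟨y₀, hy₀⟩ := c.up
    obtain ⟨x₁, d1, a1, a2⟩ := exists_dy hx₀
    obtain ⟨y₁, d2, b1, b2⟩ := exists_dy hy₀
    refine no_dy_fix (fun i => ((W i).1, E i, E i)) n hx d1 d2 hfix ?_ ?_
    · exact ((LW_between hE n x₁).2.trans ((HW_strict W n).monotone a2.le)).trans_lt a1
    · exact (b2.trans_le ((LW_strict W n).monotone b1.le)).trans_le (LW_between hE n y₁).1
  · intro x
    obtain ⟨E, hE, hloc⟩ := pwN_local h1 n x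
    rw [hloc n le_rfl]
    exact LW_between hE n x
  · intro x hx r r1 r2
    have key : ∀ j, j ≤ n → V (f 0) x r ≤ V (f j) (pwN W χ j x) r := by
      intro j hj
      induction j with
      | zero => exact le_refl _
      | succ j ih =>
        exact (ih (by omega)).trans (h2 j (by omega) _ (pwN_dy χ j hx) r r1 r2)
    have := key n le_rfl
    rwa [c.f_n] at this

end Maps

end Pool.Agent.Helper71.Rot
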