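import Mathlib
import Pool.Agent.Helper71.HypMap

/-!
A periodic chain of hyperbolic type fixes every point.
-/

set_option autoImplicit false

namespace Pool.Agent.Helper71.Rot

open Pool.Agent.Helper31.OrderAct
open Pool.Agent.Helper31.TwistChain (dualHom)

section Cells

variable {Ω : Type*} [CompleteLinearOrder Ω] {g : (Ω ≃o Ω) × (Ω ≃o Ω)} {e e' s : Ω}

/-- Inside a cell whose ends move everything down, the elements are below the middle element. -/
lemma deep_cell (he : g.1 e = e ∧ g.2 e = e) (he' : g.1 e' = e' ∧ g.2 e' = e') {n : ℕ} {k : ℤ}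
    (hA : ∀ r, e < r → r < e' → X g n k r ≤ r) (hB : ∀ r, e < r → r < e' → X g n (k + 1) r ≤ r)
    (m : ℕ) : ∀ K : ℤ, 2 ^ m * k < K → K < 2 ^ m * (k + 1) → ∀ r, e < r → r < e' →
      X g (n + m) K r ≤ X g n (k + 1) (X g n k r) := by
  have hfix : ∀ (N : ℕ) (K : ℤ), FixE e e' (X g N K) := by
    intro N K
    have h1 : V g ((K : ℝ) / 2 ^ N) = X g N K := V_eq g rfl
    rw [← h1]
    exact ⟨V_fix he.1 he.2 _, V_fix he'.1 he'.2 _⟩
  have hBA : ∀ r, e < r → r < e' → X g n (k + 1) (X g n k r) ≤ X g n k r := by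
    intro r r1 r2
    obtain ⟨a1, a2⟩ := (hfix n k).mem r1 r2
    exact hB _ a1 a2
  induction m with
  | zero =>
    intro K h1 h2
    rw [pow_zero, one_mul] at h1 h2
    omega
  | succ m ih =>
    intro K h1 h2 r r1 r2
    rw [pow_succ, mul_comm ((2 : ℤ) ^ m) 2, mul_assoc] at h1 h2
    rw [← add_assoc, X_succ]
    rcases Int.even_or_odd' K with ⟨i, rfl | rfl⟩
    · rw [ref_even]
      exact ih i (by linarith) (by linarith) r r1 r2
    · rw [ref_odd, RelIso.mul_apply]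
      have g1 : 2 ^ m * k ≤ i := by omega
      have g2 : i + 1 ≤ 2 ^ m * (k + 1) := by omega
      rcases lt_or_eq_of_le g1 with g3 | g3 <;> rcases lt_or_eq_of_le g2 with g4 | g4
      · -- both inside
        obtain ⟨a1, a2⟩ := (hfix (n + m) i).mem r1 r2
        have b1 := ih i g3 (by linarith) r r1 r2
        have b2 := ih (i + 1) (by linarith) g4 _ a1 a2
        refine b2.trans ((X g n (k + 1)).monotone ((X g n k).monotone ?_))
        exact b1.trans ((hBA r r1 r2).trans (hA r r1 r2))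
      · have b1 := ih i g3 (by linarith) r r1 r2
        rw [g4, X_lift]
        refine (X g n (k + 1)).monotone (b1.trans (hBA r r1 r2))
      · rw [← g3, X_lift]
        obtain ⟨a1, a2⟩ := (hfix n k).mem r1 r2
        have b2 := ih (i + 1) (by linarith) g4 _ a1 a2
        rw [← g3] at b2
        exact b2.trans ((X g n (k + 1)).monotone (hA _ a1 a2))
      · rw [← g3, X_lift]
        rw [← g3] at g4
        rw [g4, X_lift]

/-- The elements cannot be bounded from below near a non-dyadic number around which they move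
everything down. -/
lemma thin (he : g.1 e = e ∧ g.2 e = e) (he' : g.1 e' = e' ∧ g.2 e' = e')
    (hno : ∀ r, e < r → r < e' → ¬ (g.1 r = r ∧ g.2 r = r)) (s1 : e < s) (s2 : s < e')
    {p q α : ℝ} (hα : ¬ Dy α) (p1 : p < α) (q1 : α < q)
    (hneg : ∀ x, Dy x → p < x → x < q → ∀ r, e < r → r < e' → V g x r ≤ r)
    {c : Ω} (hc : e < c)
    (hlow : ∀ δ : ℝ, 0 < δ → ∃ x, Dy x ∧ α - δ < x ∧ x < α ∧ c ≤ V g x s) : False := by
  have hfix : ∀ (N : ℕ) (K : ℤ), FixE e e' (X g N K) := by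
    intro N K
    have h1 : V g ((K : ℝ) / 2 ^ N) = X g N K := V_eq g rfl
    rw [← h1]
    exact ⟨V_fix he.1 he.2 _, V_fix he'.1 he'.2 _⟩
  -- the cells
  let K : ℕ → ℤ := fun n => ⌊α * 2 ^ n⌋
  have c1 : ∀ n, (K n : ℝ) / 2 ^ n < α := by
    intro n
    have hpos : (0 : ℝ) < 2 ^ n := by positivity
    have h1 : (K n : ℝ) / 2 ^ n ≤ α := by
      rw [div_le_iff₀ hpos]
      exact Int.floor_le _
    exact lt_of_le_of_ne h1 (fun h2 => hα ⟨n, K n, h2.symm⟩)
  have c2 : ∀ n, α < ((K n + 1 : ℤ) : ℝ) / 2 ^ n := by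
    intro n
    have hpos : (0 : ℝ) < 2 ^ n := by positivity
    rw [lt_div_iff₀ hpos]
    push_cast
    exact Int.lt_floor_add_one _
  have c3 : ∀ n, ((K n + 1 : ℤ) : ℝ) / 2 ^ n = (K n : ℝ) / 2 ^ n + 1 / 2 ^ n := by
    intro n
    push_cast
    rw [add_div]
  have csmall : ∀ δ : ℝ, 0 < δ → ∃ n₀ : ℕ, ∀ n, n₀ ≤ n → (1 : ℝ) / 2 ^ n < δ := by
    intro δ hδ
    obtain ⟨n₀, hn₀⟩ := pow_unbounded_of_one_lt (1 / δ) (show (1 : ℝ) < 2 by norm_num)
    refine ⟨n₀, fun n hn => ?_⟩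
    have h1 : (2 : ℝ) ^ n₀ ≤ 2 ^ n := pow_le_pow_right₀ (by norm_num) hn
    have h2 : 1 / δ < 2 ^ n := hn₀.trans_le h1
    rw [div_lt_iff₀ hδ] at h2
    rw [div_lt_iff₀ (by positivity)]
    linarith
  obtain ⟨n₀, hn₀⟩ := csmall (min (α - p) (q - α)) (lt_min (by linarith) (by linarith))
  have hin : ∀ n, n₀ ≤ n → p < (K n : ℝ) / 2 ^ n ∧ ((K n + 1 : ℤ) : ℝ) / 2 ^ n < q := by
    intro n hn
    have h1 := hn₀ n hn
    have h2 := h1.trans_le (min_le_left _ _)
    have h3 := h1.trans_le (min_le_right _ _)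
    have h4 := c1 n
    have h5 := c2 n
    have h6 := c3 n
    constructor <;> linarith
  have hA : ∀ n, n₀ ≤ n → ∀ r, e < r → r < e' → X g n (K n) r ≤ r := by
    intro n hn r r1 r2
    have h1 : V g ((K n : ℝ) / 2 ^ n) = X g n (K n) := V_eq g rfl
    rw [← h1]
    have h2 := hin n hn
    exact hneg _ ⟨n, K n, rfl⟩ h2.1 ((c1 n).trans q1) r r1 r2
  have hB : ∀ n, n₀ ≤ n → ∀ r, e < r → r < e' → X g n (K n + 1) r ≤ r := by
    intro n hn r r1 r2
    have h1 : V g (((K n + 1 : ℤ) : ℝ) / 2 ^ n) = X g n (K n + 1) := V_eq g rfl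
    rw [← h1]
    have h2 := hin n hn
    exact hneg _ ⟨n, K n + 1, rfl⟩ (p1.trans (c2 n)) h2.2 r r1 r2
  let v : ℕ → Ω → Ω := fun n r => X g n (K n + 1) (X g n (K n) r)
  have vmem : ∀ n r, e < r → r < e' → e < v n r ∧ v n r < e' := by
    intro n r r1 r2
    obtain ⟨a1, a2⟩ := (hfix n (K n)).mem r1 r2
    exact (hfix n (K n + 1)).mem a1 a2
  have vmono : ∀ n, Monotone (v n) := fun n x y h =>
    (X g n (K n + 1)).monotone ((X g n (K n)).monotone h)
  -- elements strictly inside the cell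
  have P : ∀ n, n₀ ≤ n → ∀ x, Dy x → (K n : ℝ) / 2 ^ n < x → x < ((K n + 1 : ℤ) : ℝ) / 2 ^ n →
      ∀ r, e < r → r < e' → V g x r ≤ v n r := by
    intro n hn x hx x1 x2 r r1 r2
    obtain ⟨N, hN⟩ := hx.exists_ge
    obtain ⟨k, hk⟩ := hN (n + N) (by omega)
    have h1 : V g x = X g (n + N) k := V_eq g hk
    rw [h1]
    have hpos : (0 : ℝ) < 2 ^ n := by positivity
    have hpos' : (0 : ℝ) < 2 ^ N := by positivity
    rw [hk, pow_add, div_lt_div_iff₀ hpos (by positivity)] at x1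
    rw [hk, pow_add, div_lt_div_iff₀ (by positivity) hpos] at x2
    refine deep_cell he he' (hA n hn) (hB n hn) N k ?_ ?_ r r1 r2
    · have : (2 : ℝ) ^ N * K n < k := by
        have h2 : (2 : ℝ) ^ n * (2 ^ N * K n) < 2 ^ n * k := by linarith
        exact lt_of_mul_lt_mul_left h2 hpos.le
      exact_mod_cast this
    · have : (k : ℝ) < 2 ^ N * (K n + 1 : ℤ) := by
        have h2 : (2 : ℝ) ^ n * k < 2 ^ n * (2 ^ N * (K n + 1 : ℤ)) := by linarith
        exact lt_of_mul_lt_mul_left h2 hpos.le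
      exact_mod_cast this
  have Q : ∀ n n', n₀ ≤ n → n₀ ≤ n' → ∃ N, n₀ ≤ N ∧ ∀ r, e < r → r < e' →
      v N r ≤ v n (v n' r) := by
    intro n n' hn hn'
    obtain ⟨N, hN⟩ := csmall (min (min (α - (K n : ℝ) / 2 ^ n) (((K n + 1 : ℤ) : ℝ) / 2 ^ n - α))
      (min (α - (K n' : ℝ) / 2 ^ n') (((K n' + 1 : ℤ) : ℝ) / 2 ^ n' - α))) (by
        have a1 := c1 n
        have a2 := c2 n
        have a3 := c1 n'
        have a4 := c2 n'
        exact lt_min (lt_min (by linarith) (by linarith)) (lt_min (by linarith) (by linarith)))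
    have h1 := hN (max N n₀) (le_max_left _ _)
    have h2 := h1.trans_le ((min_le_left _ _).trans (min_le_left _ _))
    have h3 := h1.trans_le ((min_le_left _ _).trans (min_le_right _ _))
    have h4 := h1.trans_le ((min_le_right _ _).trans (min_le_left _ _))
    have h5 := h1.trans_le ((min_le_right _ _).trans (min_le_right _ _))
    set M := max N n₀
    have a1 := c1 M
    have a2 := c2 M
    have a3 := c3 M
    refine ⟨M, le_max_right _ _, fun r r1 r2 => ?_⟩
    obtain ⟨b1, b2⟩ := (hfix M (K M)).mem r1 r2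
    have e1 : V g (((K M + 1 : ℤ) : ℝ) / 2 ^ M) = X g M (K M + 1) := V_eq g rfl
    have e2 : V g ((K M : ℝ) / 2 ^ M) = X g M (K M) := V_eq g rfl
    have g1 : X g M (K M + 1) (X g M (K M) r) ≤ v n (X g M (K M) r) := by
      rw [← e1]
      have := c1 n
      exact P n hn _ ⟨M, _, rfl⟩ (by linarith) (by linarith) _ b1 b2
    have g2 : X g M (K M) r ≤ v n' r := by
      rw [← e2]
      have := c2 n'
      exact P n' hn' _ ⟨M, _, rfl⟩ (by linarith) (by linarith) _ r1 r2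
    exact g1.trans (vmono n g2)
  -- the infimum
  let t : Ω := ⨅ n : {n : ℕ // n₀ ≤ n}, v n.1 s
  have t1 : e < t := by
    refine hc.trans_le (le_iInf (fun n => ?_))
    have a1 := c1 n.1
    obtain ⟨x, hx, x1, x2, x3⟩ := hlow (α - (K n.1 : ℝ) / 2 ^ n.1) (by linarith)
    exact x3.trans (P n.1 n.2 x hx (by linarith) (x2.trans (c2 n.1)) s s1 s2)
  have t2 : t < e' := (iInf_le (fun n : {n : ℕ // n₀ ≤ n} => v n.1 s) ⟨n₀, le_refl _⟩).trans_lt
    (vmem n₀ s s1 s2).2
  have t3 : t ≤ v n₀ t := by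
    have h1 : v n₀ t = ⨅ n : {n : ℕ // n₀ ≤ n}, v n₀ (v n.1 s) := by
      change X g n₀ (K n₀ + 1) (X g n₀ (K n₀) t) = _
      rw [show t = ⨅ n : {n : ℕ // n₀ ≤ n}, v n.1 s from rfl, (X g n₀ (K n₀)).map_iInf,
        (X g n₀ (K n₀ + 1)).map_iInf]
    rw [h1]
    refine le_iInf (fun n => ?_)
    obtain ⟨N, hN, h2⟩ := Q n₀ n.1 le_rfl n.2
    exact (iInf_le (fun n : {n : ℕ // n₀ ≤ n} => v n.1 s) ⟨N, hN⟩).trans (h2 s s1 s2)
  have t4 : X g n₀ (K n₀) t = t := by
    apply le_antisymm (hA n₀ le_rfl t t1 t2)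
    by_contra hn
    push Not at hn
    have h1 := (X g n₀ (K n₀ + 1)).strictMono hn
    exact absurd (t3.trans_lt h1) (not_lt.mpr (hB n₀ le_rfl t t1 t2))
  have t5 : X g n₀ (K n₀ + 1) t = t := by
    apply le_antisymm (hB n₀ le_rfl t t1 t2)
    have h1 : t ≤ X g n₀ (K n₀ + 1) (X g n₀ (K n₀) t) := t3
    rwa [t4] at h1
  refine hno t t1 t2 (two_dir n₀ g (K n₀ + 1) ((K n₀ : ℝ) / 2 ^ n₀) ⟨n₀, K n₀, rfl⟩ ?_ ?_ ?_ ?_)
  · have h1 : (1 : ℝ) / 2 ^ n₀ ≤ 1 := by
      rw [div_le_one (by positivity)]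
      exact one_le_pow₀ (by norm_num)
    rw [c3]
    linarith
  · exact (c1 n₀).trans (c2 n₀)
  · rw [V_eq g (n := n₀) (k := K n₀) rfl]
    exact t4
  · rw [V_eq g (n := n₀) (k := K n₀ + 1) rfl]
    exact t5

/-- The same, with the lower bound coming from a map of the line. -/
lemma deep_contra (he : g.1 e = e ∧ g.2 e = e) (he' : g.1 e' = e' ∧ g.2 e' = e')
    (hno : ∀ r, e < r → r < e' → ¬ (g.1 r = r ∧ g.2 r = r)) (s1 : e < s) (s2 : s < e')
    {N : ℝ → ℝ} (hN : StrictMono N) (hsurj : ∀ y, ∃ x, N x = y) (hdy : ∀ x, Dy x → Dy (N x))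
    (hnf : ∀ x, Dy x → N x ≠ x) (hle : ∀ x, Dy x → V g x s ≤ V g (N x) s)
    {p q : ℝ} (hp : Dy p) (hpq : p < q) (hp1 : p < N p) (hq1 : N q < q)
    (hneg : ∀ x, Dy x → p < x → x < q → ∀ r, e < r → r < e' → V g x r ≤ r) : False := by
  let a : ℕ → ℝ := fun k => N^[k] p
  have a_succ : ∀ k, a (k + 1) = N (a k) := fun k => Function.iterate_succ_apply' N k p
  have a_dy : ∀ k, Dy (a k) := by
    intro k
    induction k with
    | zero => exact hp
    | succ k ih => rw [a_succ]; exact hdy _ ih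
  have a_lt : ∀ k, a k < a (k + 1) := by
    intro k
    induction k with
    | zero => exact hp1
    | succ k ih =>
      rw [a_succ k, a_succ (k + 1)]
      exact hN ih
  have a_q : ∀ k, a k < q := by
    intro k
    induction k with
    | zero => exact hpq
    | succ k ih => rw [a_succ]; exact (hN ih).trans hq1
  have hbdd : BddAbove (Set.range a) := ⟨q, by rintro _ ⟨k, rfl⟩; exact (a_q k).le⟩
  set α := ⨆ k, a k with hα
  have hle' : ∀ k, a k ≤ α := fun k => le_ciSup hbdd k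
  have hlt : ∀ k, a k < α := fun k => (a_lt k).trans_le (hle' (k + 1))
  have hfix : N α = α := by
    apply le_antisymm
    · obtain ⟨z, hz⟩ := hsurj α
      have h1 : α ≤ z := ciSup_le (fun k => by
        rw [← hN.le_iff_le, hz, ← a_succ]
        exact hle' (k + 1))
      have h2 := hN.monotone h1
      rwa [hz] at h2
    · exact ciSup_le (fun k => ((a_lt k).le.trans (a_succ k).le).trans (hN.monotone (hle' k)))
  have hαd : ¬ Dy α := fun h => hnf α h hfix
  have hαq : α < q := by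
    rw [← hN.lt_iff_lt, hfix]
    by_contra hn
    push Not at hn
    have h1 : α ≤ q := ciSup_le (fun k => (a_q k).le)
    -- then `N q ≤ α ≤ q`, and `α` is a fixed point below `q`
    rcases lt_or_eq_of_le h1 with h2 | h2
    · have := hN h2
      rw [hfix] at this
      exact absurd this (not_lt.mpr hn)
    · rw [← h2, hfix] at hq1
      exact absurd hq1 (lt_irrefl _)
  have hval : ∀ k, V g p s ≤ V g (a k) s := by
    intro k
    induction k with
    | zero => exact le_refl _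
    | succ k ih => rw [a_succ]; exact ih.trans (hle _ (a_dy k))
  refine thin he he' hno s1 s2 hαd (hlt 0) hαq hneg (c := V g p s) ?_ ?_
  · have := V_fix he.1 he.2 p
    have h2 := (V g p).strictMono s1
    rwa [this] at h2
  · intro δ hδ
    obtain ⟨k, hk⟩ := exists_lt_of_lt_ciSup (show α - δ < ⨆ k, a k by rw [← hα]; linarith)
    exact ⟨a k, a_dy k, hk, hlt k, hval k⟩

/-- Between two directions which move a point weakly down, all directions do. -/
lemma between_neg {p q x : ℝ} (hp : Dy p) (hq : Dy q) (hx : Dy x) (h1 : p < x) (h2 : x < q)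
    (h3 : q < p + 2) (vp : V g p s ≤ s) (vq : V g q s ≤ s) : V g x s ≤ s := by
  by_contra hn
  push Not at hn
  have := gap (Ω := Ωᵒᵈ) (dualF g) (s := s) hp hx hq h1 h2 (by rw [dualF_V]; exact vp)
    (by rw [dualF_V]; exact hn) (by rw [dualF_V]; exact vq)
  linarith

end Cells

section Main

variable {Ω : Type*} [CompleteLinearOrder Ω] {n : ℕ} {W : ℕ → Bool × ℤ × ℤ}
  {f : ℕ → (Ω ≃o Ω) × (Ω ≃o Ω)} {s : Ω} {e e' : Ω}

lemma HChain.neg_contra (c : HChain n W f) (he : (f 0).1 e = e ∧ (f 0).2 e = e)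
    (he' : (f 0).1 e' = e' ∧ (f 0).2 e' = e')
    (hno : ∀ r, e < r → r < e' → ¬ ((f 0).1 r = r ∧ (f 0).2 r = r)) (s1 : e < s) (s2 : s < e')
    {p q : ℝ} (hp : Dy p) (hq : Dy q) (hpq : p < q) (hpq2 : q < p + 2)
    (hout : (p < LW W n p ∧ HW W n q < q) ∨ (HW W n p < p ∧ q < LW W n q))
    (vp : ∀ r, e < r → r < e' → V (f 0) p r < r) (vq : ∀ r, e < r → r < e' → V (f 0) q r < r) :
    False := by
  have hneg : ∀ x, Dy x → p < x → x < q → ∀ r, e < r → r < e' → V (f 0) x r ≤ r :=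
    fun x hx x1 x2 r r1 r2 => between_neg hp hq hx x1 x2 hpq2 (vp r r1 r2).le (vq r r1 r2).le
  rcases hout with ⟨o1, o2⟩ | ⟨o1, o2⟩
  · obtain ⟨M, m1, m2, m3, m4, m5, m6⟩ := c.map he he' hno
    exact deep_contra he he' hno s1 s2 m1 m2 (fun x hx => (m3 x).mpr hx) m4
      (fun x hx => m6 x hx s s1 s2) hp hpq (o1.trans_le (m5 p).1) ((m5 q).2.trans_lt o2) hneg
  · obtain ⟨M, m1, m2, m3, m4, m5, m6⟩ := HChain.map (Ω := Ωᵒᵈ) (e := e') (e' := e) c.dual he' he
      (fun r r1 r2 hr => hno r r2 r1 hr)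
    choose N hN using m2
    have hN' : ∀ x, N (M x) = x := fun x => m1.injective (hN (M x))
    have hNs : StrictMono N := by
      intro x y hxy
      rw [← m1.lt_iff_lt, hN, hN]
      exact hxy
    refine deep_contra he he' hno s1 s2 hNs (fun y => ⟨M y, hN' y⟩)
      (fun x hx => (m3 (N x)).mp (by rw [hN]; exact hx)) ?_ ?_ hp hpq ?_ ?_ hneg
    · intro x hx h
      have h1 := hN x
      rw [h] at h1
      exact m4 x hx h1
    · intro x hx
      have hx' : Dy (N x) := (m3 (N x)).mp (by rw [hN]; exact hx)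
      have h1 := m6 (N x) hx' s s2 s1
      rw [hN, dualF_V, dualF_V] at h1
      exact h1
    · rw [← m1.lt_iff_lt, hN]
      exact (m5 p).2.trans_lt o1
    · rw [← m1.lt_iff_lt, hN]
      exact o2.trans_le (m5 q).1

/-- A periodic chain of hyperbolic type fixes every point. -/
theorem HChain.all_fix (c : HChain n W f) (s : Ω) : (f 0).1 s = s ∧ (f 0).2 s = s := by
  by_contra hs
  obtain ⟨e, e', s1, s2, he, he', hno⟩ := frame_component hs
  -- dyadic points moved up and down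
  obtain ⟨x₀, hx₀⟩ := c.dn
  obtain ⟨y₀, hy₀⟩ := c.up
  obtain ⟨x₁, dx, x1, x2⟩ := exists_dy hx₀
  have hx₁ : HW W n x₁ < x₁ := ((HW_strict W n).monotone x2.le).trans_lt x1
  obtain ⟨y₁, dy, y1, y2⟩ := exists_dy hy₀
  have hy₁ : y₁ < LW W n y₁ := y2.trans_le ((LW_strict W n).monotone y1.le)
  -- shift
  set j : ℤ := ⌊(x₁ - y₁) / 2⌋ with hj
  have g1 := Int.lt_floor_add_one ((x₁ - y₁) / 2)
  have g2 := Int.floor_le ((x₁ - y₁) / 2)
  rw [← hj] at g1 g2
  set y := y₁ + 2 * j with hy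
  have dy' : Dy y := dy.add_even j
  have hyl : y < LW W n y := by rw [hy, LW_add_even]; linarith
  have hyx : y < x₁ := by
    apply lt_of_le_of_ne (by linarith)
    intro h
    rw [h] at hyl
    have := LW_le_HW c.le n x₁
    linarith
  have hxy : x₁ < y + 2 := by rw [hy]; linarith
  have hyl2 : y + 2 < LW W n (y + 2) := by rw [LW_add_two]; linarith
  have hxh2 : HW W n (x₁ + 2) < x₁ + 2 := by rw [HW_add_two]; linarith
  have e0 : (fun j => W (0 + j)) = W := by funext j; rw [zero_add]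
  have sg : ∀ x, Dy x → (x < LW W n x ∨ HW W n x < x) →
      (∀ r, e < r → r < e' → r < V (f 0) x r) ∨ (∀ r, e < r → r < e' → V (f 0) x r < r) := by
    intro x hx ho
    exact c.sign hno (Nat.zero_le _) hx (by rw [e0]; exact ho)
  have neg := fun {p q : ℝ} => c.neg_contra (p := p) (q := q) he he' hno s1 s2
  have pos : ∀ {p q : ℝ}, Dy p → Dy q → p < q → q < p + 2 →
      ((p < LW W n p ∧ HW W n q < q) ∨ (HW W n p < p ∧ q < LW W n q)) →
      (∀ r, e < r → r < e' → r < V (f 0) p r) → (∀ r, e < r → r < e' → r < V (f 0) q r) →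
      False := by
    intro p q hp hq h1 h2 h3 h4 h5
    exact HChain.neg_contra (Ω := Ωᵒᵈ) (s := s) (e := e') (e' := e) c.dual he' he
      (fun r r1 r2 hr => hno r r2 r1 hr) s2 s1 hp hq h1 h2 h3
      (fun r r1 r2 => by rw [dualF_V]; exact h4 r r2 r1)
      (fun r r1 r2 => by rw [dualF_V]; exact h5 r r2 r1)
  have dd1 : ∀ {x : ℝ}, Dy x → (∀ r, e < r → r < e' → r < V (f 0) x r) →
      (∀ r, e < r → r < e' → r < V (f 0) (x + 2) r) → s < dd (f 0) s := by
    intro x hx h1 h2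
    rw [← V_per (f 0) hx, RelIso.mul_apply]
    obtain ⟨a1, a2⟩ := in_comp (V_fix he.1 he.2 x) (V_fix he'.1 he'.2 x) s1 s2
    exact (h1 s s1 s2).trans (h2 _ a1 a2)
  have dd2 : ∀ {x : ℝ}, Dy x → (∀ r, e < r → r < e' → V (f 0) x r < r) →
      (∀ r, e < r → r < e' → V (f 0) (x + 2) r < r) → dd (f 0) s < s := by
    intro x hx h1 h2
    rw [← V_per (f 0) hx, RelIso.mul_apply]
    obtain ⟨a1, a2⟩ := in_comp (V_fix he.1 he.2 x) (V_fix he'.1 he'.2 x) s1 s2
    exact (h2 _ a1 a2).trans (h1 s s1 s2)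
  rcases sg y dy' (Or.inl hyl) with a | a
  · rcases sg x₁ dx (Or.inr hx₁) with b | b
    · exact pos dy' dx hyx hxy (Or.inl ⟨hyl, hx₁⟩) a b
    · rcases sg (y + 2) dy'.add_two (Or.inl hyl2) with d | d
      · rcases sg (x₁ + 2) dx.add_two (Or.inr hxh2) with k | k
        · exact pos dy'.add_two dx.add_two (by linarith) (by linarith) (Or.inl ⟨hyl2, hxh2⟩) d k
        · exact absurd ((dd1 dy' a d).trans (dd2 dx b k)) (lt_irrefl _)
      · exact neg dx dy'.add_two hxy (by linarith) (Or.inr ⟨hx₁, hyl2⟩) b d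
  · rcases sg x₁ dx (Or.inr hx₁) with b | b
    · rcases sg (y + 2) dy'.add_two (Or.inl hyl2) with d | d
      · exact pos dx dy'.add_two hxy (by linarith) (Or.inr ⟨hx₁, hyl2⟩) b d
      · rcases sg (x₁ + 2) dx.add_two (Or.inr hxh2) with k | k
        · exact absurd ((dd1 dx b k).trans (dd2 dy' a d)) (lt_irrefl _)
        · exact neg dy'.add_two dx.add_two (by linarith) (by linarith) (Or.inl ⟨hyl2, hxh2⟩) d k
    · exact neg dy' dx hyx hxy (Or.inl ⟨hyl, hx₁⟩) a b

end Main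

end Pool.Agent.Helper71.Rot
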