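import Mathlib
import Pool.Agent.Helper71.HypDeep
import Pool.Agent.Helper71.RotBraid

/-!
Closed words of hyperbolic type: the elements of the fibre groups fix every point of a complete
linear order.
-/

set_option autoImplicit false

namespace Pool.Agent.Helper71.Rot

open Pool.Agent.Helper31.OrderAct

section Closing

variable {Ω : Type*} [CompleteLinearOrder Ω]

/-- A closed chain of hyperbolic type fixes every point. -/
theorem hyp_chain_fix {n : ℕ} {W : ℕ → Bool × ℤ × ℤ} {F : ℕ → (Ω ≃o Ω) × (Ω ≃o Ω)} (hn : 0 < n)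
    (hle : ∀ i, i < n → (W i).2.1 ≤ (W i).2.2)
    (hstep : ∀ i, i < n → StepP (W i).1 (W i).2.1 (W i).2.2 (F i) (F (i + 1)))
    (hback : ∀ i, i < n → StepP (W i).1 (-(W i).2.2) (-(W i).2.1) (F (i + 1)) (F i))
    (hclose : F n = F 0) (hdn : ∃ x, HW W n x < x) (hup : ∃ x, x < LW W n x)
    (hgood : ∀ i, i < n → (W i).2.1 ≠ (W i).2.2 →
      -cs (W i).1 < LW (fun j => W ((i + j) % n)) n (-cs (W i).1) ∨
        HW (fun j => W ((i + j) % n)) n (-cs (W i).1) < -cs (W i).1) (s : Ω) :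
    (F 0).1 s = s ∧ (F 0).2 s = s := by
  have hmod : ∀ i, i % n < n := fun i => Nat.mod_lt i hn
  have hnext : ∀ i, F ((i + 1) % n) = F (i % n + 1) := by
    intro i
    by_cases h2 : i % n + 1 = n
    · have h3 : (i + 1) % n = 0 := by
        rw [← Nat.mod_add_mod, h2, Nat.mod_self]
      rw [h3, h2, hclose]
    · have h3 : (i + 1) % n = i % n + 1 := by
        have h4 := hmod i
        rw [← Nat.mod_add_mod, Nat.mod_eq_of_lt (by omega)]
      rw [h3]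
  have hcongr : ∀ x, LW (fun i => W (i % n)) n x = LW W n x ∧
      HW (fun i => W (i % n)) n x = HW W n x :=
    fun x => LW_congr (fun i hi => by rw [Nat.mod_eq_of_lt hi]) x
  have hc : HChain n (fun i => W (i % n)) (fun i => F (i % n)) := by
    refine ⟨fun i => hle _ (hmod i), ?_, ?_, ?_, ?_, ?_, ?_, ?_⟩
    · intro i
      change StepP _ _ _ (F (i % n)) (F ((i + 1) % n))
      rw [hnext]
      exact hstep _ (hmod i)
    · intro i
      change StepP _ _ _ (F ((i + 1) % n)) (F (i % n))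
      rw [hnext]
      exact hback _ (hmod i)
    · intro i
      rw [Nat.add_mod_right]
    · intro i
      rw [Nat.add_mod_right]
    · obtain ⟨x, hx⟩ := hdn
      exact ⟨x, by rw [(hcongr x).2]; exact hx⟩
    · obtain ⟨x, hx⟩ := hup
      exact ⟨x, by rw [(hcongr x).1]; exact hx⟩
    · intro i hi
      have h1 := hgood (i % n) (hmod i) hi
      have h2 : (fun j => W ((i % n + j) % n)) = fun j => W ((i + j) % n) := by
        funext j
        rw [Nat.mod_add_mod]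
      rw [h2] at h1
      exact h1
  have := hc.all_fix s
  rw [Nat.zero_mod] at this
  exact this

/-- A letter in the other direction. -/
theorem stepP_of {w : Bool × ℤ × ℤ} {a b m a' b' : Ω ≃o Ω}
    (hA : w.1 = false → a' = a ∧ b' = b * m ∧ SB w.2.1 w.2.2 m a ∧
      SB (-w.2.2) (-w.2.1) m⁻¹ a)
    (hB : w.1 = true → b' = b ∧ a' = a * m⁻¹ ∧ SB w.2.1 w.2.2 m b ∧
      SB (-w.2.2) (-w.2.1) m⁻¹ b) :
    StepP w.1 w.2.1 w.2.2 (a, b⁻¹) (a', b'⁻¹) ∧
      StepP w.1 (-w.2.2) (-w.2.1) (a', b'⁻¹) (a, b⁻¹) := by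
  unfold StepP
  cases hs : w.1 with
  | false =>
    obtain ⟨p1, p2, p3, p4⟩ := hA hs
    constructor
    · refine ⟨m, p3, ?_, ?_⟩
      · exact p1
      · change b'⁻¹ = m⁻¹ * b⁻¹
        rw [p2, mul_inv_rev]
    · refine ⟨m⁻¹, ?_, ?_, ?_⟩
      · change SB _ _ m⁻¹ a'
        rw [p1]
        exact p4
      · exact p1.symm
      · change b⁻¹ = m⁻¹⁻¹ * b'⁻¹
        rw [p2, mul_inv_rev, inv_inv, mul_inv_cancel_left]
  | true =>
    obtain ⟨p1, p2, p3, p4⟩ := hB hs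
    have p5 : m * b = b * m := p3.1.comm
    have e1 : b'⁻¹⁻¹ * a'⁻¹ * b'⁻¹ = m⁻¹⁻¹ * (b⁻¹⁻¹ * a⁻¹ * b⁻¹) := by
      rw [p1, p2, inv_inv, inv_inv, mul_inv_rev, inv_inv, ← mul_assoc, ← mul_assoc,
        ← mul_assoc, p5]
    constructor
    · refine ⟨m⁻¹, (SB.invRel _ _).inv p3, ?_, ?_⟩
      · change b'⁻¹ = b⁻¹
        rw [p1]
      · change b'⁻¹⁻¹ * a'⁻¹ * b'⁻¹ = m⁻¹⁻¹ * (b⁻¹⁻¹ * a⁻¹ * b⁻¹)
        exact e1
    · refine ⟨m⁻¹⁻¹, ?_, ?_, ?_⟩
      · change SB _ _ m⁻¹⁻¹ b'⁻¹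
        rw [p1]
        exact (SB.invRel _ _).inv p4
      · change b⁻¹ = b'⁻¹
        rw [p1]
      · change b⁻¹⁻¹ * a⁻¹ * b⁻¹ = m⁻¹⁻¹⁻¹ * (b'⁻¹⁻¹ * a'⁻¹ * b'⁻¹)
        rw [e1]
        group

/-- The same in terms of the standard generators of the fibre groups. -/
theorem hyp_word_fix {n : ℕ} {W : ℕ → Bool × ℤ × ℤ} {a b m : ℕ → (Ω ≃o Ω)} (hn : 0 < n)
    (hle : ∀ i, i < n → (W i).2.1 ≤ (W i).2.2)
    (hA : ∀ i, i < n → (W i).1 = false → a (i + 1) = a i ∧ b (i + 1) = b i * m i ∧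
      SB (W i).2.1 (W i).2.2 (m i) (a i) ∧ SB (-(W i).2.2) (-(W i).2.1) (m i)⁻¹ (a i))
    (hB : ∀ i, i < n → (W i).1 = true → b (i + 1) = b i ∧ a (i + 1) = a i * (m i)⁻¹ ∧
      SB (W i).2.1 (W i).2.2 (m i) (b i) ∧ SB (-(W i).2.2) (-(W i).2.1) (m i)⁻¹ (b i))
    (hca : a n = a 0) (hcb : b n = b 0)
    (hdn : ∃ x, HW W n x < x) (hup : ∃ x, x < LW W n x)
    (hgood : ∀ i, i < n → (W i).2.1 ≠ (W i).2.2 →
      -cs (W i).1 < LW (fun j => W ((i + j) % n)) n (-cs (W i).1) ∨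
        HW (fun j => W ((i + j) % n)) n (-cs (W i).1) < -cs (W i).1) (s : Ω) :
    a 0 s = s ∧ b 0 s = s := by
  have hs := fun i hi => stepP_of (w := W i) (hA i hi) (hB i hi)
  obtain ⟨h1, h2⟩ := hyp_chain_fix (F := fun i => (a i, (b i)⁻¹)) hn hle
    (fun i hi => (hs i hi).1) (fun i hi => (hs i hi).2)
    (by simp only [hca, hcb]) hdn hup hgood s
  refine ⟨h1, ?_⟩
  have := inv_fix h2
  rwa [inv_inv] at this

/-- The bounds for the inverse of a fractional power. -/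
theorem SB_neg_of_rat {m a : Ω ≃o Ω} (hcm : m * a = a * m) (p : ℚ)
    (h : ∃ k : ℕ, 0 < k ∧ m ^ (k * p.den) = a ^ (k * p.num)) :
    SB (-⌈p⌉) (-⌊p⌋) m⁻¹ a := by
  have hc : m⁻¹ * a = a * m⁻¹ := ((show Commute m a from hcm).inv_left).eq
  obtain ⟨k, hk, h⟩ := h
  have h1 := SB_of_rat hc (-p) ⟨k, hk, by
    rw [Rat.den_neg_eq_den, Rat.num_neg_eq_neg_num, inv_pow, h, mul_neg, zpow_neg]⟩
  rwa [Int.floor_neg, Int.ceil_neg] at h1

end Closing

end Pool.Agent.Helper71.Rot
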