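import Mathlib

set_option autoImplicit false

namespace Pool.Agent.Helper71.Slopes

/-- `α ^ N = q ^ c` up to units at the prime ideal `P`: the slope of `α` is `c / N`. -/
def HasSlope (q N : ℕ) (P : Ideal (integralClosure ℤ ℂ)) (α : ℂ) (c : ℕ) : Prop :=
  ∃ u v : integralClosure ℤ ℂ, u ∉ P ∧ v ∉ P ∧ α ^ N * u = (q : ℂ) ^ c * v

lemma prod_slope {ι : Type*} {q N : ℕ} {P : Ideal (integralClosure ℤ ℂ)} (hP : P.IsPrime)
    (s : Finset ι) (μ : ι → ℂ) (c : ι → ℕ) (h : ∀ x ∈ s, HasSlope q N P (μ x) (c x)) :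
    HasSlope q N P (∏ x ∈ s, μ x) (∑ x ∈ s, c x) := by
  classical
  induction s using Finset.induction_on with
  | empty => exact ⟨1, 1, hP.one_notMem, hP.one_notMem, by simp⟩
  | insert a s ha ih =>
    obtain ⟨u, v, hu, hv, huv⟩ := ih fun x hx => h x (Finset.mem_insert_of_mem hx)
    obtain ⟨u', v', hu', hv', huv'⟩ := h a (Finset.mem_insert_self _ _)
    refine ⟨u' * u, v' * v, ?_, ?_, ?_⟩
    · intro h; rcases hP.mem_or_mem h with h | h
      · exact hu' h
      · exact hu h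
    · intro h; rcases hP.mem_or_mem h with h | h
      · exact hv' h
      · exact hv h
    · rw [Finset.prod_insert ha, Finset.sum_insert ha, mul_pow, pow_add]
      push_cast
      calc μ a ^ N * (∏ x ∈ s, μ x) ^ N * (u' * u) = (μ a ^ N * u') * ((∏ x ∈ s, μ x) ^ N * u) := by
            ring
        _ = _ := by rw [huv, huv']; ring

lemma slope_of_integral {q N ν c : ℕ} (hq : q ≠ 0) {P : Ideal (integralClosure ℤ ℂ)}
    (hqP : (q : integralClosure ℤ ℂ) ∈ P) {α : ℂ} (hα : HasSlope q N P α c)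
    (h : IsIntegral ℤ (α / (q : ℂ) ^ ν)) : N * ν ≤ c := by
  have hqC : (q : ℂ) ≠ 0 := by exact_mod_cast hq
  obtain ⟨u, v, hu, hv, huv⟩ := hα
  by_contra hlt
  push Not at hlt
  let z : integralClosure ℤ ℂ := ⟨_, h⟩
  have h1 : (q : ℂ) ^ (N * ν - c) * (z : ℂ) ^ N * u = v := by
    have h2 : (q : ℂ) ^ c * ((q : ℂ) ^ (N * ν - c) * (z : ℂ) ^ N * u) = (q : ℂ) ^ c * v := by
      rw [← huv]
      have h3 : α = (q : ℂ) ^ ν * (z : ℂ) := by
        change α = (q : ℂ) ^ ν * (α / (q : ℂ) ^ ν)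
        field_simp
      calc (q : ℂ) ^ c * ((q : ℂ) ^ (N * ν - c) * (z : ℂ) ^ N * u)
          = (q : ℂ) ^ (c + (N * ν - c)) * (z : ℂ) ^ N * u := by rw [pow_add]; ring
        _ = (q : ℂ) ^ (N * ν) * (z : ℂ) ^ N * u := by rw [Nat.add_sub_cancel' hlt.le]
        _ = α ^ N * u := by rw [h3, mul_pow, ← pow_mul, mul_comm ν N]
    exact mul_left_cancel₀ (pow_ne_zero _ hqC) h2
  have h4 : (q : integralClosure ℤ ℂ) ^ (N * ν - c) * z ^ N * u = v := by
    apply Subtype.ext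
    push_cast
    exact h1
  apply hv
  rw [← h4]
  exact P.mul_mem_right _ (P.mul_mem_right _ (P.pow_mem_of_mem hqP _ (by omega)))

lemma integral_of_slope {q N ν : ℕ} (hq : q ≠ 0) (hN : 0 < N) {α : ℂ} (hα : IsIntegral ℤ α)
    (h : ∀ P : Ideal (integralClosure ℤ ℂ), P.IsPrime → (q : integralClosure ℤ ℂ) ∈ P →
      ∃ c, HasSlope q N P α c ∧ N * ν ≤ c) : IsIntegral ℤ (α / (q : ℂ) ^ ν) := by
  have hqC : (q : ℂ) ≠ 0 := by exact_mod_cast hq
  refine IsIntegral.of_pow hN ?_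
  set w : ℂ := (α / (q : ℂ) ^ ν) ^ N with hw
  let I : Ideal (integralClosure ℤ ℂ) :=
    { carrier := {r | IsIntegral ℤ ((r : ℂ) * w)}
      add_mem' := by
        intro a b ha hb
        simp only [Set.mem_ofPred_eq] at ha hb ⊢
        have : ((a + b : integralClosure ℤ ℂ) : ℂ) * w = (a : ℂ) * w + (b : ℂ) * w := by
          push_cast; ring
        rw [this]; exact ha.add hb
      zero_mem' := by
        simp only [Set.mem_ofPred_eq, ZeroMemClass.coe_zero, zero_mul]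
        exact isIntegral_zero
      smul_mem' := by
        intro c x hx
        simp only [Set.mem_ofPred_eq, smul_eq_mul] at hx ⊢
        have : ((c * x : integralClosure ℤ ℂ) : ℂ) * w = (c : ℂ) * ((x : ℂ) * w) := by
          push_cast; ring
        rw [this]; exact (c.2 : IsIntegral ℤ (c : ℂ)).mul hx }
  have hI : ∀ r : integralClosure ℤ ℂ, r ∈ I ↔ IsIntegral ℤ ((r : ℂ) * w) := fun r => Iff.rfl
  by_contra hcon
  have hne : I ≠ ⊤ := by
    intro htop
    have h1 : (1 : integralClosure ℤ ℂ) ∈ I := by rw [htop]; trivial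
    rw [hI] at h1
    apply hcon
    simpa using h1
  obtain ⟨P, hP, hIP⟩ := Ideal.exists_le_maximal I hne
  have hqI : (q : integralClosure ℤ ℂ) ^ (ν * N) ∈ I := by
    rw [hI]
    have : (((q : integralClosure ℤ ℂ) ^ (ν * N) : integralClosure ℤ ℂ) : ℂ) * w = α ^ N := by
      push_cast
      rw [hw, div_pow, ← pow_mul]
      field_simp
    rw [this]
    exact hα.pow N
  have hqP : (q : integralClosure ℤ ℂ) ∈ P := hP.isPrime.mem_of_pow_mem _ (hIP hqI)
  obtain ⟨c, ⟨u, v, hu, hv, huv⟩, hc⟩ := h P hP.isPrime hqP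
  apply hu
  apply hIP
  rw [hI]
  have h2 : (u : ℂ) * w = (q : ℂ) ^ (c - N * ν) * v := by
    have h3 : (q : ℂ) ^ (N * ν) * ((u : ℂ) * w) = (q : ℂ) ^ (N * ν) * ((q : ℂ) ^ (c - N * ν) * v) := by
      rw [← mul_assoc ((q : ℂ) ^ (N * ν)) ((q : ℂ) ^ (c - N * ν)), ← pow_add,
        Nat.add_sub_cancel' hc, ← huv, hw, div_pow, ← pow_mul, mul_comm ν N]
      field_simp
    exact mul_left_cancel₀ (pow_ne_zero _ hqC) h3
  rw [h2]
  have h4 : IsIntegral ℤ (q : ℂ) := by
    have : ((q : ℤ) : ℂ) = (q : ℂ) := by push_cast; rfl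
    rw [← this]
    exact isIntegral_algebraMap
  exact (h4.pow _).mul v.2

end Pool.Agent.Helper71.Slopes
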