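import Mathlib
import Pool.Agent.Helper31.OrderAct

/-!
Positivity at a cut, the rule imposed by a fractional twist with coefficient in `[0,1]`, and the
two fixed point lemmas for cyclic words of five pairs of fractional twists.
-/

set_option autoImplicit false

namespace Pool.Agent.Helper71.SubE8

open Pool.Agent.Helper31.OrderAct

section Cone

variable {G : Type*} [Group G]

/-- Elements which move a fixed cut weakly upwards. -/
structure PCone (P : G → Prop) : Prop where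
  mul : ∀ a b, P a → P b → P (a * b)
  total : ∀ a, P a ∨ P a⁻¹

variable {P : G → Prop}

lemma PCone.one (h : PCone P) : P 1 := by
  rcases h.total 1 with h1 | h1
  · exact h1
  · simpa using h1

lemma PCone.pow (h : PCone P) {a : G} (ha : P a) (n : ℕ) : P (a ^ n) := by
  induction n with
  | zero => simpa using h.one
  | succ n ih => rw [pow_succ]; exact h.mul _ _ ih ha

lemma PCone.of_pow (h : PCone P) {a : G} {n : ℕ} (hn : 1 ≤ n) (ha : P (a ^ n)) : P a := by
  rcases h.total a with h1 | h1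
  · exact h1
  · have h2 : a = a ^ n * a⁻¹ ^ (n - 1) := by
      obtain ⟨k, rfl⟩ : ∃ k, n = k + 1 := ⟨n - 1, by omega⟩
      simp [pow_succ']
    rw [h2]
    exact h.mul _ _ ha (h.pow h1 _)

lemma PCone.opp (h : PCone P) : PCone (fun g => P g⁻¹) where
  mul a b ha hb := by
    rw [mul_inv_rev]; exact h.mul _ _ hb ha
  total a := by
    rcases h.total a with h1 | h1
    · right; simpa using h1
    · left; exact h1

/-- `m` commutes with `a` and is a fractional power of `a` with exponent in `[0,1]`. -/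
structure Frac (m a : G) : Prop where
  comm : m * a = a * m
  pow : ∃ c d : ℕ, 1 ≤ d ∧ c ≤ d ∧ m ^ d = a ^ c

/-- The exponent is moreover positive. -/
structure FracPos (m a : G) : Prop where
  pow : ∃ c d : ℕ, 1 ≤ c ∧ 1 ≤ d ∧ m ^ d = a ^ c

lemma Frac.inv {m a : G} (h : Frac m a) : Frac m⁻¹ a⁻¹ where
  comm := by
    have := h.comm
    rw [← mul_inv_rev, ← mul_inv_rev, this]
  pow := by
    obtain ⟨c, d, h1, h2, h3⟩ := h.pow
    exact ⟨c, d, h1, h2, by rw [inv_pow, inv_pow, h3]⟩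

lemma FracPos.inv {m a : G} (h : FracPos m a) : FracPos m⁻¹ a⁻¹ where
  pow := by
    obtain ⟨c, d, h1, h2, h3⟩ := h.pow
    exact ⟨c, d, h1, h2, by rw [inv_pow, inv_pow, h3]⟩

lemma Frac.r1 (hP : PCone P) {m a : G} (h : Frac m a) (ha : P a) : P m := by
  obtain ⟨c, d, h1, _, h3⟩ := h.pow
  apply hP.of_pow h1
  rw [h3]
  exact hP.pow ha c

lemma Frac.r2 (hP : PCone P) {m a : G} (h : Frac m a) (ha : P a) : P (a * m⁻¹) := by
  obtain ⟨c, d, h1, h2, h3⟩ := h.pow
  apply hP.of_pow h1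
  have hc : Commute a m⁻¹ := by
    have : Commute m a := h.comm
    exact this.symm.inv_right
  rw [hc.mul_pow, inv_pow, h3]
  obtain ⟨k, rfl⟩ := Nat.exists_eq_add_of_le h2
  have : a ^ (c + k) * (a ^ c)⁻¹ = a ^ k := by
    rw [add_comm, pow_add, mul_inv_cancel_right]
  rw [this]
  exact hP.pow ha k

lemma Frac.r3 (hP : PCone P) {m a : G} (h : Frac m a) (ha : P a⁻¹) : P m⁻¹ :=
  h.inv.r1 hP ha

lemma Frac.r4 (hP : PCone P) {m a : G} (h : Frac m a) (ha : P a⁻¹) : P (a⁻¹ * m) := by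
  have := h.inv.r2 hP ha
  simpa using this

lemma FracPos.s1 (hP : PCone P) {m a : G} (h : FracPos m a) (hm : P m) : P a := by
  obtain ⟨c, d, h1, _, h3⟩ := h.pow
  apply hP.of_pow h1
  rw [← h3]
  exact hP.pow hm d

lemma FracPos.s2 (hP : PCone P) {m a : G} (h : FracPos m a) (hm : P m⁻¹) : P a⁻¹ :=
  h.inv.s1 hP hm

/-- The relations of a closed word `σ₁^{p₁} σ₂^{q₁} ⋯ σ₁^{p₅} σ₂^{q₅}`, read from one level. -/
structure Loop (A0 A1 A2 A3 A4 B0 B1 B2 B3 B4 m1 m2 m3 m4 m5 n1 n2 n3 n4 n5 : G) : Prop where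
  b1 : B1 = B0 * m1
  b2 : B2 = B1 * m2
  b3 : B3 = B2 * m3
  b4 : B4 = B3 * m4
  b5 : B0 = B4 * m5
  a1 : A1 = A0 * n1⁻¹
  a2 : A2 = A1 * n2⁻¹
  a3 : A3 = A2 * n3⁻¹
  a4 : A4 = A3 * n4⁻¹
  a5 : A0 = A4 * n5⁻¹
  f1 : Frac m1 A0
  f2 : Frac m2 A1
  f3 : Frac m3 A2
  f4 : Frac m4 A3
  f5 : Frac m5 A4
  g1 : Frac n1 B1
  g2 : Frac n2 B2
  g3 : Frac n3 B3
  g4 : Frac n4 B4
  g5 : Frac n5 B0

/-- No cut is fixed by `A0` and moved up by `B0` (first lemma). -/
lemma caseA (hP : PCone P)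
    {A0 A1 A2 A3 A4 B0 B1 B2 B3 B4 m1 m2 m3 m4 m5 n1 n2 n3 n4 n5 : G}
    (h : Loop A0 A1 A2 A3 A4 B0 B1 B2 B3 B4 m1 m2 m3 m4 m5 n1 n2 n3 n4 n5)
    (hq : FracPos n1 B1) (hA : P A0) (hA' : P A0⁻¹) (hB : ¬ P B0⁻¹) : False := by
  have mul3 : ∀ a b c : G, P a → P b → a * b = c → P c := fun a b c ha hb hab =>
    hab ▸ hP.mul a b ha hb
  have kB0 : P B0 := (hP.total B0).resolve_right hB
  have kn5 : P n5 := h.g5.r1 hP kB0
  have kB0n5 : P (B0 * n5⁻¹) := h.g5.r2 hP kB0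
  have km1 : P m1 := h.f1.r1 hP hA
  have kB1' : ¬ P B1⁻¹ := fun hb => hB (mul3 _ _ _ km1 hb (by rw [h.b1]; group))
  have kB1 : P B1 := (hP.total B1).resolve_right kB1'
  have kn1 : P n1 := h.g1.r1 hP kB1
  have kB1n1 : P (B1 * n1⁻¹) := h.g1.r2 hP kB1
  have kA1' : P A1⁻¹ := mul3 _ _ _ kn1 hA' (by rw [h.a1]; group)
  have kA1 : ¬ P A1 := fun ha =>
    kB1' (hq.s2 hP (mul3 _ _ _ hA' ha (by rw [h.a1]; group)))
  have kA1B1 : P (A1 * B1) := mul3 _ _ _ hA kB1n1 (by
    have hc : n1⁻¹ * B1 = B1 * n1⁻¹ := by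
      have : Commute n1 B1 := h.g1.comm
      exact this.inv_left.eq
    rw [h.a1, mul_assoc, hc])
  have kA1m2 : P (A1⁻¹ * m2) := h.f2.r4 hP kA1'
  have kA4 : P A4 := mul3 _ _ _ hA kn5 (by rw [h.a5]; group)
  have kA4m5 : P (A4 * m5⁻¹) := h.f5.r2 hP kA4
  have kB0A4 : P (B0 * A4⁻¹) := mul3 _ _ _ kB0n5 hA' (by rw [h.a5]; group)
  have kB4 : P B4 := mul3 _ _ _ kB0A4 kA4m5 (by
    have : B4 = B0 * m5⁻¹ := by rw [h.b5]; group
    rw [this]; group)
  have kn4 : P n4 := h.g4.r1 hP kB4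
  have kA3 : P A3 := mul3 _ _ _ kA4 kn4 (by rw [h.a4]; group)
  have kA3m4 : P (A3 * m4⁻¹) := h.f4.r2 hP kA3
  have cm2 : m2 * A1 = A1 * m2 := h.f2.comm
  have cm3 : m3 * A2 = A2 * m3 := h.f3.comm
  have cm4 : m4 * A3 = A3 * m4 := h.f4.comm
  have cn2 : n2 * B2 = B2 * n2 := h.g2.comm
  have cn3 : n3 * B3 = B3 * n3 := h.g3.comm
  have cm2' : A1⁻¹ * m2 = m2 * A1⁻¹ := by
    have : Commute m2 A1 := cm2
    exact this.symm.inv_left.eq
  have cn2' : B2⁻¹ * n2 = n2 * B2⁻¹ := by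
    have : Commute n2 B2 := cn2
    exact this.symm.inv_left.eq
  have cn3' : B3⁻¹ * n3 = n3 * B3⁻¹ := by
    have : Commute n3 B3 := cn3
    exact this.symm.inv_left.eq
  have cm4' : A3 * m4⁻¹ = m4⁻¹ * A3 := by
    have : Commute m4 A3 := cm4
    exact this.symm.inv_right.eq
  have kA2 : ¬ P A2 := by
    intro ha
    have kn2 : ¬ P n2 := fun hn => kA1 (mul3 _ _ _ ha hn (by rw [h.a2]; group))
    have kB2 : ¬ P B2 := fun hb => kn2 (h.g2.r1 hP hb)
    have kB2' : P B2⁻¹ := (hP.total B2).resolve_left kB2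
    have k1 : P (B2⁻¹ * n2) := h.g2.r4 hP kB2'
    have k2 : P (m2 * n2⁻¹) := mul3 _ _ _ kA1m2 ha (by rw [cm2', h.a2]; group)
    exact kB1' (mul3 _ _ _ k2 k1 (by rw [cn2', h.b2]; group))
  have kB3 : ¬ P B3 := fun hb =>
    kA2 (mul3 _ _ _ kA3 (h.g3.r1 hP hb) (by rw [h.a3]; group))
  have kB3' : P B3⁻¹ := (hP.total B3).resolve_left kB3
  have kB3n3 : P (B3⁻¹ * n3) := h.g3.r4 hP kB3'
  have kA2' : P A2⁻¹ := (hP.total A2).resolve_left kA2
  have kA2m3 : P (A2⁻¹ * m3) := h.f3.r4 hP kA2'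
  have k14 : P (n3 * m4) := mul3 _ _ _ kB3n3 kB4 (by rw [cn3', h.b4]; group)
  have k15 : P (A2 * m4) := mul3 _ _ _ kA3 k14 (by rw [h.a3]; group)
  have k16 : P (m3 * m4) := mul3 _ _ _ kA2m3 k15 (by
    calc A2⁻¹ * m3 * (A2 * m4) = A2⁻¹ * (m3 * A2) * m4 := by group
      _ = m3 * m4 := by rw [cm3]; group)
  have k17 : P (m3 * A3) := mul3 _ _ _ k16 kA3m4 (by rw [cm4']; group)
  have k18 : P (A2 * B2⁻¹) := mul3 _ _ _ k17 kB3n3 (by
    rw [cn3']
    calc m3 * A3 * (n3 * B3⁻¹) = m3 * (A3 * n3) * B3⁻¹ := by group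
      _ = m3 * A2 * B3⁻¹ := by rw [h.a3]; group
      _ = A2 * (m3 * B3⁻¹) := by rw [cm3]; group
      _ = A2 * B2⁻¹ := by rw [h.b3]; group)
  have k19 : P (B1⁻¹ * n2⁻¹) := mul3 _ _ _ kA1m2 k18 (by
    rw [cm2']
    calc m2 * A1⁻¹ * (A2 * B2⁻¹) = m2 * (A1⁻¹ * A2) * B2⁻¹ := by group
      _ = m2 * (B2 * n2)⁻¹ := by rw [h.a2]; group
      _ = m2 * (n2 * B2)⁻¹ := by rw [cn2]
      _ = m2 * B2⁻¹ * n2⁻¹ := by group
      _ = B1⁻¹ * n2⁻¹ := by rw [h.b2]; group)
  exact kA2 (mul3 _ _ _ kA1B1 k19 (by rw [h.a2]; group))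

/-- No cut is fixed by `B0` and moved down by `A0` (second lemma). -/
lemma caseB (hP : PCone P)
    {A0 A1 A2 A3 A4 B0 B1 B2 B3 B4 m1 m2 m3 m4 m5 n1 n2 n3 n4 n5 : G}
    (h : Loop A0 A1 A2 A3 A4 B0 B1 B2 B3 B4 m1 m2 m3 m4 m5 n1 n2 n3 n4 n5)
    (hp : FracPos m1 A0) (hB : P B0) (hB' : P B0⁻¹) (hA : ¬ P A0) : False := by
  have mul3 : ∀ a b c : G, P a → P b → a * b = c → P c := fun a b c ha hb hab =>
    hab ▸ hP.mul a b ha hb
  have cm1' : A0⁻¹ * m1 = m1 * A0⁻¹ := by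
    have : Commute m1 A0 := h.f1.comm
    exact this.symm.inv_left.eq
  have cn1' : B1⁻¹ * n1 = n1 * B1⁻¹ := by
    have : Commute n1 B1 := h.g1.comm
    exact this.symm.inv_left.eq
  have cn2' : B2⁻¹ * n2 = n2 * B2⁻¹ := by
    have : Commute n2 B2 := h.g2.comm
    exact this.symm.inv_left.eq
  have cn3 : n3 * B3 = B3 * n3 := h.g3.comm
  have cm4 : A3⁻¹ * m4⁻¹ = m4⁻¹ * A3⁻¹ := by
    have : Commute m4 A3 := h.f4.comm
    exact this.symm.inv_inv.eq
  have kA0' : P A0⁻¹ := (hP.total A0).resolve_left hA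
  have kn5' : P n5⁻¹ := h.g5.r3 hP hB'
  have kA4n : ¬ P A4 := fun ha => hA (mul3 _ _ _ ha kn5' h.a5.symm)
  have kA4' : P A4⁻¹ := (hP.total A4).resolve_left kA4n
  have kA4m5 : P (A4⁻¹ * m5) := h.f5.r4 hP kA4'
  have km5' : P m5⁻¹ := h.f5.r3 hP kA4'
  have kB4 : P B4 := mul3 _ _ _ hB km5' (by rw [h.b5]; group)
  have kB4n4 : P (B4 * n4⁻¹) := h.g4.r2 hP kB4
  have kB4A3 : P (B4 * A3⁻¹) := mul3 _ _ _ kB4n4 kA4' (by rw [h.a4]; group)
  have k6 : P (m5⁻¹ * A3⁻¹) := mul3 _ _ _ hB' kB4A3 (by rw [h.b5]; group)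
  have k7 : P (A4⁻¹ * A3⁻¹) := mul3 _ _ _ kA4m5 k6 (by group)
  have km1n : ¬ P m1 := fun hm => hA (hp.s1 hP hm)
  have kB1n : ¬ P B1 := fun hb => km1n (mul3 _ _ _ hB' hb (by rw [h.b1]; group))
  have kB1' : P B1⁻¹ := (hP.total B1).resolve_left kB1n
  have kB1n1 : P (B1⁻¹ * n1) := h.g1.r4 hP kB1'
  have kA0m1 : P (A0⁻¹ * m1) := h.f1.r4 hP kA0'
  have k11 : P (B1 * A0⁻¹) := mul3 _ _ _ hB kA0m1 (by rw [cm1', h.b1]; group)
  have kA1' : P A1⁻¹ := mul3 _ _ _ kB1n1 k11 (by rw [cn1', h.a1]; group)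
  have km2' : P m2⁻¹ := h.f2.r3 hP kA1'
  have kB2n : ¬ P B2 := fun hb => kB1n (mul3 _ _ _ hb km2' (by rw [h.b2]; group))
  have kB2' : P B2⁻¹ := (hP.total B2).resolve_left kB2n
  have kB2n2 : P (B2⁻¹ * n2) := h.g2.r4 hP kB2'
  have fin : P B3 → P (B3 * A3⁻¹) → False := by
    intro kB3 k16
    have kB3n3 : P (B3 * n3⁻¹) := h.g3.r2 hP kB3
    rcases hP.total A2 with kA2 | kA2'
    · have k19 : P (A2 * m3⁻¹) := h.f3.r2 hP kA2
      have k20 : P (n3 * B2) := mul3 _ _ _ k16 k19 (by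
        calc B3 * A3⁻¹ * (A2 * m3⁻¹) = (B3 * n3) * m3⁻¹ := by rw [h.a3]; group
          _ = n3 * B2 := by rw [← cn3, h.b3]; group)
      have k21 : P (A3⁻¹ * A1) := mul3 _ _ _ k20 kB2n2 (by
        rw [cn2', h.a3, h.a2]
        calc n3 * B2 * (n2 * B2⁻¹) = n3 * (B2 * n2) * B2⁻¹ := by group
          _ = n3 * (n2 * B2) * B2⁻¹ := by
            have : n2 * B2 = B2 * n2 := h.g2.comm
            rw [this]
          _ = (A1 * n2⁻¹ * n3⁻¹)⁻¹ * A1 := by group)
      have k22 : P A3⁻¹ := mul3 _ _ _ k21 kA1' (by group)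
      have k23 : P (n3 * m3⁻¹) := mul3 _ _ _ k22 k19 (by rw [h.a3]; group)
      exact kB2n (mul3 _ _ _ kB3n3 k23 (by rw [h.b3]; group))
    · have km3' : P m3⁻¹ := h.f3.r3 hP kA2'
      exact kB2n (mul3 _ _ _ kB3 km3' (by rw [h.b3]; group))
  rcases hP.total A3 with kA3 | kA3'
  · have k14 : P (A3 * m4⁻¹) := h.f4.r2 hP kA3
    have k15 : P (A4⁻¹ * m4⁻¹) := mul3 _ _ _ k7 k14 (by group)
    have k16 : P (B3 * A3⁻¹) := mul3 _ _ _ kB4n4 k15 (by
      calc B4 * n4⁻¹ * (A4⁻¹ * m4⁻¹) = B4 * (A3⁻¹ * m4⁻¹) := by rw [h.a4]; group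
        _ = B3 * A3⁻¹ := by rw [cm4, h.b4]; group)
    have k17 : P B3 := mul3 _ _ _ kB4A3 k14 (by rw [h.b4]; group)
    exact fin k17 k16
  · have km4' : P m4⁻¹ := h.f4.r3 hP kA3'
    have k17 : P B3 := mul3 _ _ _ kB4 km4' (by rw [h.b4]; group)
    exact fin k17 (mul3 _ _ _ k17 kA3' rfl)

end Cone

/-- Periodic form of a closed word of five pairs of fractional twists. -/
structure PLoop {G : Type*} [Group G] (A B m n : ℕ → G) : Prop where
  perA : ∀ i, A (i + 5) = A i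
  perB : ∀ i, B (i + 5) = B i
  stepB : ∀ i, B (i + 1) = B i * m (i + 1)
  stepA : ∀ i, A (i + 1) = A i * (n (i + 1))⁻¹
  fm : ∀ i, Frac (m (i + 1)) (A i)
  fn : ∀ i, Frac (n (i + 1)) (B (i + 1))
  zm : ∀ i, FracPos (m (i + 1)) (A i) ∨ ∃ d, 1 ≤ d ∧ m (i + 1) ^ d = 1
  zn : ∀ i, FracPos (n (i + 1)) (B (i + 1)) ∨ ∃ d, 1 ≤ d ∧ n (i + 1) ^ d = 1
  pm : ∃ i, FracPos (m (i + 1)) (A i)
  pn : ∃ i, FracPos (n (i + 1)) (B (i + 1))

section PL

variable {G : Type*} [Group G] {A B m n : ℕ → G} {P : G → Prop}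

lemma PLoop.toLoop (h : PLoop A B m n) (i : ℕ) :
    Loop (A i) (A (i + 1)) (A (i + 2)) (A (i + 3)) (A (i + 4))
      (B i) (B (i + 1)) (B (i + 2)) (B (i + 3)) (B (i + 4))
      (m (i + 1)) (m (i + 2)) (m (i + 3)) (m (i + 4)) (m (i + 5))
      (n (i + 1)) (n (i + 2)) (n (i + 3)) (n (i + 4)) (n (i + 5)) where
  b1 := h.stepB i
  b2 := h.stepB (i + 1)
  b3 := h.stepB (i + 2)
  b4 := h.stepB (i + 3)
  b5 := by rw [← h.perB i]; exact h.stepB (i + 4)
  a1 := h.stepA i
  a2 := h.stepA (i + 1)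
  a3 := h.stepA (i + 2)
  a4 := h.stepA (i + 3)
  a5 := by
    have := h.stepA (i + 4)
    rw [show i + 4 + 1 = i + 5 from rfl, h.perA i] at this
    exact this
  f1 := h.fm i
  f2 := h.fm (i + 1)
  f3 := h.fm (i + 2)
  f4 := h.fm (i + 3)
  f5 := h.fm (i + 4)
  g1 := h.fn i
  g2 := h.fn (i + 1)
  g3 := h.fn (i + 2)
  g4 := h.fn (i + 3)
  g5 := by
    have := h.fn (i + 4)
    rw [show i + 4 + 1 = i + 5 from rfl, h.perB i] at this
    exact this

lemma torsion_fix (hP : PCone P) {x : G} (h : ∃ d, 1 ≤ d ∧ x ^ d = 1) : P x ∧ P x⁻¹ := by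
  obtain ⟨d, h1, h2⟩ := h
  constructor
  · exact hP.of_pow h1 (by rw [h2]; exact hP.one)
  · exact hP.of_pow h1 (by rw [inv_pow, h2, inv_one]; exact hP.one)

omit [Group G] in
lemma per_mul {f : ℕ → G} (hf : ∀ i, f (i + 5) = f i) (i k : ℕ) : f (i + 5 * k) = f i := by
  induction k with
  | zero => rfl
  | succ k ih => rw [show i + 5 * (k + 1) = i + 5 * k + 5 by ring, hf, ih]

lemma PLoop.m_eq (h : PLoop A B m n) (i : ℕ) : m (i + 1) = (B i)⁻¹ * B (i + 1) := by
  rw [h.stepB i]; group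

lemma PLoop.n_eq (h : PLoop A B m n) (i : ℕ) : n (i + 1) = (A (i + 1))⁻¹ * A i := by
  rw [h.stepA i]; group

/-- There are positive exponents arbitrarily far. -/
lemma PLoop.pm_ge (h : PLoop A B m n) (i : ℕ) :
    ∃ k, FracPos (m (i + k + 1)) (A (i + k)) := by
  obtain ⟨j, hj⟩ := h.pm
  refine ⟨j + 4 * i, ?_⟩
  have e : i + (j + 4 * i) = j + 5 * i := by ring
  have e1 : m (j + 5 * i + 1) = m (j + 1) := by
    rw [h.m_eq, h.m_eq, per_mul h.perB, show j + 5 * i + 1 = j + 1 + 5 * i by ring,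
      per_mul h.perB]
  rw [e, e1, per_mul h.perA]
  exact hj

lemma PLoop.pn_ge (h : PLoop A B m n) (i : ℕ) :
    ∃ k, FracPos (n (i + k + 1)) (B (i + k + 1)) := by
  obtain ⟨j, hj⟩ := h.pn
  refine ⟨j + 4 * i, ?_⟩
  have e : i + (j + 4 * i) = j + 5 * i := by ring
  have e1 : n (j + 5 * i + 1) = n (j + 1) := by
    rw [h.n_eq, h.n_eq, per_mul h.perA, show j + 5 * i + 1 = j + 1 + 5 * i by ring,
      per_mul h.perA]
  rw [e, e1, show j + 5 * i + 1 = j + 1 + 5 * i by ring, per_mul h.perB]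
  exact hj

lemma PLoop.noFixA_aux (hP : PCone P) (h : PLoop A B m n) (k : ℕ) : ∀ i : ℕ,
    FracPos (n (i + k + 1)) (B (i + k + 1)) → P (A i) → P (A i)⁻¹ → ¬ P (B i)⁻¹ → False := by
  induction k with
  | zero =>
    intro i hk hA hA' hB
    exact caseA hP (h.toLoop i) hk hA hA' hB
  | succ k ih =>
    intro i hk hA hA' hB
    rcases h.zn i with hz | hz
    · exact caseA hP (h.toLoop i) hz hA hA' hB
    · obtain ⟨t1, t2⟩ := torsion_fix hP hz
      have m1 : P (m (i + 1)) := (h.fm i).r1 hP hA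
      refine ih (i + 1) ?_ ?_ ?_ ?_
      · rw [show i + 1 + k = i + (k + 1) by ring]; exact hk
      · rw [h.stepA i]; exact hP.mul _ _ hA t2
      · rw [h.stepA i, mul_inv_rev, inv_inv]; exact hP.mul _ _ t1 hA'
      · intro hc
        apply hB
        have : (B i)⁻¹ = m (i + 1) * (B (i + 1))⁻¹ := by rw [h.stepB i]; group
        rw [this]
        exact hP.mul _ _ m1 hc

lemma PLoop.noFixA (hP : PCone P) (h : PLoop A B m n) (i : ℕ) (hA : P (A i))
    (hA' : P (A i)⁻¹) : P (B i)⁻¹ := by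
  by_contra hB
  obtain ⟨k, hk⟩ := h.pn_ge i
  exact h.noFixA_aux hP k i hk hA hA' hB

lemma PLoop.noFixB_aux (hP : PCone P) (h : PLoop A B m n) (k : ℕ) : ∀ i : ℕ,
    FracPos (m (i + k + 1)) (A (i + k)) → P (B i) → P (B i)⁻¹ → ¬ P (A i) → False := by
  induction k with
  | zero =>
    intro i hk hB hB' hA
    exact caseB hP (h.toLoop i) hk hB hB' hA
  | succ k ih =>
    intro i hk hB hB' hA
    rcases h.zm i with hz | hz
    · exact caseB hP (h.toLoop i) hz hB hB' hA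
    · obtain ⟨t1, t2⟩ := torsion_fix hP hz
      have b1 : P (B (i + 1)) := by rw [h.stepB i]; exact hP.mul _ _ hB t1
      have b1' : P (B (i + 1))⁻¹ := by
        rw [h.stepB i, mul_inv_rev]; exact hP.mul _ _ t2 hB'
      have n1 : P (n (i + 1)) := (h.fn i).r1 hP b1
      refine ih (i + 1) ?_ b1 b1' ?_
      · rw [show i + 1 + k = i + (k + 1) by ring]; exact hk
      · intro hc
        apply hA
        have : A i = A (i + 1) * n (i + 1) := by rw [h.stepA i]; group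
        rw [this]
        exact hP.mul _ _ hc n1

lemma PLoop.noFixB (hP : PCone P) (h : PLoop A B m n) (i : ℕ) (hB : P (B i))
    (hB' : P (B i)⁻¹) : P (A i) := by
  by_contra hA
  obtain ⟨k, hk⟩ := h.pm_ge i
  exact h.noFixB_aux hP k i hk hB hB' hA

/-- `x` fixes the cut. -/
def Fix (P : G → Prop) (x : G) : Prop := P x ∧ P x⁻¹

lemma Fix.mul (hP : PCone P) {x y : G} (hx : Fix P x) (hy : Fix P y) : Fix P (x * y) :=
  ⟨hP.mul _ _ hx.1 hy.1, by rw [mul_inv_rev]; exact hP.mul _ _ hy.2 hx.2⟩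

lemma Fix.inv {x : G} (hx : Fix P x) : Fix P x⁻¹ := ⟨hx.2, by rw [inv_inv]; exact hx.1⟩

lemma Frac.fix (hP : PCone P) {m a : G} (h : Frac m a) (ha : Fix P a) : Fix P m :=
  ⟨h.r1 hP ha.1, h.r3 hP ha.2⟩

lemma PLoop.fixAB (hP : PCone P) (h : PLoop A B m n) (i : ℕ) (hA : Fix P (A i)) :
    Fix P (B i) := by
  refine ⟨?_, h.noFixA hP i hA.1 hA.2⟩
  have := h.noFixA (P := fun g => P g⁻¹) hP.opp i hA.2 (by rw [inv_inv]; exact hA.1)
  simpa using this

lemma PLoop.fixBA (hP : PCone P) (h : PLoop A B m n) (i : ℕ) (hB : Fix P (B i)) :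
    Fix P (A i) := by
  refine ⟨h.noFixB hP i hB.1 hB.2, ?_⟩
  exact h.noFixB (P := fun g => P g⁻¹) hP.opp i hB.2 (by rw [inv_inv]; exact hB.1)

lemma PLoop.fix_succ (hP : PCone P) (h : PLoop A B m n) (i : ℕ) (hA : Fix P (A i))
    (hB : Fix P (B i)) : Fix P (A (i + 1)) ∧ Fix P (B (i + 1)) := by
  have hm := (h.fm i).fix hP hA
  have hB1 : Fix P (B (i + 1)) := by rw [h.stepB i]; exact hB.mul hP hm
  have hn := (h.fn i).fix hP hB1
  refine ⟨?_, hB1⟩
  rw [h.stepA i]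
  exact hA.mul hP hn.inv

lemma PLoop.fix_all (hP : PCone P) (h : PLoop A B m n) (i : ℕ) (hA : Fix P (A i))
    (hB : Fix P (B i)) (j : ℕ) : Fix P (A j) ∧ Fix P (B j) := by
  have key : ∀ k, Fix P (A (i + k)) ∧ Fix P (B (i + k)) := by
    intro k
    induction k with
    | zero => exact ⟨hA, hB⟩
    | succ k ih => exact h.fix_succ hP (i + k) ih.1 ih.2
  have := key (j + 4 * i)
  rw [show i + (j + 4 * i) = j + 5 * i by ring, per_mul h.perA, per_mul h.perB] at this
  exact this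

end PL

section Signs

set_option synthInstance.maxSize 4096 in
set_option maxRecDepth 10000 in
/-- The only sign patterns compatible with the rules are constant. -/
lemma signs : ∀ a0 a1 a2 a3 a4 : Bool, ∀ b0 b1 b2 b3 b4 : Bool,
    (a0 = b0 → b1 = b0) → (a1 = b1 → b2 = b1) → (a2 = b2 → b3 = b2) → (a3 = b3 → b4 = b3) →
    (a4 = b4 → b0 = b4) →
    (b1 ≠ a0 → a1 = a0) → (b2 ≠ a1 → a2 = a1) → (b3 ≠ a2 → a3 = a2) → (b4 ≠ a3 → a4 = a3) →
    (b0 ≠ a4 → a0 = a4) →
    (b0 = b1 ∨ a0 = a1) → (b1 = b2 ∨ a1 = a2) → (b2 = b3 ∨ a2 = a3) → (b3 = b4 ∨ a3 = a4) →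
    (b4 = b0 ∨ a4 = a0) →
    (a0 = a1 ∨ b1 = b2) → (a1 = a2 ∨ b2 = b3) → (a2 = a3 ∨ b3 = b4) → (a3 = a4 ∨ b4 = b0) →
    (a4 = a0 ∨ b0 = b1) →
    a0 = a1 ∧ a0 = a2 ∧ a0 = a3 ∧ a0 = a4 := by
  decide

end Signs

section Main

variable {G : Type*} [Group G] {A B m n : ℕ → G}

theorem PLoop.not_leftOrderable (h : PLoop A B m n)
    (hgen : Subgroup.closure (Set.range A ∪ Set.range B) = ⊤) : ¬ LeftOrderable G := by
  rintro ⟨hnt, ord, hmul⟩
  have hmono : ∀ f g h : G, g < h → f * g < f * h := by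
    intro f g h hgh
    exact lt_of_le_of_ne (hmul f g h hgh.le) (by intro he; exact hgh.ne (mul_left_cancel he))
  -- the cone at a cut
  have hcone : ∀ L : LowerSet G, PCone (fun g : G => L ≤ cutHom hmul g L) := by
    intro L
    constructor
    · intro a b ha hb
      rw [map_mul, RelIso.mul_apply]
      exact ha.trans ((cutHom hmul a).monotone hb)
    · intro a
      rw [map_inv]
      rcases le_total L (cutHom hmul a L) with h1 | h1
      · exact Or.inl h1
      · exact Or.inr (inv_ge_of_le h1)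
  have hfixiff : ∀ (L : LowerSet G) (x : G),
      Fix (fun g : G => L ≤ cutHom hmul g L) x ↔ cutHom hmul x L = L := by
    intro L x
    constructor
    · rintro ⟨h1, h2⟩
      refine le_antisymm ?_ h1
      have h3 := (cutHom hmul x).monotone h2
      rw [map_inv, RelIso.apply_inv_self] at h3
      exact h3
    · intro h1
      refine ⟨h1.ge, ?_⟩
      change L ≤ cutHom hmul x⁻¹ L
      rw [map_inv]
      exact inv_ge_of_le h1.le
  have allA : ∀ i, (∀ s : G, s < A i * s) ∨ (∀ s : G, A i * s < s) := by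
    intro i
    refine sign_const hmul hgen ?_
    intro L hL y hy
    have hA := (hfixiff L (A i)).mpr hL
    have hB := h.fixAB (hcone L) i hA
    rcases hy with ⟨j, rfl⟩ | ⟨j, rfl⟩
    · exact (hfixiff L _).mp (h.fix_all (hcone L) i hA hB j).1
    · exact (hfixiff L _).mp (h.fix_all (hcone L) i hA hB j).2
  have allB : ∀ i, (∀ s : G, s < B i * s) ∨ (∀ s : G, B i * s < s) := by
    intro i
    refine sign_const hmul hgen ?_
    intro L hL y hy
    have hB := (hfixiff L (B i)).mpr hL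
    have hA := h.fixBA (hcone L) i hB
    rcases hy with ⟨j, rfl⟩ | ⟨j, rfl⟩
    · exact (hfixiff L _).mp (h.fix_all (hcone L) i hA hB j).1
    · exact (hfixiff L _).mp (h.fix_all (hcone L) i hA hB j).2
  -- the cone at a point
  have hpt : ∀ s : G, PCone (fun g : G => s ≤ g * s) := by
    intro s
    constructor
    · intro a b ha hb
      rw [mul_assoc]
      exact ha.trans (hmul a _ _ hb)
    · intro a
      rcases le_total s (a * s) with h1 | h1
      · exact Or.inl h1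
      · right
        have := hmul a⁻¹ _ _ h1
        rwa [← mul_assoc, inv_mul_cancel, one_mul] at this
  have inv_of : ∀ (a s : G), a * s ≤ s → s ≤ a⁻¹ * s := by
    intro a s h1
    have := hmul a⁻¹ _ _ h1
    rwa [← mul_assoc, inv_mul_cancel, one_mul] at this
  -- pointwise consequences
  have mup : ∀ i, (∀ s : G, s < A i * s) → ∀ s : G, s ≤ m (i + 1) * s := fun i hi s =>
    (h.fm i).r1 (hpt s) (hi s).le
  have mle : ∀ i, (∀ s : G, s < A i * s) → ∀ s : G, m (i + 1) * s ≤ A i * s := by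
    intro i hi s
    have h1 : m (i + 1) * s ≤ A i * (m (i + 1))⁻¹ * (m (i + 1) * s) :=
      (h.fm i).r2 (hpt (m (i + 1) * s)) (hi _).le
    rwa [show A i * (m (i + 1))⁻¹ * (m (i + 1) * s) = A i * s by group] at h1
  have mdn : ∀ i, (∀ s : G, A i * s < s) → ∀ s : G, m (i + 1) * s ≤ s := by
    intro i hi s
    have h1 : s ≤ (m (i + 1))⁻¹ * s := (h.fm i).r3 (hpt s) (inv_of _ _ (hi s).le)
    have := hmul (m (i + 1)) _ _ h1
    rwa [← mul_assoc (m (i + 1)), mul_inv_cancel, one_mul] at this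
  have mge : ∀ i, (∀ s : G, A i * s < s) → ∀ s : G, A i * s ≤ m (i + 1) * s := by
    intro i hi s
    have h1 : s ≤ (A i)⁻¹ * m (i + 1) * s := (h.fm i).r4 (hpt s) (inv_of _ _ (hi s).le)
    have := hmul (A i) _ _ h1
    rwa [show A i * ((A i)⁻¹ * m (i + 1) * s) = m (i + 1) * s by group] at this
  have nup : ∀ i, (∀ s : G, s < B (i + 1) * s) → ∀ s : G, s ≤ n (i + 1) * s := fun i hi s =>
    (h.fn i).r1 (hpt s) (hi s).le
  have nle : ∀ i, (∀ s : G, s < B (i + 1) * s) → ∀ s : G, n (i + 1) * s ≤ B (i + 1) * s := by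
    intro i hi s
    have h1 : n (i + 1) * s ≤ B (i + 1) * (n (i + 1))⁻¹ * (n (i + 1) * s) :=
      (h.fn i).r2 (hpt (n (i + 1) * s)) (hi _).le
    rwa [show B (i + 1) * (n (i + 1))⁻¹ * (n (i + 1) * s) = B (i + 1) * s by group] at h1
  have ndn : ∀ i, (∀ s : G, B (i + 1) * s < s) → ∀ s : G, n (i + 1) * s ≤ s := by
    intro i hi s
    have h1 : s ≤ (n (i + 1))⁻¹ * s := (h.fn i).r3 (hpt s) (inv_of _ _ (hi s).le)
    have := hmul (n (i + 1)) _ _ h1
    rwa [← mul_assoc (n (i + 1)), mul_inv_cancel, one_mul] at this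
  have nge : ∀ i, (∀ s : G, B (i + 1) * s < s) → ∀ s : G, B (i + 1) * s ≤ n (i + 1) * s := by
    intro i hi s
    have h1 : s ≤ (B (i + 1))⁻¹ * n (i + 1) * s :=
      (h.fn i).r4 (hpt s) (inv_of _ _ (hi s).le)
    have := hmul (B (i + 1)) _ _ h1
    rwa [show B (i + 1) * ((B (i + 1))⁻¹ * n (i + 1) * s) = n (i + 1) * s by group] at this
  have eB : ∀ i s, B (i + 1) * s = B i * (m (i + 1) * s) := by
    intro i s; rw [h.stepB i, mul_assoc]
  have eA : ∀ i s, A (i + 1) * (n (i + 1) * s) = A i * s := by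
    intro i s; rw [h.stepA i]; group
  -- signs
  classical
  let sa : ℕ → Bool := fun i => decide (∀ s : G, s < A i * s)
  let sb : ℕ → Bool := fun i => decide (∀ s : G, s < B i * s)
  have sa1 : ∀ i, sa i = true → ∀ s : G, s < A i * s := fun i hi => of_decide_eq_true hi
  have sa0 : ∀ i, sa i = false → ∀ s : G, A i * s < s := fun i hi =>
    (allA i).resolve_left (of_decide_eq_false hi)
  have sb1 : ∀ i, sb i = true → ∀ s : G, s < B i * s := fun i hi => of_decide_eq_true hi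
  have sb0 : ∀ i, sb i = false → ∀ s : G, B i * s < s := fun i hi =>
    (allB i).resolve_left (of_decide_eq_false hi)
  have c1 : ∀ i, sa i = sb i → sb (i + 1) = sb i := by
    intro i hi
    rcases hb : sb i with _ | _
    · rw [hb] at hi
      by_contra hc
      have hc' : sb (i + 1) = true := by simpa using hc
      have h1 := sb1 _ hc' 1
      have h2 := hmul (B i) _ _ (mdn i (sa0 i hi) 1)
      rw [← eB] at h2
      exact absurd (h1.trans_le (h2.trans (sb0 i hb 1).le)) (lt_irrefl _)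
    · rw [hb] at hi
      by_contra hc
      have hc' : sb (i + 1) = false := by simpa using hc
      have h1 := sb0 _ hc' 1
      have h2 := hmul (B i) _ _ (mup i (sa1 i hi) 1)
      rw [← eB] at h2
      exact absurd ((sb1 i hb 1).trans_le (h2.trans h1.le)) (lt_irrefl _)
  have c2 : ∀ i, sb (i + 1) ≠ sa i → sa (i + 1) = sa i := by
    intro i hi
    rcases ha : sa i with _ | _
    · rw [ha] at hi
      have hb : sb (i + 1) = true := by simpa using hi
      by_contra hc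
      have hc' : sa (i + 1) = true := by simpa using hc
      have h1 := sa1 _ hc' (n (i + 1) * 1)
      rw [eA] at h1
      have h2 := nup i (sb1 _ hb) 1
      exact absurd (h2.trans_lt (h1.trans (sa0 i ha 1))) (lt_irrefl _)
    · rw [ha] at hi
      have hb : sb (i + 1) = false := by simpa using hi
      by_contra hc
      have hc' : sa (i + 1) = false := by simpa using hc
      have h1 := sa0 _ hc' (n (i + 1) * 1)
      rw [eA] at h1
      have h2 := ndn i (sb0 _ hb) 1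
      exact absurd ((sa1 i ha 1).trans (h1.trans_le h2)) (lt_irrefl _)
  have c3 : ∀ i, sb i = sb (i + 1) ∨ sa i = sa (i + 1) := by
    intro i
    by_contra hc
    push Not at hc
    obtain ⟨hb, ha⟩ := hc
    have hab : sb (i + 1) = sa i := by
      by_contra hn
      exact ha (c2 i hn).symm
    rcases hs : sa i with _ | _
    · have b1 : sb (i + 1) = false := by rw [hab, hs]
      have b0 : sb i = true := by rw [b1] at hb; simpa using hb
      have a1 : sa (i + 1) = true := by rw [hs] at ha; simpa using ha.symm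
      -- `A i s ≤ m s < B (i+1) s ≤ n s`, but `n s < A i s`
      have h1 := mge i (sa0 i hs) 1
      have h2 := sb1 i b0 (m (i + 1) * 1)
      rw [← eB] at h2
      have h3 := nge i (sb0 _ b1) 1
      have h4 := sa1 _ a1 (n (i + 1) * 1)
      rw [eA] at h4
      exact absurd (h1.trans_lt (h2.trans_le (h3.trans h4.le))) (lt_irrefl _)
    · have b1 : sb (i + 1) = true := by rw [hab, hs]
      have b0 : sb i = false := by rw [b1] at hb; simpa using hb
      have a1 : sa (i + 1) = false := by rw [hs] at ha; simpa using ha.symm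
      have h1 := mle i (sa1 i hs) 1
      have h2 := sb0 i b0 (m (i + 1) * 1)
      rw [← eB] at h2
      have h3 := nle i (sb1 _ b1) 1
      have h4 := sa0 _ a1 (n (i + 1) * 1)
      rw [eA] at h4
      exact absurd (h4.trans_le (h3.trans (h2.le.trans h1))) (lt_irrefl _)
  have c4 : ∀ i, sa i = sa (i + 1) ∨ sb (i + 1) = sb (i + 2) := by
    intro i
    by_contra hc
    push Not at hc
    obtain ⟨ha, hb⟩ := hc
    have hab : sb (i + 1) = sa i := by
      by_contra hn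
      exact ha (c2 i hn).symm
    rcases hs : sb (i + 1) with _ | _
    · have a0 : sa i = false := by rw [← hab, hs]
      have a1 : sa (i + 1) = true := by rw [a0] at ha; simpa using ha.symm
      have b2 : sb (i + 2) = true := by rw [hs] at hb; simpa using hb.symm
      -- `k = 1`: `B₁ A₀ k < B₁ k ≤ n k < B₁ (m₂ (n k)) ≤ B₁ (A₁ (n k)) = B₁ A₀ k`
      have h1 := hmono (B (i + 1)) _ _ (sa0 i a0 1)
      have h2 := nge i (sb0 _ hs) 1
      have h3 := sb1 _ b2 (n (i + 1) * 1)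
      rw [show i + 2 = i + 1 + 1 from rfl, eB] at h3
      have h4 := hmul (B (i + 1)) _ _ (mle (i + 1) (sa1 _ a1) (n (i + 1) * 1))
      rw [eA] at h4
      exact absurd (h1.trans_le (h2.trans (h3.le.trans h4))) (lt_irrefl _)
    · have a0 : sa i = true := by rw [← hab, hs]
      have a1 : sa (i + 1) = false := by rw [a0] at ha; simpa using ha.symm
      have b2 : sb (i + 2) = false := by rw [hs] at hb; simpa using hb.symm
      have h1 := hmono (B (i + 1)) _ _ (sa1 i a0 1)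
      have h2 := nle i (sb1 _ hs) 1
      have h3 := sb0 _ b2 (n (i + 1) * 1)
      rw [show i + 2 = i + 1 + 1 from rfl, eB] at h3
      have h4 := hmul (B (i + 1)) _ _ (mge (i + 1) (sa0 _ a1) (n (i + 1) * 1))
      rw [eA] at h4
      exact absurd ((h4.trans h3.le).trans_lt (h2.trans_lt h1)) (lt_irrefl _)
  have ea : sa 5 = sa 0 := by
    have : A 5 = A 0 := h.perA 0
    change decide _ = decide _
    rw [this]
  have eb : sb 5 = sb 0 := by
    have : B 5 = B 0 := h.perB 0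
    change decide _ = decide _
    rw [this]
  have eb6 : sb 6 = sb 1 := by
    have : B 6 = B 1 := h.perB 1
    change decide _ = decide _
    rw [this]
  have hconst : sa 0 = sa 1 ∧ sa 0 = sa 2 ∧ sa 0 = sa 3 ∧ sa 0 = sa 4 := by
    have c1' := c1 4
    have c2' := c2 4
    have c3' := c3 4
    have c4' := c4 3
    have c4'' := c4 4
    rw [show (4 : ℕ) + 1 = 5 from rfl, eb] at c1'
    rw [show (4 : ℕ) + 1 = 5 from rfl, eb, ea] at c2'
    rw [show (4 : ℕ) + 1 = 5 from rfl, eb, ea] at c3'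
    rw [show (3 : ℕ) + 2 = 5 from rfl, eb] at c4'
    rw [show (4 : ℕ) + 1 = 5 from rfl, show (4 : ℕ) + 2 = 6 from rfl, eb, ea, eb6] at c4''
    exact signs (sa 0) (sa 1) (sa 2) (sa 3) (sa 4) (sb 0) (sb 1) (sb 2) (sb 3) (sb 4)
      (c1 0) (c1 1) (c1 2) (c1 3) c1' (c2 0) (c2 1) (c2 2) (c2 3) c2'
      (c3 0) (c3 1) (c3 2) (c3 3) c3' (c4 0) (c4 1) (c4 2) c4' c4''
  have saper : ∀ i, sa (i + 5) = sa i := by
    intro i
    change decide _ = decide _
    rw [h.perA i]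
  have hall : ∀ i, sa i = sa 0 := by
    obtain ⟨h1, h2, h3, h4⟩ := hconst
    intro i
    induction i using Nat.strong_induction_on with
    | _ i ih =>
      match i with
      | 0 => rfl
      | 1 => exact h1.symm
      | 2 => exact h2.symm
      | 3 => exact h3.symm
      | 4 => exact h4.symm
      | k + 5 => rw [saper]; exact ih k (by omega)
  obtain ⟨j, hj⟩ := h.pm
  obtain ⟨c, d, hc, hd, hmd⟩ := hj.pow
  rcases hs : sa 0 with _ | _
  · have hneg : ∀ i, ∀ s : G, A i * s < s := fun i => sa0 i (by rw [hall, hs])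
    have hanti : Antitone (fun i => B i * (1 : G)) := by
      apply antitone_nat_of_succ_le
      intro i
      rw [eB]
      exact hmul _ _ _ (mdn i (hneg i) 1)
    have hstrict : B (j + 1) * (1 : G) < B j * 1 := by
      rw [eB]
      refine hmono _ _ _ (lt_of_le_of_ne (mdn j (hneg j) 1) ?_)
      intro he
      have hm1 : m (j + 1) = 1 := by simpa using he
      rw [hm1, one_pow] at hmd
      have h1 : ∀ k : ℕ, A j ^ (k + 1) < 1 := by
        intro k
        induction k with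
        | zero => simpa using hneg j 1
        | succ k ih =>
          rw [pow_succ']
          have := hmono (A j) _ _ ih
          rw [mul_one] at this
          exact this.trans (by simpa using hneg j 1)
      obtain ⟨k, rfl⟩ : ∃ k, c = k + 1 := ⟨c - 1, by omega⟩
      have := h1 k
      rw [← hmd] at this
      exact absurd this (lt_irrefl _)
    have h5 : B (j + 5) * (1 : G) ≤ B (j + 1) * 1 := hanti (by omega : j + 1 ≤ j + 5)
    rw [h.perB j] at h5
    exact absurd (h5.trans_lt hstrict) (lt_irrefl _)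
  · have hpos : ∀ i, ∀ s : G, s < A i * s := fun i => sa1 i (by rw [hall, hs])
    have hanti : Monotone (fun i => B i * (1 : G)) := by
      apply monotone_nat_of_le_succ
      intro i
      rw [eB]
      exact hmul _ _ _ (mup i (hpos i) 1)
    have hstrict : B j * (1 : G) < B (j + 1) * 1 := by
      rw [eB]
      refine hmono _ _ _ (lt_of_le_of_ne (mup j (hpos j) 1) ?_)
      intro he
      have hm1 : m (j + 1) = 1 := by simpa using he.symm
      rw [hm1, one_pow] at hmd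
      have h1 : ∀ k : ℕ, 1 < A j ^ (k + 1) := by
        intro k
        induction k with
        | zero => simpa using hpos j 1
        | succ k ih =>
          rw [pow_succ']
          have := hmono (A j) _ _ ih
          rw [mul_one] at this
          exact (show (1 : G) < A j by simpa using hpos j 1).trans this
      obtain ⟨k, rfl⟩ : ∃ k, c = k + 1 := ⟨c - 1, by omega⟩
      have := h1 k
      rw [← hmd] at this
      exact absurd this (lt_irrefl _)
    have h5 : B (j + 1) * (1 : G) ≤ B (j + 5) * 1 := hanti (by omega : j + 1 ≤ j + 5)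
    rw [h.perB j] at h5
    exact absurd (hstrict.trans_le h5) (lt_irrefl _)

end Main

end Pool.Agent.Helper71.SubE8
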