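import Mathlib
import Pool.Agent.Helper71.SubE8Core

/-!
Cyclic words of three pairs of fractional twists with coefficients in
`[0, ∞), [0, 1], [0, 1], [0, ∞), [0, 1], [0, 1]`.
-/

set_option autoImplicit false

namespace Pool.Agent.Helper71.SubD

open Pool.Agent.Helper31.OrderAct
open Pool.Agent.Helper71.SubE8

section Cone

variable {G : Type*} [Group G] {P : G → Prop}

/-- `m` commutes with `a` and is a fractional power of `a` with nonnegative exponent. -/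
structure FracU (m a : G) : Prop where
  comm : m * a = a * m
  pow : ∃ c d : ℕ, 1 ≤ d ∧ m ^ d = a ^ c

lemma FracU.inv {m a : G} (h : FracU m a) : FracU m⁻¹ a⁻¹ where
  comm := by
    have := h.comm
    rw [← mul_inv_rev, ← mul_inv_rev, this]
  pow := by
    obtain ⟨c, d, h1, h3⟩ := h.pow
    exact ⟨c, d, h1, by rw [inv_pow, inv_pow, h3]⟩

lemma FracU.r1 (hP : PCone P) {m a : G} (h : FracU m a) (ha : P a) : P m := by
  obtain ⟨c, d, h1, h3⟩ := h.pow
  apply hP.of_pow h1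
  rw [h3]
  exact hP.pow ha c

lemma FracU.r3 (hP : PCone P) {m a : G} (h : FracU m a) (ha : P a⁻¹) : P m⁻¹ :=
  h.inv.r1 hP ha

lemma _root_.Pool.Agent.Helper71.SubE8.Frac.toU {m a : G} (h : Frac m a) : FracU m a where
  comm := h.comm
  pow := by
    obtain ⟨c, d, h1, _, h3⟩ := h.pow
    exact ⟨c, d, h1, h3⟩

/-- The relations of the closed word. -/
structure Loop (A0 A1 A2 B0 B1 B2 m1 m2 m3 n1 n2 n3 : G) : Prop where
  b1 : B1 = B0 * m1
  b2 : B2 = B1 * m2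
  b3 : B0 = B2 * m3
  a1 : A1 = A0 * n1⁻¹
  a2 : A2 = A1 * n2⁻¹
  a3 : A0 = A2 * n3⁻¹
  f1 : FracU m1 A0
  f2 : Frac m2 A1
  f3 : Frac m3 A2
  g1 : Frac n1 B1
  g2 : FracU n2 B2
  g3 : Frac n3 B0

variable {A0 A1 A2 B0 B1 B2 m1 m2 m3 n1 n2 n3 : G}

lemma caseA0 (hP : PCone P) (h : Loop A0 A1 A2 B0 B1 B2 m1 m2 m3 n1 n2 n3)
    (hq : FracPos n1 B1) (hA : P A0) (hA' : P A0⁻¹) (hB : ¬ P B0⁻¹) : False := by
  have mul3 : ∀ a b c : G, P a → P b → a * b = c → P c := fun a b c ha hb hab =>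
    hab ▸ hP.mul a b ha hb
  have kB0 : P B0 := (hP.total B0).resolve_right hB
  have km1 : P m1 := h.f1.r1 hP hA
  have kB1' : ¬ P B1⁻¹ := fun hb => hB (mul3 _ _ _ km1 hb (by rw [h.b1]; group))
  have kA1 : ¬ P A1 := fun ha =>
    kB1' (hq.s2 hP (mul3 _ _ _ hA' ha (by rw [h.a1]; group)))
  have kn3 : P n3 := h.g3.r1 hP kB0
  have kB0n3 : P (B0 * n3⁻¹) := h.g3.r2 hP kB0
  have kA2 : P A2 := mul3 _ _ _ hA kn3 (by rw [h.a3]; group)
  have kA2m3 : P (A2 * m3⁻¹) := h.f3.r2 hP kA2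
  have k1 : P (B0 * A2⁻¹) := mul3 _ _ _ kB0n3 hA' (by rw [h.a3]; group)
  have kB2 : P B2 := mul3 _ _ _ k1 kA2m3 (by rw [h.b3]; group)
  have kn2 : P n2 := h.g2.r1 hP kB2
  exact kA1 (mul3 _ _ _ kA2 kn2 (by rw [h.a2]; group))

lemma caseA1 (hP : PCone P) (h : Loop A0 A1 A2 B0 B1 B2 m1 m2 m3 n1 n2 n3)
    (hq : FracPos n2 B2) (hA : P A1) (hA' : P A1⁻¹) (hB : ¬ P B1⁻¹) : False := by
  have mul3 : ∀ a b c : G, P a → P b → a * b = c → P c := fun a b c ha hb hab =>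
    hab ▸ hP.mul a b ha hb
  have kB1 : P B1 := (hP.total B1).resolve_right hB
  have km2 : P m2 := h.f2.r1 hP hA
  have kB2' : ¬ P B2⁻¹ := fun hb => hB (mul3 _ _ _ km2 hb (by rw [h.b2]; group))
  have kB2 : P B2 := (hP.total B2).resolve_right kB2'
  have kn2 : P n2 := h.g2.r1 hP kB2
  have kA2' : P A2⁻¹ := mul3 _ _ _ kn2 hA' (by rw [h.a2]; group)
  have kA2 : ¬ P A2 := fun ha =>
    kB2' (hq.s2 hP (mul3 _ _ _ hA' ha (by rw [h.a2]; group)))
  have kn1 : P n1 := h.g1.r1 hP kB1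
  have kA0 : P A0 := mul3 _ _ _ hA kn1 (by rw [h.a1]; group)
  have kB0 : ¬ P B0 := fun hb =>
    kA2 (mul3 _ _ _ kA0 (h.g3.r1 hP hb) (by rw [h.a3]; group))
  have kB0' : P B0⁻¹ := (hP.total B0).resolve_left kB0
  have k1 : P (B0⁻¹ * n3) := h.g3.r4 hP kB0'
  have cn3 : B0⁻¹ * n3 = n3 * B0⁻¹ := by
    have : Commute n3 B0 := h.g3.comm
    exact this.symm.inv_left.eq
  have k2 : P (A2 * B0⁻¹) := mul3 _ _ _ kA0 k1 (by
    rw [cn3]
    calc A0 * (n3 * B0⁻¹) = (A0 * n3) * B0⁻¹ := by group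
      _ = A2 * B0⁻¹ := by rw [h.a3]; group)
  have k3 : P (A2⁻¹ * m3) := h.f3.r4 hP kA2'
  have cm3 : A2⁻¹ * m3 = m3 * A2⁻¹ := by
    have : Commute m3 A2 := h.f3.comm
    exact this.symm.inv_left.eq
  exact kB2' (mul3 _ _ _ k3 k2 (by rw [cm3, h.b3]; group))

lemma caseA2 (hP : PCone P) (h : Loop A0 A1 A2 B0 B1 B2 m1 m2 m3 n1 n2 n3)
    (hq : FracPos n3 B0) (hA : P A2) (hA' : P A2⁻¹) (hB : ¬ P B2⁻¹) : False := by
  have mul3 : ∀ a b c : G, P a → P b → a * b = c → P c := fun a b c ha hb hab =>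
    hab ▸ hP.mul a b ha hb
  have kB2 : P B2 := (hP.total B2).resolve_right hB
  have km3 : P m3 := h.f3.r1 hP hA
  have km3' : P m3⁻¹ := h.f3.r3 hP hA'
  have kB0' : ¬ P B0⁻¹ := fun hb => hB (mul3 _ _ _ km3 hb (by rw [h.b3]; group))
  have kB0 : P B0 := (hP.total B0).resolve_right kB0'
  have kn3 : P n3 := h.g3.r1 hP kB0
  have kA0' : P A0⁻¹ := mul3 _ _ _ kn3 hA' (by rw [h.a3]; group)
  have kA0 : ¬ P A0 := fun ha =>
    kB0' (hq.s2 hP (mul3 _ _ _ hA' ha (by rw [h.a3]; group)))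
  have kn2 : P n2 := h.g2.r1 hP kB2
  have kA1 : P A1 := mul3 _ _ _ hA kn2 (by rw [h.a2]; group)
  have kA1m2 : P (A1 * m2⁻¹) := h.f2.r2 hP kA1
  have kB1 : ¬ P B1 := fun hb =>
    kA0 (mul3 _ _ _ kA1 (h.g1.r1 hP hb) (by rw [h.a1]; group))
  have kB1' : P B1⁻¹ := (hP.total B1).resolve_left kB1
  have k1 : P (B1⁻¹ * n1) := h.g1.r4 hP kB1'
  have hm : m1 = m3⁻¹ * m2⁻¹ := by
    have e1 : B0 = B0 * (m1 * m2 * m3) := by
      calc B0 = B2 * m3 := h.b3
        _ = B1 * m2 * m3 := by rw [← h.b2]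
        _ = B0 * m1 * m2 * m3 := by rw [← h.b1]
        _ = B0 * (m1 * m2 * m3) := by group
    have e2 : m1 * m2 * m3 = 1 := by
      have := e1.symm
      rwa [mul_eq_left] at this
    calc m1 = (m1 * m2 * m3) * m3⁻¹ * m2⁻¹ := by group
      _ = m3⁻¹ * m2⁻¹ := by rw [e2]; group
  have cm2 : A1 * m2⁻¹ = m2⁻¹ * A1 := by
    have : Commute m2 A1 := h.f2.comm
    exact this.symm.inv_right.eq
  have k2 : P (m1 * A1) := mul3 _ _ _ km3' kA1m2 (by rw [cm2, hm]; group)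
  have cm1 : A0⁻¹ * m1 = m1 * A0⁻¹ := by
    have : Commute m1 A0 := h.f1.comm
    exact this.symm.inv_left.eq
  have k3 : P (m1 * n1⁻¹) := mul3 _ _ _ kA0' k2 (by
    calc A0⁻¹ * (m1 * A1) = (A0⁻¹ * m1) * A1 := by group
      _ = m1 * n1⁻¹ := by rw [cm1, h.a1]; group)
  have cn1 : B1⁻¹ * n1 = n1 * B1⁻¹ := by
    have : Commute n1 B1 := h.g1.comm
    exact this.symm.inv_left.eq
  exact kB0' (mul3 _ _ _ k3 k1 (by rw [cn1, h.b1]; group))

lemma caseB0 (hP : PCone P) (h : Loop A0 A1 A2 B0 B1 B2 m1 m2 m3 n1 n2 n3)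
    (hp : FracPos m1 A0) (hB : P B0) (hB' : P B0⁻¹) (hA : ¬ P A0) : False := by
  have mul3 : ∀ a b c : G, P a → P b → a * b = c → P c := fun a b c ha hb hab =>
    hab ▸ hP.mul a b ha hb
  have kn3' : P n3⁻¹ := h.g3.r3 hP hB'
  have kA2 : ¬ P A2 := fun ha => hA (mul3 _ _ _ ha kn3' h.a3.symm)
  have kA2' : P A2⁻¹ := (hP.total A2).resolve_left kA2
  have km3' : P m3⁻¹ := h.f3.r3 hP kA2'
  have km1 : ¬ P m1 := fun hm => hA (hp.s1 hP hm)
  have km1' : P m1⁻¹ := (hP.total m1).resolve_left km1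
  have kB1 : ¬ P B1 := fun hb => km1 (mul3 _ _ _ hB' hb (by rw [h.b1]; group))
  have kB1' : P B1⁻¹ := (hP.total B1).resolve_left kB1
  have k1 : P (B1⁻¹ * n1) := h.g1.r4 hP kB1'
  have hm : m1 = m3⁻¹ * m2⁻¹ := by
    have e1 : B0 = B0 * (m1 * m2 * m3) := by
      calc B0 = B2 * m3 := h.b3
        _ = B1 * m2 * m3 := by rw [← h.b2]
        _ = B0 * m1 * m2 * m3 := by rw [← h.b1]
        _ = B0 * (m1 * m2 * m3) := by group
    have e2 : m1 * m2 * m3 = 1 := by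
      have := e1.symm
      rwa [mul_eq_left] at this
    calc m1 = (m1 * m2 * m3) * m3⁻¹ * m2⁻¹ := by group
      _ = m3⁻¹ * m2⁻¹ := by rw [e2]; group
  have km2' : ¬ P m2⁻¹ := fun hm2 => km1 (mul3 _ _ _ km3' hm2 hm.symm)
  have kA1 : P A1 := by
    by_contra hc
    exact km2' (h.f2.r3 hP ((hP.total A1).resolve_left hc))
  have kA1m2 : P (A1 * m2⁻¹) := h.f2.r2 hP kA1
  have cm2 : A1 * m2⁻¹ = m2⁻¹ * A1 := by
    have : Commute m2 A1 := h.f2.comm
    exact this.symm.inv_right.eq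
  have k2 : P (m1 * A1) := mul3 _ _ _ km3' kA1m2 (by rw [cm2, hm]; group)
  have cn1 : B1⁻¹ * n1 = n1 * B1⁻¹ := by
    have : Commute n1 B1 := h.g1.comm
    exact this.symm.inv_left.eq
  have k3 : P (n1 * m1⁻¹) := mul3 _ _ _ k1 hB (by rw [cn1, h.b1]; group)
  have cm1 : m1 * A0 = A0 * m1 := h.f1.comm
  exact hA (mul3 _ _ _ k2 k3 (by
    calc m1 * A1 * (n1 * m1⁻¹) = m1 * (A1 * n1) * m1⁻¹ := by group
      _ = m1 * A0 * m1⁻¹ := by rw [h.a1]; group
      _ = A0 := by rw [cm1]; group))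

lemma caseB1 (hP : PCone P) (h : Loop A0 A1 A2 B0 B1 B2 m1 m2 m3 n1 n2 n3)
    (hp : FracPos m2 A1) (hB : P B1) (hB' : P B1⁻¹) (hA : ¬ P A1) : False := by
  have mul3 : ∀ a b c : G, P a → P b → a * b = c → P c := fun a b c ha hb hab =>
    hab ▸ hP.mul a b ha hb
  have kn1' : P n1⁻¹ := h.g1.r3 hP hB'
  have kA0 : ¬ P A0 := fun ha => hA (mul3 _ _ _ ha kn1' h.a1.symm)
  have kA0' : P A0⁻¹ := (hP.total A0).resolve_left kA0
  have km1' : P m1⁻¹ := h.f1.r3 hP kA0'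
  have kB0 : P B0 := mul3 _ _ _ hB km1' (by rw [h.b1]; group)
  have kB0n3 : P (B0 * n3⁻¹) := h.g3.r2 hP kB0
  have k1 : P (B0 * A2⁻¹) := mul3 _ _ _ kB0n3 kA0' (by rw [h.a3]; group)
  have km2 : ¬ P m2 := fun hm => hA (hp.s1 hP hm)
  have kB2 : ¬ P B2 := fun hb => km2 (mul3 _ _ _ hB' hb (by rw [h.b2]; group))
  rcases hP.total A2 with kA2 | kA2'
  · have k2 : P (A2 * m3⁻¹) := h.f3.r2 hP kA2
    exact kB2 (mul3 _ _ _ k1 k2 (by rw [h.b3]; group))
  · have km3' : P m3⁻¹ := h.f3.r3 hP kA2'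
    exact kB2 (mul3 _ _ _ kB0 km3' (by rw [h.b3]; group))

lemma caseB2 (hP : PCone P) (h : Loop A0 A1 A2 B0 B1 B2 m1 m2 m3 n1 n2 n3)
    (hp : FracPos m3 A2) (hB : P B2) (hB' : P B2⁻¹) (hA : ¬ P A2) : False := by
  have mul3 : ∀ a b c : G, P a → P b → a * b = c → P c := fun a b c ha hb hab =>
    hab ▸ hP.mul a b ha hb
  have kn2' : P n2⁻¹ := h.g2.r3 hP hB'
  have kA1 : ¬ P A1 := fun ha => hA (mul3 _ _ _ ha kn2' h.a2.symm)
  have kA1' : P A1⁻¹ := (hP.total A1).resolve_left kA1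
  have km2' : P m2⁻¹ := h.f2.r3 hP kA1'
  have kB1 : P B1 := mul3 _ _ _ hB km2' (by rw [h.b2]; group)
  have km3 : ¬ P m3 := fun hm => hA (hp.s1 hP hm)
  have kB0 : ¬ P B0 := fun hb => km3 (mul3 _ _ _ hB' hb (by rw [h.b3]; group))
  have kB0' : P B0⁻¹ := (hP.total B0).resolve_left kB0
  have kA2' : P A2⁻¹ := (hP.total A2).resolve_left hA
  have k1 : P (B0⁻¹ * n3) := h.g3.r4 hP kB0'
  have k2 : P (A2⁻¹ * m3) := h.f3.r4 hP kA2'
  have cn3 : B0⁻¹ * n3 = n3 * B0⁻¹ := by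
    have : Commute n3 B0 := h.g3.comm
    exact this.symm.inv_left.eq
  have cm3 : A2⁻¹ * m3 = m3 * A2⁻¹ := by
    have : Commute m3 A2 := h.f3.comm
    exact this.symm.inv_left.eq
  have k3 : P (B0 * A2⁻¹) := mul3 _ _ _ hB k2 (by
    rw [cm3]
    calc B2 * (m3 * A2⁻¹) = (B2 * m3) * A2⁻¹ := by group
      _ = B0 * A2⁻¹ := by rw [← h.b3])
  have k4 : P A0⁻¹ := mul3 _ _ _ k1 k3 (by
    rw [cn3]
    calc n3 * B0⁻¹ * (B0 * A2⁻¹) = n3 * A2⁻¹ := by group
      _ = A0⁻¹ := by rw [h.a3]; group)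
  have km1' : P m1⁻¹ := h.f1.r3 hP k4
  exact kB0 (mul3 _ _ _ kB1 km1' (by rw [h.b1]; group))

end Cone

section Full

variable {G : Type*} [Group G] {P : G → Prop}

/-- `x` is a positive fractional power of `y` or torsion. -/
def PT (x y : G) : Prop := FracPos x y ∨ ∃ d, 1 ≤ d ∧ x ^ d = 1

/-- The closed word together with the information on vanishing exponents. -/
structure Word (A0 A1 A2 B0 B1 B2 m1 m2 m3 n1 n2 n3 : G) : Prop
    extends Loop A0 A1 A2 B0 B1 B2 m1 m2 m3 n1 n2 n3 where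
  zm1 : PT m1 A0
  zm2 : PT m2 A1
  zm3 : PT m3 A2
  zn1 : PT n1 B1
  zn2 : PT n2 B2
  zn3 : PT n3 B0
  pm : FracPos m1 A0 ∨ FracPos m2 A1 ∨ FracPos m3 A2
  pn : FracPos n1 B1 ∨ FracPos n2 B2 ∨ FracPos n3 B0

lemma stepA (hP : PCone P) {A A' B B' m n : G} (h1 : A' = A * n⁻¹) (h2 : B' = B * m)
    (hm : FracU m A) (hn : ∃ d, 1 ≤ d ∧ n ^ d = 1) (hA : P A) (hA' : P A⁻¹) (hB : ¬ P B⁻¹) :
    P A' ∧ P A'⁻¹ ∧ ¬ P B'⁻¹ := by
  obtain ⟨t1, t2⟩ := torsion_fix hP hn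
  refine ⟨?_, ?_, ?_⟩
  · rw [h1]; exact hP.mul _ _ hA t2
  · rw [h1, mul_inv_rev, inv_inv]; exact hP.mul _ _ t1 hA'
  · intro hc
    apply hB
    have : B⁻¹ = m * B'⁻¹ := by rw [h2]; group
    rw [this]
    exact hP.mul _ _ (hm.r1 hP hA) hc

lemma stepB (hP : PCone P) {A A' B B' m n : G} (h1 : A' = A * n⁻¹) (h2 : B' = B * m)
    (hn : FracU n B') (hm : ∃ d, 1 ≤ d ∧ m ^ d = 1) (hB : P B) (hB' : P B⁻¹) (hA : ¬ P A) :
    P B' ∧ P B'⁻¹ ∧ ¬ P A' := by
  obtain ⟨t1, t2⟩ := torsion_fix hP hm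
  have b1 : P B' := by rw [h2]; exact hP.mul _ _ hB t1
  have b2 : P B'⁻¹ := by rw [h2, mul_inv_rev]; exact hP.mul _ _ t2 hB'
  refine ⟨b1, b2, ?_⟩
  intro hc
  apply hA
  have : A = A' * n := by rw [h1]; group
  rw [this]
  exact hP.mul _ _ hc (hn.r1 hP b1)

variable {A0 A1 A2 B0 B1 B2 m1 m2 m3 n1 n2 n3 : G}

lemma Word.fA (hP : PCone P) (h : Word A0 A1 A2 B0 B1 B2 m1 m2 m3 n1 n2 n3) :
    (P A0 → P A0⁻¹ → P B0⁻¹) ∧ (P A1 → P A1⁻¹ → P B1⁻¹) ∧ (P A2 → P A2⁻¹ → P B2⁻¹) := by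
  have hl := h.toLoop
  have s0 : (∃ d, 1 ≤ d ∧ n1 ^ d = 1) → P A0 → P A0⁻¹ → ¬ P B0⁻¹ →
      P A1 ∧ P A1⁻¹ ∧ ¬ P B1⁻¹ := fun t => stepA hP h.a1 h.b1 h.f1 t
  have s1 : (∃ d, 1 ≤ d ∧ n2 ^ d = 1) → P A1 → P A1⁻¹ → ¬ P B1⁻¹ →
      P A2 ∧ P A2⁻¹ ∧ ¬ P B2⁻¹ := fun t => stepA hP h.a2 h.b2 h.f2.toU t
  have s2 : (∃ d, 1 ≤ d ∧ n3 ^ d = 1) → P A2 → P A2⁻¹ → ¬ P B2⁻¹ →
      P A0 ∧ P A0⁻¹ ∧ ¬ P B0⁻¹ := fun t => stepA hP h.a3 h.b3 h.f3.toU t
  have c0 := fun (q : FracPos n1 B1) => caseA0 hP hl q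
  have c1 := fun (q : FracPos n2 B2) => caseA1 hP hl q
  have c2 := fun (q : FracPos n3 B0) => caseA2 hP hl q
  -- the three cases in which everything is torsion until the positive one
  refine ⟨fun x y => ?_, fun x y => ?_, fun x y => ?_⟩
  · by_contra z
    rcases h.zn1 with t | t
    · exact c0 t x y z
    · obtain ⟨x1, y1, z1⟩ := s0 t x y z
      rcases h.zn2 with t2 | t2
      · exact c1 t2 x1 y1 z1
      · obtain ⟨x2, y2, z2⟩ := s1 t2 x1 y1 z1
        rcases h.zn3 with t3 | t3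
        · exact c2 t3 x2 y2 z2
        · obtain ⟨x3, y3, z3⟩ := s2 t3 x2 y2 z2
          rcases h.pn with q | q | q
          · exact c0 q x3 y3 z3
          · exact c1 q x1 y1 z1
          · exact c2 q x2 y2 z2
  · by_contra z
    rcases h.zn2 with t | t
    · exact c1 t x y z
    · obtain ⟨x1, y1, z1⟩ := s1 t x y z
      rcases h.zn3 with t2 | t2
      · exact c2 t2 x1 y1 z1
      · obtain ⟨x2, y2, z2⟩ := s2 t2 x1 y1 z1
        rcases h.zn1 with t3 | t3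
        · exact c0 t3 x2 y2 z2
        · obtain ⟨x3, y3, z3⟩ := s0 t3 x2 y2 z2
          rcases h.pn with q | q | q
          · exact c0 q x2 y2 z2
          · exact c1 q x3 y3 z3
          · exact c2 q x1 y1 z1
  · by_contra z
    rcases h.zn3 with t | t
    · exact c2 t x y z
    · obtain ⟨x1, y1, z1⟩ := s2 t x y z
      rcases h.zn1 with t2 | t2
      · exact c0 t2 x1 y1 z1
      · obtain ⟨x2, y2, z2⟩ := s0 t2 x1 y1 z1
        rcases h.zn2 with t3 | t3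
        · exact c1 t3 x2 y2 z2
        · obtain ⟨x3, y3, z3⟩ := s1 t3 x2 y2 z2
          rcases h.pn with q | q | q
          · exact c0 q x1 y1 z1
          · exact c1 q x2 y2 z2
          · exact c2 q x3 y3 z3

lemma Word.fB (hP : PCone P) (h : Word A0 A1 A2 B0 B1 B2 m1 m2 m3 n1 n2 n3) :
    (P B0 → P B0⁻¹ → P A0) ∧ (P B1 → P B1⁻¹ → P A1) ∧ (P B2 → P B2⁻¹ → P A2) := by
  have hl := h.toLoop
  have s0 : (∃ d, 1 ≤ d ∧ m1 ^ d = 1) → P B0 → P B0⁻¹ → ¬ P A0 →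
      P B1 ∧ P B1⁻¹ ∧ ¬ P A1 := fun t => stepB hP h.a1 h.b1 h.g1.toU t
  have s1 : (∃ d, 1 ≤ d ∧ m2 ^ d = 1) → P B1 → P B1⁻¹ → ¬ P A1 →
      P B2 ∧ P B2⁻¹ ∧ ¬ P A2 := fun t => stepB hP h.a2 h.b2 h.g2 t
  have s2 : (∃ d, 1 ≤ d ∧ m3 ^ d = 1) → P B2 → P B2⁻¹ → ¬ P A2 →
      P B0 ∧ P B0⁻¹ ∧ ¬ P A0 := fun t => stepB hP h.a3 h.b3 h.g3.toU t
  have c0 := fun (q : FracPos m1 A0) => caseB0 hP hl q
  have c1 := fun (q : FracPos m2 A1) => caseB1 hP hl q
  have c2 := fun (q : FracPos m3 A2) => caseB2 hP hl q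
  refine ⟨fun x y => ?_, fun x y => ?_, fun x y => ?_⟩
  · by_contra z
    rcases h.zm1 with t | t
    · exact c0 t x y z
    · obtain ⟨x1, y1, z1⟩ := s0 t x y z
      rcases h.zm2 with t2 | t2
      · exact c1 t2 x1 y1 z1
      · obtain ⟨x2, y2, z2⟩ := s1 t2 x1 y1 z1
        rcases h.zm3 with t3 | t3
        · exact c2 t3 x2 y2 z2
        · obtain ⟨x3, y3, z3⟩ := s2 t3 x2 y2 z2
          rcases h.pm with q | q | q
          · exact c0 q x3 y3 z3
          · exact c1 q x1 y1 z1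
          · exact c2 q x2 y2 z2
  · by_contra z
    rcases h.zm2 with t | t
    · exact c1 t x y z
    · obtain ⟨x1, y1, z1⟩ := s1 t x y z
      rcases h.zm3 with t2 | t2
      · exact c2 t2 x1 y1 z1
      · obtain ⟨x2, y2, z2⟩ := s2 t2 x1 y1 z1
        rcases h.zm1 with t3 | t3
        · exact c0 t3 x2 y2 z2
        · obtain ⟨x3, y3, z3⟩ := s0 t3 x2 y2 z2
          rcases h.pm with q | q | q
          · exact c0 q x2 y2 z2
          · exact c1 q x3 y3 z3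
          · exact c2 q x1 y1 z1
  · by_contra z
    rcases h.zm3 with t | t
    · exact c2 t x y z
    · obtain ⟨x1, y1, z1⟩ := s2 t x y z
      rcases h.zm1 with t2 | t2
      · exact c0 t2 x1 y1 z1
      · obtain ⟨x2, y2, z2⟩ := s0 t2 x1 y1 z1
        rcases h.zm2 with t3 | t3
        · exact c1 t3 x2 y2 z2
        · obtain ⟨x3, y3, z3⟩ := s1 t3 x2 y2 z2
          rcases h.pm with q | q | q
          · exact c0 q x1 y1 z1
          · exact c1 q x2 y2 z2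
          · exact c2 q x3 y3 z3

lemma _root_.Pool.Agent.Helper71.SubD.FracU.fix (hP : PCone P) {m a : G} (h : FracU m a)
    (ha : Fix P a) : Fix P m := ⟨h.r1 hP ha.1, h.r3 hP ha.2⟩

/-- A cut fixed by one of the curves is fixed by all of them. -/
lemma Word.fixAll (hP : PCone P) (h : Word A0 A1 A2 B0 B1 B2 m1 m2 m3 n1 n2 n3)
    (hf : Fix P A0 ∨ Fix P A1 ∨ Fix P A2 ∨ Fix P B0 ∨ Fix P B1 ∨ Fix P B2) :
    (Fix P A0 ∧ Fix P A1 ∧ Fix P A2) ∧ (Fix P B0 ∧ Fix P B1 ∧ Fix P B2) := by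
  obtain ⟨fa0, fa1, fa2⟩ := h.fA hP
  obtain ⟨ga0, ga1, ga2⟩ := h.fA (P := fun g => P g⁻¹) hP.opp
  obtain ⟨fb0, fb1, fb2⟩ := h.fB hP
  obtain ⟨gb0, gb1, gb2⟩ := h.fB (P := fun g => P g⁻¹) hP.opp
  simp only [inv_inv] at ga0 ga1 ga2 gb0 gb1 gb2
  have ab0 : Fix P A0 → Fix P B0 := fun x => ⟨ga0 x.2 x.1, fa0 x.1 x.2⟩
  have ab1 : Fix P A1 → Fix P B1 := fun x => ⟨ga1 x.2 x.1, fa1 x.1 x.2⟩
  have ab2 : Fix P A2 → Fix P B2 := fun x => ⟨ga2 x.2 x.1, fa2 x.1 x.2⟩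
  have ba0 : Fix P B0 → Fix P A0 := fun x => ⟨fb0 x.1 x.2, gb0 x.2 x.1⟩
  have ba1 : Fix P B1 → Fix P A1 := fun x => ⟨fb1 x.1 x.2, gb1 x.2 x.1⟩
  have ba2 : Fix P B2 → Fix P A2 := fun x => ⟨fb2 x.1 x.2, gb2 x.2 x.1⟩
  have s01 : Fix P A0 → Fix P B0 → Fix P A1 ∧ Fix P B1 := by
    intro x y
    have hB : Fix P B1 := by rw [h.b1]; exact y.mul hP (h.f1.fix hP x)
    refine ⟨?_, hB⟩
    rw [h.a1]; exact x.mul hP (h.g1.fix hP hB).inv
  have s12 : Fix P A1 → Fix P B1 → Fix P A2 ∧ Fix P B2 := by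
    intro x y
    have hB : Fix P B2 := by rw [h.b2]; exact y.mul hP (h.f2.fix hP x)
    refine ⟨?_, hB⟩
    rw [h.a2]; exact x.mul hP (h.g2.fix hP hB).inv
  have s20 : Fix P A2 → Fix P B2 → Fix P A0 ∧ Fix P B0 := by
    intro x y
    have hB : Fix P B0 := by rw [h.b3]; exact y.mul hP (h.f3.fix hP x)
    refine ⟨?_, hB⟩
    rw [h.a3]; exact x.mul hP (h.g3.fix hP hB).inv
  have from0 : Fix P A0 → Fix P B0 →
      (Fix P A0 ∧ Fix P A1 ∧ Fix P A2) ∧ (Fix P B0 ∧ Fix P B1 ∧ Fix P B2) := by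
    intro x y
    obtain ⟨x1, y1⟩ := s01 x y
    obtain ⟨x2, y2⟩ := s12 x1 y1
    exact ⟨⟨x, x1, x2⟩, ⟨y, y1, y2⟩⟩
  have from2 : Fix P A2 → Fix P B2 →
      (Fix P A0 ∧ Fix P A1 ∧ Fix P A2) ∧ (Fix P B0 ∧ Fix P B1 ∧ Fix P B2) := by
    intro x y
    obtain ⟨x1, y1⟩ := s20 x y
    exact from0 x1 y1
  have from1 : Fix P A1 → Fix P B1 →
      (Fix P A0 ∧ Fix P A1 ∧ Fix P A2) ∧ (Fix P B0 ∧ Fix P B1 ∧ Fix P B2) := by
    intro x y
    obtain ⟨x1, y1⟩ := s12 x y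
    exact from2 x1 y1
  rcases hf with x | x | x | x | x | x
  · exact from0 x (ab0 x)
  · exact from1 x (ab1 x)
  · exact from2 x (ab2 x)
  · exact from0 (ba0 x) x
  · exact from1 (ba1 x) x
  · exact from2 (ba2 x) x

end Full

section Signs

/-- The only sign patterns compatible with the rules are constant. -/
lemma signs : ∀ a0 a1 a2 b0 b1 b2 : Bool,
    (a0 = b0 → b1 = b0) → (a1 = b1 → b2 = b1) → (a2 = b2 → b0 = b2) →
    (b1 ≠ a0 → a1 = a0) → (b2 ≠ a1 → a2 = a1) → (b0 ≠ a2 → a0 = a2) →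
    (a0 = a1 ∨ b1 = b2) → (b2 = b0 ∨ a2 = a0) →
    a0 = a1 ∧ a0 = a2 := by
  decide

end Signs

section Main

variable {G : Type*} [Group G] {A0 A1 A2 B0 B1 B2 m1 m2 m3 n1 n2 n3 : G}

theorem Word.not_leftOrderable (h : Word A0 A1 A2 B0 B1 B2 m1 m2 m3 n1 n2 n3)
    (hgen : Subgroup.closure ({A0, A1, A2, B0, B1, B2} : Set G) = ⊤) : ¬ LeftOrderable G := by
  rintro ⟨hnt, ord, hmul⟩
  have hmono : ∀ f g h : G, g < h → f * g < f * h := by
    intro f g h hgh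
    exact lt_of_le_of_ne (hmul f g h hgh.le) (by intro he; exact hgh.ne (mul_left_cancel he))
  have hcone : ∀ L : LowerSet G, PCone (fun g : G => L ≤ cutHom hmul g L) := by
    intro L
    constructor
    · intro a b ha hb
      rw [map_mul, RelIso.mul_apply]
      exact ha.trans ((cutHom hmul a).monotone hb)
    · intro a
      rw [map_inv]
      rcases le_total L (cutHom hmul a L) with h1 | h1
      · exact Or.inl h1
      · exact Or.inr (inv_ge_of_le h1)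
  have hfixiff : ∀ (L : LowerSet G) (x : G),
      Fix (fun g : G => L ≤ cutHom hmul g L) x ↔ cutHom hmul x L = L := by
    intro L x
    constructor
    · rintro ⟨h1, h2⟩
      refine le_antisymm ?_ h1
      have h3 := (cutHom hmul x).monotone h2
      rw [map_inv, RelIso.apply_inv_self] at h3
      exact h3
    · intro h1
      refine ⟨h1.ge, ?_⟩
      change L ≤ cutHom hmul x⁻¹ L
      rw [map_inv]
      exact inv_ge_of_le h1.le
  have hS : ∀ x : G, (∀ L : LowerSet G, Fix (fun g : G => L ≤ cutHom hmul g L) x →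
      (Fix (fun g : G => L ≤ cutHom hmul g L) A0 ∧ Fix (fun g : G => L ≤ cutHom hmul g L) A1 ∧
        Fix (fun g : G => L ≤ cutHom hmul g L) A2) ∧
      (Fix (fun g : G => L ≤ cutHom hmul g L) B0 ∧ Fix (fun g : G => L ≤ cutHom hmul g L) B1 ∧
        Fix (fun g : G => L ≤ cutHom hmul g L) B2)) →
      (∀ s : G, s < x * s) ∨ (∀ s : G, x * s < s) := by
    intro x hx
    refine sign_const hmul hgen ?_
    intro L hL y hy
    obtain ⟨⟨h1, h2, h3⟩, ⟨h4, h5, h6⟩⟩ := hx L ((hfixiff L x).mpr hL)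
    simp only [Set.mem_insert_iff, Set.mem_singleton_iff] at hy
    rcases hy with rfl | rfl | rfl | rfl | rfl | rfl
    · exact (hfixiff L _).mp h1
    · exact (hfixiff L _).mp h2
    · exact (hfixiff L _).mp h3
    · exact (hfixiff L _).mp h4
    · exact (hfixiff L _).mp h5
    · exact (hfixiff L _).mp h6
  have tA0 := hS A0 (fun L x => h.fixAll (hcone L) (Or.inl x))
  have tA1 := hS A1 (fun L x => h.fixAll (hcone L) (Or.inr (Or.inl x)))
  have tA2 := hS A2 (fun L x => h.fixAll (hcone L) (Or.inr (Or.inr (Or.inl x))))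
  have tB0 := hS B0 (fun L x => h.fixAll (hcone L) (Or.inr (Or.inr (Or.inr (Or.inl x)))))
  have tB1 := hS B1 (fun L x =>
    h.fixAll (hcone L) (Or.inr (Or.inr (Or.inr (Or.inr (Or.inl x))))))
  have tB2 := hS B2 (fun L x =>
    h.fixAll (hcone L) (Or.inr (Or.inr (Or.inr (Or.inr (Or.inr x))))))
  -- the cone at a point
  have hpt : ∀ s : G, PCone (fun g : G => s ≤ g * s) := by
    intro s
    constructor
    · intro a b ha hb
      rw [mul_assoc]
      exact ha.trans (hmul a _ _ hb)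
    · intro a
      rcases le_total s (a * s) with h1 | h1
      · exact Or.inl h1
      · right
        have := hmul a⁻¹ _ _ h1
        rwa [← mul_assoc, inv_mul_cancel, one_mul] at this
  have inv_of : ∀ (a s : G), a * s ≤ s → s ≤ a⁻¹ * s := by
    intro a s h1
    have := hmul a⁻¹ _ _ h1
    rwa [← mul_assoc, inv_mul_cancel, one_mul] at this
  have of_inv : ∀ (a s : G), s ≤ a⁻¹ * s → a * s ≤ s := by
    intro a s h1
    have := hmul a _ _ h1
    rwa [← mul_assoc a, mul_inv_cancel, one_mul] at this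
  -- unbounded rules
  have uup : ∀ m a : G, FracU m a → (∀ s : G, s < a * s) → ∀ s : G, s ≤ m * s :=
    fun m a hm ha s => hm.r1 (hpt s) (ha s).le
  have udn : ∀ m a : G, FracU m a → (∀ s : G, a * s < s) → ∀ s : G, m * s ≤ s :=
    fun m a hm ha s => of_inv _ _ (hm.r3 (hpt s) (inv_of _ _ (ha s).le))
  have fle : ∀ m a : G, Frac m a → (∀ s : G, s < a * s) → ∀ s : G, m * s ≤ a * s := by
    intro m a hm ha s
    have h1 : m * s ≤ a * m⁻¹ * (m * s) := hm.r2 (hpt (m * s)) (ha _).le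
    rwa [show a * m⁻¹ * (m * s) = a * s by group] at h1
  have fge : ∀ m a : G, Frac m a → (∀ s : G, a * s < s) → ∀ s : G, a * s ≤ m * s := by
    intro m a hm ha s
    have h1 : s ≤ a⁻¹ * m * s := hm.r4 (hpt s) (inv_of _ _ (ha s).le)
    have := hmul a _ _ h1
    rwa [show a * (a⁻¹ * m * s) = m * s by group] at this
  classical
  let sg : G → Bool := fun x => decide (∀ s : G, s < x * s)
  have sg1 : ∀ x, sg x = true → ∀ s : G, s < x * s := fun x hx => of_decide_eq_true hx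
  have sg0 : ∀ x, ((∀ s : G, s < x * s) ∨ (∀ s : G, x * s < s)) → sg x = false →
      ∀ s : G, x * s < s := fun x hx h0 => hx.resolve_left (of_decide_eq_false h0)
  -- first rule
  have c1 : ∀ A B B' m : G, B' = B * m → FracU m A →
      ((∀ s : G, s < A * s) ∨ (∀ s : G, A * s < s)) →
      ((∀ s : G, s < B * s) ∨ (∀ s : G, B * s < s)) →
      ((∀ s : G, s < B' * s) ∨ (∀ s : G, B' * s < s)) → sg A = sg B → sg B' = sg B := by
    intro A B B' m e hm tA tB tB' hi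
    have eB : ∀ s, B' * s = B * (m * s) := by intro s; rw [e, mul_assoc]
    rcases hb : sg B with _ | _
    · rw [hb] at hi
      by_contra hc
      have hc' : sg B' = true := by simpa using hc
      have h1 := sg1 _ hc' 1
      have h2 := hmul B _ _ (udn m A hm (sg0 A tA hi) 1)
      rw [← eB] at h2
      exact absurd (h1.trans_le (h2.trans (sg0 B tB hb 1).le)) (lt_irrefl _)
    · rw [hb] at hi
      by_contra hc
      have hc' : sg B' = false := by simpa using hc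
      have h1 := sg0 _ tB' hc' 1
      have h2 := hmul B _ _ (uup m A hm (sg1 A hi) 1)
      rw [← eB] at h2
      exact absurd ((sg1 B hb 1).trans_le (h2.trans h1.le)) (lt_irrefl _)
  -- second rule
  have c2 : ∀ A A' B' n : G, A' = A * n⁻¹ → FracU n B' →
      ((∀ s : G, s < A * s) ∨ (∀ s : G, A * s < s)) →
      ((∀ s : G, s < A' * s) ∨ (∀ s : G, A' * s < s)) →
      ((∀ s : G, s < B' * s) ∨ (∀ s : G, B' * s < s)) → sg B' ≠ sg A → sg A' = sg A := by
    intro A A' B' n e hn tA tA' tB' hi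
    have eA : ∀ s, A' * (n * s) = A * s := by intro s; rw [e]; group
    rcases ha : sg A with _ | _
    · rw [ha] at hi
      have hb : sg B' = true := by simpa using hi
      by_contra hc
      have hc' : sg A' = true := by simpa using hc
      have h1 := sg1 _ hc' (n * 1)
      rw [eA] at h1
      have h2 := uup n B' hn (sg1 _ hb) 1
      exact absurd (h2.trans_lt (h1.trans (sg0 A tA ha 1))) (lt_irrefl _)
    · rw [ha] at hi
      have hb : sg B' = false := by simpa using hi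
      by_contra hc
      have hc' : sg A' = false := by simpa using hc
      have h1 := sg0 _ tA' hc' (n * 1)
      rw [eA] at h1
      have h2 := udn n B' hn (sg0 _ tB' hb) 1
      exact absurd ((sg1 A ha 1).trans (h1.trans_le h2)) (lt_irrefl _)
  have d0 := c1 A0 B0 B1 m1 h.b1 h.f1 tA0 tB0 tB1
  have d1 := c1 A1 B1 B2 m2 h.b2 h.f2.toU tA1 tB1 tB2
  have d2 := c1 A2 B2 B0 m3 h.b3 h.f3.toU tA2 tB2 tB0
  have e0 := c2 A0 A1 B1 n1 h.a1 h.g1.toU tA0 tA1 tB1
  have e1 := c2 A1 A2 B2 n2 h.a2 h.g2 tA1 tA2 tB2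
  have e2 := c2 A2 A0 B0 n3 h.a3 h.g3.toU tA2 tA0 tB0
  -- third rule at `n1`, `m2`
  have c4 : sg A0 = sg A1 ∨ sg B1 = sg B2 := by
    by_contra hc
    push Not at hc
    obtain ⟨ha, hb⟩ := hc
    have hab : sg B1 = sg A0 := by
      by_contra hn
      exact ha (e0 hn).symm
    have eB : ∀ s, B2 * s = B1 * (m2 * s) := by intro s; rw [h.b2, mul_assoc]
    have eA : ∀ s, A1 * (n1 * s) = A0 * s := by intro s; rw [h.a1]; group
    rcases hs : sg B1 with _ | _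
    · have a0 : sg A0 = false := by rw [← hab, hs]
      have a1 : sg A1 = true := by rw [a0] at ha; simpa using ha.symm
      have b2 : sg B2 = true := by rw [hs] at hb; simpa using hb.symm
      have h1 := hmono B1 _ _ (sg0 A0 tA0 a0 1)
      have h2 := fge n1 B1 h.g1 (sg0 _ tB1 hs) 1
      have h3 := sg1 _ b2 (n1 * 1)
      rw [eB] at h3
      have h4 := hmul B1 _ _ (fle m2 A1 h.f2 (sg1 _ a1) (n1 * 1))
      rw [eA] at h4
      exact absurd (h1.trans_le (h2.trans (h3.le.trans h4))) (lt_irrefl _)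
    · have a0 : sg A0 = true := by rw [← hab, hs]
      have a1 : sg A1 = false := by rw [a0] at ha; simpa using ha.symm
      have b2 : sg B2 = false := by rw [hs] at hb; simpa using hb.symm
      have h1 := hmono B1 _ _ (sg1 A0 a0 1)
      have h2 := fle n1 B1 h.g1 (sg1 _ hs) 1
      have h3 := sg0 _ tB2 b2 (n1 * 1)
      rw [eB] at h3
      have h4 := hmul B1 _ _ (fge m2 A1 h.f2 (sg0 _ tA1 a1) (n1 * 1))
      rw [eA] at h4
      exact absurd ((h4.trans h3.le).trans_lt (h2.trans_lt h1)) (lt_irrefl _)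
  -- third rule at `m3`, `n3`
  have c3 : sg B2 = sg B0 ∨ sg A2 = sg A0 := by
    by_contra hc
    push Not at hc
    obtain ⟨hb, ha⟩ := hc
    have hab : sg B0 = sg A2 := by
      by_contra hn
      exact ha (e2 hn).symm
    have eB : ∀ s, B0 * s = B2 * (m3 * s) := by
      intro s
      calc B0 * s = (B2 * m3) * s := by rw [← h.b3]
        _ = B2 * (m3 * s) := mul_assoc _ _ _
    have eA : ∀ s, A0 * (n3 * s) = A2 * s := by
      intro s
      calc A0 * (n3 * s) = (A2 * n3⁻¹) * (n3 * s) := by rw [← h.a3]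
        _ = A2 * s := by group
    rcases hs : sg A2 with _ | _
    · have b1 : sg B0 = false := by rw [hab, hs]
      have b0 : sg B2 = true := by rw [b1] at hb; simpa using hb
      have a1 : sg A0 = true := by rw [hs] at ha; simpa using ha.symm
      have h1 := fge m3 A2 h.f3 (sg0 A2 tA2 hs) 1
      have h2 := sg1 B2 b0 (m3 * 1)
      rw [← eB] at h2
      have h3 := fge n3 B0 h.g3 (sg0 _ tB0 b1) 1
      have h4 := sg1 _ a1 (n3 * 1)
      rw [eA] at h4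
      exact absurd (h1.trans_lt (h2.trans_le (h3.trans h4.le))) (lt_irrefl _)
    · have b1 : sg B0 = true := by rw [hab, hs]
      have b0 : sg B2 = false := by rw [b1] at hb; simpa using hb
      have a1 : sg A0 = false := by rw [hs] at ha; simpa using ha.symm
      have h1 := fle m3 A2 h.f3 (sg1 A2 hs) 1
      have h2 := sg0 B2 tB2 b0 (m3 * 1)
      rw [← eB] at h2
      have h3 := fle n3 B0 h.g3 (sg1 _ b1) 1
      have h4 := sg0 _ tA0 a1 (n3 * 1)
      rw [eA] at h4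
      exact absurd (h4.trans_le (h3.trans (h2.le.trans h1))) (lt_irrefl _)
  obtain ⟨k1, k2⟩ := signs (sg A0) (sg A1) (sg A2) (sg B0) (sg B1) (sg B2)
    d0 d1 d2 e0 e1 e2 c4 c3
  -- strictness of a positive letter
  have strictUp : ∀ m a : G, FracPos m a → (∀ s : G, s < a * s) → m ≠ 1 := by
    intro m a hm ha he
    obtain ⟨c, d, hc, _, hmd⟩ := hm.pow
    rw [he, one_pow] at hmd
    have h1 : ∀ k : ℕ, 1 < a ^ (k + 1) := by
      intro k
      induction k with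
      | zero => simpa using ha 1
      | succ k ih =>
        rw [pow_succ']
        have := hmono a _ _ ih
        rw [mul_one] at this
        exact (show (1 : G) < a by simpa using ha 1).trans this
    obtain ⟨k, rfl⟩ : ∃ k, c = k + 1 := ⟨c - 1, by omega⟩
    have := h1 k
    rw [← hmd] at this
    exact absurd this (lt_irrefl _)
  have strictDn : ∀ m a : G, FracPos m a → (∀ s : G, a * s < s) → m ≠ 1 := by
    intro m a hm ha he
    obtain ⟨c, d, hc, _, hmd⟩ := hm.pow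
    rw [he, one_pow] at hmd
    have h1 : ∀ k : ℕ, a ^ (k + 1) < 1 := by
      intro k
      induction k with
      | zero => simpa using ha 1
      | succ k ih =>
        rw [pow_succ']
        have := hmono a _ _ ih
        rw [mul_one] at this
        exact this.trans (show a < (1 : G) by simpa using ha 1)
    obtain ⟨k, rfl⟩ : ∃ k, c = k + 1 := ⟨c - 1, by omega⟩
    have := h1 k
    rw [← hmd] at this
    exact absurd this (lt_irrefl _)
  have hprod : m1 * (m2 * m3) = 1 := by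
    have e1 : B0 * (m1 * (m2 * m3)) = B0 := by
      calc B0 * (m1 * (m2 * m3)) = B0 * m1 * m2 * m3 := by group
        _ = B1 * m2 * m3 := by rw [← h.b1]
        _ = B2 * m3 := by rw [← h.b2]
        _ = B0 := by rw [← h.b3]
    rwa [mul_eq_left] at e1
  rcases hs : sg A0 with _ | _
  · have a0 := sg0 A0 tA0 hs
    have a1 := sg0 A1 tA1 (by rw [← k1, hs])
    have a2 := sg0 A2 tA2 (by rw [← k2, hs])
    have l1 : m1 ≤ 1 := by simpa using udn m1 A0 h.f1 a0 1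
    have l2 : m2 ≤ 1 := by simpa using udn m2 A1 h.f2.toU a1 1
    have l3 : m3 ≤ 1 := by simpa using udn m3 A2 h.f3.toU a2 1
    have l23 : m2 * m3 ≤ 1 := by
      have := hmul m2 _ _ l3
      rw [mul_one] at this
      exact this.trans l2
    have l123 : m1 * (m2 * m3) ≤ m1 := by
      have := hmul m1 _ _ l23
      rwa [mul_one] at this
    have q1 : m1 = 1 := le_antisymm l1 (by rw [hprod] at l123; exact l123)
    have q23 : m2 * m3 = 1 := by rw [q1, one_mul] at hprod; exact hprod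
    have l2' : m2 * m3 ≤ m2 := by
      have := hmul m2 _ _ l3
      rwa [mul_one] at this
    have q2 : m2 = 1 := le_antisymm l2 (by rw [q23] at l2'; exact l2')
    have q3 : m3 = 1 := by rw [q2, one_mul] at q23; exact q23
    rcases h.pm with q | q | q
    · exact strictDn _ _ q a0 q1
    · exact strictDn _ _ q a1 q2
    · exact strictDn _ _ q a2 q3
  · have a0 := sg1 A0 hs
    have a1 := sg1 A1 (by rw [← k1, hs])
    have a2 := sg1 A2 (by rw [← k2, hs])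
    have l1 : 1 ≤ m1 := by simpa using uup m1 A0 h.f1 a0 1
    have l2 : 1 ≤ m2 := by simpa using uup m2 A1 h.f2.toU a1 1
    have l3 : 1 ≤ m3 := by simpa using uup m3 A2 h.f3.toU a2 1
    have l23 : 1 ≤ m2 * m3 := by
      have := hmul m2 _ _ l3
      rw [mul_one] at this
      exact l2.trans this
    have l123 : m1 ≤ m1 * (m2 * m3) := by
      have := hmul m1 _ _ l23
      rwa [mul_one] at this
    have q1 : m1 = 1 := le_antisymm (by rw [hprod] at l123; exact l123) l1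
    have q23 : m2 * m3 = 1 := by rw [q1, one_mul] at hprod; exact hprod
    have l2' : m2 ≤ m2 * m3 := by
      have := hmul m2 _ _ l3
      rwa [mul_one] at this
    have q2 : m2 = 1 := le_antisymm (by rw [q23] at l2'; exact l2') l2
    have q3 : m3 = 1 := by rw [q2, one_mul] at q23; exact q23
    rcases h.pm with q | q | q
    · exact strictUp _ _ q a0 q1
    · exact strictUp _ _ q a1 q2
    · exact strictUp _ _ q a2 q3

end Main

end Pool.Agent.Helper71.SubD
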