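import Mathlib

set_option autoImplicit false

namespace Pool.Agent.Helper71.TfCore

open Polynomial

section Core

variable {L : Type*} [Field L]

/-- `x / d` with `x = q` etc. : membership of elements of `L` in a prime of the algebraic
integers of `L` -/
def Nin (P : Ideal (integralClosure ℤ L)) (x : L) : Prop :=
  ∃ h : IsIntegral ℤ x, (⟨x, h⟩ : integralClosure ℤ L) ∉ P

lemma nin_iff {P : Ideal (integralClosure ℤ L)} {x : L} (h : IsIntegral ℤ x) :
    Nin P x ↔ (⟨x, h⟩ : integralClosure ℤ L) ∉ P :=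
  ⟨fun ⟨_, h2⟩ => h2, fun h2 => ⟨h, h2⟩⟩

lemma nin_mul {P : Ideal (integralClosure ℤ L)} [hP : P.IsPrime] {x y : L}
    (hx : Nin P x) (hy : Nin P y) : Nin P (x * y) := by
  obtain ⟨h1, h2⟩ := hx
  obtain ⟨h3, h4⟩ := hy
  refine ⟨h1.mul h3, fun h => ?_⟩
  rcases hP.mem_or_mem (x := ⟨x, h1⟩) (y := ⟨y, h3⟩) h with h | h
  · exact h2 h
  · exact h4 h

lemma nin_of_mul {P : Ideal (integralClosure ℤ L)} {x y : L}
    (hx : IsIntegral ℤ x) (hy : IsIntegral ℤ y) (h : Nin P (x * y)) : Nin P x ∧ Nin P y := by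
  obtain ⟨h1, h2⟩ := h
  constructor
  · refine ⟨hx, fun h => h2 ?_⟩
    exact P.mul_mem_right (⟨y, hy⟩ : integralClosure ℤ L) h
  · refine ⟨hy, fun h => h2 ?_⟩
    exact P.mul_mem_left (⟨x, hx⟩ : integralClosure ℤ L) h

lemma not_nin_nat {P : Ideal (integralClosure ℤ L)} {q : ℕ}
    (hq : (q : integralClosure ℤ L) ∈ P) : ¬ Nin P (q : L) := by
  rintro ⟨h1, h2⟩
  exact h2 hq

/-- If at every prime over `q` one of the fractions `u / v'`, `v / u'` expressing `z` has a
unit denominator, then `z` is an algebraic integer. -/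
lemma integral_of_local [CharZero L] {q : ℕ} (hq : q ≠ 0) {u v : L} (hu : IsIntegral ℤ u)
    (hv : IsIntegral ℤ v) (hu0 : u ≠ 0) (hv0 : v ≠ 0)
    (h : ∀ P : Ideal (integralClosure ℤ L), P.IsPrime → (q : integralClosure ℤ L) ∈ P →
      Nin P ((q : L) / u) ∨ Nin P ((q : L) / v)) :
    IsIntegral ℤ (u * v / q) := by
  have hqL : (q : L) ≠ 0 := by exact_mod_cast hq
  let I : Ideal (integralClosure ℤ L) :=
    { carrier := {r | IsIntegral ℤ ((r : L) * (u * v / q))}
      add_mem' := by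
        intro a b ha hb
        simp only [Set.mem_ofPred_eq] at ha hb ⊢
        have : ((a + b : integralClosure ℤ L) : L) * (u * v / q) =
            (a : L) * (u * v / q) + (b : L) * (u * v / q) := by push_cast; ring
        rw [this]; exact ha.add hb
      zero_mem' := by
        simp only [Set.mem_ofPred_eq, ZeroMemClass.coe_zero, zero_mul]
        exact isIntegral_zero
      smul_mem' := by
        intro c x hx
        simp only [Set.mem_ofPred_eq, smul_eq_mul] at hx ⊢
        have : ((c * x : integralClosure ℤ L) : L) * (u * v / q) =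
            (c : L) * ((x : L) * (u * v / q)) := by push_cast; ring
        rw [this]; exact (c.2 : IsIntegral ℤ (c : L)).mul hx }
  have hI : ∀ r : integralClosure ℤ L, r ∈ I ↔ IsIntegral ℤ ((r : L) * (u * v / q)) :=
    fun r => Iff.rfl
  by_contra hcon
  have hne : I ≠ ⊤ := by
    intro htop
    have h1 : (1 : integralClosure ℤ L) ∈ I := by rw [htop]; trivial
    rw [hI] at h1
    apply hcon
    simpa using h1
  obtain ⟨P, hP, hIP⟩ := Ideal.exists_le_maximal I hne
  have hqP : (q : integralClosure ℤ L) ∈ P := by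
    apply hIP
    rw [hI]
    have : ((q : integralClosure ℤ L) : L) * (u * v / q) = u * v := by
      push_cast
      field_simp
    rw [this]
    exact hu.mul hv
  rcases h P hP.isPrime hqP with h1 | h1
  · obtain ⟨h2, h3⟩ := h1
    apply h3
    apply hIP
    rw [hI]
    have : (q : L) / u * (u * v / q) = v := by field_simp
    change IsIntegral ℤ ((q : L) / u * (u * v / q))
    rw [this]; exact hv
  · obtain ⟨h2, h3⟩ := h1
    apply h3
    apply hIP
    rw [hI]
    have : (q : L) / v * (u * v / q) = u := by field_simp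
    change IsIntegral ℤ ((q : L) / v * (u * v / q))
    rw [this]; exact hu

/-! ### three eigenvalues -/

lemma ex_pairs {l0 l1 l2 : Fin 3} (hall : ∀ l, l = l0 ∨ l = l1 ∨ l = l2)
    {R : Fin 3 → Fin 3 → Prop} (h : ∃ l l', l ≠ l' ∧ R l l') :
    R l0 l1 ∨ R l0 l2 ∨ R l1 l0 ∨ R l1 l2 ∨ R l2 l0 ∨ R l2 l1 := by
  obtain ⟨l, l', hne, hR⟩ := h
  rcases hall l with rfl | rfl | rfl <;> rcases hall l' with rfl | rfl | rfl <;> tauto

lemma prop_core {a0 b0 a1 b1 a2 b2 : Prop} (h0 : ¬ (a0 ∧ b0))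
    (st : (a0 ∧ b1) ∨ (a0 ∧ b2) ∨ (a1 ∧ b0) ∨ (a1 ∧ b2) ∨ (a2 ∧ b0) ∨ (a2 ∧ b1))
    (st' : (b0 ∧ b1) ∨ (b0 ∧ b2) ∨ (a1 ∧ a0) ∨ (a1 ∧ b2) ∨ (a2 ∧ a0) ∨ (a2 ∧ b1)) :
    b1 ∨ b2 := by
  by_contra hh
  rw [not_or] at hh
  obtain ⟨n1, n2⟩ := hh
  have ha : a0 := by
    rcases st' with h | h | h | h | h | h
    · exact (n1 h.2).elim
    · exact (n2 h.2).elim
    · exact h.2
    · exact (n2 h.2).elim
    · exact h.2
    · exact (n1 h.2).elim
  have hb : b0 := by
    rcases st with h | h | h | h | h | h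
    · exact (n1 h.2).elim
    · exact (n2 h.2).elim
    · exact h.2
    · exact (n2 h.2).elim
    · exact h.2
    · exact (n1 h.2).elim
  exact h0 ⟨ha, hb⟩

lemma third (l l' : Fin 3) (h : l ≠ l') : ∃ k, k ≠ l ∧ k ≠ l' ∧
    (∀ j, j = k ∨ j = l ∨ j = l') ∧ ∀ f : Fin 3 → L, ∏ i, f i = f l * f l' * f k := by
  fin_cases l <;> fin_cases l' <;> simp at h ⊢
  · exact ⟨2, by decide, by decide, by decide, fun f => by rw [Fin.prod_univ_three]⟩
  · exact ⟨1, by decide, by decide, by decide, fun f => by rw [Fin.prod_univ_three]; ring⟩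
  · exact ⟨2, by decide, by decide, by decide, fun f => by rw [Fin.prod_univ_three]; ring⟩
  · exact ⟨0, by decide, by decide, by decide, fun f => by rw [Fin.prod_univ_three]; ring⟩
  · exact ⟨1, by decide, by decide, by decide, fun f => by rw [Fin.prod_univ_three]; ring⟩
  · exact ⟨0, by decide, by decide, by decide, fun f => by rw [Fin.prod_univ_three]; ring⟩

/-- three eigenvalues, each with its complex conjugate `q / s l`, at least two of the three
pairs containing a unit at every prime over `q`, none of the quotients `s l * s l' / q` being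
integral. -/
structure Trip (q : ℕ) (s : Fin 3 → L) : Prop where
  ne : ∀ l, s l ≠ 0
  int : ∀ l, IsIntegral ℤ (s l)
  int' : ∀ l, IsIntegral ℤ ((q : L) / s l)
  two : ∀ P : Ideal (integralClosure ℤ L), P.IsPrime → (q : integralClosure ℤ L) ∈ P →
    ∃ l l', l ≠ l' ∧ (Nin P (s l) ∨ Nin P ((q : L) / s l)) ∧
      (Nin P (s l') ∨ Nin P ((q : L) / s l'))
  nopair : ∀ l l', l ≠ l' → ¬ IsIntegral ℤ (s l * s l' / q)

/-- at every prime over `q` the three eigenvalues are not all small and not all large -/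
def Star (q : ℕ) (s : Fin 3 → L) : Prop :=
  ∀ P : Ideal (integralClosure ℤ L), P.IsPrime → (q : integralClosure ℤ L) ∈ P →
    ∃ l l', l ≠ l' ∧ Nin P (s l) ∧ Nin P ((q : L) / s l')

lemma star_of [CharZero L] {q : ℕ} (hq : q ≠ 0) {s : Fin 3 → L} (hs : Trip q s)
    (h1 : IsIntegral ℤ ((∏ l, s l) / q)) (h2 : IsIntegral ℤ ((q : L) ^ 2 / ∏ l, s l)) :
    Star q s := by
  intro P hP hqP
  have hqL : (q : L) ≠ 0 := by exact_mod_cast hq
  obtain ⟨l, l', hne, hl, hl'⟩ := hs.two P hP hqP
  obtain ⟨k, hkl, hkl', -, hk⟩ := third (L := L) l l' hne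
  have e1 : s l * s l' = (q : L) / s k * ((∏ l, s l) / q) := by
    rw [hk]
    have := hs.ne k
    field_simp
  have e2 : (q : L) / s l * ((q : L) / s l') = s k * ((q : L) ^ 2 / ∏ l, s l) := by
    rw [hk]
    have := hs.ne k
    have := hs.ne l
    have := hs.ne l'
    field_simp
  rcases hl with hl | hl <;> rcases hl' with hl' | hl'
  · have h3 := nin_mul hl hl'
    rw [e1] at h3
    exact ⟨l, k, hkl.symm, hl, (nin_of_mul (hs.int' k) h1 h3).1⟩
  · exact ⟨l, l', hne, hl, hl'⟩
  · exact ⟨l', l, hne.symm, hl', hl⟩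
  · have h3 := nin_mul hl hl'
    rw [e2] at h3
    exact ⟨k, l, hkl, (nin_of_mul (hs.int k) h2 h3).1, hl⟩

lemma excl {q : ℕ} (hq : (q : L) ≠ 0) {P : Ideal (integralClosure ℤ L)} (hP : P.IsPrime)
    (hqP : (q : integralClosure ℤ L) ∈ P) {x : L} (hx : x ≠ 0) :
    ¬ (Nin P x ∧ Nin P ((q : L) / x)) := by
  rintro ⟨h1, h2⟩
  have h3 := nin_mul h1 h2
  have : x * ((q : L) / x) = q := by field_simp
  rw [this] at h3
  exact not_nin_nat hqP h3

/-- the two values in distinct pairs are distinct -/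
lemma trip_ne [CharZero L] {q : ℕ} (hq : q ≠ 0) {s : Fin 3 → L} (hs : Trip q s)
    (hst : Star q s) {l l' : Fin 3} (hne : l ≠ l') : s l ≠ s l' := by
  intro heq
  have hqL : (q : L) ≠ 0 := by exact_mod_cast hq
  obtain ⟨k, hkl, hkl', hall, hk⟩ := third (L := L) l l' hne
  refine hs.nopair l k hkl.symm (integral_of_local hq (hs.int l) (hs.int k) (hs.ne l) (hs.ne k) ?_)
  intro P hP hqP
  have t1 := ex_pairs hall (hst P hP hqP)
  have x1 := excl hqL hP hqP (hs.ne l)
  rw [← heq] at t1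
  rcases t1 with h | h | h | h | h | h
  · exact Or.inl h.2
  · exact Or.inl h.2
  · exact Or.inr h.2
  · exact (x1 h).elim
  · exact Or.inr h.2
  · exact (x1 h).elim

lemma trip_sq [CharZero L] {q : ℕ} (hq : q ≠ 0) {s : Fin 3 → L} (hs : Trip q s)
    (hst : Star q s) (l : Fin 3) : s l ^ 2 ≠ q := by
  intro heq
  have hqL : (q : L) ≠ 0 := by exact_mod_cast hq
  have hl0 := hs.ne l
  have heq2 : (q : L) / s l = s l := by
    rw [div_eq_iff hl0, ← heq]; ring
  obtain ⟨l', hne⟩ := exists_ne l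
  obtain ⟨k, hkl, hkl', hall, hk⟩ := third (L := L) l l' hne.symm
  refine hs.nopair l' k hkl'.symm (integral_of_local hq (hs.int l') (hs.int k) (hs.ne l')
    (hs.ne k) ?_)
  intro P hP hqP
  have t1 := ex_pairs hall (hst P hP hqP)
  have x1 := excl hqL hP hqP (hs.ne l)
  rw [heq2] at x1 t1
  rcases t1 with h | h | h | h | h | h
  · exact (x1 ⟨h.2, h.2⟩).elim
  · exact Or.inl h.2
  · exact (x1 ⟨h.1, h.1⟩).elim
  · exact (x1 ⟨h.1, h.1⟩).elim
  · exact Or.inr h.2
  · exact (x1 ⟨h.2, h.2⟩).elim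

/-- switch signs -/
noncomputable def sg (q : ℕ) (s : Fin 3 → L) (ε : Fin 3 → Bool) (l : Fin 3) : L :=
  if ε l then (q : L) / s l else s l

lemma flip_const [CharZero L] {q : ℕ} (hq : q ≠ 0) {s : Fin 3 → L} (hs : Trip q s)
    (hst : Star q s) {ε : Fin 3 → Bool} (hst' : Star q (sg q s ε)) :
    (∀ l, ε l = false) ∨ (∀ l, ε l = true) := by
  have hqL : (q : L) ≠ 0 := by exact_mod_cast hq
  have key : ∀ l0 l1 l2 : Fin 3, (∀ l, l = l0 ∨ l = l1 ∨ l = l2) → l1 ≠ l2 → ε l1 = ε l2 →
      ε l0 ≠ ε l1 → False := by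
    intro l0 l1 l2 hall h12 e12 e01
    refine hs.nopair l1 l2 h12 (integral_of_local hq (hs.int l1) (hs.int l2) (hs.ne l1)
      (hs.ne l2) ?_)
    intro P hP hqP
    have t1 := ex_pairs hall (hst P hP hqP)
    have t3 := ex_pairs hall (hst' P hP hqP)
    have x0 := excl hqL hP hqP (hs.ne l0)
    have y0 : (q : L) / ((q : L) / s l0) = s l0 := by have := hs.ne l0; field_simp
    have y1 : (q : L) / ((q : L) / s l1) = s l1 := by have := hs.ne l1; field_simp
    have y2 : (q : L) / ((q : L) / s l2) = s l2 := by have := hs.ne l2; field_simp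
    have hc : (ε l0 = true ∧ ε l1 = false ∧ ε l2 = false) ∨
        (ε l0 = false ∧ ε l1 = true ∧ ε l2 = true) := by
      rw [← e12]
      revert e01
      cases ε l0 <;> cases ε l1 <;> simp
    rcases hc with ⟨c0, c1, c2⟩ | ⟨c0, c1, c2⟩
    · simp only [sg, c0, c1, c2, if_true, Bool.false_eq_true, if_false, y0] at t3
      exact prop_core x0 t1 t3
    · simp only [sg, c0, c1, c2, if_true, Bool.false_eq_true, if_false, y1, y2] at t3
      refine prop_core x0 t1 ?_
      rcases t3 with h | h | h | h | h | h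
      · exact Or.inr (Or.inr (Or.inl ⟨h.2, h.1⟩))
      · exact Or.inr (Or.inr (Or.inr (Or.inr (Or.inl ⟨h.2, h.1⟩))))
      · exact Or.inl ⟨h.2, h.1⟩
      · exact Or.inr (Or.inr (Or.inr (Or.inr (Or.inr ⟨h.2, h.1⟩))))
      · exact Or.inr (Or.inl ⟨h.2, h.1⟩)
      · exact Or.inr (Or.inr (Or.inr (Or.inl ⟨h.2, h.1⟩)))
  have h3 : ∀ l : Fin 3, ε l = ε 0 := by
    have a := key 0 1 2 (by decide) (by decide)
    have b := key 1 0 2 (by decide) (by decide)
    have c := key 2 0 1 (by decide) (by decide)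
    intro l
    fin_cases l
    · rfl
    · show ε 1 = ε 0
      by_contra h
      cases h0 : ε 0 <;> cases h1 : ε 1 <;> cases h2 : ε 2 <;> simp_all
    · show ε 2 = ε 0
      by_contra h
      cases h0 : ε 0 <;> cases h1 : ε 1 <;> cases h2 : ε 2 <;> simp_all
  cases h0 : ε 0
  · left; intro l; rw [h3, h0]
  · right; intro l; rw [h3, h0]

/-- The main lemma -/
lemma prod_eq_or [CharZero L] {q : ℕ} (hq : q ≠ 0) {s : Fin 3 → L} (hs : Trip q s)
    (hst : Star q s) {r : Fin 3 → L} (hr : ∀ l, ∃ l', r l = s l' ∨ r l = (q : L) / s l')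
    (hr2 : ∀ l l', l ≠ l' → r l ≠ r l' ∧ r l * r l' ≠ q) (hr3 : Star q r) :
    ∏ l, r l = ∏ l, s l ∨ ∏ l, r l = (q : L) ^ 3 / ∏ l, s l := by
  have hqL : (q : L) ≠ 0 := by exact_mod_cast hq
  choose t ht using hr
  have hinj : Function.Injective t := by
    intro l l' hll
    by_contra hne
    have h1 := ht l
    have h2 := ht l'
    rw [hll] at h1
    obtain ⟨g1, g2⟩ := hr2 l l' hne
    have h0 := hs.ne (t l')
    rcases h1 with h1 | h1 <;> rcases h2 with h2 | h2
    · exact g1 (by rw [h1, h2])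
    · apply g2; rw [h1, h2]; field_simp
    · apply g2; rw [h1, h2]; field_simp
    · exact g1 (by rw [h1, h2])
  have hbij : Function.Bijective t := Finite.injective_iff_bijective.1 hinj
  let e : Fin 3 ≃ Fin 3 := Equiv.ofBijective t hbij
  classical
  let ε : Fin 3 → Bool := fun j => decide (r (e.symm j) ≠ s j)
  have hε : ∀ l, r l = sg q s ε (t l) := by
    intro l
    have he : e.symm (t l) = l := e.symm_apply_apply l
    unfold sg
    by_cases h : r l = s (t l)
    · have : ε (t l) = false := by simp [ε, he, h]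
      simp [this, h]
    · have : ε (t l) = true := by simp [ε, he, h]
      rw [this]
      simpa using (ht l).resolve_left h
  have hstar : Star q (sg q s ε) := by
    intro P hP hqP
    obtain ⟨l, l', hne, h1, h2⟩ := hr3 P hP hqP
    refine ⟨t l, t l', hinj.ne hne, ?_, ?_⟩
    · rw [← hε]; exact h1
    · rw [← hε]; exact h2
  have hprod : ∏ l, r l = ∏ l, sg q s ε l := by
    rw [← Equiv.prod_comp e (sg q s ε)]
    exact Finset.prod_congr rfl fun l _ => hε l
  rcases flip_const hq hs hst hstar with h | h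
  · left
    rw [hprod]
    exact Finset.prod_congr rfl fun l _ => by simp [sg, h]
  · right
    rw [hprod, Fin.prod_univ_three, Fin.prod_univ_three]
    have := hs.ne 0
    have := hs.ne 1
    have := hs.ne 2
    simp only [sg, h, if_true]
    field_simp

end Core

end Pool.Agent.Helper71.TfCore
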