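import Mathlib

set_option autoImplicit false

namespace Pool.Agent.Helper71.TfMatch

open Polynomial

lemma roots_fam {I : Type*} [Fintype I] (lam : I → ℂ) :
    (∏ i, (X - C (lam i))).roots = Multiset.map lam Finset.univ.val := by
  have h : (∏ i, (X - C (lam i))) = ((Multiset.map lam Finset.univ.val).map
      fun a => X - C a).prod := by
    rw [Multiset.map_map]; rfl
  rw [h, roots_multiset_prod_X_sub_C]

open scoped Classical in
lemma exists_conj {I : Type*} [Fintype I] (lam : I → ℂ) (P : ℤ[X])
    (hP : ∏ i, (X - C (lam i)) = P.map (Int.castRingHom ℂ)) :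
    ∃ c : I ≃ I, ∀ i, lam (c i) = (starRingEnd ℂ) (lam i) := by
  have h1 : ∏ i, (X - C ((starRingEnd ℂ) (lam i))) = ∏ i, (X - C (lam i)) := by
    have h2 := congrArg (fun Q : ℂ[X] => Q.map (starRingEnd ℂ)) hP
    simp only [Polynomial.map_prod, Polynomial.map_sub, Polynomial.map_X, Polynomial.map_C,
      Polynomial.map_map] at h2
    rw [h2, hP]
    congr 1
    exact RingHom.ext_int _ _
  have h3 : Multiset.map (fun i => (starRingEnd ℂ) (lam i)) Finset.univ.val =
      Multiset.map lam Finset.univ.val := by
    have h4 := congrArg Polynomial.roots h1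
    rwa [roots_fam (fun i => (starRingEnd ℂ) (lam i)), roots_fam lam] at h4
  have h5 : ∀ z : ℂ, Fintype.card {i // (starRingEnd ℂ) (lam i) = z} =
      Fintype.card {i // lam i = z} := by
    intro z
    have h6 := congrArg (Multiset.count z) h3
    rw [Multiset.count_map, Multiset.count_map] at h6
    rw [Fintype.card_subtype, Fintype.card_subtype, Finset.card_def, Finset.card_def]
    simp only [Finset.filter_val]
    simpa [eq_comm] using h6
  refine ⟨Equiv.ofFiberEquiv (f := fun i => (starRingEnd ℂ) (lam i)) (g := lam)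
    (fun z => Fintype.equivOfCardEq (h5 z)), fun i => ?_⟩
  exact Equiv.ofFiberEquiv_map _ i

/-- A fixed point free involution of a finite type with an even number of elements. -/
lemma exists_invol {R : Type*} [Fintype R] (h : Even (Fintype.card R)) :
    ∃ m : R → R, (∀ i, m (m i) = i) ∧ ∀ i, m i ≠ i := by
  obtain ⟨k, hk⟩ := h
  have h1 : Fintype.card R = Fintype.card (Fin k × Bool) := by
    rw [hk]; simp; omega
  let e : R ≃ Fin k × Bool := Fintype.equivOfCardEq h1
  refine ⟨fun r => e.symm ((e r).1, !(e r).2), fun i => ?_, fun i h => ?_⟩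
  · simp
  · have h2 := congrArg e h
    rw [Equiv.apply_symm_apply] at h2
    have h3 := congrArg Prod.snd h2
    simp at h3

open scoped Classical in
lemma exists_matching {I : Type*} [Fintype I] (hI : Even (Fintype.card I)) (lam : I → ℂ)
    (q : ℕ) (hq : ∀ i, ‖lam i‖ ^ 2 = q) (c : I ≃ I)
    (hc : ∀ i, lam (c i) = (starRingEnd ℂ) (lam i)) :
    ∃ m : I → I, (∀ i, m (m i) = i) ∧ (∀ i, m i ≠ i) ∧
      ∀ i, lam i * lam (m i) = q ∨ (lam i ^ 2 = q ∧ lam (m i) ^ 2 = q) := by
  have him : ∀ i, (lam (c i)).im = -(lam i).im := by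
    intro i; rw [hc]; simp
  have him' : ∀ i, (lam (c.symm i)).im = -(lam i).im := by
    intro i
    have := him (c.symm i)
    rw [Equiv.apply_symm_apply] at this
    linarith
  have hcsymm : ∀ i, lam (c.symm i) = (starRingEnd ℂ) (lam i) := by
    intro i
    have := hc (c.symm i)
    rw [Equiv.apply_symm_apply] at this
    rw [this, Complex.conj_conj]
  have hmul : ∀ i, lam i * (starRingEnd ℂ) (lam i) = q := by
    intro i
    rw [Complex.mul_conj, Complex.normSq_eq_norm_sq, hq]
    simp
  have hsq : ∀ i, (lam i).im = 0 → lam i ^ 2 = q := by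
    intro i hi
    have h1 : (starRingEnd ℂ) (lam i) = lam i := Complex.conj_eq_iff_im.2 hi
    have h2 := hmul i
    rw [h1] at h2
    rw [pow_two, h2]
  -- the real eigenvalues
  have hR : Even (Fintype.card {i // (lam i).im = 0}) := by
    have h1 : Fintype.card {i // 0 < (lam i).im} = Fintype.card {i // (lam i).im < 0} := by
      refine Fintype.card_congr ⟨fun i => ⟨c i.1, by rw [him]; linarith [i.2]⟩,
        fun i => ⟨c.symm i.1, by rw [him']; linarith [i.2]⟩, fun i => ?_, fun i => ?_⟩
      · simp
      · simp
    have h2 : Fintype.card I = Fintype.card {i // (lam i).im = 0} +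
        (Fintype.card {i // 0 < (lam i).im} + Fintype.card {i // (lam i).im < 0}) := by
      rw [Fintype.card_subtype, Fintype.card_subtype, Fintype.card_subtype,
        ← Finset.card_union_of_disjoint, ← Finset.card_union_of_disjoint, ← Finset.card_univ]
      · congr 1
        ext i
        simp only [Finset.mem_univ, Finset.mem_union, Finset.mem_filter, true_and, true_iff]
        rcases lt_trichotomy (lam i).im 0 with h | h | h
        · exact Or.inr (Or.inr h)
        · exact Or.inl h
        · exact Or.inr (Or.inl h)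
      · rw [Finset.disjoint_left]
        intro i h1 h2
        simp only [Finset.mem_univ, Finset.mem_union, Finset.mem_filter, true_and] at h1 h2
        rcases h2 with h2 | h2 <;> linarith
      · rw [Finset.disjoint_left]
        intro i h1 h2
        simp only [Finset.mem_univ, Finset.mem_filter, true_and] at h1 h2
        linarith
    rw [h2, h1] at hI
    rcases Nat.even_or_odd (Fintype.card {i // (lam i).im = 0}) with h | h
    · exact h
    · exfalso
      obtain ⟨a, ha⟩ := h
      obtain ⟨b, hb⟩ := hI
      omega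
  obtain ⟨mR, hmR1, hmR2⟩ := exists_invol hR
  let m : I → I := fun i => if h : (lam i).im = 0 then (mR ⟨i, h⟩).1 else
    if 0 < (lam i).im then c i else c.symm i
  have hm0 : ∀ i (h : (lam i).im = 0), m i = (mR ⟨i, h⟩).1 := by
    intro i h; simp only [m, h, dif_pos]
  have hm1 : ∀ i, 0 < (lam i).im → m i = c i := by
    intro i h; simp only [m, ne_of_gt h, h, dif_neg, not_false_eq_true, if_true]
  have hm2 : ∀ i, (lam i).im < 0 → m i = c.symm i := by
    intro i h; simp only [m, ne_of_lt h, not_lt_of_gt h, dif_neg, not_false_eq_true, if_false]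
  refine ⟨m, fun i => ?_, fun i => ?_, fun i => ?_⟩
  · rcases lt_trichotomy (lam i).im 0 with h | h | h
    · rw [hm2 i h, hm1 _ (by rw [him']; linarith), Equiv.apply_symm_apply]
    · rw [hm0 i h, hm0 _ (mR ⟨i, h⟩).2]
      have : (⟨(mR ⟨i, h⟩).1, (mR ⟨i, h⟩).2⟩ : {i // (lam i).im = 0}) = mR ⟨i, h⟩ := rfl
      rw [this, hmR1]
    · rw [hm1 i h, hm2 _ (by rw [him]; linarith), Equiv.symm_apply_apply]
  · rcases lt_trichotomy (lam i).im 0 with h | h | h
    · rw [hm2 i h]
      intro h2
      have := him' i
      rw [h2] at this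
      linarith
    · rw [hm0 i h]
      intro h2
      exact hmR2 ⟨i, h⟩ (Subtype.ext h2)
    · rw [hm1 i h]
      intro h2
      have := him i
      rw [h2] at this
      linarith
  · rcases lt_trichotomy (lam i).im 0 with h | h | h
    · left
      rw [hm2 i h, hcsymm, hmul]
    · right
      refine ⟨hsq i h, hsq _ ?_⟩
      rw [hm0 i h]
      exact (mR ⟨i, h⟩).2
    · left
      rw [hm1 i h, hc, hmul]

end Pool.Agent.Helper71.TfMatch
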