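import Pool.Agent.Helper71.TfCore
import Pool.Agent.Helper71.TfMatch

set_option autoImplicit false

namespace Pool.Agent.Helper71.TfField

open Polynomial Pool.Agent.Helper71.TfCore

section

variable {I : Type*} [Fintype I] {lam : I → ℂ} {P : ℤ[X]}
  (hP : ∏ i, (X - C (lam i)) = P.map (Int.castRingHom ℂ))

include hP

lemma monic : P.Monic := by
  have h1 : (∏ i, (X - C (lam i))).Monic := monic_prod_of_monic _ _ fun i _ => monic_X_sub_C _
  rw [hP] at h1
  exact Polynomial.monic_of_injective (RingHom.injective_int (Int.castRingHom ℂ)) h1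

lemma eval_lam (i : I) : eval₂ (Int.castRingHom ℂ) (lam i) P = 0 := by
  rw [← Polynomial.eval_map, ← hP, Polynomial.eval_prod]
  exact Finset.prod_eq_zero (Finset.mem_univ i) (by simp)

lemma isIntegral_lam (i : I) : IsIntegral ℤ (lam i) :=
  ⟨P, monic hP, eval_lam hP i⟩

lemma exists_field : ∃ L : IntermediateField ℚ ℂ, FiniteDimensional ℚ L ∧ IsGalois ℚ L ∧
    ∀ i, lam i ∈ L := by
  let Q : ℚ[X] := P.map (Int.castRingHom ℚ)
  have hQ : Q.map (algebraMap ℚ ℂ) = ∏ i, (X - C (lam i)) := by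
    rw [hP]
    simp only [Q, Polynomial.map_map]
    congr 1
  have hsplit : (Q.map (algebraMap ℚ ℂ)).Splits := IsAlgClosed.splits _
  let L : IntermediateField ℚ ℂ := IntermediateField.adjoin ℚ (Q.rootSet ℂ)
  have hS : Q.IsSplittingField ℚ L := IntermediateField.adjoin_rootSet_isSplittingField hsplit
  have hfin : FiniteDimensional ℚ L := Polynomial.IsSplittingField.finiteDimensional L Q
  have hnorm : Normal ℚ L := Normal.of_isSplittingField Q
  have hQ0 : Q ≠ 0 := ((monic hP).map _).ne_zero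
  refine ⟨L, hfin, ⟨⟩, fun i => ?_⟩
  refine IntermediateField.subset_adjoin _ _ ?_
  rw [Polynomial.mem_rootSet]
  refine ⟨hQ0, ?_⟩
  rw [← Polynomial.eval_map_algebraMap, hQ, Polynomial.eval_prod]
  exact Finset.prod_eq_zero (Finset.mem_univ i) (by simp)

lemma hom_lam {L : IntermediateField ℚ ℂ} (hL : ∀ i, lam i ∈ L) (φ : L →+* ℂ) (i : I) :
    ∃ j, φ ⟨lam i, hL i⟩ = lam j := by
  have h1 : eval₂ (Int.castRingHom L) (⟨lam i, hL i⟩ : L) P = 0 := by
    have h2 := eval_lam hP i
    have h3 : (algebraMap L ℂ) (eval₂ (Int.castRingHom L) (⟨lam i, hL i⟩ : L) P) = 0 := by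
      rw [Polynomial.hom_eval₂]
      rw [show (algebraMap L ℂ).comp (Int.castRingHom L) = Int.castRingHom ℂ from
        RingHom.ext_int _ _]
      exact h2
    exact (map_eq_zero _).1 h3
  have h4 : eval₂ (Int.castRingHom ℂ) (φ ⟨lam i, hL i⟩) P = 0 := by
    have h5 := congrArg φ h1
    rw [Polynomial.hom_eval₂, map_zero, show φ.comp (Int.castRingHom L) = Int.castRingHom ℂ from
        RingHom.ext_int _ _] at h5
    exact h5
  rw [← Polynomial.eval_map, ← hP, Polynomial.eval_prod, Finset.prod_eq_zero_iff] at h4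
  obtain ⟨j, -, hj⟩ := h4
  refine ⟨j, ?_⟩
  simpa [sub_eq_zero] using hj

/-- Kronecker -/
lemma kronecker {L : IntermediateField ℚ ℂ} [FiniteDimensional ℚ L] (hL : ∀ i, lam i ∈ L)
    {q : ℕ} (hq : q ≠ 0) (hn : ∀ i, ‖lam i‖ ^ 2 = q) (i j : I)
    (h : IsIntegral ℤ ((⟨lam i, hL i⟩ : L) * ⟨lam j, hL j⟩ / (q : L))) :
    ∃ n : ℕ, 0 < n ∧ (lam i * lam j) ^ n = (q : ℂ) ^ n := by
  have : NumberField L := ⟨⟩
  have hqR : (0 : ℝ) < q := by exact_mod_cast Nat.pos_of_ne_zero hq
  have hqC : (q : ℂ) ≠ 0 := by exact_mod_cast hq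
  obtain ⟨n, hn0, hn1⟩ := NumberField.Embeddings.pow_eq_one_of_norm_eq_one L ℂ h (by
    intro φ
    obtain ⟨a, ha⟩ := hom_lam hP hL φ i
    obtain ⟨b, hb⟩ := hom_lam hP hL φ j
    rw [map_div₀, map_mul, ha, hb, map_natCast, norm_div, norm_mul, Complex.norm_natCast,
      div_eq_one_iff_eq (ne_of_gt hqR)]
    have h1 : (‖lam a‖ * ‖lam b‖) ^ 2 = (q : ℝ) ^ 2 := by
      rw [mul_pow, hn, hn]; ring
    exact (pow_left_inj₀ (by positivity) (by positivity) two_ne_zero).1 h1)
  refine ⟨n, hn0, ?_⟩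
  have h2 := congrArg (algebraMap L ℂ) hn1
  rw [map_pow, map_div₀, map_mul, map_natCast, map_one, div_pow, div_eq_one_iff_eq
    (pow_ne_zero _ hqC)] at h2
  exact h2

/-- at least two eigenvalues are units at every prime over `p` -/
lemma two_units [DecidableEq I] (hI : Fintype.card I = 6) {p a : ℕ} (hp : p.Prime)
    (hrank : ¬ ((p : ℤ) ∣ P.coeff 4 ∧ (p : ℤ) ∣ P.coeff 3))
    {L : IntermediateField ℚ ℂ} (hL : ∀ i, lam i ∈ L)
    (Q : Ideal (integralClosure ℤ L)) (hQ : Q.IsPrime)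
    (hqQ : ((p ^ a : ℕ) : integralClosure ℤ L) ∈ Q) :
    ∃ i j, i ≠ j ∧ Nin Q (⟨lam i, hL i⟩ : L) ∧ Nin Q (⟨lam j, hL j⟩ : L) := by
  have hint : ∀ i, IsIntegral ℤ (⟨lam i, hL i⟩ : L) := by
    intro i
    have h1 := isIntegral_lam hP i
    rwa [show lam i = algebraMap L ℂ (⟨lam i, hL i⟩ : L) from rfl,
      isIntegral_algebraMap_iff (algebraMap L ℂ).injective] at h1
  let x : I → integralClosure ℤ L := fun i => ⟨⟨lam i, hL i⟩, hint i⟩
  have hpQ : (p : integralClosure ℤ L) ∈ Q := by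
    push_cast at hqQ
    exact hQ.mem_of_pow_mem a hqQ
  -- the polynomial over the ring of integers
  have hPx : ∏ i, (X - C (x i)) = P.map (Int.castRingHom (integralClosure ℤ L)) := by
    let ι : integralClosure ℤ L →+* ℂ := (algebraMap L ℂ).comp (algebraMap (integralClosure ℤ L) L)
    have hι : Function.Injective ι :=
      (algebraMap L ℂ).injective.comp Subtype.val_injective
    apply Polynomial.map_injective ι hι
    rw [Polynomial.map_prod, Polynomial.map_map,
      show ι.comp (Int.castRingHom (integralClosure ℤ L)) = Int.castRingHom ℂ from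
        RingHom.ext_int _ _, ← hP]
    refine Finset.prod_congr rfl fun i _ => ?_
    rw [Polynomial.map_sub, Polynomial.map_X, Polynomial.map_C]
    rfl
  by_contra hcon
  push Not at hcon
  -- all but at most one eigenvalue lie in `Q`
  obtain ⟨i0, hi0⟩ : ∃ i0, ∀ j, j ≠ i0 → x j ∈ Q := by
    by_cases h : ∃ i, x i ∉ Q
    · obtain ⟨i, hi⟩ := h
      refine ⟨i, fun j hj => ?_⟩
      by_contra hjQ
      exact hcon i j hj.symm ⟨hint i, hi⟩ ⟨hint j, hjQ⟩
    · push Not at h
      have : Nonempty I := by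
        rw [← Fintype.card_pos_iff, hI]; norm_num
      exact ⟨Classical.arbitrary I, fun j _ => h j⟩
  let π := Ideal.Quotient.mk Q
  have h1 : (P.map (Int.castRingHom (integralClosure ℤ L))).map π =
      X ^ 5 * (X - C (π (x i0))) := by
    rw [← hPx, Polynomial.map_prod, ← Finset.mul_prod_erase _ _ (Finset.mem_univ i0), mul_comm]
    congr 1
    · rw [Finset.prod_congr rfl (g := fun _ => (X : (integralClosure ℤ L ⧸ Q)[X]))]
      · rw [Finset.prod_const, Finset.card_erase_of_mem (Finset.mem_univ _), Finset.card_univ, hI]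
      · intro j hj
        rw [Polynomial.map_sub, Polynomial.map_X, Polynomial.map_C,
          show π (x j) = 0 from Ideal.Quotient.eq_zero_iff_mem.2 (hi0 j (Finset.ne_of_mem_erase hj))]
        simp
    · simp
  have h2 : ∀ k : ℕ, k < 5 → ((P.coeff k : ℤ) : integralClosure ℤ L) ∈ Q := by
    intro k hk
    have h3 := congrArg (fun R => R.coeff k) h1
    simp only [Polynomial.coeff_map] at h3
    rw [Polynomial.coeff_X_pow_mul', if_neg (by omega)] at h3
    exact Ideal.Quotient.eq_zero_iff_mem.1 h3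
  have h4 : ∀ k : ℕ, k < 5 → (p : ℤ) ∣ P.coeff k := by
    intro k hk
    by_contra hnd
    have hcop : IsCoprime (p : ℤ) (P.coeff k) :=
      (Nat.prime_iff_prime_int.1 hp).coprime_iff_not_dvd.2 hnd
    obtain ⟨u, v, huv⟩ := hcop
    apply hQ.ne_top
    rw [Ideal.eq_top_iff_one]
    have h5 : (1 : integralClosure ℤ L) = (u : integralClosure ℤ L) * (p : integralClosure ℤ L) +
        (v : integralClosure ℤ L) * ((P.coeff k : ℤ) : integralClosure ℤ L) := by
      have := congrArg (fun z : ℤ => (z : integralClosure ℤ L)) huv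
      push_cast at this
      exact this.symm
    rw [h5]
    exact Q.add_mem (Q.mul_mem_left _ hpQ) (Q.mul_mem_left _ (h2 k hk))
  exact hrank ⟨h4 4 (by norm_num), h4 3 (by norm_num)⟩

end

end Pool.Agent.Helper71.TfField
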